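import Mathlib

open Polynomial Module

namespace Pool.Agent.Helper404

variable {K : Type*} [Field K]

/-- multiplication by `X` -/
noncomputable def mX (K : Type*) [Field K] : K[X] →ₗ[K] K[X] := LinearMap.mulLeft K X

lemma mX_inj : Function.Injective (mX K) := by
  intro a b h
  simp only [mX, LinearMap.mulLeft_apply] at h
  exact mul_left_cancel₀ X_ne_zero h

/-- `V + X V + ... + X ^ m V` -/
noncomputable def Vs (V : Submodule K K[X]) : ℕ → Submodule K K[X]
  | 0 => V
  | (m + 1) => Vs V m ⊔ (Vs V m).map (mX K)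

lemma Vs_mono_succ (V : Submodule K K[X]) (m : ℕ) : Vs V m ≤ Vs V (m + 1) := le_sup_left

lemma Vs_mono (V : Submodule K K[X]) {m m' : ℕ} (h : m ≤ m') : Vs V m ≤ Vs V m' :=
  monotone_nat_of_le_succ (Vs_mono_succ V) h

lemma X_mul_mem_Vs (V : Submodule K K[X]) (m : ℕ) {P : K[X]} (hP : P ∈ Vs V m) :
    X * P ∈ Vs V (m + 1) := by
  have : X * P ∈ (Vs V m).map (mX K) := ⟨P, hP, rfl⟩
  exact (le_sup_right : (Vs V m).map (mX K) ≤ _) this

lemma X_pow_mul_mem_Vs (V : Submodule K K[X]) (m i : ℕ) {P : K[X]} (hP : P ∈ Vs V m) :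
    X ^ i * P ∈ Vs V (m + i) := by
  induction i with
  | zero => simpa using hP
  | succ i ih =>
    have := X_mul_mem_Vs V (m + i) ih
    rw [pow_succ', mul_assoc]
    exact this

lemma Vs_le (V : Submodule K K[X]) (N : ℕ) (hV : V ≤ degreeLT K (N + 1)) (m : ℕ) :
    Vs V m ≤ degreeLT K (N + m + 1) := by
  induction m with
  | zero => exact hV
  | succ m ih =>
    refine sup_le (ih.trans (degreeLT_mono (by omega))) ?_
    rintro _ ⟨P, hP, rfl⟩
    have h1 := ih hP
    rw [mem_degreeLT] at h1 ⊢
    simp only [mX, LinearMap.mulLeft_apply]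
    by_cases h0 : P = 0
    · rw [h0, mul_zero, degree_zero]; exact WithBot.bot_lt_coe _
    · rw [← natDegree_lt_iff_degree_lt (mul_ne_zero X_ne_zero h0), natDegree_X_mul h0]
      rw [← natDegree_lt_iff_degree_lt h0] at h1
      omega

instance Vs_fin (V : Submodule K K[X]) [FiniteDimensional K V] (m : ℕ) :
    FiniteDimensional K (Vs V m) := by
  induction m with
  | zero => exact ‹FiniteDimensional K V›
  | succ m ih =>
    change FiniteDimensional K ↥(Vs V m ⊔ (Vs V m).map (mX K))
    infer_instance

lemma finrank_degreeLT (n : ℕ) : finrank K (degreeLT K n) = n := by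
  rw [(degreeLTEquiv K n).finrank_eq]; simp

instance degreeLT_fin (n : ℕ) : FiniteDimensional K (degreeLT K n) :=
  (degreeLTEquiv K n).symm.finiteDimensional

/-- dimensions are concave -/
lemma Vs_concave (V : Submodule K K[X]) [FiniteDimensional K V] (m : ℕ) :
    finrank K (Vs V (m + 2)) + finrank K (Vs V m) ≤ 2 * finrank K (Vs V (m + 1)) := by
  have h1 := Submodule.finrank_sup_add_finrank_inf_eq (Vs V (m + 1)) ((Vs V (m + 1)).map (mX K))
  have h2 : finrank K ((Vs V (m + 1)).map (mX K)) = finrank K (Vs V (m + 1)) :=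
    ((Vs V (m + 1)).equivMapOfInjective (mX K) mX_inj).finrank_eq.symm
  have h3 : finrank K ((Vs V m).map (mX K)) = finrank K (Vs V m) :=
    ((Vs V m).equivMapOfInjective (mX K) mX_inj).finrank_eq.symm
  have h4 : (Vs V m).map (mX K) ≤ Vs V (m + 1) ⊓ (Vs V (m + 1)).map (mX K) :=
    le_inf le_sup_right (Submodule.map_mono (Vs_mono_succ V m))
  have h5 := Submodule.finrank_mono h4
  have h6 : Vs V (m + 2) = Vs V (m + 1) ⊔ (Vs V (m + 1)).map (mX K) := rfl
  rw [h6]
  omega

lemma convex_zero (c : ℕ → ℕ) (hc : ∀ m, 2 * c (m + 1) ≤ c (m + 2) + c m) (M : ℕ)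
    (hM : ∀ m, M ≤ m → c m = 0) (m : ℕ) (hm : c 0 ≤ m) : c m = 0 := by
  -- monotonicity and strict decrease
  have key : ∀ j m, M ≤ m + j → (c (m + 1) ≤ c m ∧ (c m ≠ 0 → c (m + 1) + 1 ≤ c m)) := by
    intro j
    induction j with
    | zero =>
      intro m hm
      have h1 := hM m (by omega)
      have h2 := hM (m + 1) (by omega)
      omega
    | succ j ih =>
      intro m hm
      have h1 := ih (m + 1) (by omega)
      have h2 := hc m
      have h3 : m + 1 + 1 = m + 2 := rfl
      rw [h3] at h1
      constructor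
      · omega
      · intro h
        by_cases h4 : c (m + 1) = 0
        · omega
        · have := h1.2 h4
          omega
  have key2 : ∀ m, c m ≠ 0 → m + c m ≤ c 0 := by
    intro m
    induction m with
    | zero => intro _; omega
    | succ m ih =>
      intro h
      have h1 := key M m (by omega)
      have h2 : c m ≠ 0 := by omega
      have h3 := h1.2 h2
      have h4 := ih h2
      omega
  by_contra h
  have := key2 m h
  omega

lemma mem_iUnion_Vs (V : Submodule K K[X]) (P : K[X]) (hP : P ∈ Ideal.span (V : Set K[X])) :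
    ∃ M, P ∈ Vs V M := by
  have hmul : ∀ (a b : K[X]), (∃ M, b ∈ Vs V M) → ∃ M, a * b ∈ Vs V M := by
    intro a b ⟨M, hM⟩
    refine ⟨M + a.natDegree, ?_⟩
    have hab : a * b = ∑ i ∈ Finset.range (a.natDegree + 1), C (a.coeff i) * X ^ i * b := by
      rw [← Finset.sum_mul, ← as_sum_range_C_mul_X_pow a]
    rw [hab]
    refine Submodule.sum_mem _ (fun i hi => ?_)
    rw [mul_assoc, ← smul_eq_C_mul]
    refine Submodule.smul_mem _ _ ?_
    exact Vs_mono V (by rw [Finset.mem_range] at hi; omega) (X_pow_mul_mem_Vs V M i hM)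
  induction hP using Submodule.span_induction with
  | mem x hx => exact ⟨0, hx⟩
  | zero => exact ⟨0, Submodule.zero_mem _⟩
  | add x y _ _ hx hy =>
    obtain ⟨M, hM⟩ := hx
    obtain ⟨M', hM'⟩ := hy
    exact ⟨max M M', Submodule.add_mem _ (Vs_mono V (le_max_left _ _) hM)
      (Vs_mono V (le_max_right _ _) hM')⟩
  | smul a x _ hx => exact hmul a x hx

lemma Vs_eventually (V : Submodule K K[X]) (N : ℕ) (hideal : Ideal.span (V : Set K[X]) = ⊤)
    (R0 : K[X]) (hR0 : R0 ∈ V) (hdeg : R0.natDegree = N) (hne : R0 ≠ 0) :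
    ∃ M, ∀ m, M ≤ m → degreeLT K (N + m + 1) ≤ Vs V m := by
  obtain ⟨M, hM⟩ := mem_iUnion_Vs V 1 (by rw [hideal]; exact Submodule.mem_top)
  refine ⟨M + N, ?_⟩
  intro m hm
  have key : ∀ j, ∀ P : K[X], P.natDegree < j → P.natDegree ≤ N + m → P ∈ Vs V m := by
    intro j
    induction j with
    | zero => intro P h; omega
    | succ j ih =>
      intro P hPj hPd
      by_cases hP0 : P = 0
      · rw [hP0]; exact Submodule.zero_mem _
      by_cases hsmall : P.natDegree ≤ m - M
      · have h1 : P * 1 ∈ Vs V m := by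
          have hab : P * 1 = ∑ i ∈ Finset.range (P.natDegree + 1), C (P.coeff i) * X ^ i * 1 := by
            rw [← Finset.sum_mul, ← as_sum_range_C_mul_X_pow P]
          rw [hab]
          refine Submodule.sum_mem _ (fun i hi => ?_)
          rw [mul_assoc, ← smul_eq_C_mul]
          refine Submodule.smul_mem _ _ ?_
          exact Vs_mono V (by rw [Finset.mem_range] at hi; omega) (X_pow_mul_mem_Vs V M i hM)
        rwa [mul_one] at h1
      · push Not at hsmall
        set d := P.natDegree with hd
        have hdN : N ≤ d := by omega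
        have hmem : X ^ (d - N) * R0 ∈ Vs V m :=
          Vs_mono V (by omega) (X_pow_mul_mem_Vs V 0 (d - N) hR0)
        set a : K := P.leadingCoeff / R0.leadingCoeff with ha
        have hlc : R0.leadingCoeff ≠ 0 := leadingCoeff_ne_zero.2 hne
        have ha0 : a ≠ 0 := div_ne_zero (leadingCoeff_ne_zero.2 hP0) hlc
        set U : K[X] := C a * (X ^ (d - N) * R0) with hU
        have hUne : U ≠ 0 := mul_ne_zero (C_ne_zero.2 ha0) (mul_ne_zero (pow_ne_zero _ X_ne_zero) hne)
        have hUd : U.natDegree = d := by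
          rw [hU, natDegree_C_mul ha0, natDegree_X_pow_mul _ hne, hdeg]; omega
        have hUlc : U.leadingCoeff = P.leadingCoeff := by
          rw [hU, leadingCoeff_mul, leadingCoeff_C, leadingCoeff_mul, leadingCoeff_X_pow, one_mul, ha]
          field_simp
        have hmemU : U ∈ Vs V m := by
          rw [hU, ← smul_eq_C_mul]; exact Submodule.smul_mem _ _ hmem
        have hdif : P - U ∈ Vs V m := by
          by_cases hz : P - U = 0
          · rw [hz]; exact Submodule.zero_mem _
          have hlt : (P - U).degree < P.degree := by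
            apply degree_sub_lt_left _ hP0 hUlc.symm
            rw [degree_eq_natDegree hP0, degree_eq_natDegree hUne, hUd]
          have hlt' : (P - U).natDegree < d := natDegree_lt_natDegree hz hlt
          exact ih (P - U) (by omega) (by omega)
        have : P = (P - U) + U := by ring
        rw [this]
        exact Submodule.add_mem _ hdif hmemU
  intro P hP
  rw [mem_degreeLT] at hP
  by_cases hP0 : P = 0
  · rw [hP0]; exact Submodule.zero_mem _
  rw [← natDegree_lt_iff_degree_lt hP0] at hP
  exact key (P.natDegree + 1) P (by omega) (by omega)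

theorem Vs_full (V : Submodule K K[X]) [FiniteDimensional K V] (N : ℕ)
    (hV : V ≤ degreeLT K (N + 1)) (hideal : Ideal.span (V : Set K[X]) = ⊤)
    (R0 : K[X]) (hR0 : R0 ∈ V) (hdeg : R0.natDegree = N) (hne : R0 ≠ 0) (m : ℕ)
    (hm : N + 1 ≤ finrank K V + m) : Vs V m = degreeLT K (N + m + 1) := by
  obtain ⟨M, hM⟩ := Vs_eventually V N hideal R0 hR0 hdeg hne
  have hle : ∀ m, finrank K (Vs V m) ≤ N + m + 1 := fun m => by
    have := Submodule.finrank_mono (Vs_le V N hV m)
    rwa [finrank_degreeLT] at this
  set c : ℕ → ℕ := fun m => N + m + 1 - finrank K (Vs V m) with hc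
  have hc0 : c 0 ≤ m := by
    simp only [hc]
    have : finrank K (Vs V 0) = finrank K V := rfl
    omega
  have hzero : c m = 0 := by
    apply convex_zero c _ M _ m hc0
    · intro m
      have h1 := Vs_concave V m
      have h2 := hle m
      have h3 := hle (m + 1)
      have h4 := hle (m + 2)
      simp only [hc]
      omega
    · intro m hm
      have h1 := Submodule.finrank_mono (hM m hm)
      rw [finrank_degreeLT] at h1
      simp only [hc]
      omega
  apply Submodule.eq_of_le_of_finrank_le (Vs_le V N hV m)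
  rw [finrank_degreeLT]
  simp only [hc] at hzero
  omega

end Pool.Agent.Helper404
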