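import Mathlib

open Polynomial

namespace Pool.Agent.Helper404

lemma coeff_X_mul_derivative (R : ℚ[X]) (k : ℕ) : (X * derivative R).coeff k = k * R.coeff k := by
  cases k with
  | zero => simp
  | succ k => rw [coeff_X_mul, coeff_derivative]; push_cast; ring

lemma natDegree_X_mul_derivative_le (R : ℚ[X]) : (X * derivative R).natDegree ≤ R.natDegree := by
  rw [natDegree_le_iff_coeff_eq_zero]
  intro N hN
  rw [coeff_X_mul_derivative, coeff_eq_zero_of_natDegree_lt hN, mul_zero]

lemma kernel_deg (Q R : ℚ[X]) (hQ : Q ≠ 0) (hR : R ≠ 0)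
    (h : Q * derivative R = derivative Q * R) : R.natDegree = Q.natDegree := by
  have h2 : Q * (X * derivative R) = (X * derivative Q) * R := by
    calc Q * (X * derivative R) = X * (Q * derivative R) := by ring
      _ = X * (derivative Q * R) := by rw [h]
      _ = _ := by ring
  have h3 := congrArg (fun p : ℚ[X] => p.coeff (Q.natDegree + R.natDegree)) h2
  rw [coeff_mul_add_eq_of_natDegree_le le_rfl (natDegree_X_mul_derivative_le R),
    coeff_mul_add_eq_of_natDegree_le (natDegree_X_mul_derivative_le Q) le_rfl,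
    coeff_X_mul_derivative, coeff_X_mul_derivative, coeff_natDegree, coeff_natDegree] at h3
  have hq : Q.leadingCoeff ≠ 0 := leadingCoeff_ne_zero.2 hQ
  have hr : R.leadingCoeff ≠ 0 := leadingCoeff_ne_zero.2 hR
  have h4 : (R.natDegree : ℚ) = Q.natDegree := by
    have : Q.leadingCoeff * R.leadingCoeff * ((R.natDegree : ℚ) - Q.natDegree) = 0 := by linarith
    rcases mul_eq_zero.1 this with h5 | h5
    · exact absurd h5 (mul_ne_zero hq hr)
    · linarith
  exact_mod_cast h4

lemma kernel_lemma (Q R : ℚ[X]) (hQ : Q ≠ 0)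
    (h : Q * derivative R = derivative Q * R) : ∃ c : ℚ, R = C c * Q := by
  by_cases hR : R = 0
  · exact ⟨0, by simp [hR]⟩
  have hd := kernel_deg Q R hQ hR h
  refine ⟨R.leadingCoeff / Q.leadingCoeff, ?_⟩
  by_contra hne
  set c := R.leadingCoeff / Q.leadingCoeff with hc
  have hS : R - C c * Q ≠ 0 := sub_ne_zero.2 hne
  have hSeq : Q * derivative (R - C c * Q) = derivative Q * (R - C c * Q) := by
    rw [derivative_sub, derivative_C_mul]
    calc Q * (derivative R - C c * derivative Q) = Q * derivative R - C c * Q * derivative Q := by ring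
      _ = _ := by rw [h]; ring
  have hd2 := kernel_deg Q _ hQ hS hSeq
  have hcoeff : (R - C c * Q).coeff Q.natDegree = 0 := by
    rw [coeff_sub, coeff_C_mul, ← hd, coeff_natDegree, hd, coeff_natDegree, hc,
      div_mul_cancel₀ _ (leadingCoeff_ne_zero.2 hQ), sub_self]
  rw [← hd2, coeff_natDegree] at hcoeff
  exact hS (leadingCoeff_eq_zero.1 hcoeff)

/-- generic injectivity of jets -/
lemma jets (j : ℕ) : ∀ (P : Fin j → ℚ[X]), LinearIndependent ℚ P →
    ∃ Z : Finset ℚ, ∀ z, z ∉ Z → ∀ c : Fin j → ℚ,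
      (X - C z) ^ j ∣ ∑ a, C (c a) * P a → c = 0 := by
  induction j with
  | zero => intro P _; exact ⟨∅, fun z _ c _ => Subsingleton.elim _ _⟩
  | succ j ih =>
    intro P hP
    have hP0 : P 0 ≠ 0 := hP.ne_zero 0
    let φ : ℚ[X] →ₗ[ℚ] ℚ[X] :=
      { toFun := fun Q => P 0 * derivative Q - derivative (P 0) * Q
        map_add' := by intro x y; simp only [derivative_add]; ring
        map_smul' := by
          intro c x
          simp only [smul_eq_C_mul, RingHom.id_apply, derivative_C_mul]
          ring }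
    have hφ : ∀ Q, φ Q = P 0 * derivative Q - derivative (P 0) * Q := fun Q => rfl
    have hφ0 : φ (P 0) = 0 := by rw [hφ]; ring
    -- independence of the images
    have hind : LinearIndependent ℚ (fun i : Fin j => φ (P i.succ)) := by
      rw [Fintype.linearIndependent_iff]
      intro g hg
      have h1 : φ (∑ i, g i • P i.succ) = 0 := by
        rw [map_sum]
        simpa using hg
      rw [hφ, sub_eq_zero] at h1
      obtain ⟨c, hc⟩ := kernel_lemma (P 0) _ hP0 h1
      rw [Fintype.linearIndependent_iff] at hP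
      have h2 := hP (Fin.cons (-c) g) (by
        rw [Fin.sum_univ_succ]
        simp only [Fin.cons_zero, Fin.cons_succ]
        rw [hc, smul_eq_C_mul, C_neg]; ring)
      intro i
      have := h2 i.succ
      simpa using this
    obtain ⟨Z, hZ⟩ := ih _ hind
    refine ⟨Z ∪ (P 0).roots.toFinset, ?_⟩
    intro z hz c hdvd
    rw [Finset.notMem_union] at hz
    have hzroot : (P 0).eval z ≠ 0 := by
      intro h
      apply hz.2
      rw [Multiset.mem_toFinset, mem_roots hP0]
      exact h
    set Q := ∑ a, C (c a) * P a with hQ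
    have h1 : (X - C z) ^ j ∣ φ Q := by
      rw [hφ]
      have h2 : (X - C z) ^ j ∣ derivative Q := by
        have := pow_sub_one_dvd_derivative_of_pow_dvd hdvd
        simpa using this
      have h3 : (X - C z) ^ j ∣ Q := (pow_dvd_pow _ (Nat.le_succ j)).trans hdvd
      exact dvd_sub (h2.mul_left _) (h3.mul_left _)
    have h2 : φ Q = ∑ i : Fin j, C (c i.succ) * φ (P i.succ) := by
      rw [hQ, map_sum, Fin.sum_univ_succ]
      have : ∀ (a : ℚ) (p : ℚ[X]), φ (C a * p) = C a * φ p := by
        intro a p; rw [← smul_eq_C_mul, map_smul, smul_eq_C_mul]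
      simp only [this]
      rw [hφ0]; simp
    rw [h2] at h1
    have h3 := hZ z hz.1 (fun i => c i.succ) h1
    have h4 : Q = C (c 0) * P 0 := by
      rw [hQ, Fin.sum_univ_succ]
      have : ∀ i : Fin j, c i.succ = 0 := fun i => congrFun h3 i
      simp [this]
    have h5 : Q.eval z = 0 := by
      obtain ⟨S, hS⟩ := hdvd
      rw [hS]; simp
    rw [h4, eval_mul, eval_C] at h5
    have h6 : c 0 = 0 := by
      rcases mul_eq_zero.1 h5 with h | h
      · exact h
      · exact absurd h hzroot
    ext i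
    refine Fin.cases ?_ (fun i => ?_) i
    · simpa using h6
    · simpa using congrFun h3 i

/-- integer vector to polynomial -/
noncomputable def toP {n : ℕ} (u : Fin (n + 1) → ℤ) : ℤ[X] := ∑ i, C (u i) * X ^ (i : ℕ)

/-- the Wronskian-type determinant -/
noncomputable def W {n j : ℕ} (v : Fin j → Fin (n + 1) → ℤ) : ℤ[X] :=
  Matrix.det (Matrix.of fun a b : Fin j => hasseDeriv (b : ℕ) (toP (v a)))

def castQ {n : ℕ} (u : Fin (n + 1) → ℤ) : Fin (n + 1) → ℚ := fun i => (u i : ℚ)

lemma toP_map {n : ℕ} (u : Fin (n + 1) → ℤ) :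
    (toP u).map (Int.castRingHom ℚ) = ∑ i, C (castQ u i) * X ^ (i : ℕ) := by
  unfold toP castQ
  rw [Polynomial.map_sum]
  simp

lemma toP_indep {n j : ℕ} (v : Fin j → Fin (n + 1) → ℤ)
    (hv : LinearIndependent ℚ (fun a => castQ (v a))) :
    LinearIndependent ℚ (fun a => (toP (v a)).map (Int.castRingHom ℚ)) := by
  rw [Fintype.linearIndependent_iff] at hv ⊢
  intro g hg
  apply hv g
  ext i
  have h := congrArg (fun p : ℚ[X] => p.coeff (i : ℕ)) hg
  simp only [toP_map, finsetSum_coeff, coeff_smul, coeff_C_mul, coeff_X_pow, coeff_zero] at h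
  simp only [Finset.sum_apply, Pi.smul_apply, Pi.zero_apply]
  rw [← h]
  refine Finset.sum_congr rfl (fun a _ => ?_)
  congr 1
  rw [Finset.sum_eq_single i]
  · simp
  · intro b _ hb
    have : (i : ℕ) ≠ (b : ℕ) := fun h => hb (Fin.ext h.symm)
    simp [this]
  · simp

lemma W_ne_zero {n j : ℕ} (v : Fin j → Fin (n + 1) → ℤ)
    (hv : LinearIndependent ℚ (fun a => castQ (v a))) : W v ≠ 0 := by
  intro hW
  obtain ⟨Z, hZ⟩ := jets j _ (toP_indep v hv)
  obtain ⟨z, hz⟩ := Infinite.exists_notMem_finset Z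
  have h1 : Matrix.det (Matrix.of fun a b : Fin j =>
      (hasseDeriv (b : ℕ) ((toP (v a)).map (Int.castRingHom ℚ))).eval z) = 0 := by
    have h2 := congrArg (fun p : ℤ[X] => (p.map (Int.castRingHom ℚ)).eval z) hW
    simp only [Polynomial.map_zero, eval_zero] at h2
    rw [← h2]
    unfold W
    have h3 : ((Matrix.det (Matrix.of fun a b : Fin j => hasseDeriv (b : ℕ) (toP (v a)))).map
        (Int.castRingHom ℚ)).eval z = ((evalRingHom z).comp (mapRingHom (Int.castRingHom ℚ)))
          (Matrix.det (Matrix.of fun a b : Fin j => hasseDeriv (b : ℕ) (toP (v a)))) := rfl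
    rw [h3, RingHom.map_det]
    congr 1
    ext a b
    simp only [Matrix.of_apply, RingHom.mapMatrix_apply, Matrix.map_apply, RingHom.comp_apply,
      coe_mapRingHom, coe_evalRingHom]
    congr 1
    ext k
    simp [hasseDeriv_coeff]
  obtain ⟨c, hc0, hc⟩ := Matrix.exists_vecMul_eq_zero_iff.2 h1
  apply hc0
  apply hZ z hz c
  rw [X_sub_C_pow_dvd_iff, X_pow_dvd_iff]
  intro d hd
  have h4 := congrFun hc ⟨d, hd⟩
  simp only [Matrix.vecMul, dotProduct, Matrix.of_apply, Pi.zero_apply] at h4
  have h5 : ((∑ a, C (c a) * (toP (v a)).map (Int.castRingHom ℚ)).comp (X + C z)).coeff d =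
      (hasseDeriv d (∑ a, C (c a) * (toP (v a)).map (Int.castRingHom ℚ))).eval z := by
    rw [← taylor_coeff, taylor_apply]
  rw [h5, map_sum, eval_finsetSum, ← h4]
  refine Finset.sum_congr rfl (fun a _ => ?_)
  rw [← smul_eq_C_mul, map_smul, eval_smul, smul_eq_mul]

end Pool.Agent.Helper404
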