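import Mathlib
import Pool.Agent.Helper404.Wron

open Polynomial

namespace Pool.Agent.Helper404

lemma toP_coeff {n : ℕ} (u : Fin (n + 1) → ℤ) (k : Fin (n + 1)) : (toP u).coeff k = u k := by
  unfold toP
  simp only [finsetSum_coeff, coeff_C_mul, coeff_X_pow]
  rw [Finset.sum_eq_single k]
  · simp
  · intro b _ hb
    have : (k : ℕ) ≠ (b : ℕ) := fun h => hb (Fin.ext h.symm)
    simp [this]
  · simp

lemma toP_of_coeff {n : ℕ} (F : ℤ[X]) (hF : F.natDegree ≤ n) :
    toP (fun k : Fin (n + 1) => F.coeff k) = F := by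
  unfold toP
  rw [Fin.sum_univ_eq_sum_range (fun i => C (F.coeff i) * X ^ i) (n + 1)]
  rw [← as_sum_range_C_mul_X_pow' F (Nat.lt_succ_of_le hF)]

/-- the transformed polynomial -/
noncomputable def tw (n : ℕ) (Q : ℤ[X]) (a b c d : ℤ) : ℤ[X] :=
  ∑ i ∈ Finset.range (n + 1), C (Q.coeff i) * (C a * X + C b) ^ i * (C c * X + C d) ^ (n - i)

lemma tw_natDegree (n : ℕ) (Q : ℤ[X]) (a b c d : ℤ) : (tw n Q a b c d).natDegree ≤ n := by
  unfold tw
  apply natDegree_sum_le_of_forall_le
  intro i hi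
  rw [Finset.mem_range] at hi
  have h1 : ((C a * X + C b : ℤ[X]) ^ i).natDegree ≤ i := by
    refine natDegree_pow_le.trans ?_
    have : (C a * X + C b : ℤ[X]).natDegree ≤ 1 := natDegree_linear_le
    nlinarith
  have h2 : ((C c * X + C d : ℤ[X]) ^ (n - i)).natDegree ≤ n - i := by
    refine natDegree_pow_le.trans ?_
    have : (C c * X + C d : ℤ[X]).natDegree ≤ 1 := natDegree_linear_le
    nlinarith
  refine natDegree_mul_le.trans ?_
  have h3 : (C (Q.coeff i) * (C a * X + C b : ℤ[X]) ^ i).natDegree ≤ i :=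
    (natDegree_C_mul_le _ _).trans h1
  omega

/-- real Taylor coefficients -/
noncomputable def tc (Q : ℤ[X]) (k : ℕ) (x : ℝ) : ℝ :=
  ((hasseDeriv k Q).map (Int.castRingHom ℝ)).eval x

lemma tc_eq (Q : ℤ[X]) (k : ℕ) (x : ℝ) :
    tc Q k x = (taylor x (Q.map (Int.castRingHom ℝ))).coeff k := by
  unfold tc
  rw [taylor_coeff]
  congr 1
  ext m
  simp [hasseDeriv_coeff]

lemma eval_add_eq (Q : ℤ[X]) (n : ℕ) (hQ : Q.natDegree ≤ n) (x y : ℝ) :
    (Q.map (Int.castRingHom ℝ)).eval (x + y) = ∑ m ∈ Finset.range (n + 1), tc Q m x * y ^ m := by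
  have h1 : (Q.map (Int.castRingHom ℝ)).eval (x + y) = (taylor x (Q.map (Int.castRingHom ℝ))).eval y := by
    rw [taylor_eval, add_comm]
  rw [h1, eval_eq_sum_range' (n := n + 1)]
  · refine Finset.sum_congr rfl (fun m _ => ?_)
    rw [tc_eq]
  · rw [natDegree_taylor]
    exact Nat.lt_succ_of_le (natDegree_map_le.trans hQ)

lemma dual (n : ℕ) (Q : ℤ[X]) (hQ : Q.natDegree ≤ n) (a b c d : ℤ) (had : a * d - b * c = 1)
    (hc : 0 < c) (k : ℕ) (hk : k ≤ n) :
    tc (tw n Q a b c d) k (-(d : ℝ) / c) =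
      (-1) ^ (n - k) * (c : ℝ) ^ ((2 * k : ℤ) - n) * tc Q (n - k) ((a : ℝ) / c) := by
  have hc0 : (c : ℝ) ≠ 0 := by exact_mod_cast hc.ne'
  set R := (tw n Q a b c d).map (Int.castRingHom ℝ) with hR
  set T : ℝ[X] := ∑ m ∈ Finset.range (n + 1),
    C ((-1) ^ m * (c : ℝ) ^ ((n : ℤ) - 2 * m) * tc Q m ((a : ℝ) / c)) * X ^ (n - m) with hT
  have hmain : taylor (-(d : ℝ) / c) R = T := by
    apply Polynomial.eq_of_infinite_eval_eq
    apply Set.Infinite.mono (s := {s : ℝ | s ≠ 0})
    · intro s hs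
      simp only [Set.mem_ofPred_eq] at hs ⊢
      rw [taylor_eval, hR]
      have hadR : (a : ℝ) * d - b * c = 1 := by exact_mod_cast had
      have e1 : (a : ℝ) * (s + -(d : ℝ) / c) + b = a * s - 1 / c := by
        field_simp
        linarith
      have e2 : (c : ℝ) * (s + -(d : ℝ) / c) + d = c * s := by field_simp; ring
      have h1 : ((tw n Q a b c d).map (Int.castRingHom ℝ)).eval (s + -(d : ℝ) / c) =
          ∑ i ∈ Finset.range (n + 1), (Q.coeff i : ℝ) * (a * s - 1 / c) ^ i * (c * s) ^ (n - i) := by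
        unfold tw
        rw [Polynomial.map_sum, eval_finsetSum]
        refine Finset.sum_congr rfl (fun i _ => ?_)
        simp only [Polynomial.map_mul, Polynomial.map_pow, Polynomial.map_add, map_C, map_X,
          eval_mul, eval_pow, eval_add, eval_C, eval_X, Int.coe_castRingHom]
        rw [e1, e2]
      have h2 : ∑ i ∈ Finset.range (n + 1), (Q.coeff i : ℝ) * (a * s - 1 / c) ^ i * (c * s) ^ (n - i) =
          (c * s) ^ n * (Q.map (Int.castRingHom ℝ)).eval ((a : ℝ) / c + (-1 / (c ^ 2 * s))) := by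
        rw [eval_eq_sum_range' (n := n + 1) (Nat.lt_succ_of_le (natDegree_map_le.trans hQ)),
          Finset.mul_sum]
        refine Finset.sum_congr rfl (fun i hi => ?_)
        rw [Finset.mem_range] at hi
        have e3 : (a : ℝ) / c + (-1 / (c ^ 2 * s)) = (a * s - 1 / c) / (c * s) := by
          field_simp; ring
        rw [coeff_map, e3, div_pow]
        have e4 : (c * s : ℝ) ^ n = (c * s) ^ (n - i) * (c * s) ^ i := by
          rw [← pow_add]; congr 1; omega
        rw [e4]
        have : (c * s : ℝ) ^ i ≠ 0 := by positivity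
        simp only [eq_intCast]
        field_simp
      rw [h1, h2, eval_add_eq Q n hQ, hT, eval_finsetSum, Finset.mul_sum]
      refine Finset.sum_congr rfl (fun m hm => ?_)
      rw [Finset.mem_range] at hm
      simp only [eval_mul, eval_C, eval_pow, eval_X]
      have e5 : (c : ℝ) ^ ((n : ℤ) - 2 * m) = (c : ℝ) ^ n / (c ^ m * c ^ m) := by
        rw [zpow_sub₀ hc0, zpow_natCast]
        congr 1
        rw [two_mul, zpow_add₀ hc0, zpow_natCast]
      have e6 : (s : ℝ) ^ n = s ^ (n - m) * s ^ m := by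
        rw [← pow_add]; congr 1; omega
      rw [e5, mul_pow, e6, div_pow, mul_pow]
      field_simp
      ring
    · exact (Set.infinite_of_finite_compl (by
        have : ({s : ℝ | s ≠ 0})ᶜ = {0} := by ext s; simp
        rw [this]; exact Set.finite_singleton 0))
  rw [tc_eq, ← hR, hmain, hT]
  simp only [finsetSum_coeff, coeff_C_mul, coeff_X_pow]
  rw [Finset.sum_eq_single (n - k)]
  · have : n - (n - k) = k := by omega
    rw [this, if_pos rfl, mul_one]
    congr 2
    congr 1
    push_cast [Nat.cast_sub hk]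
    ring
  · intro m hm hne
    rw [Finset.mem_range] at hm
    have : k ≠ n - m := by omega
    simp [this]
  · intro h
    exfalso; apply h
    rw [Finset.mem_range]; omega

end Pool.Agent.Helper404
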