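import Mathlib

open Polynomial MeasureTheory

namespace Pool.Agent.Helper404

/-- the naive height of an integer polynomial -/
def HP (P : ℤ[X]) : ℕ := P.support.sup fun i => (P.coeff i).natAbs

/-- `x` is not in any closed zone `|x - β| ≤ c H(β)^(-t)`, with `β` of degree exactly `n`, height `≥ H0` -/
def Good (n : ℕ) (t c : ℝ) (H0 : ℕ) (x : ℝ) : Prop :=
  ∀ Q : ℤ[X], Irreducible Q → Q.natDegree = n → H0 ≤ HP Q →
    ∀ β : ℝ, aeval β Q = 0 → c * (HP Q : ℝ) ^ (-t) < |x - β|

end Pool.Agent.Helper404
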