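import Mathlib

open MeasureTheory Set

namespace Pool.Agent.Helper404

section km

variable {S : Type*} [PartialOrder S] (f : S → ℝ → ℝ)

/-- marked points -/
def Marked (T : Set S) (ε : ℝ) (z : ℝ) : Prop :=
  ∃ F : Set S, F ⊆ T ∧ IsChain (· ≤ ·) F ∧ (∀ s ∈ F, ε ≤ f s z ∧ f s z ≤ 1) ∧
    ∀ s ∈ T, (∀ s' ∈ F, s ≤ s' ∨ s' ≤ s) → s ∈ F ∨ 1 ≤ f s z

/-- dyadic index -/
noncomputable def idx (a l : ℝ) (k : ℕ) (x : ℝ) : ℤ := ⌊(x - a) * 2 ^ k / l⌋

/-- dyadic interval -/
def Dy (a l : ℝ) (k : ℕ) (i : ℤ) : Set ℝ := Ico (a + i * (l / 2 ^ k)) (a + i * (l / 2 ^ k) + l / 2 ^ k)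

lemma mem_Dy {a l : ℝ} (hl : 0 < l) (k : ℕ) (i : ℤ) (x : ℝ) : x ∈ Dy a l k i ↔ idx a l k x = i := by
  unfold Dy idx
  rw [Int.floor_eq_iff, mem_Ico, le_div_iff₀ hl, div_lt_iff₀ hl]
  have h2 : (0 : ℝ) < 2 ^ k := by positivity
  have e1 : a + i * (l / 2 ^ k) = a + (i * l) / 2 ^ k := by ring
  have e2 : a + i * (l / 2 ^ k) + l / 2 ^ k = a + ((i + 1) * l) / 2 ^ k := by ring
  rw [e2, e1]
  constructor
  · rintro ⟨h, h'⟩
    constructor
    · have : (i * l) / 2 ^ k ≤ x - a := by linarith
      rwa [div_le_iff₀ h2] at this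
    · have : x - a < ((i + 1) * l) / 2 ^ k := by linarith
      rwa [lt_div_iff₀ h2] at this
  · rintro ⟨h, h'⟩
    constructor
    · have : (i * l) / 2 ^ k ≤ x - a := by rwa [div_le_iff₀ h2]
      linarith
    · have : x - a < ((i + 1) * l) / 2 ^ k := by rwa [lt_div_iff₀ h2]
      linarith

lemma idx_succ (a l : ℝ) (k : ℕ) (x : ℝ) : idx a l k x = idx a l (k + 1) x / 2 := by
  unfold idx
  have : (x - a) * 2 ^ k / l = ((x - a) * 2 ^ (k + 1) / l) / (2 : ℕ) := by
    push_cast; rw [pow_succ]; ring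
  rw [this, Int.floor_div_natCast]
  rfl

lemma idx_mono {a l : ℝ} (k k' : ℕ) (h : k ≤ k') {x y : ℝ} (hxy : idx a l k' x = idx a l k' y) :
    idx a l k x = idx a l k y := by
  induction k', h using Nat.le_induction with
  | base => exact hxy
  | succ m _ ih => exact ih (by rw [idx_succ, idx_succ a l m y, hxy])

lemma Dy_measurable (a l : ℝ) (k : ℕ) (i : ℤ) : MeasurableSet (Dy a l k i) := measurableSet_Ico

lemma Dy_volume (a l : ℝ) (k : ℕ) (i : ℤ) : volume (Dy a l k i) = ENNReal.ofReal (l / 2 ^ k) := by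
  unfold Dy; rw [Real.volume_Ico]; congr 1; ring

/-- the constants -/
noncomputable def kmC (C : ℝ) : ℕ → ℝ
  | 0 => 0
  | m + 1 => 2 * (kmC C m + C)

lemma kmC_nonneg {C : ℝ} (hC : 0 ≤ C) (m : ℕ) : 0 ≤ kmC C m := by
  induction m with
  | zero => simp [kmC]
  | succ m ih => simp only [kmC]; positivity

theorem km (rank : S → ℕ) (hrank : ∀ s s', s < s' → rank s < rank s')
    (hcont : ∀ s, Continuous (f s)) (C α : ℝ) (hC : 0 ≤ C)
    (hgood : ∀ s, ∀ a l : ℝ, 0 < l → (∃ z ∈ Ico a (a + l), 1 ≤ f s z) → ∀ ε : ℝ, 0 < ε →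
      volume {x ∈ Ico a (a + l) | f s x < ε} ≤ ENNReal.ofReal (C * ε ^ α) * ENNReal.ofReal l) :
    ∀ (m : ℕ) (T : Set S) (R : Finset ℕ), R.card = m → (∀ s ∈ T, rank s ∈ R) →
      ∀ a l : ℝ, 0 < l → (∀ s ∈ T, ∃ z ∈ Ico a (a + l), 1 ≤ f s z) → ∀ ε : ℝ, 0 < ε →
      volume {x ∈ Ico a (a + l) | ¬ Marked f T ε x} ≤
        ENNReal.ofReal (kmC C m * ε ^ α) * ENNReal.ofReal l := by
  intro m
  induction m with
  | zero =>
    intro T R hR hT a l hl hrich ε hε
    have hT0 : ∀ s, s ∉ T := by
      intro s hs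
      have := hT s hs
      rw [Finset.card_eq_zero.1 hR] at this
      simp at this
    have : {x ∈ Ico a (a + l) | ¬ Marked f T ε x} = ∅ := by
      ext x
      simp only [mem_ofPred_eq, mem_empty_iff_false, iff_false, not_and, not_not]
      intro _
      exact ⟨∅, by simp, by simp, by simp, fun s hs _ => absurd hs (hT0 s)⟩
    rw [this]; simp
  | succ m ih =>
    intro T R hR hT a l hl hrich ε hε
    set Poor : ℕ → ℤ → Prop := fun k i => ∃ s ∈ T, ∀ z ∈ Dy a l k i, f s z < 1 with hPoor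
    set P : Set (ℕ × ℤ) := {p | Poor (p.1 + 1) p.2 ∧ ¬ Poor p.1 (p.2 / 2) ∧
      Dy a l (p.1 + 1) p.2 ⊆ Ico a (a + l)} with hP
    have hI : Dy a l 0 0 = Ico a (a + l) := by unfold Dy; simp
    set A := ENNReal.ofReal (kmC C (m + 1) * ε ^ α) with hA
    -- covering
    have hcover : {x ∈ Ico a (a + l) | ¬ Marked f T ε x} ⊆
        ⋃ p ∈ P, {x ∈ Dy a l (p.1 + 1) p.2 | ¬ Marked f T ε x} := by
      rintro x ⟨hxI, hxM⟩
      have hx0 : idx a l 0 x = 0 := by rw [← mem_Dy hl, hI]; exact hxI
      obtain ⟨s, hsT, hsx⟩ : ∃ s ∈ T, f s x < 1 := by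
        by_contra hcon
        push Not at hcon
        exact hxM ⟨∅, by simp, by simp, by simp, fun s hs _ => Or.inr (hcon s hs)⟩
      obtain ⟨δ, hδ, hball⟩ := Metric.isOpen_iff.1 ((hcont s).isOpen_preimage _ isOpen_Iio) x hsx
      have hex : ∃ k, Poor k (idx a l k x) := by
        obtain ⟨k, hk⟩ : ∃ k : ℕ, l / 2 ^ k < δ := by
          obtain ⟨k, hk⟩ := pow_unbounded_of_one_lt (l / δ) (one_lt_two (α := ℝ))
          refine ⟨k, ?_⟩
          rw [div_lt_iff₀ (by positivity)]
          rw [div_lt_iff₀ hδ] at hk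
          linarith
        refine ⟨k, s, hsT, fun z hz => ?_⟩
        have hx' : x ∈ Dy a l k (idx a l k x) := (mem_Dy hl k _ x).2 rfl
        have : z ∈ Metric.ball x δ := by
          rw [Metric.mem_ball, Real.dist_eq, abs_lt]
          unfold Dy at hz hx'
          rw [mem_Ico] at hz hx'
          constructor <;> linarith [hz.1, hz.2, hx'.1, hx'.2]
        exact hball this
      classical
      have hmin := Nat.find_spec hex
      have hne : Nat.find hex ≠ 0 := by
        intro h0
        rw [h0] at hmin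
        rw [hx0] at hmin
        obtain ⟨s', hs', h'⟩ := hmin
        rw [hI] at h'
        obtain ⟨z, hz, hz'⟩ := hrich s' hs'
        exact absurd (h' z hz) (not_lt.2 hz')
      obtain ⟨k, hk⟩ := Nat.exists_eq_succ_of_ne_zero hne
      rw [hk] at hmin
      have hnot : ¬ Poor k (idx a l k x) := Nat.find_min hex (by omega)
      rw [mem_iUnion₂]
      refine ⟨(k, idx a l (k + 1) x), ⟨hmin, ?_, ?_⟩, (mem_Dy hl _ _ x).2 rfl, hxM⟩
      · simp only
        rw [← idx_succ]; exact hnot
      · intro y hy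
        have hy' : idx a l (k + 1) y = idx a l (k + 1) x := (mem_Dy hl _ _ y).1 hy
        rw [← hI, mem_Dy hl, idx_mono 0 (k + 1) (Nat.zero_le _) hy', hx0]
    -- estimate on each piece
    have hpiece : ∀ p ∈ P, volume {x ∈ Dy a l (p.1 + 1) p.2 | ¬ Marked f T ε x} ≤
        A * volume (Dy a l (p.1 + 1) p.2) := by
      rintro ⟨k, i⟩ ⟨hpoor, hnp, -⟩
      simp only at hpoor hnp ⊢
      obtain ⟨s0, hs0T, hs0⟩ := hpoor
      set b := a + ((i / 2 : ℤ) : ℝ) * (l / 2 ^ k) with hb
      set l' := l / 2 ^ k with hl'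
      have hl'pos : 0 < l' := by positivity
      have hPar : Dy a l k (i / 2) = Ico b (b + l') := rfl
      have hsub : Dy a l (k + 1) i ⊆ Ico b (b + l') := by
        rw [← hPar]
        intro y hy
        rw [mem_Dy hl] at hy ⊢
        rw [idx_succ, hy]
      have hrich' : ∀ s ∈ T, ∃ z ∈ Ico b (b + l'), 1 ≤ f s z := by
        intro s hs
        by_contra hcon
        push Not at hcon
        exact hnp ⟨s, hs, by rw [hPar]; exact hcon⟩
      set T' : Set S := {s ∈ T | s ≠ s0 ∧ (s ≤ s0 ∨ s0 ≤ s)} with hT'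
      have h1 := ih T' (R.erase (rank s0)) (by rw [Finset.card_erase_of_mem (hT s0 hs0T), hR]; rfl)
        (by
          rintro s ⟨hsT, hne, hcmp⟩
          rw [Finset.mem_erase]
          refine ⟨?_, hT s hsT⟩
          rcases hcmp with h | h
          · exact (hrank _ _ (lt_of_le_of_ne h hne)).ne
          · exact (hrank _ _ (lt_of_le_of_ne h hne.symm)).ne')
        b l' hl'pos (fun s hs => hrich' s hs.1) ε hε
      have h2 := hgood s0 b l' hl'pos (hrich' s0 hs0T) ε hε
      have h3 : {x ∈ Dy a l (k + 1) i | ¬ Marked f T ε x} ⊆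
          {x ∈ Ico b (b + l') | ¬ Marked f T' ε x} ∪ {x ∈ Ico b (b + l') | f s0 x < ε} := by
        rintro x ⟨hxD, hxM⟩
        by_contra hcon
        rw [mem_union, not_or] at hcon
        obtain ⟨hc1, hc2⟩ := hcon
        have hx1 : Marked f T' ε x := by
          by_contra h; exact hc1 ⟨hsub hxD, h⟩
        have hx2 : ε ≤ f s0 x := by
          by_contra h; exact hc2 ⟨hsub hxD, not_le.1 h⟩
        apply hxM
        obtain ⟨F, hF1, hF2, hF3, hF4⟩ := hx1
        refine ⟨insert s0 F, ?_, ?_, ?_, ?_⟩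
        · intro s hs
          rcases hs with h | h
          · rw [h]; exact hs0T
          · exact (hF1 h).1
        · apply hF2.insert
          intro s hs _
          rcases (hF1 hs).2.2 with h | h
          · exact Or.inr h
          · exact Or.inl h
        · intro s hs
          rcases hs with h | h
          · rw [h]; exact ⟨hx2, (hs0 x hxD).le⟩
          · exact hF3 s h
        · intro s hsT hcmp
          by_cases hss0 : s = s0
          · left; rw [hss0]; exact mem_insert _ _
          · have hsT' : s ∈ T' := ⟨hsT, hss0, hcmp s0 (mem_insert _ _)⟩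
            rcases hF4 s hsT' (fun s' hs' => hcmp s' (mem_insert_of_mem _ hs')) with h | h
            · left; exact mem_insert_of_mem _ h
            · right; exact h
      calc volume {x ∈ Dy a l (k + 1) i | ¬ Marked f T ε x}
          ≤ volume ({x ∈ Ico b (b + l') | ¬ Marked f T' ε x} ∪ {x ∈ Ico b (b + l') | f s0 x < ε}) :=
            measure_mono h3
        _ ≤ _ := measure_union_le _ _
        _ ≤ ENNReal.ofReal (kmC C m * ε ^ α) * ENNReal.ofReal l' +
            ENNReal.ofReal (C * ε ^ α) * ENNReal.ofReal l' := add_le_add h1 h2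
        _ = A * volume (Dy a l (k + 1) i) := by
            have hk0 := kmC_nonneg hC m
            have he : 0 ≤ ε ^ α := Real.rpow_nonneg hε.le _
            rw [Dy_volume, hA, ← add_mul, ← ENNReal.ofReal_add (by positivity) (by positivity),
              ← ENNReal.ofReal_mul (by positivity), ← ENNReal.ofReal_mul (by
                have := kmC_nonneg hC (m + 1); positivity)]
            congr 1
            simp only [kmC]
            rw [hl', pow_succ]; field_simp
    have hdisj : P.PairwiseDisjoint (fun p => Dy a l (p.1 + 1) p.2) := by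
      have key : ∀ p ∈ P, ∀ q ∈ P, ∀ x, x ∈ Dy a l (p.1 + 1) p.2 → x ∈ Dy a l (q.1 + 1) q.2 →
          q.1 ≤ p.1 → p = q := by
        rintro ⟨k, i⟩ hp ⟨k', i'⟩ hq x hx hx' hle
        simp only at hx hx' hle
        rw [mem_Dy hl] at hx hx'
        rcases Nat.lt_or_ge k' k with hlt | hge
        · exfalso
          apply hp.2.1
          obtain ⟨s, hs, hs'⟩ := hq.1
          simp only at hs'
          refine ⟨s, hs, fun z hz => hs' z ?_⟩
          simp only at hz
          rw [mem_Dy hl] at hz ⊢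
          rw [← hx, ← idx_succ] at hz
          rw [idx_mono (k' + 1) k hlt hz, hx']
        · have hkk : k = k' := le_antisymm hge hle
          subst hkk
          rw [← hx, ← hx']
      intro p hp q hq hpq
      rw [Function.onFun, Set.disjoint_left]
      intro x hx hx'
      apply hpq
      rcases le_total q.1 p.1 with h | h
      · exact key p hp q hq x hx hx' h
      · exact (key q hq p hp x hx' hx h).symm
    calc volume {x ∈ Ico a (a + l) | ¬ Marked f T ε x}
        ≤ volume (⋃ p ∈ P, {x ∈ Dy a l (p.1 + 1) p.2 | ¬ Marked f T ε x}) := measure_mono hcover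
      _ ≤ ∑' p : P, volume {x ∈ Dy a l (p.1.1 + 1) p.1.2 | ¬ Marked f T ε x} :=
          measure_biUnion_le volume (to_countable P) _
      _ ≤ ∑' p : P, A * volume (Dy a l (p.1.1 + 1) p.1.2) :=
          ENNReal.tsum_le_tsum (fun p => hpiece p.1 p.2)
      _ = A * ∑' p : P, volume (Dy a l (p.1.1 + 1) p.1.2) := ENNReal.tsum_mul_left
      _ = A * volume (⋃ p ∈ P, Dy a l (p.1 + 1) p.2) := by
          rw [measure_biUnion (to_countable P) hdisj (fun p _ => Dy_measurable _ _ _ _)]
      _ ≤ A * volume (Ico a (a + l)) := by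
          gcongr
          exact iUnion₂_subset (fun p hp => hp.2.2)
      _ = A * ENNReal.ofReal l := by rw [Real.volume_Ico]; congr 2; ring

end km

end Pool.Agent.Helper404
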