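import Mathlib

open MeasureTheory Polynomial Set

namespace Pool.Agent.Helper404

/-- greedy choice of separated points in a set of positive measure -/
lemma exists_separated (s : ℝ) (hs : 0 < s) :
    ∀ (k : ℕ) (E : Set ℝ), ENNReal.ofReal (2 * k * s) < volume E →
      ∃ F : Finset ℝ, F.card = k + 1 ∧ (∀ x ∈ F, x ∈ E) ∧
        ∀ x ∈ F, ∀ y ∈ F, x ≠ y → s ≤ |x - y| := by
  intro k
  induction k with
  | zero =>
    intro E hE
    have h0 : 0 < volume E := pos_of_gt hE
    obtain ⟨x, hx⟩ := nonempty_of_measure_ne_zero h0.ne'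
    refine ⟨{x}, by simp, by simpa using hx, ?_⟩
    intro a ha b hb hab
    simp only [Finset.mem_singleton] at ha hb
    exact absurd (ha.trans hb.symm) hab
  | succ k ih =>
    intro E hE
    have h0 : 0 < volume E := pos_of_gt hE
    obtain ⟨x, hx⟩ := nonempty_of_measure_ne_zero h0.ne'
    have hE' : ENNReal.ofReal (2 * k * s) < volume (E \ Metric.ball x s) := by
      refine lt_of_lt_of_le ?_ (le_measure_sdiff (μ := volume))
      rw [Real.volume_ball]
      have h2 : ENNReal.ofReal (2 * k * s) + ENNReal.ofReal (2 * s) < volume E := by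
        rw [← ENNReal.ofReal_add (by positivity) (by positivity)]
        convert hE using 2
        push_cast; ring
      exact lt_tsub_iff_right.2 h2
    obtain ⟨F, hF1, hF2, hF3⟩ := ih _ hE'
    have hxF : x ∉ F := by
      intro h
      have := (hF2 x h).2
      exact this (Metric.mem_ball_self hs)
    refine ⟨insert x F, by rw [Finset.card_insert_of_notMem hxF, hF1], ?_, ?_⟩
    · intro y hy
      rcases Finset.mem_insert.1 hy with h | h
      · rw [h]; exact hx
      · exact (hF2 y h).1
    · have key : ∀ y ∈ F, s ≤ |x - y| := by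
        intro y hy
        have := (hF2 y hy).2
        rw [Metric.mem_ball, not_lt, dist_comm, Real.dist_eq] at this
        exact this
      intro a ha b hb hab
      rcases Finset.mem_insert.1 ha with h | h <;> rcases Finset.mem_insert.1 hb with h' | h'
      · exact absurd (h.trans h'.symm) hab
      · rw [h]; exact key b h'
      · rw [h', abs_sub_comm]; exact key a h
      · exact hF3 a h b h' hab

lemma lagrange_bound (D : ℕ) (p : ℝ[X]) (hp : p.natDegree ≤ D) (F : Finset ℝ) (hF : F.card = D + 1)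
    (s L ε z : ℝ) (hs : 0 < s) (hsL : s ≤ L)
    (hsep : ∀ x ∈ F, ∀ y ∈ F, x ≠ y → s ≤ |x - y|)
    (hz : ∀ x ∈ F, |z - x| ≤ L) (hε : ∀ x ∈ F, |p.eval x| ≤ ε) :
    |p.eval z| ≤ (D + 1) * ε * (L / s) ^ D := by
  have hinj : Set.InjOn (id : ℝ → ℝ) (F : Set ℝ) := fun a _ b _ h => h
  have hdeg : p.degree < F.card := by
    rw [hF]
    exact lt_of_le_of_lt degree_le_natDegree (by exact_mod_cast Nat.lt_succ_of_le hp)
  have heq := Lagrange.eq_interpolate hinj hdeg
  have hL : 0 < L := hs.trans_le hsL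
  have heval : p.eval z = ∑ i ∈ F, p.eval i * (Lagrange.basis F id i).eval z := by
    conv_lhs => rw [heq]
    rw [Lagrange.interpolate_apply, eval_finsetSum]
    simp [eval_mul]
  rw [heval]
  have hε0 : 0 ≤ ε := by
    have : F.Nonempty := Finset.card_pos.1 (by omega)
    obtain ⟨x, hx⟩ := this
    exact (abs_nonneg _).trans (hε x hx)
  calc |∑ i ∈ F, p.eval i * (Lagrange.basis F id i).eval z|
      ≤ ∑ i ∈ F, |p.eval i * (Lagrange.basis F id i).eval z| := Finset.abs_sum_le_sum_abs _ _
    _ ≤ ∑ i ∈ F, ε * (L / s) ^ D := by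
        refine Finset.sum_le_sum (fun i hi => ?_)
        rw [abs_mul]
        refine mul_le_mul (hε i hi) ?_ (abs_nonneg _) hε0
        rw [Lagrange.basis, eval_prod, Finset.abs_prod]
        calc ∏ j ∈ F.erase i, |(Lagrange.basisDivisor (id i) (id j)).eval z|
            ≤ ∏ j ∈ F.erase i, (L / s) := by
              refine Finset.prod_le_prod (fun j _ => abs_nonneg _) (fun j hj => ?_)
              have hj' := Finset.mem_erase.1 hj
              rw [Lagrange.basisDivisor]
              simp only [eval_mul, eval_C, eval_sub, eval_X, id, abs_mul, abs_inv]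
              have h1 := hsep i hi j hj'.2 (Ne.symm hj'.1)
              have h2 := hz j hj'.2
              rw [inv_mul_eq_div]
              exact div_le_div₀ hL.le h2 hs h1
          _ = (L / s) ^ D := by
              rw [Finset.prod_const, Finset.card_erase_of_mem hi, hF]; simp
    _ = (D + 1) * ε * (L / s) ^ D := by
        rw [Finset.sum_const, hF, nsmul_eq_mul]; push_cast; ring

/-- sublevel sets of polynomials -/
lemma sublevel (D : ℕ) (hD : 1 ≤ D) (p : ℝ[X]) (hp : p.natDegree ≤ D) (a l : ℝ) (hl : 0 < l)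
    (z ρ ε : ℝ) (hz : z ∈ Ico a (a + l)) (hρ : 0 < ρ) (hρz : ρ ≤ |p.eval z|) (hε : 0 < ε) :
    volume {x ∈ Ico a (a + l) | |p.eval x| < ε} ≤
      ENNReal.ofReal ((4 * (D + 1) ^ 2) * (ε / ρ) ^ (1 / (D : ℝ)) * l) := by
  set E := {x ∈ Ico a (a + l) | |p.eval x| < ε} with hE
  by_contra hcon
  push Not at hcon
  have hD0 : (0 : ℝ) < D := by exact_mod_cast hD
  set t : ℝ := (ε / ρ) ^ (1 / (D : ℝ)) with ht
  have htpos : 0 < t := Real.rpow_pos_of_pos (by positivity) _
  set s : ℝ := 2 * (D + 1) * t * l with hs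
  have hspos : 0 < s := by positivity
  have h1 : ENNReal.ofReal (2 * (D : ℕ) * s) < volume E := by
    refine lt_of_le_of_lt (ENNReal.ofReal_le_ofReal ?_) hcon
    rw [hs]
    have : 0 < t * l := by positivity
    nlinarith
  obtain ⟨F, hF1, hF2, hF3⟩ := exists_separated s hspos D E h1
  have hEsub : volume E ≤ ENNReal.ofReal l := by
    calc volume E ≤ volume (Ico a (a + l)) := measure_mono (fun x hx => hx.1)
      _ = ENNReal.ofReal l := by rw [Real.volume_Ico]; congr 1; ring
  have hsl : s ≤ l := by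
    have h2 := (lt_of_lt_of_le h1 hEsub)
    rw [ENNReal.ofReal_lt_ofReal_iff hl] at h2
    have : (1 : ℝ) ≤ D := by exact_mod_cast hD
    nlinarith
  have hz' : ∀ x ∈ F, |z - x| ≤ l := by
    intro x hx
    have hx' := (hF2 x hx).1
    rw [abs_le]
    exact ⟨by linarith [hx'.2, hz.1], by linarith [hx'.1, hz.2]⟩
  have hb := lagrange_bound D p hp F hF1 s l ε z hspos hsl hF3 hz' (fun x hx => (hF2 x hx).2.le)
  have h3 : l / s = 1 / (2 * (D + 1) * t) := by rw [hs]; field_simp
  rw [h3] at hb
  have h4 : t ^ D = ε / ρ := by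
    rw [ht, ← Real.rpow_natCast, ← Real.rpow_mul (by positivity), one_div_mul_cancel hD0.ne', Real.rpow_one]
  have h5 : (1 / (2 * (D + 1) * t)) ^ D = ρ / (ε * (2 * (D + 1)) ^ D) := by
    rw [div_pow, mul_pow, h4, one_pow]; field_simp
  rw [h5] at hb
  have h6 : ((D : ℝ) + 1) * ε * (ρ / (ε * (2 * (D + 1)) ^ D)) = ρ * ((D + 1) / (2 * (D + 1)) ^ D) := by
    field_simp
  rw [h6] at hb
  have h7 : ((D : ℝ) + 1) / (2 * (D + 1)) ^ D ≤ 1 / 2 := by
    rw [div_le_div_iff₀ (by positivity) (by norm_num)]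
    have h8 : (2 * ((D : ℝ) + 1)) ^ 1 ≤ (2 * ((D : ℝ) + 1)) ^ D :=
      pow_le_pow_right₀ (by linarith) hD
    linarith
  nlinarith

end Pool.Agent.Helper404
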