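import Mathlib
import Pool.Agent.Helper404.Sublevel
import Pool.Agent.Helper404.Wron
import Pool.Agent.Helper404.KM

open MeasureTheory Set Polynomial

namespace Pool.Agent.Helper404

/-- generalized minors (integer polynomials) -/
noncomputable def Dt {n j : ℕ} (v : Fin j → Fin (n + 1) → ℤ) (e : Fin j → ℕ) : ℤ[X] :=
  Matrix.det (Matrix.of fun a b : Fin j => hasseDeriv (e b) (toP (v a)))

lemma W_eq_Dt {n j : ℕ} (v : Fin j → Fin (n + 1) → ℤ) : W v = Dt v (fun b => (b : ℕ)) := rfl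

lemma toP_natDegree {n : ℕ} (u : Fin (n + 1) → ℤ) : (toP u).natDegree ≤ n := by
  unfold toP
  apply natDegree_sum_le_of_forall_le
  intro i _
  exact (natDegree_C_mul_X_pow_le _ _).trans (by omega)

lemma Dt_natDegree {n j : ℕ} (v : Fin j → Fin (n + 1) → ℤ) (e : Fin j → ℕ) :
    (Dt v e).natDegree ≤ j * n := by
  unfold Dt
  rw [Matrix.det_apply]
  apply natDegree_sum_le_of_forall_le
  intro σ _
  refine (natDegree_smul_le _ _).trans ?_
  refine (natDegree_prod_le _ _).trans ?_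
  calc ∑ i : Fin j, ((Matrix.of fun a b : Fin j => hasseDeriv (e b) (toP (v a))) (σ i) i).natDegree
      ≤ ∑ i : Fin j, n := by
        refine Finset.sum_le_sum (fun i _ => ?_)
        simp only [Matrix.of_apply]
        exact (natDegree_hasseDeriv_le _ _).trans ((Nat.sub_le _ _).trans (toP_natDegree _))
    _ = j * n := by simp

/-- integer basis of a rational subspace -/
def IB {n : ℕ} (U : Submodule ℚ (Fin (n + 1) → ℚ)) (j : ℕ) (v : Fin j → Fin (n + 1) → ℤ) : Prop :=
  LinearIndependent ℚ (fun a => castQ (v a)) ∧ Submodule.span ℚ (range (fun a => castQ (v a))) = U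

lemma IB.finrank {n : ℕ} {U : Submodule ℚ (Fin (n + 1) → ℚ)} {j : ℕ} {v : Fin j → Fin (n + 1) → ℤ}
    (h : IB U j v) : Module.finrank ℚ U = j := by
  rw [← h.2, finrank_span_eq_card h.1, Fintype.card_fin]

lemma IB.le {n : ℕ} {U : Submodule ℚ (Fin (n + 1) → ℚ)} {j : ℕ} {v : Fin j → Fin (n + 1) → ℤ}
    (h : IB U j v) : j ≤ n + 1 := by
  rw [← h.finrank]
  refine (Submodule.finrank_le U).trans ?_
  simp

/-- proportionality -/
lemma IB.prop {n : ℕ} {U : Submodule ℚ (Fin (n + 1) → ℚ)} {j : ℕ} {v v' : Fin j → Fin (n + 1) → ℤ}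
    (h : IB U j v) (h' : IB U j v') : ∃ d : ℚ, ∀ e : Fin j → ℕ,
      (Dt v' e).map (Int.castRingHom ℚ) = C d * (Dt v e).map (Int.castRingHom ℚ) := by
  have hex : ∀ a : Fin j, ∃ c : Fin j → ℚ, ∑ b, c b • castQ (v b) = castQ (v' a) := by
    intro a
    have : castQ (v' a) ∈ Submodule.span ℚ (range (fun a => castQ (v a))) := by
      rw [h.2, ← h'.2]
      exact Submodule.subset_span ⟨a, rfl⟩
    exact (Submodule.mem_span_range_iff_exists_fun ℚ).1 this
  choose A hA using hex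
  refine ⟨(Matrix.of A).det, fun e => ?_⟩
  have key : ∀ (w : Fin j → Fin (n + 1) → ℤ), (Dt w e).map (Int.castRingHom ℚ) =
      Matrix.det (Matrix.of fun a b : Fin j =>
        hasseDeriv (e b) ((toP (w a)).map (Int.castRingHom ℚ))) := by
    intro w
    unfold Dt
    rw [← coe_mapRingHom, RingHom.map_det]
    congr 1
    ext a b k
    simp [hasseDeriv_coeff]
  rw [key, key]
  have hC : (C (Matrix.of A).det : ℚ[X]) = ((Matrix.of A).map C).det := by
    rw [RingHom.map_det]; rfl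
  rw [hC, ← Matrix.det_mul]
  congr 1
  ext1 a b
  rw [Matrix.mul_apply]
  simp only [Matrix.of_apply, Matrix.map_apply]
  have h1 : (toP (v' a)).map (Int.castRingHom ℚ) =
      ∑ i, A a i • (toP (v i)).map (Int.castRingHom ℚ) := by
    simp only [toP_map]
    rw [← hA a]
    simp only [Finset.sum_apply, Pi.smul_apply, smul_eq_mul, map_sum, Finset.sum_mul, C_mul,
      Finset.smul_sum, smul_eq_C_mul]
    rw [Finset.sum_comm]
    refine Finset.sum_congr rfl (fun x _ => Finset.sum_congr rfl (fun y _ => by ring))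
  rw [h1, map_sum]
  refine Finset.sum_congr rfl (fun i _ => ?_)
  rw [map_smul, smul_eq_C_mul]

section weights

variable {n : ℕ} (w : Fin (n + 1) → ℝ)

/-- evaluation of a generalized minor, weighted -/
noncomputable def term {j : ℕ} (v : Fin j → Fin (n + 1) → ℤ) (z : ℝ) (I : Fin j → Fin (n + 1)) : ℝ :=
  |((Dt v (fun b => (I b : ℕ))).map (Int.castRingHom ℝ)).eval z| / ∏ b, w (I b)

/-- the norm of a tuple -/
noncomputable def Nm {j : ℕ} (v : Fin j → Fin (n + 1) → ℤ) (z : ℝ) : ℝ :=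
  Finset.univ.sup' Finset.univ_nonempty (term w v z)

lemma term_le {j : ℕ} (v : Fin j → Fin (n + 1) → ℤ) (z : ℝ) (I : Fin j → Fin (n + 1)) :
    term w v z I ≤ Nm w v z := Finset.le_sup' (term w v z) (Finset.mem_univ I)

lemma exists_term {j : ℕ} (v : Fin j → Fin (n + 1) → ℤ) (z : ℝ) :
    ∃ I, Nm w v z = term w v z I := by
  obtain ⟨I, _, hI⟩ := Finset.exists_mem_eq_sup' Finset.univ_nonempty (term w v z)
  exact ⟨I, hI⟩

lemma Nm_cont {j : ℕ} (v : Fin j → Fin (n + 1) → ℤ) : Continuous (Nm w v) := by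
  unfold Nm
  apply Continuous.finset_sup'_apply
  intro I _
  unfold term
  apply Continuous.div_const
  exact (Polynomial.continuous _).abs

lemma term_nonneg (hw : ∀ k, 0 < w k) {j : ℕ} (v : Fin j → Fin (n + 1) → ℤ) (z : ℝ)
    (I : Fin j → Fin (n + 1)) : 0 ≤ term w v z I :=
  div_nonneg (abs_nonneg _) (Finset.prod_nonneg (fun _ _ => (hw _).le))

lemma Nm_nonneg (hw : ∀ k, 0 < w k) {j : ℕ} (v : Fin j → Fin (n + 1) → ℤ) (z : ℝ) :
    0 ≤ Nm w v z := by
  obtain ⟨I, hI⟩ := exists_term w v z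
  rw [hI]; exact term_nonneg w hw v z I

/-- size measure used for minimality -/
noncomputable def mu {j : ℕ} (v : Fin j → Fin (n + 1) → ℤ) : ℕ := (W v).leadingCoeff.natAbs

lemma exists_min {U : Submodule ℚ (Fin (n + 1) → ℚ)} (h : ∃ j v, IB U j v) (hw : ∀ k, 0 < w k) :
    ∃ j, ∃ v : Fin j → Fin (n + 1) → ℤ, IB U j v ∧
      ∀ v' : Fin j → Fin (n + 1) → ℤ, IB U j v' → ∀ z, Nm w v z ≤ Nm w v' z := by
  classical
  obtain ⟨j, v0, hv0⟩ := h
  have hex : ∃ m : ℕ, ∃ v : Fin j → Fin (n + 1) → ℤ, IB U j v ∧ mu v = m := ⟨_, v0, hv0, rfl⟩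
  obtain ⟨v, hv, hmu⟩ := Nat.find_spec hex
  refine ⟨j, v, hv, fun v' hv' z => ?_⟩
  obtain ⟨d, hd⟩ := hv.prop hv'
  have hmin : mu v ≤ mu v' := by
    rw [hmu]; exact Nat.find_min' hex ⟨v', hv', rfl⟩
  have hWne := W_ne_zero v hv.1
  have hd1 : 1 ≤ |d| := by
    have h1 := congrArg leadingCoeff (hd (fun b => (b : ℕ)))
    rw [← W_eq_Dt, ← W_eq_Dt, leadingCoeff_mul, leadingCoeff_C,
      leadingCoeff_map_of_injective (RingHom.injective_int _),
      leadingCoeff_map_of_injective (RingHom.injective_int _)] at h1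
    have h2 : (0 : ℚ) < |((W v).leadingCoeff : ℚ)| := by
      rw [abs_pos]
      exact_mod_cast leadingCoeff_ne_zero.2 hWne
    have h3 : |((W v).leadingCoeff : ℚ)| ≤ |((W v').leadingCoeff : ℚ)| := by
      unfold mu at hmin
      have : (((W v).leadingCoeff.natAbs : ℤ) : ℚ) ≤ (((W v').leadingCoeff.natAbs : ℤ) : ℚ) := by
        exact_mod_cast hmin
      rw [Int.natCast_natAbs, Int.natCast_natAbs] at this
      simpa using this
    simp only [eq_intCast] at h1
    rw [h1, abs_mul] at h3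
    by_contra hcon
    push Not at hcon
    nlinarith
  obtain ⟨I, hI⟩ := exists_term w v z
  rw [hI]
  refine le_trans ?_ (term_le w v' z I)
  unfold term
  refine div_le_div_of_nonneg_right ?_ (Finset.prod_nonneg (fun b _ => (hw _).le))
  have h1 := congrArg (fun p : ℚ[X] => (p.map (Rat.castHom ℝ)).eval z) (hd (fun b => (I b : ℕ)))
  simp only [Polynomial.map_mul, map_C, eval_mul, eval_C, Polynomial.map_map] at h1
  have h2 : (Rat.castHom ℝ).comp (Int.castRingHom ℚ) = Int.castRingHom ℝ := RingHom.ext_int _ _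
  rw [h2] at h1
  rw [h1, abs_mul]
  have h3 : (1 : ℝ) ≤ |(Rat.castHom ℝ) d| := by
    rw [Rat.coe_castHom, ← Rat.cast_abs]
    exact_mod_cast hd1
  nlinarith [abs_nonneg (eval z (Polynomial.map (Int.castRingHom ℝ) (Dt v fun b => ↑(I b))))]

/-- norm of one vector -/
noncomputable def nrm (u : Fin (n + 1) → ℤ) (z : ℝ) (k : Fin (n + 1)) : ℝ :=
  |((hasseDeriv (k : ℕ) (toP u)).map (Int.castRingHom ℝ)).eval z| / w k

lemma laplace (hw : ∀ k, 0 < w k) {j : ℕ} (v : Fin j → Fin (n + 1) → ℤ) (u : Fin (n + 1) → ℤ) (z X : ℝ)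
    (hX : ∀ k, nrm w u z k ≤ X) :
    Nm w (Fin.cons u v : Fin (j + 1) → Fin (n + 1) → ℤ) z ≤ (j + 1) * X * Nm w v z := by
  obtain ⟨I, hI⟩ := exists_term w (Fin.cons u v : Fin (j + 1) → Fin (n + 1) → ℤ) z
  rw [hI]
  have hX0 : 0 ≤ X := le_trans (div_nonneg (abs_nonneg _) (hw 0).le) (hX 0)
  have hexp : ((Dt (Fin.cons u v : Fin (j + 1) → Fin (n + 1) → ℤ) (fun b => (I b : ℕ))).map
      (Int.castRingHom ℝ)).eval z = ∑ b : Fin (j + 1), (-1) ^ (b : ℕ) *
        ((hasseDeriv (I b : ℕ) (toP u)).map (Int.castRingHom ℝ)).eval z *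
        ((Dt v (fun c => (I (b.succAbove c) : ℕ))).map (Int.castRingHom ℝ)).eval z := by
    unfold Dt
    rw [Matrix.det_succ_row_zero, Polynomial.map_sum, eval_finsetSum]
    refine Finset.sum_congr rfl (fun b _ => ?_)
    simp only [Polynomial.map_mul, Polynomial.map_pow, Polynomial.map_neg, Polynomial.map_one,
      eval_mul, eval_pow, eval_neg, eval_one, Matrix.of_apply, Fin.cons_zero]
    congr 3
  unfold term
  rw [hexp, div_le_iff₀ (Finset.prod_pos (fun b _ => hw _))]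
  calc |∑ b : Fin (j + 1), (-1) ^ (b : ℕ) *
        ((hasseDeriv (I b : ℕ) (toP u)).map (Int.castRingHom ℝ)).eval z *
        ((Dt v (fun c => (I (b.succAbove c) : ℕ))).map (Int.castRingHom ℝ)).eval z|
      ≤ ∑ b : Fin (j + 1), |(-1) ^ (b : ℕ) *
        ((hasseDeriv (I b : ℕ) (toP u)).map (Int.castRingHom ℝ)).eval z *
        ((Dt v (fun c => (I (b.succAbove c) : ℕ))).map (Int.castRingHom ℝ)).eval z| :=
        Finset.abs_sum_le_sum_abs _ _
    _ ≤ ∑ b : Fin (j + 1), X * Nm w v z * ∏ b, w (I b) := by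
        refine Finset.sum_le_sum (fun b _ => ?_)
        rw [abs_mul, abs_mul, abs_pow, abs_neg, abs_one, one_pow, one_mul]
        have h1 := hX (I b)
        unfold nrm at h1
        rw [div_le_iff₀ (hw _)] at h1
        have h2 := term_le w v z (fun c => I (b.succAbove c))
        unfold term at h2
        rw [div_le_iff₀ (Finset.prod_pos (fun b _ => hw _))] at h2
        rw [Fin.prod_univ_succAbove (fun b => w (I b)) b]
        calc _ ≤ (X * w (I b)) * (Nm w v z * ∏ c, w (I (b.succAbove c))) :=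
              mul_le_mul h1 h2 (abs_nonneg _) (mul_nonneg hX0 (hw _).le)
          _ = _ := by ring
    _ = (j + 1) * X * Nm w v z * ∏ b, w (I b) := by
        rw [Finset.sum_const, Finset.card_univ, Fintype.card_fin, nsmul_eq_mul]; push_cast; ring


/-- a nonzero integer polynomial is not small at some point of `[0,1)` -/
lemma exists_large (D : ℕ) (F : ℤ[X]) (hF : F ≠ 0) (hD : F.natDegree ≤ D) :
    ∃ z ∈ Ico (0 : ℝ) 1, 1 / ((D : ℝ) + 1) ^ D ≤ |(F.map (Int.castRingHom ℝ)).eval z| := by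
  classical
  have hFR : F.map (Int.castRingHom ℝ) ≠ 0 := (Polynomial.map_ne_zero_iff
    (RingHom.injective_int (Int.castRingHom ℝ))).2 hF
  set pts : Finset ℝ := (Finset.range (D + 1)).image (fun i : ℕ => ((i : ℤ) : ℝ) / ((D + 1 : ℕ) : ℤ)) with hpts
  have hcard : pts.card = D + 1 := by
    rw [hpts, Finset.card_image_of_injective, Finset.card_range]
    intro a b hab
    simp only at hab
    have h0 : (((D + 1 : ℕ) : ℤ) : ℝ) ≠ 0 := by
      simp only [Int.cast_natCast, ne_eq, Nat.cast_eq_zero]; omega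
    rw [div_left_inj' h0] at hab
    exact_mod_cast hab
  have hex : ∃ z ∈ pts, (F.map (Int.castRingHom ℝ)).eval z ≠ 0 := by
    by_contra hcon
    push Not at hcon
    have hsub : pts ⊆ (F.map (Int.castRingHom ℝ)).roots.toFinset := by
      intro z hz
      rw [Multiset.mem_toFinset, mem_roots hFR]
      exact hcon z hz
    have h1 := Finset.card_le_card hsub
    have h2 := (Multiset.toFinset_card_le (F.map (Int.castRingHom ℝ)).roots).trans
      ((card_roots' _).trans (natDegree_map_le.trans hD))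
    omega
  obtain ⟨z, hz, hz0⟩ := hex
  rw [hpts, Finset.mem_image] at hz
  obtain ⟨i, hi, rfl⟩ := hz
  rw [Finset.mem_range] at hi
  have hi' : (i : ℝ) < D + 1 := by exact_mod_cast hi
  refine ⟨((i : ℤ) : ℝ) / ((D + 1 : ℕ) : ℤ), ⟨by positivity, ?_⟩, ?_⟩
  · rw [div_lt_one (by push_cast; positivity)]
    push_cast; exact hi'
  · have h1 := one_le_pow_mul_abs_eval_div (K := ℝ) (f := F) (a := (i : ℤ)) (b := ((D + 1 : ℕ) : ℤ))
      (by positivity) hz0
    rw [div_le_iff₀ (by positivity)]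
    have h3 : ((((D + 1 : ℕ) : ℤ) : ℝ)) = (D : ℝ) + 1 := by push_cast; ring
    rw [h3] at h1 ⊢
    have h2 : ((D : ℝ) + 1) ^ F.natDegree ≤ ((D : ℝ) + 1) ^ D :=
      pow_le_pow_right₀ (by linarith [(Nat.cast_nonneg D : (0 : ℝ) ≤ D)]) hD
    have h4 : (1 : ℝ) ≤ ((D : ℝ) + 1) ^ D * |eval (((i : ℤ) : ℝ) / ((D : ℝ) + 1)) (F.map (algebraMap ℤ ℝ))| :=
      h1.trans (mul_le_mul_of_nonneg_right h2 (abs_nonneg _))
    rw [mul_comm]
    exact h4

/-- the poset of nonzero rational subspaces with an integer basis -/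
def SB (n : ℕ) := {U : Submodule ℚ (Fin (n + 1) → ℚ) // ∃ j v, IB U j v}

instance (n : ℕ) : PartialOrder (SB n) := Subtype.partialOrder _

noncomputable def dimOf (hw : ∀ k, 0 < w k) (s : SB n) : ℕ := (exists_min w s.2 hw).choose

noncomputable def basOf (hw : ∀ k, 0 < w k) (s : SB n) : Fin (dimOf w hw s) → Fin (n + 1) → ℤ :=
  (exists_min w s.2 hw).choose_spec.choose

lemma basOf_IB (hw : ∀ k, 0 < w k) (s : SB n) : IB s.1 (dimOf w hw s) (basOf w hw s) :=
  (exists_min w s.2 hw).choose_spec.choose_spec.1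

lemma basOf_min (hw : ∀ k, 0 < w k) (s : SB n) (v' : Fin (dimOf w hw s) → Fin (n + 1) → ℤ)
    (h : IB s.1 (dimOf w hw s) v') (z : ℝ) : Nm w (basOf w hw s) z ≤ Nm w v' z :=
  (exists_min w s.2 hw).choose_spec.choose_spec.2 v' h z

lemma basOf_min' (hw : ∀ k, 0 < w k) (s : SB n) {j : ℕ} (v' : Fin j → Fin (n + 1) → ℤ)
    (h : IB s.1 j v') (z : ℝ) : Nm w (basOf w hw s) z ≤ Nm w v' z := by
  have hj : j = dimOf w hw s := by rw [← h.finrank, (basOf_IB w hw s).finrank]
  subst hj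
  exact basOf_min w hw s v' h z

/-- rank -/
noncomputable def rk (s : SB n) : ℕ := Module.finrank ℚ s.1

lemma dimOf_eq (hw : ∀ k, 0 < w k) (s : SB n) : dimOf w hw s = rk s := (basOf_IB w hw s).finrank.symm

/-- the function attached to a subspace -/
noncomputable def fS (hw : ∀ k, 0 < w k) (ρ : ℝ) (s : SB n) (z : ℝ) : ℝ :=
  Nm w (basOf w hw s) z / ρ ^ (rk s)

lemma fS_cont (hw : ∀ k, 0 < w k) (ρ : ℝ) (s : SB n) : Continuous (fS w hw ρ s) :=
  (Nm_cont w _).div_const _

lemma fS_good (hn : 1 ≤ n) (hw : ∀ k, 0 < w k) (ρ : ℝ) (hρ : 0 < ρ) (s : SB n) (a l : ℝ) (hl : 0 < l)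
    (hex : ∃ z ∈ Ico a (a + l), 1 ≤ fS w hw ρ s z) (ε : ℝ) (hε : 0 < ε) :
    volume {x ∈ Ico a (a + l) | fS w hw ρ s x < ε} ≤
      ENNReal.ofReal ((4 * (((n + 1) * n : ℕ) + 1) ^ 2) * ε ^ (1 / (((n + 1) * n : ℕ) : ℝ))) *
        ENNReal.ofReal l := by
  obtain ⟨z, hz, hz1⟩ := hex
  obtain ⟨I, hI⟩ := exists_term w (basOf w hw s) z
  set j := rk s with hj
  have hρj : 0 < ρ ^ j := by positivity
  have hwI : 0 < ∏ b, w (I b) := Finset.prod_pos (fun _ _ => hw _)
  set p := (Dt (basOf w hw s) (fun b => (I b : ℕ))).map (Int.castRingHom ℝ) with hp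
  have hdeg : p.natDegree ≤ (n + 1) * n := by
    refine natDegree_map_le.trans ((Dt_natDegree _ _).trans ?_)
    exact Nat.mul_le_mul_right _ (basOf_IB w hw s).le
  have h1 : ρ ^ j * ∏ b, w (I b) ≤ |p.eval z| := by
    unfold fS at hz1
    rw [hI, one_le_div hρj] at hz1
    unfold term at hz1
    rwa [le_div_iff₀ hwI] at hz1
  have h2 := sublevel ((n + 1) * n) (by nlinarith) p hdeg a l hl z (ρ ^ j * ∏ b, w (I b))
    (ε * (ρ ^ j * ∏ b, w (I b))) hz (by positivity) h1 (by positivity)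
  rw [mul_div_assoc, div_self (by positivity), mul_one] at h2
  rw [← ENNReal.ofReal_mul (by positivity)]
  refine le_trans (measure_mono ?_) h2
  rintro x ⟨hx, hx'⟩
  refine ⟨hx, ?_⟩
  unfold fS at hx'
  rw [div_lt_iff₀ hρj] at hx'
  have h3 := term_le w (basOf w hw s) x I
  unfold term at h3
  have h4 := lt_of_le_of_lt h3 hx'
  rw [div_lt_iff₀ hwI] at h4
  linarith

lemma rk_strict (s s' : SB n) (h : s < s') : rk s < rk s' :=
  Submodule.finrank_lt_finrank_of_lt h

lemma castQ_eq_zero {u : Fin (n + 1) → ℤ} (h : castQ u = 0) : u = 0 := by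
  ext i
  have := congrFun h i
  simp only [castQ, Pi.zero_apply, Int.cast_eq_zero] at this
  exact this

/-- the bottom element -/
def botS (n : ℕ) : SB n := ⟨⊥, 0, Fin.elim0, by
  constructor
  · exact linearIndependent_empty_type
  · simp⟩

lemma Nm_empty (v : Fin 0 → Fin (n + 1) → ℤ) (z : ℝ) : Nm w v z = 1 := by
  obtain ⟨I, hI⟩ := exists_term w v z
  rw [hI]
  unfold term Dt
  simp

/-- marked points have no short vectors -/
lemma marked_bound (hw : ∀ k, 0 < w k) (ρ : ℝ) (hρ : 0 < ρ) (ε : ℝ) (hε : 0 < ε) (hε1 : ε ≤ 1) (z : ℝ)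
    (hM : Marked (fS w hw ρ) {s : SB n | s.1 ≠ ⊥} ε z) (u : Fin (n + 1) → ℤ) (hu : u ≠ 0) (X : ℝ)
    (hX : ∀ k, nrm w u z k ≤ X) : ε * ρ ≤ (n + 1) * X := by
  classical
  obtain ⟨F, hFT, hFc, hF1, hF2⟩ := hM
  have hX0 : 0 ≤ X := le_trans (div_nonneg (abs_nonneg _) (hw 0).le) (hX 0)
  -- choose the largest element of `F ∪ {⊥}` not containing `u`
  obtain ⟨A, hAF, hAu, hAf, hAmax⟩ : ∃ A : SB n, (A ∈ F ∨ A = botS n) ∧ castQ u ∉ A.1 ∧
      Nm w (basOf w hw A) z ≤ ρ ^ (rk A) ∧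
      ∀ s ∈ F, castQ u ∉ s.1 → s ≤ A := by
    by_cases hne : ∃ s ∈ F, castQ u ∉ s.1
    · have hex : ∃ m : ℕ, ∃ s ∈ F, castQ u ∉ s.1 ∧ (n + 1) - rk s = m := by
        obtain ⟨s, hs, hs'⟩ := hne
        exact ⟨_, s, hs, hs', rfl⟩
      obtain ⟨A, hA, hAu, hAm⟩ := Nat.find_spec hex
      refine ⟨A, Or.inl hA, hAu, ?_, ?_⟩
      · have := (hF1 A hA).2
        unfold fS at this
        rwa [div_le_one (by positivity)] at this
      · intro s hs hsu
        rcases eq_or_ne s A with h | h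
        · exact h.le
        rcases hFc hs hA h with h' | h'
        · exact h'
        · exfalso
          have hlt := rk_strict A s (lt_of_le_of_ne h' h.symm)
          have hmin := Nat.find_min' hex ⟨s, hs, hsu, rfl⟩
          have hle : rk s ≤ n + 1 := by
            rw [← dimOf_eq w hw]; exact (basOf_IB w hw s).le
          omega
    · push Not at hne
      refine ⟨botS n, Or.inr rfl, ?_, ?_, ?_⟩
      · intro h
        have : castQ u ∈ (⊥ : Submodule ℚ (Fin (n + 1) → ℚ)) := h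
        rw [Submodule.mem_bot] at this
        exact hu (castQ_eq_zero this)
      · have h0 : rk (botS n) = 0 := by
          unfold rk botS; simp
        have hIB : IB (botS n).1 0 (Fin.elim0 : Fin 0 → Fin (n + 1) → ℤ) := by
          constructor
          · exact linearIndependent_empty_type
          · simp [botS]
        have := basOf_min' w hw (botS n) _ hIB z
        rw [Nm_empty] at this
        rw [h0, pow_zero]
        exact this
      · intro s hs hsu
        exact absurd (hne s hs) hsu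
  have hIB := basOf_IB w hw A
  have hjj : dimOf w hw A = rk A := dimOf_eq w hw A
  -- the new subspace
  have hIB' : IB (A.1 ⊔ Submodule.span ℚ {castQ u}) (dimOf w hw A + 1)
      (Fin.cons u (basOf w hw A) : Fin (dimOf w hw A + 1) → Fin (n + 1) → ℤ) := by
    have hcomp : (fun a => castQ ((Fin.cons u (basOf w hw A) : Fin (dimOf w hw A + 1) → Fin (n + 1) → ℤ) a)) =
        (Fin.cons (castQ u) (fun a => castQ (basOf w hw A a)) : Fin (dimOf w hw A + 1) → Fin (n + 1) → ℚ) := by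
      ext a
      refine Fin.cases ?_ (fun a => ?_) a
      · simp
      · simp
    constructor
    · rw [hcomp]
      rw [linearIndependent_finCons]
      refine ⟨hIB.1, ?_⟩
      rw [hIB.2]; exact hAu
    · rw [hcomp, Fin.range_cons, Submodule.span_insert, hIB.2, sup_comm]
  set A' : SB n := ⟨A.1 ⊔ Submodule.span ℚ {castQ u}, dimOf w hw A + 1, _, hIB'⟩ with hA'
  have hA'u : castQ u ∈ A'.1 := Submodule.mem_sup_right (Submodule.mem_span_singleton_self _)
  have hAA' : A ≤ A' := by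
    change A.1 ≤ A'.1
    exact le_sup_left
  have hA'ne : A' ∈ {s : SB n | s.1 ≠ ⊥} := by
    intro h
    rw [h, Submodule.mem_bot] at hA'u
    exact hu (castQ_eq_zero hA'u)
  have hcmp : ∀ s' ∈ F, A' ≤ s' ∨ s' ≤ A' := by
    intro s' hs'
    by_cases hsu : castQ u ∈ s'.1
    · left
      have hAs : A ≤ s' := by
        rcases hAF with h | h
        · rcases eq_or_ne A s' with h2 | h2
          · exact h2.le
          · rcases hFc h hs' h2 with h3 | h3
            · exact h3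
            · exact absurd (h3 hsu) hAu
        · rw [h]
          change (⊥ : Submodule ℚ (Fin (n + 1) → ℚ)) ≤ s'.1
          exact bot_le
      change A.1 ⊔ Submodule.span ℚ {castQ u} ≤ s'.1
      refine sup_le hAs ?_
      rw [Submodule.span_singleton_le_iff_mem]
      exact hsu
    · right
      exact (hAmax s' hs' hsu).trans hAA'
  have hfA' : ε ≤ fS w hw ρ A' z := by
    rcases hF2 A' hA'ne hcmp with h | h
    · exact (hF1 A' h).1
    · exact hε1.trans h
  have hdim : rk A' = rk A + 1 := by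
    rw [← hjj]; exact hIB'.finrank
  have h1 := basOf_min' w hw A' _ hIB' z
  have h2 := laplace w hw (basOf w hw A) u z X hX
  unfold fS at hfA'
  rw [hdim, le_div_iff₀ (by positivity)] at hfA'
  have hjjR : ((dimOf w hw A : ℕ) : ℝ) = (rk A : ℝ) := by exact_mod_cast hjj
  rw [hjjR] at h2
  set j := rk A with hj
  have h3 : ε * ρ ^ (j + 1) ≤ (j + 1) * X * ρ ^ j := by
    calc ε * ρ ^ (j + 1) ≤ Nm w (basOf w hw A') z := hfA'
      _ ≤ _ := h1
      _ ≤ (j + 1) * X * Nm w (basOf w hw A) z := h2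
      _ ≤ (j + 1) * X * ρ ^ j := by gcongr
  have h4 : ε * ρ ≤ (j + 1) * X := by
    have hρj : 0 < ρ ^ j := by positivity
    have : (ε * ρ) * ρ ^ j ≤ ((j + 1) * X) * ρ ^ j := by
      calc (ε * ρ) * ρ ^ j = ε * ρ ^ (j + 1) := by ring
        _ ≤ _ := h3
    exact le_of_mul_le_mul_right this hρj
  refine h4.trans ?_
  have hj1 : (j : ℝ) + 1 ≤ n + 1 := by
    have := hIB'.le
    rw [hjj] at this
    exact_mod_cast this
  exact mul_le_mul_of_nonneg_right hj1 hX0

/-- concrete quantitative nondivergence -/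
theorem km_concrete (hn : 1 ≤ n) (hw : ∀ k, 0 < w k) (ρ : ℝ) (hρ : 0 < ρ)
    (hrich : ∀ j : ℕ, 1 ≤ j → ∀ hj : j ≤ n + 1, ρ ^ j * ∏ b : Fin j, w (Fin.castLE hj b) ≤
      1 / ((((n + 1) * n : ℕ) : ℝ) + 1) ^ ((n + 1) * n)) (ε : ℝ) (hε : 0 < ε) (hε1 : ε ≤ 1) :
    volume {z ∈ Ico (-1 : ℝ) 2 | ∃ u : Fin (n + 1) → ℤ, u ≠ 0 ∧
        ∀ k : Fin (n + 1), (n + 1) * |((hasseDeriv (k : ℕ) (toP u)).map (Int.castRingHom ℝ)).eval z| < ε * ρ * w k} ≤
      ENNReal.ofReal (kmC (4 * (((n + 1) * n : ℕ) + 1) ^ 2) (n + 1) *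
        ε ^ (1 / (((n + 1) * n : ℕ) : ℝ)) * 3) := by
  classical
  have hkm := km (fS w hw ρ) rk rk_strict (fS_cont w hw ρ) (4 * (((n + 1) * n : ℕ) + 1) ^ 2)
    (1 / (((n + 1) * n : ℕ) : ℝ)) (by positivity)
    (fun s a l hl hex ε hε => fS_good w hn hw ρ hρ s a l hl hex ε hε) (n + 1)
    {s : SB n | s.1 ≠ ⊥} (Finset.Icc 1 (n + 1)) (by simp) (by
      intro s hs
      rw [Finset.mem_Icc]
      constructor
      · unfold rk
        rw [Nat.one_le_iff_ne_zero]
        intro h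
        exact hs (Submodule.finrank_eq_zero.1 h)
      · rw [← dimOf_eq w hw]; exact (basOf_IB w hw s).le) (-1) 3 (by norm_num) (by
      intro s hs
      have hjle : dimOf w hw s ≤ n + 1 := (basOf_IB w hw s).le
      have hj1 : 1 ≤ dimOf w hw s := by
        rw [dimOf_eq, rk, Nat.one_le_iff_ne_zero]
        intro h
        exact hs (Submodule.finrank_eq_zero.1 h)
      have hW := W_ne_zero _ (basOf_IB w hw s).1
      obtain ⟨z, hz, hz1⟩ := exists_large ((n + 1) * n) _ hW (by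
        rw [W_eq_Dt]
        exact (Dt_natDegree _ _).trans (Nat.mul_le_mul_right _ hjle))
      refine ⟨z, ⟨by linarith [hz.1], by linarith [hz.2]⟩, ?_⟩
      unfold fS
      rw [one_le_div (by positivity), ← dimOf_eq w hw s]
      refine le_trans ?_ (term_le w _ z (fun b => Fin.castLE hjle b))
      unfold term
      rw [le_div_iff₀ (Finset.prod_pos (fun _ _ => hw _))]
      refine (hrich _ hj1 hjle).trans ?_
      refine hz1.trans (le_of_eq ?_)
      rw [W_eq_Dt]
      rfl) ε hε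
  refine le_trans (measure_mono ?_) (hkm.trans (le_of_eq ?_))
  · rintro z ⟨hz, u, hu, hk⟩
    refine ⟨⟨hz.1, by linarith [hz.2]⟩, fun hM => ?_⟩
    -- choose X = max of nrm
    obtain ⟨k0, _, hk0⟩ := Finset.exists_mem_eq_sup' (Finset.univ_nonempty (α := Fin (n + 1)))
      (nrm w u z)
    have h1 := marked_bound w hw ρ hρ ε hε hε1 z hM u hu (nrm w u z k0) (by
      intro k
      rw [← hk0]
      exact Finset.le_sup' (nrm w u z) (Finset.mem_univ k))
    have h2 := hk k0
    unfold nrm at h1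
    rw [mul_div_assoc', le_div_iff₀ (hw k0)] at h1
    linarith
  · rw [← ENNReal.ofReal_mul (by
      have := kmC_nonneg (C := 4 * ((((n + 1) * n : ℕ) : ℝ) + 1) ^ 2) (by positivity) (n + 1)
      positivity)]

end weights

end Pool.Agent.Helper404
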