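import Mathlib
import Pool.Agent.Helper404.KMC
import Pool.Agent.Helper404.Dual

open MeasureTheory Set Polynomial

namespace Pool.Agent.Helper404

/-- the weights -/
noncomputable def wt (n : ℕ) (Y h t : ℝ) (k : Fin (n + 1)) : ℝ :=
  if (k : ℕ) = n then Y ^ n * h ^ (1 - t) else Y ^ ((2 * (k : ℕ) : ℤ) - n) * h

lemma wt_pos (n : ℕ) {Y h : ℝ} (t : ℝ) (hY : 0 < Y) (hh : 0 < h) (k : Fin (n + 1)) :
    0 < wt n Y h t k := by
  unfold wt
  split_ifs
  · have := Real.rpow_pos_of_pos hh (1 - t)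
    positivity
  · positivity

lemma prod_range (n : ℕ) {Y : ℝ} (h : ℝ) (hY : 0 < Y) (j : ℕ) :
    ∏ b ∈ Finset.range j, (Y ^ ((2 * (b : ℕ) : ℤ) - n) * h) =
      Y ^ ((j : ℤ) * (j - 1) - n * j) * h ^ j := by
  induction j with
  | zero => simp
  | succ j ih =>
    rw [Finset.prod_range_succ, ih]
    have e : ((j + 1 : ℕ) : ℤ) * (((j + 1 : ℕ) : ℤ) - 1) - n * ((j + 1 : ℕ) : ℤ) =
        ((j : ℤ) * (j - 1) - n * j) + ((2 * (j : ℕ) : ℤ) - n) := by push_cast; ring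
    rw [e, zpow_add₀ hY.ne', pow_succ]
    ring

lemma prod_wt_lt (n : ℕ) {Y : ℝ} (h t : ℝ) (hY : 0 < Y) (j : ℕ) (hj : j ≤ n) (hj' : j ≤ n + 1) :
    ∏ b : Fin j, wt n Y h t (Fin.castLE hj' b) = Y ^ ((j : ℤ) * (j - 1) - n * j) * h ^ j := by
  rw [← prod_range n h hY j, ← Fin.prod_univ_eq_prod_range (fun b => Y ^ ((2 * (b : ℕ) : ℤ) - n) * h) j]
  refine Finset.prod_congr rfl (fun b _ => ?_)
  unfold wt
  have : ((Fin.castLE hj' b : Fin (n + 1)) : ℕ) ≠ n := by
    have := b.2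
    simp only [Fin.val_castLE]
    omega
  rw [if_neg this]
  simp

lemma prod_wt_full (n : ℕ) {Y h : ℝ} (t : ℝ) (hY : 0 < Y) (hh : 0 < h) (hj' : n + 1 ≤ n + 1) :
    ∏ b : Fin (n + 1), wt n Y h t (Fin.castLE hj' b) = h ^ ((n : ℝ) + 1 - t) := by
  rw [Fin.prod_univ_castSucc]
  have h1 : ∏ i : Fin n, wt n Y h t (Fin.castLE hj' i.castSucc) = Y ^ ((n : ℤ) * (n - 1) - n * n) * h ^ n := by
    rw [← prod_range n h hY n, ← Fin.prod_univ_eq_prod_range (fun b => Y ^ ((2 * (b : ℕ) : ℤ) - n) * h) n]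
    refine Finset.prod_congr rfl (fun b _ => ?_)
    unfold wt
    have : ((Fin.castLE hj' b.castSucc : Fin (n + 1)) : ℕ) ≠ n := by
      have := b.2
      simp only [Fin.val_castLE, Fin.val_castSucc]
      omega
    rw [if_neg this]
    simp
  have h2 : wt n Y h t (Fin.castLE hj' (Fin.last n)) = Y ^ n * h ^ (1 - t) := by
    unfold wt
    rw [if_pos (by simp)]
  rw [h1, h2]
  have e1 : Y ^ ((n : ℤ) * (n - 1) - n * n) = (Y ^ n)⁻¹ := by
    rw [← zpow_natCast, ← zpow_neg]; congr 1; ring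
  rw [e1]
  have e2 : h ^ ((n : ℝ) + 1 - t) = h ^ n * h ^ (1 - t) := by
    rw [← Real.rpow_natCast, ← Real.rpow_add hh]; congr 1; ring
  rw [e2]
  have : Y ^ n ≠ 0 := by positivity
  field_simp

theorem S_meas (n : ℕ) (hn : 1 ≤ n) (t : ℝ) (ht : (n : ℝ) + 1 < t) (C1 C2 : ℝ) (hC1 : 1 ≤ C1)
    (hC2 : 0 < C2) : ∃ C3 : ℝ, 0 ≤ C3 ∧ ∃ γ : ℝ, 0 < γ ∧ ∀ Y h : ℝ, 1 ≤ Y → 1 ≤ h →
      h ^ (t / (n + 1)) ≤ C1 * Y →
      volume {z ∈ Ico (-1 : ℝ) 2 | ∃ u : Fin (n + 1) → ℤ, u ≠ 0 ∧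
        ∀ k : Fin (n + 1), |tc (toP u) k z| ≤ C2 * wt n Y h t k} ≤ ENNReal.ofReal (C3 * h ^ (-γ)) := by
  have hn0 : (0 : ℝ) < n := by exact_mod_cast hn
  set D : ℕ := (n + 1) * n with hD
  have hD1 : 1 ≤ D := by rw [hD]; nlinarith
  have hD0 : (0 : ℝ) < D := by exact_mod_cast hD1
  set K0 : ℝ := ((D : ℝ) + 1) ^ D with hK0
  have hK01 : 1 ≤ K0 := one_le_pow₀ (by linarith)
  set c' : ℝ := 1 / (C1 * K0) with hc'
  have hc'pos : 0 < c' := by positivity
  have hc'1 : c' ≤ 1 / K0 := by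
    rw [hc']
    apply one_div_le_one_div_of_le (by positivity)
    nlinarith
  have hc'2 : c' ≤ 1 := hc'1.trans (by rw [div_le_one (by positivity)]; exact hK01)
  set γ0 : ℝ := (t - n - 1) / (n + 1) with hγ0
  have hγ0pos : 0 < γ0 := div_pos (by linarith) (by linarith)
  set α : ℝ := 1 / (D : ℝ) with hα
  have hαpos : 0 < α := by positivity
  set K : ℝ := kmC (4 * ((D : ℝ) + 1) ^ 2) (n + 1) with hK
  have hKnn : 0 ≤ K := kmC_nonneg (by positivity) _
  refine ⟨3 * max K 1 * (2 * (n + 1) * C2 / c') ^ α, by positivity, γ0 * α, by positivity, ?_⟩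
  intro Y h hY hh hYh
  have hYpos : 0 < Y := by linarith
  have hhpos : 0 < h := by linarith
  set ρ : ℝ := c' * h ^ γ0 with hρ
  have hρpos : 0 < ρ := by
    have := Real.rpow_pos_of_pos hhpos γ0
    positivity
  set ε : ℝ := 2 * (n + 1) * C2 / ρ with hε
  have hεpos : 0 < ε := by positivity
  have hfin : 3 * max K 1 * (2 * (n + 1) * C2 / c') ^ α * h ^ (-(γ0 * α)) = 3 * max K 1 * ε ^ α := by
    have h1 : ε = (2 * (n + 1) * C2 / c') * h ^ (-γ0) := by
      rw [hε, hρ, Real.rpow_neg hhpos.le]; field_simp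
    rw [h1, Real.mul_rpow (by positivity) (Real.rpow_nonneg hhpos.le _), ← Real.rpow_mul hhpos.le]
    rw [neg_mul]; ring
  rw [hfin]
  rcases le_or_gt ε 1 with hε1 | hε1
  · have hkm := km_concrete (wt n Y h t) hn (fun k => wt_pos n t hYpos hhpos k) ρ hρpos (by
      intro j hj1 hj
      rw [← hD]
      rcases Nat.lt_or_ge n j with hlt | hge
      · have hjn : j = n + 1 := by omega
        subst hjn
        rw [prod_wt_full n t hYpos hhpos hj, hρ, mul_pow]
        have e1 : (h ^ γ0) ^ (n + 1) * h ^ ((n : ℝ) + 1 - t) = 1 := by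
          rw [← Real.rpow_natCast, ← Real.rpow_mul hhpos.le, ← Real.rpow_add hhpos, hγ0]
          push_cast
          have : (t - n - 1) / (n + 1) * ((n : ℝ) + 1) + (n + 1 - t) = 0 := by field_simp; ring
          rw [this, Real.rpow_zero]
        calc c' ^ (n + 1) * (h ^ γ0) ^ (n + 1) * h ^ ((n : ℝ) + 1 - t)
            = c' ^ (n + 1) * ((h ^ γ0) ^ (n + 1) * h ^ ((n : ℝ) + 1 - t)) := by ring
          _ = c' ^ (n + 1) := by rw [e1, mul_one]
          _ ≤ c' := pow_le_of_le_one hc'pos.le hc'2 (by omega)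
          _ ≤ 1 / K0 := hc'1
      · rw [prod_wt_lt n h t hYpos j hge hj]
        have e1 : ρ * h ≤ Y / K0 := by
          have e2 : ρ * h = c' * h ^ (t / (n + 1)) := by
            rw [hρ, mul_assoc]
            congr 1
            conv_lhs => rw [show h ^ γ0 * h = h ^ γ0 * h ^ (1 : ℝ) by rw [Real.rpow_one]]
            rw [← Real.rpow_add hhpos, hγ0]
            congr 1; field_simp; ring
          rw [e2]
          calc c' * h ^ (t / (n + 1)) ≤ c' * (C1 * Y) := by gcongr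
            _ = Y / K0 := by rw [hc']; field_simp
        have e3 : Y ^ ((j : ℤ) * (j - 1) - n * j) ≤ (Y ^ j)⁻¹ := by
          rw [← zpow_natCast, ← zpow_neg]
          apply zpow_le_zpow_right₀ hY
          have h3 : (j : ℤ) ≤ n := by exact_mod_cast hge
          have h4 : (1 : ℤ) ≤ j := by exact_mod_cast hj1
          nlinarith
        have hKpow : K0 ≤ K0 ^ j := le_self_pow₀ hK01 (by omega)
        calc ρ ^ j * (Y ^ ((j : ℤ) * (j - 1) - n * j) * h ^ j)
            = (ρ * h) ^ j * Y ^ ((j : ℤ) * (j - 1) - n * j) := by rw [mul_pow]; ring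
          _ ≤ (Y / K0) ^ j * (Y ^ j)⁻¹ := by gcongr
          _ = 1 / K0 ^ j := by rw [div_pow]; field_simp
          _ ≤ 1 / K0 := one_div_le_one_div_of_le (by positivity) hKpow) ε hεpos hε1
    refine le_trans (measure_mono ?_) (hkm.trans (ENNReal.ofReal_le_ofReal ?_))
    · rintro z ⟨hz, u, hu, hk⟩
      refine ⟨hz, u, hu, fun k => ?_⟩
      have h1 := hk k
      have hwp := wt_pos n t hYpos hhpos k
      have h2 : ε * ρ = 2 * (n + 1) * C2 := by rw [hε]; field_simp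
      rw [h2]
      unfold tc at h1
      calc _ ≤ ((n : ℝ) + 1) * (C2 * wt n Y h t k) := by gcongr
        _ < 2 * (n + 1) * C2 * wt n Y h t k := by
          have : 0 < ((n : ℝ) + 1) * C2 * wt n Y h t k := by positivity
          linarith
    · rw [← hD, ← hK, ← hα]
      have : K ≤ max K 1 := le_max_left _ _
      have h3 : 0 ≤ ε ^ α := Real.rpow_nonneg hεpos.le _
      nlinarith
  · calc volume {z ∈ Ico (-1 : ℝ) 2 | ∃ u : Fin (n + 1) → ℤ, u ≠ 0 ∧
        ∀ k : Fin (n + 1), |tc (toP u) k z| ≤ C2 * wt n Y h t k} ≤ volume (Ico (-1 : ℝ) 2) :=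
          measure_mono (fun z hz => hz.1)
      _ = ENNReal.ofReal 3 := by rw [Real.volume_Ico]; norm_num
      _ ≤ _ := by
        apply ENNReal.ofReal_le_ofReal
        have h1 : 1 ≤ ε ^ α := Real.one_le_rpow hε1.le hαpos.le
        have h2 : 1 ≤ max K 1 := le_max_right _ _
        nlinarith

end Pool.Agent.Helper404
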