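import Mathlib
import Pool.Agent.Helper404.Defs
import Pool.Agent.Helper404.Meas

open MeasureTheory Set Polynomial

namespace Pool.Agent.Helper404

lemma coeff_le_HP (Q : ℤ[X]) (i : ℕ) : |(Q.coeff i : ℝ)| ≤ HP Q := by
  by_cases h : i ∈ Q.support
  · have h1 : (Q.coeff i).natAbs ≤ HP Q := Finset.le_sup (f := fun i => (Q.coeff i).natAbs) h
    have h2 : |(Q.coeff i : ℝ)| = ((Q.coeff i).natAbs : ℝ) := by
      rw [Nat.cast_natAbs, Int.cast_abs]
    rw [h2]; exact_mod_cast h1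
  · rw [notMem_support_iff.1 h]; simp

lemma HP_pos {Q : ℤ[X]} (hQ : Q ≠ 0) : 1 ≤ HP Q := by
  have h1 : Q.natDegree ∈ Q.support := natDegree_mem_support_of_nonzero hQ
  have h2 : (Q.coeff Q.natDegree).natAbs ≤ HP Q := Finset.le_sup (f := fun i => (Q.coeff i).natAbs) h1
  have h3 : Q.coeff Q.natDegree ≠ 0 := by rwa [coeff_natDegree, leadingCoeff_ne_zero]
  omega

lemma tc_zero (Q : ℤ[X]) (x : ℝ) : tc Q 0 x = aeval x Q := by
  unfold tc
  rw [hasseDeriv_zero, aeval_def, eval_map]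
  rfl

lemma tc_high (Q : ℤ[X]) (n : ℕ) (hQ : Q.natDegree ≤ n) (k : ℕ) (hk : n < k) (x : ℝ) : tc Q k x = 0 := by
  rw [tc_eq]
  apply coeff_eq_zero_of_natDegree_lt
  rw [natDegree_taylor]
  exact lt_of_le_of_lt (natDegree_map_le.trans hQ) hk

lemma tc_bound (n : ℕ) (Q : ℤ[X]) (hQ : Q.natDegree ≤ n) (m : ℕ) (x : ℝ) (hx : |x| ≤ 1) :
    |tc Q m x| ≤ (n + 1) * 2 ^ n * HP Q := by
  unfold tc
  rw [eval_eq_sum_range' (n := n + 1) (Nat.lt_succ_of_le (natDegree_map_le.trans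
    ((natDegree_hasseDeriv_le _ _).trans ((Nat.sub_le _ _).trans hQ))))]
  calc _ ≤ ∑ i ∈ Finset.range (n + 1), |((hasseDeriv m Q).map (Int.castRingHom ℝ)).coeff i * x ^ i| :=
        Finset.abs_sum_le_sum_abs _ _
    _ ≤ ∑ i ∈ Finset.range (n + 1), 2 ^ n * (HP Q : ℝ) := by
        refine Finset.sum_le_sum (fun i _ => ?_)
        rw [coeff_map, hasseDeriv_coeff, abs_mul, abs_pow]
        have h1 : |x| ^ i ≤ 1 := pow_le_one₀ (abs_nonneg _) hx
        simp only [Int.coe_castRingHom, Int.cast_mul, Int.cast_natCast, abs_mul, Nat.abs_cast]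
        by_cases him : i + m ≤ n
        · have h2 : ((i + m).choose m : ℝ) ≤ 2 ^ n := by
            have : (i + m).choose m ≤ 2 ^ (i + m) := Nat.choose_le_two_pow _ _
            have h3 : 2 ^ (i + m) ≤ 2 ^ n := Nat.pow_le_pow_right (by norm_num) him
            exact_mod_cast this.trans h3
          have h4 := coeff_le_HP Q (i + m)
          calc ((i + m).choose m : ℝ) * |(Q.coeff (i + m) : ℝ)| * |x| ^ i
              ≤ 2 ^ n * (HP Q : ℝ) * 1 := by gcongr
            _ = _ := by ring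
        · have : Q.coeff (i + m) = 0 := coeff_eq_zero_of_natDegree_lt (by omega)
          rw [this]; simp only [Int.cast_zero, abs_zero, mul_zero, zero_mul]; positivity
    _ = (n + 1) * 2 ^ n * HP Q := by
        rw [Finset.sum_const, Finset.card_range, nsmul_eq_mul]; push_cast; ring

lemma val_bound (n : ℕ) (Q : ℤ[X]) (hQ : Q.natDegree ≤ n) (x β : ℝ) (hx : |x| ≤ 1)
    (hβ : aeval β Q = 0) (c : ℝ) (hc : |x - β| ≤ c) :
    |aeval x Q| ≤ n * ((n + 1) * 2 ^ n * (1 + c) ^ n) * HP Q * |x - β| := by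
  have hc0 : 0 ≤ c := (abs_nonneg _).trans hc
  have h1 := eval_add_eq Q n hQ x (β - x)
  have h2 : (Q.map (Int.castRingHom ℝ)).eval (x + (β - x)) = 0 := by
    rw [add_sub_cancel, eval_map]
    rw [aeval_def] at hβ
    exact hβ
  rw [h2, Finset.sum_range_succ'] at h1
  simp only [pow_zero, mul_one] at h1
  rw [tc_zero] at h1
  have h3 : aeval x Q = - ∑ k ∈ Finset.range n, tc Q (k + 1) x * (β - x) ^ (k + 1) := by linarith
  rw [h3, abs_neg]
  calc _ ≤ ∑ k ∈ Finset.range n, |tc Q (k + 1) x * (β - x) ^ (k + 1)| := Finset.abs_sum_le_sum_abs _ _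
    _ ≤ ∑ k ∈ Finset.range n, ((n + 1) * 2 ^ n * (1 + c) ^ n) * HP Q * |x - β| := by
        refine Finset.sum_le_sum (fun k hk => ?_)
        rw [Finset.mem_range] at hk
        rw [abs_mul, abs_pow, abs_sub_comm β x, pow_succ]
        have h4 := tc_bound n Q hQ (k + 1) x hx
        have h5 : |x - β| ^ k ≤ (1 + c) ^ n := by
          calc |x - β| ^ k ≤ (1 + c) ^ k := pow_le_pow_left₀ (abs_nonneg _) (by linarith) k
            _ ≤ (1 + c) ^ n := pow_le_pow_right₀ (by linarith) hk.le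
        calc |tc Q (k + 1) x| * (|x - β| ^ k * |x - β|)
            ≤ ((n + 1) * 2 ^ n * HP Q) * ((1 + c) ^ n * |x - β|) := by gcongr
          _ = _ := by ring
    _ = _ := by rw [Finset.sum_const, Finset.card_range, nsmul_eq_mul]; ring

lemma no_rat_root (n : ℕ) (hn : 2 ≤ n) (Q : ℤ[X]) (hQ : Irreducible Q) (hd : Q.natDegree = n) (q : ℚ) :
    aeval (q : ℝ) Q ≠ 0 := by
  have hprim : Q.IsPrimitive := hQ.isPrimitive (by omega)
  have hirr := (IsPrimitive.Int.irreducible_iff_irreducible_map_cast hprim).1 hQ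
  have h1 := hirr.not_isRoot_of_natDegree_ne_one (x := q) (by
    rw [natDegree_map_eq_of_injective (RingHom.injective_int _)]; omega)
  intro h
  apply h1
  rw [IsRoot.def]
  have h2 : aeval (q : ℝ) Q = (Rat.castHom ℝ) ((Q.map (Int.castRingHom ℚ)).eval q) := by
    rw [eval_map, hom_eval₂, aeval_def,
      RingHom.ext_int ((Rat.castHom ℝ).comp (Int.castRingHom ℚ)) (algebraMap ℤ ℝ)]
    rfl
  rw [h2] at h
  exact (map_eq_zero _).1 h

lemma rat_lower (n : ℕ) (hn : 2 ≤ n) (Q : ℤ[X]) (hQ : Irreducible Q) (hd : Q.natDegree = n) (q : ℚ) :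
    1 ≤ (q.den : ℝ) ^ n * |aeval (q : ℝ) Q| := by
  have h0 := no_rat_root n hn Q hQ hd q
  have hq : ((q.num : ℤ) : ℝ) / ((q.den : ℤ) : ℝ) = (q : ℝ) := by
    rw [Int.cast_natCast]
    exact_mod_cast (Rat.cast_def (K := ℝ) q).symm
  have h1 := one_le_pow_mul_abs_eval_div (K := ℝ) (f := Q) (a := q.num) (b := (q.den : ℤ))
    (by exact_mod_cast q.den_pos) (by
      rw [hq, eval_map]
      rw [aeval_def] at h0
      exact h0)
  rw [hq, hd, eval_map] at h1
  rw [aeval_def]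
  exact_mod_cast h1

lemma tc_shift (U : ℤ[X]) (n : ℕ) (hU : U.natDegree ≤ n) (k : ℕ) (z s : ℝ) :
    tc U k (z + s) = ∑ i ∈ Finset.range (n + 1), ((i + k).choose i : ℝ) * tc U (i + k) z * s ^ i := by
  have h1 := eval_add_eq (hasseDeriv k U) n ((natDegree_hasseDeriv_le _ _).trans ((Nat.sub_le _ _).trans hU)) z s
  unfold tc
  unfold tc at h1
  rw [h1]
  refine Finset.sum_congr rfl (fun i _ => ?_)
  congr 1
  have h2 : hasseDeriv i (hasseDeriv k U) = ((i + k).choose i) • hasseDeriv (i + k) U := by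
    have := congrArg (fun f => f U) (hasseDeriv_comp (R := ℤ) i k)
    simpa using this
  rw [h2]
  simp

lemma wt_shift (n : ℕ) {Y h : ℝ} (t : ℝ) (hY : 1 ≤ Y) (hh : 1 ≤ h) (ht : 1 ≤ t) (k i : ℕ)
    (hki : i + k ≤ n) : wt n Y h t ⟨i + k, by omega⟩ * (1 / Y ^ 2) ^ i ≤ wt n Y h t ⟨k, by omega⟩ := by
  have hY0 : 0 < Y := by linarith
  have hh0 : 0 < h := by linarith
  rcases Nat.eq_zero_or_pos i with hi | hi
  · subst hi; simp
  have hk : k ≠ n := by omega
  unfold wt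
  simp only
  rw [if_neg hk]
  have key : Y ^ ((2 * ((i + k : ℕ) : ℤ)) - n) * (1 / Y ^ 2) ^ i = Y ^ ((2 * (k : ℤ)) - n) := by
    have e1 : (2 * ((i + k : ℕ) : ℤ)) - n = (2 * (k : ℤ) - n) + (2 * i : ℕ) := by push_cast; ring
    rw [e1, zpow_add₀ hY0.ne', zpow_natCast, one_div, inv_pow, ← pow_mul]
    have : Y ^ (2 * i) ≠ 0 := by positivity
    field_simp
  by_cases hin : i + k = n
  · rw [if_pos hin]
    have e2 : Y ^ n = Y ^ ((2 * ((i + k : ℕ) : ℤ)) - n) := by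
      rw [hin, ← zpow_natCast]; congr 1; ring
    have h1 : h ^ (1 - t) ≤ 1 := Real.rpow_le_one_of_one_le_of_nonpos hh (by linarith)
    calc Y ^ n * h ^ (1 - t) * (1 / Y ^ 2) ^ i = (Y ^ n * (1 / Y ^ 2) ^ i) * h ^ (1 - t) := by ring
      _ = Y ^ ((2 * (k : ℤ)) - n) * h ^ (1 - t) := by rw [e2, key]
      _ ≤ Y ^ ((2 * (k : ℤ)) - n) * h := by gcongr; linarith
  · rw [if_neg hin]
    apply le_of_eq
    calc Y ^ (2 * ((i + k : ℕ) : ℤ) - n) * h * (1 / Y ^ 2) ^ i
        = (Y ^ ((2 * ((i + k : ℕ) : ℤ)) - n) * (1 / Y ^ 2) ^ i) * h := by ring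
      _ = _ := by rw [key]

end Pool.Agent.Helper404
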