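import Mathlib
import Pool.Agent.Helper404.Bad

open MeasureTheory Set Polynomial

namespace Pool.Agent.Helper404

lemma HP_neg (P : ℤ[X]) : HP (-P) = HP P := by
  unfold HP
  rw [support_neg]
  congr 1
  ext i
  rw [coeff_neg, Int.natAbs_neg]

/-- an irreducible integer polynomial is determined up to sign by one real root -/
lemma uniq_poly (P Q : ℤ[X]) (hP : Irreducible P) (hQ : Irreducible Q) (hPd : P.natDegree ≠ 0)
    (hQd : Q.natDegree ≠ 0) (α : ℝ) (h1 : aeval α P = 0) (h2 : aeval α Q = 0) : Q = P ∨ Q = -P := by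
  have hPp : P.IsPrimitive := hP.isPrimitive hPd
  have hQp : Q.IsPrimitive := hQ.isPrimitive hQd
  have hP' := (IsPrimitive.Int.irreducible_iff_irreducible_map_cast hPp).1 hP
  have hQ' := (IsPrimitive.Int.irreducible_iff_irreducible_map_cast hQp).1 hQ
  have a1 : aeval α (P.map (Int.castRingHom ℚ)) = 0 := by
    rw [← h1]; exact aeval_map_algebraMap ℚ α P
  have a2 : aeval α (Q.map (Int.castRingHom ℚ)) = 0 := by
    rw [← h2]; exact aeval_map_algebraMap ℚ α Q
  have d1 := minpoly.dvd ℚ α a1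
  have d2 := minpoly.dvd ℚ α a2
  have halg : IsIntegral ℚ α := (isAlgebraic_iff_isIntegral).1 ⟨P.map (Int.castRingHom ℚ), hP'.ne_zero, a1⟩
  have hirr := minpoly.irreducible halg
  have as1 := hirr.associated_of_dvd hP' d1
  have as2 := hirr.associated_of_dvd hQ' d2
  have as3 : Associated (P.map (Int.castRingHom ℚ)) (Q.map (Int.castRingHom ℚ)) := as1.symm.trans as2
  have hdvd : P ∣ Q := (IsPrimitive.Int.dvd_iff_map_cast_dvd_map_cast P Q hPp).2 as3.dvd
  have as4 := hP.associated_of_dvd hQ hdvd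
  obtain ⟨u, hu⟩ := as4
  obtain ⟨r, hr, hr'⟩ := Polynomial.isUnit_iff.1 u.isUnit
  rcases Int.isUnit_iff.1 hr with h | h
  · left; rw [← hu, ← hr', h]; simp
  · right; rw [← hu, ← hr', h]; simp

/-- polynomial in the local coordinate -/
noncomputable def P0 (n : ℕ) (b K : ℤ) : ℤ[X] :=
  -1 + C K * ∑ i ∈ Finset.range n, C (b ^ (n - 1 - i)) * X ^ (i + 1)

noncomputable def Lp (p q : ℤ) : ℤ[X] := C q * X - C p

noncomputable def Pp (n : ℕ) (b K p q : ℤ) : ℤ[X] := (P0 n b K).comp (Lp p q)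

lemma P0_coeff_zero (n : ℕ) (b K : ℤ) : (P0 n b K).coeff 0 = -1 := by
  unfold P0
  rw [coeff_add, coeff_neg, coeff_one_zero, coeff_C_mul, finsetSum_coeff]
  rw [Finset.sum_eq_zero]
  · simp
  · intro i _
    rw [coeff_C_mul, coeff_X_pow]; simp

lemma P0_coeff (n : ℕ) (b K : ℤ) (m : ℕ) (hm : m < n) : (P0 n b K).coeff (m + 1) = K * b ^ (n - 1 - m) := by
  unfold P0
  rw [coeff_add, coeff_neg, coeff_one, if_neg (by omega), coeff_C_mul, finsetSum_coeff]
  rw [Finset.sum_eq_single m]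
  · rw [coeff_C_mul, coeff_X_pow]; simp
  · intro i _ hi
    rw [coeff_C_mul, coeff_X_pow, if_neg (by omega)]; simp
  · intro h; exact absurd (Finset.mem_range.2 hm) h

lemma P0_natDegree_le (n : ℕ) (b K : ℤ) : (P0 n b K).natDegree ≤ n := by
  unfold P0
  refine (natDegree_add_le _ _).trans (max_le ?_ ?_)
  · rw [natDegree_neg, natDegree_one]; omega
  · refine (natDegree_C_mul_le _ _).trans ?_
    apply natDegree_sum_le_of_forall_le
    intro i hi
    rw [Finset.mem_range] at hi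
    exact (natDegree_C_mul_X_pow_le _ _).trans (by omega)

lemma P0_natDegree (n : ℕ) (hn : 1 ≤ n) (b K : ℤ) (hK : K ≠ 0) : (P0 n b K).natDegree = n := by
  apply le_antisymm (P0_natDegree_le n b K)
  apply le_natDegree_of_ne_zero
  have := P0_coeff n b K (n - 1) (by omega)
  rw [show n - 1 + 1 = n by omega] at this
  rw [this, Nat.sub_self, pow_zero, mul_one]
  exact hK

lemma P0_lc (n : ℕ) (hn : 1 ≤ n) (b K : ℤ) (hK : K ≠ 0) : (P0 n b K).leadingCoeff = K := by
  rw [leadingCoeff, P0_natDegree n hn b K hK]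
  have := P0_coeff n b K (n - 1) (by omega)
  rw [show n - 1 + 1 = n by omega] at this
  rw [this, Nat.sub_self, pow_zero, mul_one]

lemma Lp_natDegree (p q : ℤ) (hq : q ≠ 0) : (Lp p q).natDegree = 1 := by
  unfold Lp
  rw [natDegree_sub_C, natDegree_C_mul hq, natDegree_X]

lemma Lp_lc (p q : ℤ) (hq : q ≠ 0) : (Lp p q).leadingCoeff = q := by
  rw [leadingCoeff, Lp_natDegree p q hq]
  unfold Lp
  rw [coeff_sub, coeff_C_mul, coeff_X_one, mul_one, coeff_C, if_neg one_ne_zero, sub_zero]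

lemma Pp_natDegree (n : ℕ) (hn : 1 ≤ n) (b K p q : ℤ) (hK : K ≠ 0) (hq : q ≠ 0) :
    (Pp n b K p q).natDegree = n := by
  unfold Pp
  rw [natDegree_comp, P0_natDegree n hn b K hK, Lp_natDegree p q hq, mul_one]

lemma Pp_lc (n : ℕ) (hn : 1 ≤ n) (b K p q : ℤ) (hK : K ≠ 0) (hq : q ≠ 0) :
    (Pp n b K p q).leadingCoeff = K * q ^ n := by
  unfold Pp
  rw [leadingCoeff_comp (by rw [Lp_natDegree p q hq]; exact one_ne_zero), P0_lc n hn b K hK,
    Lp_lc p q hq, P0_natDegree n hn b K hK]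

lemma Pp_irreducible (n : ℕ) (hn : 1 ≤ n) (b p q : ℤ) (l : ℕ) (hl : l.Prime) (hq : 0 < q)
    (hlq : ¬ (l : ℤ) ∣ q) : Irreducible (Pp n b (q * l) p q) := by
  set K : ℤ := q * l with hKdef
  have hl0 : (l : ℤ) ≠ 0 := by exact_mod_cast hl.ne_zero
  have hK : K ≠ 0 := mul_ne_zero hq.ne' hl0
  have hlp : Prime (l : ℤ) := Nat.prime_iff_prime_int.1 hl
  have hd := Pp_natDegree n hn b K p q hK hq.ne'
  have hlc := Pp_lc n hn b K p q hK hq.ne'
  have hform : ∃ g : ℤ[X], Pp n b K p q = -1 + C K * g := by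
    refine ⟨(∑ i ∈ Finset.range n, C (b ^ (n - 1 - i)) * X ^ (i + 1)).comp (Lp p q), ?_⟩
    unfold Pp P0
    simp
  obtain ⟨g, hg⟩ := hform
  have : Fact l.Prime := ⟨hl⟩
  set φ := mapRingHom (Int.castRingHom (ZMod l)) with hφ
  have hφP : φ (Pp n b K p q) = -1 := by
    have h2 : φ (C K) = 0 := by
      rw [hφ, coe_mapRingHom, map_C, hKdef]
      simp
    rw [hg, map_add, map_mul, map_neg, map_one, h2]; ring
  have key : ∀ A B : ℤ[X], Pp n b K p q = A * B → A.natDegree ≠ 0 → (l : ℤ) ∣ A.leadingCoeff := by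
    intro A B hAB hA
    have h1 : IsUnit (φ A) := by
      have h2 : φ A * φ B = -1 := by rw [← map_mul, ← hAB, hφP]
      exact IsUnit.of_mul_eq_one (-φ B) (by rw [mul_neg, h2, neg_neg])
    have h3 : (φ A).natDegree = 0 := natDegree_eq_zero_of_isUnit h1
    have h4 : (φ A).coeff A.natDegree = 0 := coeff_eq_zero_of_natDegree_lt (by omega)
    rw [hφ, coe_mapRingHom, coeff_map, coeff_natDegree] at h4
    simpa using (ZMod.intCast_zmod_eq_zero_iff_dvd _ l).1 (by simpa using h4)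
  have key2 : ∀ A B : ℤ[X], Pp n b K p q = A * B → A.natDegree = 0 → IsUnit A := by
    intro A B hAB hA
    rw [eq_C_of_natDegree_eq_zero hA] at hAB ⊢
    set a := A.coeff 0 with ha
    rw [isUnit_C]
    have h1 : -1 + K * g.coeff 0 = a * B.coeff 0 := by
      have := congrArg (fun P : ℤ[X] => P.coeff 0) (hg.symm.trans hAB)
      simpa using this
    have h2 : IsCoprime a K := ⟨-B.coeff 0, g.coeff 0, by linarith⟩
    have h3 : a ∣ K * q ^ n := by
      rw [← hlc, hAB, leadingCoeff_mul, leadingCoeff_C]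
      exact dvd_mul_right _ _
    have h4 : IsCoprime a q := h2.of_isCoprime_of_dvd_right ⟨l, hKdef⟩
    have h5 : IsCoprime a (K * q ^ n) := h2.mul_right (h4.pow_right)
    exact h5.isUnit_of_dvd' dvd_rfl h3
  refine ⟨?_, ?_⟩
  · intro h
    have := natDegree_eq_zero_of_isUnit h
    omega
  · intro A B hAB
    by_cases hA : A.natDegree = 0
    · left; exact key2 A B hAB hA
    by_cases hB : B.natDegree = 0
    · right; exact key2 B A (by rw [hAB, mul_comm]) hB
    exfalso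
    have h1 := key A B hAB hA
    have h2 := key B A (by rw [hAB, mul_comm]) hB
    have h3 : (l : ℤ) * l ∣ K * q ^ n := by
      rw [← hlc, hAB, leadingCoeff_mul]
      exact mul_dvd_mul h1 h2
    have h4 : (l : ℤ) * l ∣ l * (q * q ^ n) := by
      have : K * q ^ n = l * (q * q ^ n) := by rw [hKdef]; ring
      rwa [this] at h3
    have h5 : (l : ℤ) ∣ q * q ^ n := (mul_dvd_mul_iff_left hl0).1 h4
    rcases hlp.dvd_or_dvd h5 with h | h
    · exact hlq h
    · exact hlq (hlp.dvd_of_dvd_pow h)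

lemma Lp_pow_coeff (p q : ℤ) (hq : 0 ≤ q) (hp : |p| ≤ q) (m k : ℕ) :
    |((Lp p q) ^ m).coeff k| ≤ (2 * q) ^ m := by
  induction m generalizing k with
  | zero =>
    rw [pow_zero, pow_zero, coeff_one]
    split_ifs <;> simp
  | succ m ih =>
    rw [pow_succ]
    have h1 : ((Lp p q) ^ m * Lp p q) = C q * (X * (Lp p q) ^ m) - C p * (Lp p q) ^ m := by
      conv_lhs => rw [show (Lp p q) ^ m * Lp p q = (Lp p q) ^ m * (C q * X - C p) by rfl]
      ring
    rw [h1, coeff_sub, coeff_C_mul, coeff_C_mul]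
    have h2 : |(X * (Lp p q) ^ m).coeff k| ≤ (2 * q) ^ m := by
      cases k with
      | zero => simp; positivity
      | succ k => rw [coeff_X_mul]; exact ih k
    have h3 := ih k
    have h4 : 0 ≤ (2 * q) ^ m := by positivity
    calc |q * (X * (Lp p q) ^ m).coeff k - p * ((Lp p q) ^ m).coeff k|
        ≤ |q * (X * (Lp p q) ^ m).coeff k| + |p * ((Lp p q) ^ m).coeff k| := abs_sub _ _
      _ = q * |(X * (Lp p q) ^ m).coeff k| + |p| * |((Lp p q) ^ m).coeff k| := by
          rw [abs_mul, abs_mul, abs_of_nonneg hq]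
      _ ≤ q * (2 * q) ^ m + q * (2 * q) ^ m := by gcongr
      _ = (2 * q) ^ (m + 1) := by rw [pow_succ]; ring

lemma P0_coeff_abs (n : ℕ) (hn : 1 ≤ n) (b K : ℤ) (hb : 1 ≤ b) (hK : 1 ≤ K) (m : ℕ) :
    |(P0 n b K).coeff m| ≤ K * b ^ (n - 1) := by
  have hbn : (1 : ℤ) ≤ b ^ (n - 1) := one_le_pow₀ hb
  have hKb : (1 : ℤ) ≤ K * b ^ (n - 1) := one_le_mul_of_one_le_of_one_le hK hbn
  cases m with
  | zero => rw [P0_coeff_zero]; simpa using hKb
  | succ m =>
    by_cases hm : m < n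
    · rw [P0_coeff n b K m hm, abs_of_nonneg (by positivity)]
      have : b ^ (n - 1 - m) ≤ b ^ (n - 1) := pow_le_pow_right₀ hb (by omega)
      gcongr
    · rw [coeff_eq_zero_of_natDegree_lt (lt_of_le_of_lt (P0_natDegree_le n b K) (by omega))]
      simp; linarith

lemma HP_le_of (P : ℤ[X]) (M : ℤ) (h : ∀ k, |P.coeff k| ≤ M) : (HP P : ℤ) ≤ M := by
  unfold HP
  by_cases hs : P.support.Nonempty
  · obtain ⟨i, _, hi'⟩ := Finset.exists_mem_eq_sup P.support hs (fun i => (P.coeff i).natAbs)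
    rw [hi', Int.natCast_natAbs]
    exact h i
  · rw [Finset.not_nonempty_iff_eq_empty] at hs
    rw [hs]
    simp
    exact (abs_nonneg _).trans (h 0)

lemma Pp_HP (n : ℕ) (hn : 1 ≤ n) (b K p q : ℤ) (hb : 1 ≤ b) (hK : 1 ≤ K) (hq : 1 ≤ q) (hp : |p| ≤ q) :
    (HP (Pp n b K p q) : ℤ) ≤ (n + 1) * (2 * q) ^ n * (K * b ^ (n - 1)) := by
  apply HP_le_of
  intro k
  have h1 : (Pp n b K p q).coeff k =
      ∑ m ∈ Finset.range (n + 1), (P0 n b K).coeff m * ((Lp p q) ^ m).coeff k := by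
    unfold Pp
    rw [comp_eq_sum_left, sum_over_range' _ (by intro i; simp) (n + 1)
      (Nat.lt_succ_of_le (P0_natDegree_le n b K)), finsetSum_coeff]
    refine Finset.sum_congr rfl (fun m _ => ?_)
    rw [coeff_C_mul]
  rw [h1]
  calc _ ≤ ∑ m ∈ Finset.range (n + 1), |(P0 n b K).coeff m * ((Lp p q) ^ m).coeff k| :=
        Finset.abs_sum_le_sum_abs _ _
    _ ≤ ∑ m ∈ Finset.range (n + 1), (K * b ^ (n - 1)) * (2 * q) ^ n := by
        refine Finset.sum_le_sum (fun m hm => ?_)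
        rw [Finset.mem_range] at hm
        rw [abs_mul]
        have h2 := P0_coeff_abs n hn b K hb hK m
        have h3 := Lp_pow_coeff p q (by linarith) hp m k
        have h4 : (2 * q) ^ m ≤ (2 * q) ^ n := pow_le_pow_right₀ (by linarith) (by omega)
        have h5 : 0 ≤ K * b ^ (n - 1) := by positivity
        exact mul_le_mul h2 (h3.trans h4) (abs_nonneg _) h5
    _ = _ := by rw [Finset.sum_const, Finset.card_range, nsmul_eq_mul]; push_cast; ring

end Pool.Agent.Helper404
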