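import Mathlib
import Pool.Agent.Helper404.Dual
import Pool.Agent.Helper404.HitA

open Polynomial Module

namespace Pool.Agent.Helper404

/-- the cast map -/
noncomputable def cQ (P : ℤ[X]) : ℚ[X] := P.map (Int.castRingHom ℚ)

noncomputable def cQl : ℤ[X] →ₗ[ℤ] ℚ[X] := (mapRingHom (Int.castRingHom ℚ)).toAddMonoidHom.toIntLinearMap

lemma cQl_apply (P : ℤ[X]) : cQl P = cQ P := rfl

lemma cQ_inj : Function.Injective cQ := Polynomial.map_injective _ (RingHom.injective_int _)

/-- the rational span -/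
noncomputable def Sp (S : Finset ℤ[X]) : Submodule ℚ ℚ[X] := Submodule.span ℚ (cQ '' (S : Set ℤ[X]))

instance Sp_fin (S : Finset ℤ[X]) : FiniteDimensional ℚ (Sp S) :=
  FiniteDimensional.span_of_finite ℚ (S.finite_toSet.image _)

lemma packing (S : Finset ℤ[X]) (M : ℕ) (hM : 1 ≤ M)
    (h : ∀ x ∈ S, ∀ y ∈ S, ∀ v : ℤ[X], x - y = (M : ℤ) • v → v = 0) :
    S.card ≤ M ^ (finrank ℚ (Sp S)) := by
  classical
  have : NeZero M := ⟨by omega⟩
  set Λ : Submodule ℤ ℤ[X] := Submodule.span ℤ (S : Set ℤ[X]) with hΛ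
  have : Module.Finite ℤ Λ := Module.Finite.span_of_finite ℤ S.finite_toSet
  have : Module.Free ℤ Λ := inferInstance
  set b := Module.finBasis ℤ Λ with hb
  set d := finrank ℤ Λ with hd
  have hmem : ∀ x ∈ S, x ∈ Λ := fun x hx => Submodule.subset_span hx
  -- injection
  have hinj : S.card ≤ Fintype.card (Fin d → ZMod M) := by
    have : Function.Injective (fun x : S => (fun i => ((b.repr ⟨x.1, hmem x.1 x.2⟩ i : ℤ) : ZMod M) : Fin d → ZMod M)) := by
      rintro ⟨x, hx⟩ ⟨y, hy⟩ hxy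
      simp only at hxy
      have h1 : ∀ i, ∃ c : ℤ, b.repr ⟨x, hmem x hx⟩ i - b.repr ⟨y, hmem y hy⟩ i = M * c := by
        intro i
        have h2 := congrFun hxy i
        have h3 := (ZMod.intCast_eq_intCast_iff_dvd_sub _ _ _).1 h2.symm
        exact h3
      choose c hc using h1
      set v : Λ := ∑ i, c i • b i with hv
      have h4 : (⟨x, hmem x hx⟩ : Λ) - ⟨y, hmem y hy⟩ = (M : ℤ) • v := by
        rw [← b.sum_repr ((⟨x, hmem x hx⟩ : Λ) - ⟨y, hmem y hy⟩), hv, Finset.smul_sum]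
        refine Finset.sum_congr rfl (fun i _ => ?_)
        rw [map_sub, Finsupp.sub_apply, hc i, smul_smul]
      have h5 : x - y = (M : ℤ) • (v : ℤ[X]) := by
        have := congrArg (fun z : Λ => (z : ℤ[X])) h4
        simpa using this
      have h6 := h x hx y hy v h5
      rw [h6, smul_zero, sub_eq_zero] at h5
      exact Subtype.ext h5
    have := Fintype.card_le_of_injective _ this
    simpa using this
  rw [Fintype.card_fun, ZMod.card, Fintype.card_fin] at hinj
  refine hinj.trans (Nat.pow_le_pow_right hM ?_)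
  -- d ≤ finrank ℚ
  have hlin : LinearIndependent ℤ (fun i => (b i : ℤ[X])) :=
    b.linearIndependent.map' Λ.subtype (Submodule.ker_subtype _)
  have hlin2 : LinearIndependent ℤ (fun i => cQ (b i : ℤ[X])) :=
    hlin.map' cQl (LinearMap.ker_eq_bot.2 cQ_inj)
  have hlin3 : LinearIndependent ℚ (fun i => cQ (b i : ℤ[X])) :=
    (LinearIndependent.iff_fractionRing ℤ ℚ).1 hlin2
  have hmem2 : ∀ z ∈ Λ, cQ z ∈ Sp S := by
    intro z hz
    rw [hΛ] at hz
    induction hz using Submodule.span_induction with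
    | mem x hx => exact Submodule.subset_span ⟨x, hx, rfl⟩
    | zero => rw [← cQl_apply, map_zero]; exact Submodule.zero_mem _
    | add x y _ _ hx hy => rw [← cQl_apply, map_add]; exact Submodule.add_mem _ hx hy
    | smul a x _ hx =>
      rw [← cQl_apply, map_smul, cQl_apply]
      have : (a : ℤ) • cQ x = ((a : ℤ) : ℚ) • cQ x := by rw [Int.cast_smul_eq_zsmul]
      rw [this]
      exact Submodule.smul_mem _ _ hx
  have hlin4 : LinearIndependent ℚ (fun i => (⟨cQ (b i : ℤ[X]), hmem2 _ (b i).2⟩ : Sp S)) :=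
    LinearIndependent.of_comp (Sp S).subtype hlin3
  have := hlin4.fintype_card_le_finrank
  simpa using this

lemma rank_bound (n : ℕ) (ξ : ℝ) (w c : ℝ) (hc : 0 < c) (hw : 0 ≤ w)
    (hlow : ∀ P : ℤ[X], P ≠ 0 → P.natDegree ≤ n → c * (HP P : ℝ) ^ (-w) ≤ |aeval ξ P|)
    (S : Finset ℤ[X]) (A : ℕ) (hA : 1 ≤ A) (Y : ℝ)
    (hS : ∀ P ∈ S, P.natDegree ≤ n ∧ (∀ k, |P.coeff k| ≤ A) ∧ |aeval ξ P| ≤ Y)
    (M : ℕ) (hM1 : 1 ≤ M) (hM : 2 * Y * (2 * (A : ℝ)) ^ w < c * (M : ℝ) ^ (w + 1)) :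
    S.card ≤ M ^ (finrank ℚ (Sp S)) := by
  apply packing S M hM1
  intro x hx y hy v hv
  by_contra hv0
  obtain ⟨hx1, hx2, hx3⟩ := hS x hx
  obtain ⟨hy1, hy2, hy3⟩ := hS y hy
  have hM0 : (0 : ℝ) < M := by exact_mod_cast hM1
  have hMne : (M : ℤ) ≠ 0 := by exact_mod_cast (by omega : M ≠ 0)
  have hcoef : ∀ k, (M : ℤ) * |v.coeff k| ≤ 2 * A := by
    intro k
    have h1 := congrArg (fun P : ℤ[X] => |P.coeff k|) hv
    simp only [coeff_sub, coeff_smul, smul_eq_mul, abs_mul] at h1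
    rw [abs_of_nonneg (by positivity : (0 : ℤ) ≤ M)] at h1
    rw [← h1]
    calc |x.coeff k - y.coeff k| ≤ |x.coeff k| + |y.coeff k| := abs_sub _ _
      _ ≤ A + A := add_le_add (hx2 k) (hy2 k)
      _ = 2 * A := by ring
  have hvd : v.natDegree ≤ n := by
    have h1 : (x - y).natDegree ≤ n := (natDegree_sub_le _ _).trans (max_le hx1 hy1)
    rw [hv] at h1
    rwa [natDegree_smul_of_smul_regular] at h1
    exact IsSMulRegular.of_ne_zero hMne
  have hHv : (M : ℝ) * HP v ≤ 2 * A := by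
    have h1 : ((HP v : ℕ) : ℤ) ≤ (2 * A : ℤ) / M := by
      apply HP_le_of
      intro k
      rw [Int.le_ediv_iff_mul_le (by omega)]
      linarith [hcoef k]
    rw [Int.le_ediv_iff_mul_le (by omega)] at h1
    have h2 : ((HP v : ℕ) : ℝ) * M ≤ 2 * A := by exact_mod_cast h1
    linarith
  have hval : (M : ℝ) * |aeval ξ v| ≤ 2 * Y := by
    have h1 : aeval ξ x - aeval ξ y = (M : ℝ) * aeval ξ v := by
      rw [← map_sub, hv, map_zsmul, zsmul_eq_mul]; simp
    rw [← abs_of_pos hM0, ← abs_mul, ← h1]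
    calc |aeval ξ x - aeval ξ y| ≤ |aeval ξ x| + |aeval ξ y| := abs_sub _ _
      _ ≤ 2 * Y := by linarith
  have hlv := hlow v hv0 hvd
  have hH1 : (1 : ℝ) ≤ HP v := by exact_mod_cast HP_pos hv0
  have hH0 : (0 : ℝ) < HP v := by linarith
  have hA0 : (0 : ℝ) < A := by exact_mod_cast hA
  -- c * M * HP^{-w} ≤ 2 Y
  have h3 : (M : ℝ) * (c * (HP v : ℝ) ^ (-w)) ≤ 2 * Y := by
    calc _ ≤ (M : ℝ) * |aeval ξ v| := by gcongr
      _ ≤ _ := hval
  have h4 : ((M : ℝ) * HP v) ^ w ≤ (2 * A) ^ w := Real.rpow_le_rpow (by positivity) hHv hw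
  have h5 : 0 < (HP v : ℝ) ^ w := Real.rpow_pos_of_pos hH0 _
  have h6 : c * (M : ℝ) ^ (w + 1) = (M * (c * (HP v : ℝ) ^ (-w))) * ((M : ℝ) * HP v) ^ w := by
    rw [Real.mul_rpow hM0.le hH0.le, Real.rpow_add hM0, Real.rpow_one, Real.rpow_neg hH0.le]
    field_simp
  have h7 : 0 ≤ 2 * Y := le_trans (by positivity) h3
  have h8 : c * (M : ℝ) ^ (w + 1) ≤ 2 * Y * (2 * A) ^ w := by
    rw [h6]
    exact mul_le_mul h3 h4 (by positivity) h7
  linarith

lemma pigeon (n : ℕ) (ξ : ℝ) : ∃ C : ℝ, 1 ≤ C ∧ ∀ (A : ℕ) (Y : ℝ), 1 ≤ A → 0 < Y → Y ≤ A →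
    ∃ S : Finset ℤ[X], (∀ P ∈ S, P.natDegree ≤ n ∧ (∀ k, |P.coeff k| ≤ A) ∧ |aeval ξ P| ≤ Y) ∧
      (A : ℝ) ^ n * Y ≤ C * S.card := by
  classical
  set L : ℝ := ∑ i ∈ Finset.range (n + 1), |ξ| ^ i with hL
  have hL1 : 1 ≤ L := by
    rw [hL, Finset.sum_range_succ']
    simp only [pow_zero]
    have : 0 ≤ ∑ k ∈ Finset.range n, |ξ| ^ (k + 1) := Finset.sum_nonneg (fun i _ => by positivity)
    linarith
  refine ⟨7 * L, by linarith, ?_⟩
  intro A Y hA hY hYA
  have hA0 : (1 : ℝ) ≤ A := by exact_mod_cast hA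
  set D : Finset (Fin (n + 1) → ℤ) := Fintype.piFinset (fun _ => Finset.Icc (0 : ℤ) A) with hD
  have hDcard : (D.card : ℝ) = (A + 1) ^ (n + 1) := by
    rw [hD, Fintype.card_piFinset]
    simp
  set val : (Fin (n + 1) → ℤ) → ℝ := fun u => aeval ξ (toP u) with hval
  have hvalb : ∀ u ∈ D, |val u| ≤ A * L := by
    intro u hu
    rw [hD, Fintype.mem_piFinset] at hu
    simp only [hval, toP, map_sum, map_mul, aeval_C, map_pow, aeval_X]
    rw [hL, Finset.mul_sum, ← Fin.sum_univ_eq_sum_range (fun i => (A : ℝ) * |ξ| ^ i) (n + 1)]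
    refine (Finset.abs_sum_le_sum_abs _ _).trans (Finset.sum_le_sum (fun i _ => ?_))
    rw [abs_mul, abs_pow]
    have h1 := hu i
    rw [Finset.mem_Icc] at h1
    have h2 : |((algebraMap ℤ ℝ) (u i))| ≤ A := by
      simp only [eq_intCast]
      rw [abs_of_nonneg (by exact_mod_cast h1.1)]
      exact_mod_cast h1.2
    gcongr
  set f : (Fin (n + 1) → ℤ) → ℤ := fun u => ⌊val u / Y⌋ with hf
  set B : ℤ := ⌈A * L / Y⌉ + 1 with hB
  have hB0 : 0 ≤ B := by
    have : 0 ≤ ⌈A * L / Y⌉ := Int.ceil_nonneg (by positivity)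
    omega
  set t : Finset ℤ := Finset.Icc (-B) B with ht
  have hmaps : ∀ u ∈ D, f u ∈ t := by
    intro u hu
    rw [ht, Finset.mem_Icc]
    have h1 := abs_le.1 (hvalb u hu)
    have h2 : A * L / Y ≤ ⌈A * L / Y⌉ := Int.le_ceil _
    have h3 : (⌊val u / Y⌋ : ℝ) ≤ val u / Y := Int.floor_le _
    have h4 : val u / Y < ⌊val u / Y⌋ + 1 := Int.lt_floor_add_one _
    have h5 : val u / Y ≤ A * L / Y := by gcongr; exact h1.2
    have h6 : -(A * L / Y) ≤ val u / Y := by
      rw [← neg_div]; gcongr; exact h1.1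
    constructor
    · have : (-(B : ℝ)) ≤ ⌊val u / Y⌋ := by
        rw [hB]; push_cast; linarith
      exact_mod_cast this
    · have : (⌊val u / Y⌋ : ℝ) ≤ B := by
        rw [hB]; push_cast; linarith
      exact_mod_cast this
  have htcard : (t.card : ℝ) ≤ 7 * (A * L / Y) := by
    rw [ht, Int.card_Icc]
    have h1 : (((B + 1 - -B).toNat : ℕ) : ℝ) = 2 * B + 1 := by
      have : (((B + 1 - -B).toNat : ℕ) : ℤ) = 2 * B + 1 := by
        rw [Int.toNat_of_nonneg (by omega)]; ring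
      exact_mod_cast this
    rw [h1, hB]
    push_cast
    have h2 : (⌈A * L / Y⌉ : ℝ) < A * L / Y + 1 := Int.ceil_lt_add_one _
    have h3 : 1 ≤ A * L / Y := by
      rw [le_div_iff₀ hY, one_mul]
      calc Y ≤ A := hYA
        _ = A * 1 := (mul_one _).symm
        _ ≤ A * L := by gcongr
    linarith
  have htne : t.Nonempty := ⟨0, by rw [ht, Finset.mem_Icc]; omega⟩
  have htpos : (0 : ℝ) < t.card := by exact_mod_cast htne.card_pos
  obtain ⟨y, _, hy⟩ := Finset.exists_le_card_fiber_of_nsmul_le_card_of_maps_to (b := (D.card : ℝ) / t.card)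
    hmaps htne (by rw [nsmul_eq_mul, mul_div_cancel₀ _ htpos.ne'])
  set F : Finset (Fin (n + 1) → ℤ) := D.filter (fun u => f u = y) with hF
  have hDpos : (0 : ℝ) < D.card := by rw [hDcard]; positivity
  have hFpos : (0 : ℝ) < F.card := lt_of_lt_of_le (by positivity) hy
  have hFne : F.Nonempty := Finset.card_pos.1 (by exact_mod_cast hFpos)
  obtain ⟨u0, hu0⟩ := hFne
  have hinj : Function.Injective (fun u : Fin (n + 1) → ℤ => toP u - toP u0) := by
    intro u v huv
    have h1 : toP u = toP v := by simpa using huv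
    ext i
    rw [← toP_coeff u i, h1, toP_coeff]
  refine ⟨F.image (fun u => toP u - toP u0), ?_, ?_⟩
  · intro P hP
    rw [Finset.mem_image] at hP
    obtain ⟨u, hu, rfl⟩ := hP
    rw [hF, Finset.mem_filter] at hu hu0
    refine ⟨?_, ?_, ?_⟩
    · refine (natDegree_sub_le _ _).trans (max_le ?_ ?_)
      · unfold toP
        apply natDegree_sum_le_of_forall_le
        intro i _
        exact (natDegree_C_mul_X_pow_le _ _).trans (by omega)
      · unfold toP
        apply natDegree_sum_le_of_forall_le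
        intro i _
        exact (natDegree_C_mul_X_pow_le _ _).trans (by omega)
    · intro k
      rw [coeff_sub]
      by_cases hk : k < n + 1
      · have h1 := toP_coeff u ⟨k, hk⟩
        have h2 := toP_coeff u0 ⟨k, hk⟩
        simp only at h1 h2
        rw [h1, h2]
        have h3 := (Fintype.mem_piFinset.1 (hD ▸ hu.1)) ⟨k, hk⟩
        have h4 := (Fintype.mem_piFinset.1 (hD ▸ hu0.1)) ⟨k, hk⟩
        rw [Finset.mem_Icc] at h3 h4
        rw [abs_le]
        constructor <;> omega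
      · have hz : ∀ v : Fin (n + 1) → ℤ, (toP v).coeff k = 0 := by
          intro v
          apply coeff_eq_zero_of_natDegree_lt
          refine lt_of_le_of_lt ?_ (Nat.lt_of_lt_of_le (Nat.lt_succ_self n) (not_lt.1 hk))
          unfold toP
          apply natDegree_sum_le_of_forall_le
          intro i _
          exact (natDegree_C_mul_X_pow_le _ _).trans (by omega)
        rw [hz, hz]; simp
    · have h1 : ⌊val u / Y⌋ = ⌊val u0 / Y⌋ := by
        have := hu.2.trans hu0.2.symm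
        exact this
      have h2 := Int.abs_sub_lt_one_of_floor_eq_floor h1
      rw [map_sub]
      rw [← sub_div, abs_div, abs_of_pos hY, div_lt_one hY] at h2
      exact h2.le
  · rw [Finset.card_image_of_injective _ hinj]
    have h1 : (D.card : ℝ) ≤ t.card * F.card := by
      rw [div_le_iff₀ htpos] at hy
      linarith
    rw [hDcard] at h1
    have h2 : (A : ℝ) ^ (n + 1) ≤ (A + 1) ^ (n + 1) := pow_le_pow_left₀ (by positivity) (by linarith) _
    have h3 : (A : ℝ) ^ (n + 1) ≤ 7 * (A * L / Y) * F.card := h2.trans (h1.trans (by gcongr))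
    have h4 : 7 * (A * L / Y) * F.card = A * (7 * L * F.card) / Y := by field_simp
    rw [h4, le_div_iff₀ hY, pow_succ'] at h3
    have hApos : (0 : ℝ) < A := by linarith
    have h5 : (A : ℝ) * (A ^ n * Y) ≤ A * (7 * L * F.card) := by
      calc (A : ℝ) * (A ^ n * Y) = A * A ^ n * Y := by ring
        _ ≤ _ := h3
    exact le_of_mul_le_mul_left h5 hApos

end Pool.Agent.Helper404
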