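import Mathlib
import Pool.Agent.Helper404.ST2

open Polynomial Module

namespace Pool.Agent.Helper404

lemma det_le_cols (L : ℕ) (Bm : Matrix (Fin L) (Fin L) ℝ) (bd : Fin L → ℝ)
    (h : ∀ i j, |Bm i j| ≤ bd j) : |Bm.det| ≤ L.factorial * ∏ j, bd j := by
  rw [Matrix.det_apply]
  calc _ ≤ ∑ σ : Equiv.Perm (Fin L), |Equiv.Perm.sign σ • ∏ i, Bm (σ i) i| :=
        Finset.abs_sum_le_sum_abs _ _
    _ ≤ ∑ σ : Equiv.Perm (Fin L), ∏ j, bd j := by
        refine Finset.sum_le_sum (fun σ _ => ?_)
        have h1 : |Equiv.Perm.sign σ • ∏ i, Bm (σ i) i| = |∏ i, Bm (σ i) i| := by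
          rcases Int.units_eq_one_or (Equiv.Perm.sign σ) with h | h <;> rw [h] <;> simp
        rw [h1, Finset.abs_prod]
        exact Finset.prod_le_prod (fun i _ => abs_nonneg _) (fun i _ => h _ _)
    _ = _ := by
        rw [Finset.sum_const, Finset.card_univ, Fintype.card_perm, Fintype.card_fin, nsmul_eq_mul]

lemma aeval_derivative_eq (L : ℕ) (P : ℤ[X]) (hP : P.natDegree < L) (ξ : ℝ) :
    aeval ξ (derivative P) = ∑ j ∈ Finset.range L, (P.coeff j : ℝ) * ((j : ℝ) * ξ ^ (j - 1)) := by
  rw [aeval_def, ← eval_map, ← derivative_map, derivative_eval, sum_over_range' _ _ L]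
  · refine Finset.sum_congr rfl (fun j _ => ?_)
    rw [coeff_map]
    simp [mul_assoc]
  · exact lt_of_le_of_lt natDegree_map_le hP
  · intro j; simp

lemma det_bound (l : ℕ) (ξ : ℝ) (U : Fin (l + 2) → ℤ[X]) (hU : ∀ i, (U i).natDegree < l + 2)
    (hind : LinearIndependent ℚ (fun i => cQ (U i))) (B b0 b1 : ℝ)
    (hB : ∀ i k, |((U i).coeff k : ℝ)| ≤ B) (h0 : ∀ i, |aeval ξ (U i)| ≤ b0)
    (h1 : ∀ i, |aeval ξ (derivative (U i))| ≤ b1) :
    1 ≤ ((l + 2).factorial : ℝ) * (b0 * b1 * B ^ l) := by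
  set A : Matrix (Fin (l + 2)) (Fin (l + 2)) ℤ := Matrix.of (fun i j => (U i).coeff j) with hA
  -- nonzero determinant
  have hdet : A.det ≠ 0 := by
    set AQ : Matrix (Fin (l + 2)) (Fin (l + 2)) ℚ := A.map (Int.castRingHom ℚ) with hAQ
    have hrows : LinearIndependent ℚ (fun i => AQ i) := by
      rw [Fintype.linearIndependent_iff] at hind ⊢
      intro g hg
      apply hind g
      ext k
      rw [finsetSum_coeff, coeff_zero]
      by_cases hk : k < l + 2
      · have h2 := congrFun hg ⟨k, hk⟩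
        simp only [Finset.sum_apply, Pi.smul_apply, Pi.zero_apply, hAQ, hA, Matrix.map_apply,
          Matrix.of_apply, smul_eq_mul] at h2
        rw [← h2]
        refine Finset.sum_congr rfl (fun i _ => ?_)
        rw [coeff_smul, smul_eq_mul, cQ, coeff_map]
      · refine Finset.sum_eq_zero (fun i _ => ?_)
        rw [coeff_smul, cQ, coeff_map, coeff_eq_zero_of_natDegree_lt (by have := hU i; omega)]
        simp
    have hunit := Matrix.linearIndependent_rows_iff_isUnit.1 hrows
    have h2 : AQ.det ≠ 0 := by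
      rw [Matrix.isUnit_iff_isUnit_det] at hunit
      exact hunit.ne_zero
    intro h3
    apply h2
    rw [hAQ, ← RingHom.mapMatrix_apply, ← RingHom.map_det, h3, map_zero]
  set AR : Matrix (Fin (l + 2)) (Fin (l + 2)) ℝ := A.map (Int.castRingHom ℝ) with hAR
  have hdetR : 1 ≤ |AR.det| := by
    rw [hAR, ← RingHom.mapMatrix_apply, ← RingHom.map_det]
    have h2 : (1 : ℤ) ≤ |A.det| := Int.one_le_abs hdet
    have h3 : |(Int.castRingHom ℝ) A.det| = ((|A.det| : ℤ) : ℝ) := by
      rw [Int.cast_abs]; rfl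
    rw [h3]; exact_mod_cast h2
  -- column operations
  set Lw : Matrix (Fin (l + 2)) (Fin (l + 2)) ℝ := Matrix.of (fun j c =>
    if (c : ℕ) = 0 then ξ ^ (j : ℕ) else if (c : ℕ) = 1 then (j : ℝ) * ξ ^ ((j : ℕ) - 1)
      else if j = c then 1 else 0) with hLw
  have hLwdet : Lw.det = 1 := by
    rw [Matrix.det_of_isLowerTriangular]
    · apply Finset.prod_eq_one
      intro i _
      simp only [hLw, Matrix.of_apply]
      split_ifs with h2 h3
      · rw [h2, pow_zero]
      · rw [h3]; simp
      · rfl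
    · intro j c hjc
      simp only [OrderDual.toDual_lt_toDual] at hjc
      simp only [hLw, Matrix.of_apply]
      have hjc' : (j : ℕ) < c := hjc
      split_ifs with h2 h3 h4
      · omega
      · have : (j : ℕ) = 0 := by omega
        rw [this]; simp
      · rw [h4] at hjc'; omega
      · rfl
  have hprod : |(AR * Lw).det| ≤ ((l + 2).factorial : ℝ) *
      ∏ j : Fin (l + 2), (if (j : ℕ) = 0 then b0 else if (j : ℕ) = 1 then b1 else B) := by
    apply det_le_cols
    intro i c
    have hsum : (AR * Lw) i c = ∑ j : Fin (l + 2), ((U i).coeff (j : ℕ) : ℝ) * Lw j c := by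
      rw [Matrix.mul_apply]; rfl
    rw [hsum]
    split_ifs with h2 h3
    · have h4 : ∑ j : Fin (l + 2), ((U i).coeff j : ℝ) * Lw j c = aeval ξ (U i) := by
        rw [aeval_eq_sum_range' (hU i), ← Fin.sum_univ_eq_sum_range (fun j => (U i).coeff j • ξ ^ j) (l + 2)]
        refine Finset.sum_congr rfl (fun j _ => ?_)
        simp only [hLw, Matrix.of_apply, if_pos h2, zsmul_eq_mul]
      rw [h4]; exact h0 i
    · have h4 : ∑ j : Fin (l + 2), ((U i).coeff j : ℝ) * Lw j c = aeval ξ (derivative (U i)) := by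
        have h5 : aeval ξ (derivative (U i)) =
            ∑ j ∈ Finset.range (l + 2), ((U i).coeff j : ℝ) * ((j : ℝ) * ξ ^ (j - 1)) := by
          exact aeval_derivative_eq (l + 2) (U i) (hU i) ξ
        rw [h5, ← Fin.sum_univ_eq_sum_range (fun j => ((U i).coeff j : ℝ) * ((j : ℝ) * ξ ^ (j - 1))) (l + 2)]
        refine Finset.sum_congr rfl (fun j _ => ?_)
        simp only [hLw, Matrix.of_apply, if_neg h2, if_pos h3]
      rw [h4]; exact h1 i
    · have h4 : ∑ j : Fin (l + 2), ((U i).coeff j : ℝ) * Lw j c = ((U i).coeff c : ℝ) := by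
        rw [Finset.sum_eq_single c]
        · simp only [hLw, Matrix.of_apply, if_neg h2, if_neg h3, if_true, mul_one]
        · intro j _ hj
          simp only [hLw, Matrix.of_apply, if_neg h2, if_neg h3, if_neg hj, mul_zero]
        · intro h; exact absurd (Finset.mem_univ c) h
      rw [h4]; exact hB i c
  rw [Matrix.det_mul, hLwdet, mul_one] at hprod
  refine hdetR.trans (hprod.trans (le_of_eq ?_))
  congr 1
  rw [Fin.prod_univ_succ, Fin.prod_univ_succ]
  simp [mul_assoc]

end Pool.Agent.Helper404
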