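import Mathlib
import Pool.Agent.Helper404.ST1
import Pool.Agent.Helper404.ST3

open Polynomial Module

namespace Pool.Agent.Helper404

lemma HP_le_real (P : ℤ[X]) (M : ℝ) (hM : 0 ≤ M) (h : ∀ k, |(P.coeff k : ℝ)| ≤ M) : (HP P : ℝ) ≤ M := by
  by_cases hs : P.support.Nonempty
  · obtain ⟨i, _, hi'⟩ := Finset.exists_mem_eq_sup P.support hs (fun i => (P.coeff i).natAbs)
    unfold HP
    rw [hi', Nat.cast_natAbs, Int.cast_abs]
    exact h i
  · rw [Finset.not_nonempty_iff_eq_empty] at hs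
    unfold HP
    rw [hs]; simpa using hM

lemma HP_zero : HP 0 = 0 := by
  unfold HP; simp

lemma height_div (n : ℕ) (G R : ℤ[X]) (hG : G ≠ 0) (hd : (G * R).natDegree ≤ n) :
    (HP R : ℝ) ≤ 2 ^ n * (n + 1) * HP (G * R) := by
  by_cases hR : R = 0
  · rw [hR, HP_zero]; simp
  apply HP_le_real _ _ (by positivity)
  intro k
  set v := Int.castRingHom ℂ with hv
  have hinj : Function.Injective v := RingHom.injective_int v
  have hGv : G.map v ≠ 0 := (Polynomial.map_ne_zero_iff hinj).2 hG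
  have hlc : 1 ≤ ‖(G.map v).leadingCoeff‖ := by
    rw [leadingCoeff_map_of_injective hinj]
    have h1 : G.leadingCoeff ≠ 0 := leadingCoeff_ne_zero.2 hG
    have h2 : (1 : ℤ) ≤ |G.leadingCoeff| := Int.one_le_abs h1
    have h3 : ‖v G.leadingCoeff‖ = ((|G.leadingCoeff| : ℤ) : ℝ) := by
      rw [hv]; simp
    rw [h3]; exact_mod_cast h2
  have h1 := norm_coeff_le_choose_mul_mahlerMeasure_of_one_le_mahlerMeasure k (R.map v) (G.map v)
    (one_le_mahlerMeasure_of_one_le_norm_leadingCoeff hlc)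
  have h2 : ‖(R.map v).coeff k‖ = |(R.coeff k : ℝ)| := by
    rw [coeff_map, hv]; simp
  rw [h2] at h1
  have h3 : (R.map v * G.map v).mahlerMeasure ≤ (n + 1) * HP (G * R) := by
    rw [← Polynomial.map_mul, mul_comm R G]
    refine (mahlerMeasure_le_sum_norm_coeff _).trans ?_
    rw [sum_over_range' _ (by simp) (n + 1) (lt_of_le_of_lt (natDegree_map_le.trans hd) (Nat.lt_succ_self n))]
    calc _ ≤ ∑ i ∈ Finset.range (n + 1), (HP (G * R) : ℝ) := by
          refine Finset.sum_le_sum (fun i _ => ?_)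
          have : ‖((G * R).map v).coeff i‖ = |((G * R).coeff i : ℝ)| := by
            rw [coeff_map, hv]; simp
          rw [this]; exact coeff_le_HP _ i
      _ = _ := by rw [Finset.sum_const, Finset.card_range, nsmul_eq_mul]; push_cast; ring
  have h4 : ((R.map v).natDegree.choose k : ℝ) ≤ 2 ^ n := by
    have h5 : (R.map v).natDegree ≤ n := by
      refine natDegree_map_le.trans (le_trans ?_ hd)
      rw [natDegree_mul hG hR]; omega
    have h6 : (R.map v).natDegree.choose k ≤ 2 ^ (R.map v).natDegree := Nat.choose_le_two_pow _ _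
    have h7 : 2 ^ (R.map v).natDegree ≤ 2 ^ n := Nat.pow_le_pow_right (by norm_num) h5
    exact_mod_cast h6.trans h7
  calc |(R.coeff k : ℝ)| ≤ _ := h1
    _ ≤ 2 ^ n * ((n + 1) * HP (G * R)) := by
        apply mul_le_mul h4 h3 (mahlerMeasure_nonneg _) (by positivity)
    _ = _ := by ring

lemma exists_primitive (m : ℚ[X]) (hm : m ≠ 0) : ∃ G : ℤ[X], G.IsPrimitive ∧ Associated m (cQ G) := by
  obtain ⟨b, hbm, hb⟩ := IsLocalization.integerNormalization_spec (nonZeroDivisors ℤ) m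
  generalize IsLocalization.integerNormalization (nonZeroDivisors ℤ) m = I at hb
  have hb0 : (b : ℤ) ≠ 0 := nonZeroDivisors.ne_zero hbm
  have hbQ : ((b : ℤ) : ℚ) ≠ 0 := by exact_mod_cast hb0
  have hb' : I.map (Int.castRingHom ℚ) = C ((b : ℤ) : ℚ) * m := by
    have h1 : I.map (Int.castRingHom ℚ) = I.map (algebraMap ℤ ℚ) := rfl
    rw [h1, hb, ← smul_eq_C_mul]
    ext k
    simp
  have hI0 : I ≠ 0 := by
    intro h
    rw [h, Polynomial.map_zero] at hb'
    exact (mul_ne_zero (C_ne_zero.2 hbQ) hm) hb'.symm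
  have hcont : I = C I.content * I.primPart := I.eq_C_content_mul_primPart
  have hc0 : I.content ≠ 0 := content_eq_zero_iff.not.2 hI0
  have hcQ : ((I.content : ℤ) : ℚ) ≠ 0 := by exact_mod_cast hc0
  have hmap : I.primPart.map (Int.castRingHom ℚ) = C (((b : ℤ) : ℚ) / (I.content : ℚ)) * m := by
    have h1 : I.map (Int.castRingHom ℚ) =
        C ((I.content : ℤ) : ℚ) * I.primPart.map (Int.castRingHom ℚ) := by
      conv_lhs => rw [hcont]
      rw [Polynomial.map_mul, map_C]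
      rfl
    have h2 : C ((I.content : ℤ) : ℚ) * I.primPart.map (Int.castRingHom ℚ) =
        C ((I.content : ℤ) : ℚ) * (C (((b : ℤ) : ℚ) / (I.content : ℚ)) * m) := by
      rw [← h1, hb', ← mul_assoc, ← C_mul, mul_div_cancel₀ _ hcQ]
    exact mul_left_cancel₀ (C_ne_zero.2 hcQ) h2
  have hu : ((b : ℤ) : ℚ) / (I.content : ℚ) ≠ 0 := div_ne_zero hbQ hcQ
  refine ⟨I.primPart, isPrimitive_primPart I, ?_⟩
  unfold cQ
  rw [hmap]
  exact (associated_unit_mul_right m _ (isUnit_C.2 (isUnit_iff_ne_zero.2 hu)))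

/-- dividing out the gcd of a finite set of integer polynomials -/
lemma exists_gcd (S : Finset ℤ[X]) (hne : ∃ P ∈ S, P ≠ 0) :
    ∃ (G : ℤ[X]) (S' : Finset ℤ[X]), G ≠ 0 ∧ (∀ R ∈ S', G * R ∈ S) ∧
      finrank ℚ (Sp S') = finrank ℚ (Sp S) ∧ Ideal.span (Sp S' : Set ℚ[X]) = ⊤ := by
  classical
  obtain ⟨P0, hP0, hP0ne⟩ := hne
  set J : Ideal ℚ[X] := Ideal.span (cQ '' (S : Set ℤ[X])) with hJ
  obtain ⟨G0, hG0⟩ := (inferInstance : J.IsPrincipal).principal
  have hG0' : J = Ideal.span {G0} := hG0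
  have hmemJ : ∀ P ∈ S, cQ P ∈ J := fun P hP => Ideal.subset_span ⟨P, hP, rfl⟩
  have hcP0 : cQ P0 ≠ 0 := fun h => hP0ne (cQ_inj (by rw [h]; simp [cQ]))
  have hG0ne : G0 ≠ 0 := by
    intro h
    have h1 := hmemJ P0 hP0
    rw [hG0', h, Ideal.mem_span_singleton, zero_dvd_iff] at h1
    exact hcP0 h1
  obtain ⟨G, hGprim, hGas⟩ := exists_primitive G0 hG0ne
  have hcG : cQ G ≠ 0 := fun h => hG0ne (hGas.symm.eq_zero_iff.1 h)
  have hGne : G ≠ 0 := fun h => hcG (by rw [h]; simp [cQ])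
  have hdvd : ∀ P ∈ S, G ∣ P := by
    intro P hP
    have h1 := hmemJ P hP
    rw [hG0', Ideal.mem_span_singleton] at h1
    exact (IsPrimitive.Int.dvd_iff_map_cast_dvd_map_cast G P hGprim).2 (hGas.symm.dvd.trans h1)
  set quo : ℤ[X] → ℤ[X] := fun P => if h : G ∣ P then h.choose else 0 with hquo
  have hquo' : ∀ P ∈ S, P = G * quo P := by
    intro P hP
    simp only [hquo]
    rw [dif_pos (hdvd P hP)]
    exact (hdvd P hP).choose_spec
  set S' := S.image quo with hS'
  have hSS : ∀ R ∈ S', G * R ∈ S := by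
    intro R hR
    rw [hS', Finset.mem_image] at hR
    obtain ⟨P, hP, rfl⟩ := hR
    rw [← hquo' P hP]; exact hP
  set ψ : ℚ[X] →ₗ[ℚ] ℚ[X] := LinearMap.mulLeft ℚ (cQ G) with hψ
  have hψinj : Function.Injective ψ := by
    intro a b hab
    simp only [hψ, LinearMap.mulLeft_apply] at hab
    exact mul_left_cancel₀ hcG hab
  have hcmul : ∀ A B : ℤ[X], cQ (A * B) = cQ A * cQ B := fun A B => by simp [cQ]
  have himg : cQ '' (S : Set ℤ[X]) = ψ '' (cQ '' (S' : Set ℤ[X])) := by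
    ext z
    constructor
    · rintro ⟨P, hP, rfl⟩
      refine ⟨cQ (quo P), ⟨quo P, Finset.mem_coe.2 (Finset.mem_image_of_mem quo hP), rfl⟩, ?_⟩
      simp only [hψ, LinearMap.mulLeft_apply]
      rw [← hcmul, ← hquo' P hP]
    · rintro ⟨_, ⟨R, hR, rfl⟩, rfl⟩
      refine ⟨G * R, hSS R hR, ?_⟩
      simp only [hψ, LinearMap.mulLeft_apply]
      rw [hcmul]
  have hmap : (Sp S').map ψ = Sp S := by
    unfold Sp
    rw [Submodule.map_span, himg]
  refine ⟨G, S', hGne, hSS, ?_, ?_⟩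
  · rw [← hmap]
    exact ((Sp S').equivMapOfInjective ψ hψinj).finrank_eq
  · set J' : Ideal ℚ[X] := Ideal.span (cQ '' (S' : Set ℤ[X])) with hJ'
    have hfac : ∀ z ∈ J, ∃ j ∈ J', z = cQ G * j := by
      intro z hz
      rw [hJ, himg] at hz
      induction hz using Submodule.span_induction with
      | mem x hx =>
        obtain ⟨y, hy, rfl⟩ := hx
        exact ⟨y, Ideal.subset_span hy, rfl⟩
      | zero => exact ⟨0, Submodule.zero_mem _, by simp⟩
      | add x y _ _ hx hy =>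
        obtain ⟨j, hj, rfl⟩ := hx
        obtain ⟨j', hj', rfl⟩ := hy
        exact ⟨j + j', Submodule.add_mem _ hj hj', by ring⟩
      | smul a x _ hx =>
        obtain ⟨j, hj, rfl⟩ := hx
        exact ⟨a * j, J'.mul_mem_left a hj, by rw [smul_eq_mul]; ring⟩
    have h1 : cQ G ∈ J := by
      rw [hG0', Ideal.mem_span_singleton]
      exact hGas.dvd
    obtain ⟨j, hj, hjG⟩ := hfac _ h1
    have hj1 : j = 1 := by
      have : cQ G * 1 = cQ G * j := by rw [mul_one]; exact hjG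
      exact (mul_left_cancel₀ hcG this).symm
    rw [hj1] at hj
    have hJ'top : J' = ⊤ := (Ideal.eq_top_iff_one _).2 hj
    rw [eq_top_iff, ← hJ'top, hJ']
    apply Ideal.span_mono
    intro z hz
    exact Submodule.subset_span hz

lemma Vs_le_span (T : Set ℚ[X]) (m : ℕ) :
    Vs (Submodule.span ℚ T) m ≤ Submodule.span ℚ {z | ∃ i ≤ m, ∃ t ∈ T, z = X ^ i * t} := by
  induction m with
  | zero =>
    apply Submodule.span_mono
    intro t ht
    exact ⟨0, le_rfl, t, ht, by simp⟩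
  | succ m ih =>
    have h0 : {z : ℚ[X] | ∃ i ≤ m, ∃ t ∈ T, z = X ^ i * t} ⊆ {z | ∃ i ≤ m + 1, ∃ t ∈ T, z = X ^ i * t} := by
      rintro z ⟨i, hi, t, ht, rfl⟩
      exact ⟨i, by omega, t, ht, rfl⟩
    refine sup_le (ih.trans (Submodule.span_mono h0)) ?_
    refine (Submodule.map_mono ih).trans ?_
    rw [Submodule.map_span]
    apply Submodule.span_mono
    rintro _ ⟨_, ⟨i, hi, t, ht, rfl⟩, rfl⟩
    refine ⟨i + 1, by omega, t, ht, ?_⟩
    simp only [mX, LinearMap.mulLeft_apply]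
    rw [pow_succ']; ring

/-- a full-rank family of shifts -/
lemma exists_family (S' : Finset ℤ[X]) (s N : ℕ) (hN : ∀ R ∈ S', R.natDegree ≤ N)
    (hfull : Vs (Sp S') s = degreeLT ℚ (N + s + 1)) :
    ∃ (ι : Fin (N + s + 1) → ℕ) (ρ : Fin (N + s + 1) → ℤ[X]), (∀ i, ι i ≤ s) ∧ (∀ i, ρ i ∈ S') ∧
      LinearIndependent ℚ (fun i => cQ (X ^ (ι i) * ρ i)) := by
  classical
  set T : Set ℚ[X] := {z | ∃ i ≤ s, ∃ t ∈ cQ '' (S' : Set ℤ[X]), z = X ^ i * t} with hT
  have hspan : Submodule.span ℚ T = degreeLT ℚ (N + s + 1) := by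
    apply le_antisymm
    · rw [Submodule.span_le]
      rintro _ ⟨i, hi, _, ⟨R, hR, rfl⟩, rfl⟩
      rw [SetLike.mem_coe, mem_degreeLT]
      by_cases h0 : X ^ i * cQ R = 0
      · rw [h0, degree_zero]; exact WithBot.bot_lt_coe _
      · rw [← natDegree_lt_iff_degree_lt h0]
        have h1 : (X ^ i * cQ R).natDegree ≤ i + N := by
          refine natDegree_mul_le.trans ?_
          rw [natDegree_X_pow]
          have := (natDegree_map_le (p := R) (f := Int.castRingHom ℚ)).trans (hN R hR)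
          unfold cQ
          omega
        omega
    · rw [← hfull]
      exact Vs_le_span _ _
  obtain ⟨bs, hbT, hbspan, hblin⟩ := exists_linearIndependent ℚ T
  have hTfin : T.Finite := by
    have : T ⊆ ⋃ i ∈ Finset.range (s + 1), (fun t => X ^ i * t) '' (cQ '' (S' : Set ℤ[X])) := by
      rintro z ⟨i, hi, t, ht, rfl⟩
      rw [Set.mem_iUnion₂]
      exact ⟨i, Finset.mem_range.2 (by omega), t, ht, rfl⟩
    refine Set.Finite.subset ?_ this
    exact Set.Finite.biUnion (Finset.finite_toSet _) (fun i _ => (S'.finite_toSet.image _).image _)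
  have hbfin : bs.Finite := hTfin.subset hbT
  haveI : Fintype bs := hbfin.fintype
  have hcard : Fintype.card bs = N + s + 1 := by
    have h1 := finrank_span_set_eq_card hblin
    rw [hbspan, hspan, finrank_degreeLT, Set.toFinset_card] at h1
    exact h1.symm
  set e : Fin (N + s + 1) ≃ bs := (Fintype.equivFinOfCardEq hcard).symm with he
  have hch : ∀ i : Fin (N + s + 1), ∃ (a : ℕ) (R : ℤ[X]), a ≤ s ∧ R ∈ S' ∧
      ((e i : bs) : ℚ[X]) = cQ (X ^ a * R) := by
    intro i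
    obtain ⟨a, ha, _, ⟨R, hR, rfl⟩, hz⟩ := hbT (e i).2
    refine ⟨a, R, ha, hR, ?_⟩
    rw [hz]; simp [cQ]
  choose ι ρ h1 h2 h3 using hch
  refine ⟨ι, ρ, h1, h2, ?_⟩
  have h4 : (fun i => cQ (X ^ (ι i) * ρ i)) = (fun x : bs => (x : ℚ[X])) ∘ e := by
    ext1 i
    rw [Function.comp_apply, h3 i]
  rw [h4]
  exact hblin.comp _ e.injective

end Pool.Agent.Helper404
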