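import Mathlib
import Pool.Agent.Helper404.ST4

open Polynomial Module

namespace Pool.Agent.Helper404

theorem core (n s : ℕ) (hs : 1 ≤ s) (ξ : ℝ) (cs ws : ℝ) (hcs : 0 < cs) (hws : 0 ≤ ws)
    (hlow : ∀ G : ℤ[X], G ≠ 0 → G.natDegree ≤ s → cs * (HP G : ℝ) ^ (-ws) ≤ |aeval ξ G|) :
    ∃ C : ℝ, 1 ≤ C ∧ ∀ (A Y : ℝ), 1 ≤ A → 0 < Y → ∀ S : Finset ℤ[X],
      (∀ P ∈ S, P.natDegree ≤ n ∧ (HP P : ℝ) ≤ A ∧ |aeval ξ P| ≤ Y) →
      1 ≤ finrank ℚ (Sp S) → n + 1 ≤ finrank ℚ (Sp S) + s →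
      ∃ R : ℤ[X], R.natDegree ≤ n ∧ (HP R : ℝ) ≤ C * A ∧ |aeval ξ R| ≤ C * (Y * A ^ ws) ∧
        1 ≤ C * (Y * A ^ ws) * max |aeval ξ R| |aeval ξ (derivative R)| * A ^ (n + s - 1) := by
  classical
  set K2 : ℝ := 2 ^ n * (n + 1) with hK2
  have hK21 : 1 ≤ K2 := by
    have h1 : (1 : ℝ) ≤ 2 ^ n := one_le_pow₀ (by norm_num)
    have h2 : (1 : ℝ) ≤ n + 1 := by
      have : (0 : ℝ) ≤ n := Nat.cast_nonneg n
      linarith
    exact one_le_mul_of_one_le_of_one_le h1 h2
  have hK20 : 0 < K2 := by linarith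
  set K1 : ℝ := (max 1 |ξ|) ^ s with hK1
  have hK11 : 1 ≤ K1 := one_le_pow₀ (le_max_left _ _)
  have hK10 : 0 < K1 := by linarith
  set C0 : ℝ := K2 ^ ws / cs with hC0
  have hC00 : 0 < C0 := by positivity
  set F : ℝ := ((n + s + 1).factorial : ℝ) * (K1 * C0 * ((s + 1) * K1) * K2 ^ (n + s - 1)) with hF
  have hF0 : 0 < F := by positivity
  refine ⟨1 + K2 + C0 + F, by linarith, ?_⟩
  intro A Y hA hY S hS hr1 hr2
  have hA0 : 0 < A := by linarith
  have hAws : 0 < A ^ ws := Real.rpow_pos_of_pos hA0 _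
  have hne : ∃ P ∈ S, P ≠ 0 := by
    by_contra hcon
    push Not at hcon
    have : Sp S = ⊥ := by
      unfold Sp
      rw [Submodule.span_eq_bot]
      rintro _ ⟨P, hP, rfl⟩
      rw [hcon P hP]; simp [cQ]
    rw [this, finrank_bot] at hr1
    omega
  obtain ⟨G, S', hG, hSS, hfr, hid⟩ := exists_gcd S hne
  have hne' : (S'.filter (fun R => R ≠ 0)).Nonempty := by
    by_contra hcon
    rw [Finset.not_nonempty_iff_eq_empty] at hcon
    have : Sp S' = ⊥ := by
      unfold Sp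
      rw [Submodule.span_eq_bot]
      rintro _ ⟨P, hP, rfl⟩
      by_contra h0
      have hP0 : P ≠ 0 := by
        intro h; apply h0; rw [h]; simp [cQ]
      have : P ∈ S'.filter (fun R => R ≠ 0) := Finset.mem_filter.2 ⟨hP, hP0⟩
      rw [hcon] at this
      exact absurd this (Finset.notMem_empty _)
    rw [← hfr, this, finrank_bot] at hr1
    omega
  obtain ⟨R0, hR0, hR0max⟩ := Finset.exists_max_image _ (fun R : ℤ[X] => R.natDegree) hne'
  rw [Finset.mem_filter] at hR0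
  obtain ⟨hR0S, hR0ne⟩ := hR0
  set N := R0.natDegree with hN
  have hNmax : ∀ R ∈ S', R.natDegree ≤ N := by
    intro R hR
    by_cases h : R = 0
    · rw [h, natDegree_zero]; omega
    · exact hR0max R (Finset.mem_filter.2 ⟨hR, h⟩)
  have hGR0 := hS _ (hSS R0 hR0S)
  have hGN : G.natDegree + N ≤ n := by
    have := hGR0.1
    rwa [natDegree_mul hG hR0ne] at this
  have hcR0 : cQ R0 ≠ 0 := fun h => hR0ne (cQ_inj (by rw [h]; simp [cQ]))
  have hSple : Sp S' ≤ degreeLT ℚ (N + 1) := by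
    unfold Sp
    rw [Submodule.span_le]
    rintro _ ⟨R, hR, rfl⟩
    rw [SetLike.mem_coe, mem_degreeLT]
    by_cases h0 : cQ R = 0
    · rw [h0, degree_zero]; exact WithBot.bot_lt_coe _
    · rw [← natDegree_lt_iff_degree_lt h0]
      have := (natDegree_map_le (p := R) (f := Int.castRingHom ℚ)).trans (hNmax R hR)
      unfold cQ
      omega
  have hfrN : finrank ℚ (Sp S') ≤ N + 1 := by
    have := Submodule.finrank_mono hSple
    rwa [finrank_degreeLT] at this
  have hGs : G.natDegree ≤ s := by omega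
  have hR0N : (cQ R0).natDegree = N := by
    unfold cQ
    rw [natDegree_map_eq_of_injective (RingHom.injective_int _)]
  have hfull := Vs_full (Sp S') N hSple hid (cQ R0) (Submodule.subset_span ⟨R0, hR0S, rfl⟩) hR0N hcR0 s
    (by omega)
  have hfam := exists_family S' s N hNmax hfull
  obtain ⟨l, hl⟩ : ∃ l, N + s + 1 = l + 2 := ⟨N + s - 1, by omega⟩
  rw [hl] at hfam
  obtain ⟨ι, ρ, hι, hρ, hlin⟩ := hfam
  -- heights
  have hHG : (HP G : ℝ) ≤ K2 * A := by
    have h1 := height_div n R0 G hR0ne (by rw [mul_comm]; exact hGR0.1)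
    rw [mul_comm R0 G] at h1
    refine h1.trans ?_
    have := hGR0.2.1
    gcongr
  have hHR : ∀ R ∈ S', (HP R : ℝ) ≤ K2 * A := by
    intro R hR
    have h1 := height_div n G R hG (hS _ (hSS R hR)).1
    refine h1.trans ?_
    have := (hS _ (hSS R hR)).2.1
    gcongr
  have hGval : cs * (K2 * A) ^ (-ws) ≤ |aeval ξ G| := by
    refine le_trans ?_ (hlow G hG hGs)
    have h1 : (1 : ℝ) ≤ HP G := by exact_mod_cast HP_pos hG
    have h2 : (K2 * A) ^ (-ws) ≤ (HP G : ℝ) ^ (-ws) :=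
      Real.rpow_le_rpow_of_nonpos (by linarith) hHG (by linarith)
    gcongr
  have hRval : ∀ R ∈ S', |aeval ξ R| ≤ C0 * (Y * A ^ ws) := by
    intro R hR
    have h1 := (hS _ (hSS R hR)).2.2
    rw [map_mul, abs_mul] at h1
    have hK2A : 0 < K2 * A := by positivity
    have h2 : 0 < (K2 * A) ^ ws := Real.rpow_pos_of_pos hK2A _
    have h3 : cs * (K2 * A) ^ (-ws) * |aeval ξ R| ≤ Y := le_trans (by gcongr) h1
    rw [Real.rpow_neg hK2A.le] at h3
    have h4 : |aeval ξ R| ≤ Y * (K2 * A) ^ ws / cs := by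
      rw [le_div_iff₀ hcs]
      have h5 : cs * ((K2 * A) ^ ws)⁻¹ * |aeval ξ R| * (K2 * A) ^ ws ≤ Y * (K2 * A) ^ ws := by gcongr
      have h6 : cs * ((K2 * A) ^ ws)⁻¹ * |aeval ξ R| * (K2 * A) ^ ws = |aeval ξ R| * cs := by
        field_simp
      linarith
    refine h4.trans (le_of_eq ?_)
    rw [Real.mul_rpow hK20.le hA0.le, hC0]
    field_simp
  -- maximal derivative
  obtain ⟨R1, hR1, hR1max⟩ := Finset.exists_max_image S'
    (fun R => max |aeval ξ R| |aeval ξ (derivative R)|) ⟨R0, hR0S⟩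
  set D : ℝ := max |aeval ξ R1| |aeval ξ (derivative R1)| with hD
  have hD0 : 0 ≤ D := (abs_nonneg _).trans (le_max_left _ _)
  refine ⟨R1, ?_, ?_, ?_, ?_⟩
  · exact (hNmax R1 hR1).trans (by omega)
  · refine (hHR R1 hR1).trans ?_
    have : K2 ≤ 1 + K2 + C0 + F := by linarith
    gcongr
  · refine (hRval R1 hR1).trans ?_
    have : C0 ≤ 1 + K2 + C0 + F := by linarith
    gcongr
  · -- determinant
    have hmax1 : (1 : ℝ) ≤ max 1 |ξ| := le_max_left _ _
    have hpow : ∀ a, a ≤ s → |ξ| ^ a ≤ K1 := fun a ha => by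
      calc |ξ| ^ a ≤ (max 1 |ξ|) ^ a := pow_le_pow_left₀ (abs_nonneg _) (le_max_right _ _) _
        _ ≤ K1 := pow_le_pow_right₀ hmax1 ha
    have hYA : 0 < Y * A ^ ws := by positivity
    have hdet := det_bound l ξ (fun i => X ^ (ι i) * ρ i) (by
        intro i
        refine lt_of_le_of_lt natDegree_mul_le ?_
        rw [natDegree_X_pow]
        have h1 := hι i
        have h2 := hNmax _ (hρ i)
        omega) hlin (K2 * A) (K1 * (C0 * (Y * A ^ ws))) (((s : ℝ) + 1) * K1 * D) (by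
        intro i k
        rw [coeff_X_pow_mul']
        split_ifs
        · exact (coeff_le_HP _ _).trans (hHR _ (hρ i))
        · simp only [Int.cast_zero, abs_zero]; positivity) (by
        intro i
        rw [map_mul, map_pow, aeval_X, abs_mul, abs_pow]
        exact mul_le_mul (hpow _ (hι i)) (hRval _ (hρ i)) (abs_nonneg _) hK10.le) (by
        intro i
        have h1 := hR1max _ (hρ i)
        have h2 : |aeval ξ (ρ i)| ≤ D := (le_max_left _ _).trans h1
        have h3 : |aeval ξ (derivative (ρ i))| ≤ D := (le_max_right _ _).trans h1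
        rw [derivative_mul, derivative_X_pow, map_add, map_mul, map_mul, map_mul, map_pow, map_pow,
          aeval_X, aeval_C]
        have h4 : |(algebraMap ℤ ℝ) ((ι i : ℕ) : ℤ) * ξ ^ (ι i - 1) * aeval ξ (ρ i)| ≤ (s : ℝ) * K1 * D := by
          rw [abs_mul, abs_mul, abs_pow]
          have h5 : |(algebraMap ℤ ℝ) ((ι i : ℕ) : ℤ)| ≤ (s : ℝ) := by
            simp only [eq_intCast, Int.cast_natCast, Nat.abs_cast]
            exact_mod_cast hι i
          have h6 : |ξ| ^ (ι i - 1) ≤ K1 := hpow _ (by have := hι i; omega)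
          gcongr
        have h5 : |ξ ^ (ι i) * aeval ξ (derivative (ρ i))| ≤ K1 * D := by
          rw [abs_mul, abs_pow]
          exact mul_le_mul (hpow _ (hι i)) h3 (abs_nonneg _) hK10.le
        calc _ ≤ _ + _ := abs_add_le _ _
          _ ≤ (s : ℝ) * K1 * D + K1 * D := add_le_add h4 h5
          _ = _ := by ring)
    have hfac : ((l + 2).factorial : ℝ) ≤ ((n + s + 1).factorial : ℝ) := by
      exact_mod_cast Nat.factorial_le (by omega)
    have hK2A : 1 ≤ K2 * A := one_le_mul_of_one_le_of_one_le hK21 hA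
    have hpl : (K2 * A) ^ l ≤ (K2 * A) ^ (n + s - 1) := pow_le_pow_right₀ hK2A (by omega)
    have hFC : F ≤ 1 + K2 + C0 + F := by linarith
    calc (1 : ℝ) ≤ _ := hdet
      _ ≤ ((n + s + 1).factorial : ℝ) * (K1 * (C0 * (Y * A ^ ws)) * (((s : ℝ) + 1) * K1 * D) *
          (K2 * A) ^ (n + s - 1)) := by gcongr
      _ = F * (Y * A ^ ws) * D * A ^ (n + s - 1) := by rw [mul_pow, hF]; ring
      _ ≤ (1 + K2 + C0 + F) * (Y * A ^ ws) * D * A ^ (n + s - 1) := by gcongr

end Pool.Agent.Helper404
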