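import Mathlib
import Pool.Agent.Helper404.Bad

open MeasureTheory Set Polynomial

namespace Pool.Agent.Helper404

lemma zpow_cmp (n : ℕ) (η Y c0 : ℝ) (hη : 0 < η) (hη1 : η ≤ 1) (hY : 1 ≤ Y) (h1 : η * Y < c0)
    (h2 : c0 ≤ Y) (m : ℤ) (hm1 : -(n : ℤ) ≤ m) : c0 ^ m ≤ (1 / η) ^ n * Y ^ m := by
  have hY0 : 0 < Y := by linarith
  have hc0 : 0 < c0 := lt_trans (by positivity) h1
  have h3 : (c0 / Y) ^ m ≤ (1 / η) ^ n := by
    have hη2 : 1 ≤ 1 / η := by rw [le_div_iff₀ hη]; linarith
    rcases le_or_gt 0 m with hm | hm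
    · have h4 : (c0 / Y) ^ m ≤ 1 := by
        obtain ⟨k, hk⟩ : ∃ k : ℕ, m = (k : ℤ) := ⟨m.natAbs, by omega⟩
        rw [hk, zpow_natCast]
        exact pow_le_one₀ (by positivity) ((div_le_one hY0).2 h2)
      exact h4.trans (one_le_pow₀ hη2)
    · obtain ⟨k, hk⟩ : ∃ k : ℕ, m = -(k : ℤ) := ⟨m.natAbs, by omega⟩
      rw [hk, zpow_neg, zpow_natCast, ← inv_pow]
      have h5 : (c0 / Y)⁻¹ ≤ 1 / η := by
        rw [inv_div, div_le_div_iff₀ hc0 hη]; linarith
      have hkn : k ≤ n := by omega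
      calc (c0 / Y)⁻¹ ^ k ≤ (1 / η) ^ k := pow_le_pow_left₀ (by positivity) h5 k
        _ ≤ (1 / η) ^ n := pow_le_pow_right₀ hη2 hkn
  rw [div_zpow] at h3
  rwa [div_le_iff₀ (by positivity)] at h3

lemma rpow_le_max (x : ℝ) (hx : 0 ≤ x) (s : ℝ) (hs : 0 ≤ s) (hs1 : s ≤ 1) : x ^ s ≤ max 1 x := by
  rcases le_or_gt x 1 with h | h
  · exact (Real.rpow_le_one hx h hs).trans (le_max_left _ _)
  · calc x ^ s ≤ x ^ (1 : ℝ) := Real.rpow_le_rpow_of_exponent_le h.le hs1
      _ = x := Real.rpow_one x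
      _ ≤ _ := le_max_right _ _

lemma bad_core (n : ℕ) (hn : 2 ≤ n) (t : ℝ) (ht : (n : ℝ) + 1 < t) (c : ℝ) (hc : 0 < c) (η : ℝ)
    (hη : 0 < η) (hη1 : η ≤ 1) : ∃ C1 C2 : ℝ, 1 ≤ C1 ∧ 0 < C2 ∧
    ∀ (Y : ℝ) (q : ℚ) (Q : ℤ[X]) (β h : ℝ) (b e : ℤ), 1 ≤ Y → 0 < q → q < 1 → η * Y < q.den →
      (q.den : ℝ) ≤ Y → Irreducible Q → Q.natDegree = n → aeval β Q = 0 →
      |(q : ℝ) - β| ≤ c * (HP Q : ℝ) ^ (-t) → 1 ≤ h → h ≤ HP Q → (HP Q : ℝ) ≤ 2 * h →
      q.num * (-e) - b * q.den = 1 →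
      h ^ (t / (n + 1)) ≤ C1 * Y ∧ ∃ u : Fin (n + 1) → ℤ, u ≠ 0 ∧
        ∀ z : ℝ, |z - (e : ℝ) / q.den| ≤ 1 / (2 * Y ^ 2) →
          ∀ k : Fin (n + 1), |tc (toP u) k z| ≤ C2 * wt n Y h t k := by
  have hn0 : (0 : ℝ) < n := by exact_mod_cast (by omega : 0 < n)
  set A : ℝ := (n + 1) * 2 ^ n with hA
  have hApos : 0 < A := by positivity
  set E : ℝ := n * ((n + 1) * 2 ^ n * (1 + c) ^ n) with hE
  have hEpos : 0 < E := by positivity
  set C2' : ℝ := 2 * A * (1 / η) ^ n + E * c with hC2'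
  have hC2'pos : 0 < C2' := by positivity
  refine ⟨max 1 (E * c), (n + 1) * 2 ^ n * C2', le_max_left _ _, by positivity, ?_⟩
  intro Y q Q β h b e hY hq0 hq1 hden1 hden2 hirr hdeg hβ hclose hh1 hh2 hh3 hbe
  have hY0 : 0 < Y := by linarith
  have hh0 : 0 < h := by linarith
  have hHP0 : (0 : ℝ) < HP Q := by linarith
  have hHP1 : (1 : ℝ) ≤ HP Q := by linarith
  have hqabs : |(q : ℝ)| ≤ 1 := by
    have h1 : (0 : ℝ) < q := by exact_mod_cast hq0
    have h2 : (q : ℝ) < 1 := by exact_mod_cast hq1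
    rw [abs_of_pos h1]; exact h2.le
  have hHPt : (HP Q : ℝ) ^ (-t) ≤ 1 := Real.rpow_le_one_of_one_le_of_nonpos hHP1 (by linarith)
  have hclose' : |(q : ℝ) - β| ≤ c := hclose.trans (by nlinarith)
  have hval : |aeval (q : ℝ) Q| ≤ E * c * (HP Q : ℝ) ^ (1 - t) := by
    have h1 := val_bound n Q hdeg.le (q : ℝ) β hqabs hβ c hclose'
    refine h1.trans ?_
    have h2 : (HP Q : ℝ) ^ (1 - t) = HP Q * (HP Q : ℝ) ^ (-t) := by
      rw [sub_eq_add_neg, Real.rpow_add hHP0, Real.rpow_one]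
    rw [h2]
    calc E * HP Q * |(q : ℝ) - β| ≤ E * HP Q * (c * (HP Q : ℝ) ^ (-t)) := by gcongr
      _ = _ := by ring
  have hlow := rat_lower n hn Q hirr hdeg q
  have hHPh : (HP Q : ℝ) ^ (1 - t) ≤ h ^ (1 - t) :=
    Real.rpow_le_rpow_of_nonpos hh0 hh2 (by linarith)
  constructor
  · -- size of h
    have h1 : 1 ≤ Y ^ n * (E * c * h ^ (1 - t)) := by
      calc 1 ≤ (q.den : ℝ) ^ n * |aeval (q : ℝ) Q| := hlow
        _ ≤ Y ^ n * (E * c * h ^ (1 - t)) := by
          have := hval.trans (mul_le_mul_of_nonneg_left hHPh (by positivity))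
          gcongr
    have h2 : h ^ (t - 1) ≤ E * c * Y ^ n := by
      have h3 : h ^ (1 - t) = (h ^ (t - 1))⁻¹ := by rw [← Real.rpow_neg hh0.le]; congr 1; ring
      rw [h3] at h1
      have h4 : 0 < h ^ (t - 1) := Real.rpow_pos_of_pos hh0 _
      have h5 : Y ^ n * (E * c * (h ^ (t - 1))⁻¹) = (E * c * Y ^ n) / h ^ (t - 1) := by
        field_simp
      rw [h5, le_div_iff₀ h4, one_mul] at h1
      exact h1
    calc h ^ (t / (n + 1)) ≤ h ^ ((t - 1) * (1 / n)) := by
          apply Real.rpow_le_rpow_of_exponent_le hh1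
          rw [mul_one_div, div_le_div_iff₀ (by positivity) hn0]
          nlinarith
      _ = (h ^ (t - 1)) ^ (1 / (n : ℝ)) := by rw [Real.rpow_mul hh0.le]
      _ ≤ (E * c * Y ^ n) ^ (1 / (n : ℝ)) := by
          apply Real.rpow_le_rpow (Real.rpow_nonneg hh0.le _) h2 (by positivity)
      _ = (E * c) ^ (1 / (n : ℝ)) * Y := by
          rw [Real.mul_rpow (by positivity) (by positivity), ← Real.rpow_natCast, ← Real.rpow_mul hY0.le,
            mul_one_div_cancel hn0.ne', Real.rpow_one]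
      _ ≤ max 1 (E * c) * Y := by
          apply mul_le_mul_of_nonneg_right _ hY0.le
          apply rpow_le_max _ (by positivity) _ (by positivity)
          rw [div_le_one hn0]
          exact_mod_cast (by omega : 1 ≤ n)
  · set F := tw n Q q.num b q.den (-e) with hF
    have hFd : F.natDegree ≤ n := tw_natDegree n Q q.num b q.den (-e)
    have hdual := dual n Q hdeg.le q.num b q.den (-e) hbe (by exact_mod_cast q.den_pos)
    have hq' : (q.num : ℝ) / ((q.den : ℤ) : ℝ) = (q : ℝ) := by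
      rw [Int.cast_natCast]
      exact_mod_cast (Rat.cast_def (K := ℝ) q).symm
    have hz' : -(((-e : ℤ)) : ℝ) / ((q.den : ℤ) : ℝ) = (e : ℝ) / q.den := by push_cast; ring
    rw [hq', hz'] at hdual
    rw [← hF] at hdual
    have hden0 : (0 : ℝ) < q.den := by exact_mod_cast q.den_pos
    refine ⟨fun k => F.coeff k, ?_, ?_⟩
    · intro hu
      have h1 := hdual n le_rfl
      have h2 : F = 0 := by
        rw [← toP_of_coeff F hFd, hu]
        unfold toP; simp
      rw [h2] at h1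
      have h3 : tc 0 n ((e : ℝ) / q.den) = 0 := by unfold tc; simp
      rw [h3, Nat.sub_self, pow_zero, one_mul, tc_zero] at h1
      rcases mul_eq_zero.1 h1.symm with h4 | h4
      · exact (zpow_ne_zero _ (by exact_mod_cast q.den_pos.ne')) h4
      · exact no_rat_root n hn Q hirr hdeg q h4
    · rw [toP_of_coeff F hFd]
      -- bound at the centre
      have hcen : ∀ k (hk : k ≤ n), |tc F k ((e : ℝ) / q.den)| ≤ C2' * wt n Y h t ⟨k, by omega⟩ := by
        intro k hk
        rw [hdual k hk, abs_mul, abs_mul, abs_pow, abs_neg, abs_one, one_pow, one_mul]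
        have hzp : |(((q.den : ℤ) : ℝ)) ^ ((2 * k : ℤ) - n)| = (q.den : ℝ) ^ ((2 * k : ℤ) - n) := by
          rw [Int.cast_natCast, abs_of_pos (by positivity)]
        rw [hzp]
        unfold wt
        simp only
        by_cases hkn : k = n
        · rw [if_pos hkn, hkn, Nat.sub_self, tc_zero]
          have e1 : (q.den : ℝ) ^ ((2 * n : ℤ) - n) = (q.den : ℝ) ^ n := by
            rw [← zpow_natCast]; congr 1; ring
          rw [e1]
          calc (q.den : ℝ) ^ n * |aeval (q : ℝ) Q| ≤ Y ^ n * (E * c * h ^ (1 - t)) := by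
                have := hval.trans (mul_le_mul_of_nonneg_left hHPh (by positivity))
                gcongr
            _ = (E * c) * (Y ^ n * h ^ (1 - t)) := by ring
            _ ≤ C2' * (Y ^ n * h ^ (1 - t)) := by
                have : E * c ≤ C2' := by rw [hC2']; have : 0 ≤ 2 * A * (1 / η) ^ n := by positivity
                                         linarith
                have h6 : 0 ≤ h ^ (1 - t) := Real.rpow_nonneg hh0.le _
                gcongr
        · rw [if_neg hkn]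
          have h1 := zpow_cmp n η Y q.den hη hη1 hY hden1 hden2 ((2 * k : ℤ) - n) (by omega)
          have h2 := tc_bound n Q hdeg.le (n - k) (q : ℝ) hqabs
          calc (q.den : ℝ) ^ ((2 * k : ℤ) - n) * |tc Q (n - k) q|
              ≤ ((1 / η) ^ n * Y ^ ((2 * k : ℤ) - n)) * (A * (2 * h)) := by
                have h3 : |tc Q (n - k) q| ≤ A * (2 * h) := h2.trans (by gcongr)
                gcongr
            _ = (2 * A * (1 / η) ^ n) * (Y ^ ((2 * k : ℤ) - n) * h) := by ring
            _ ≤ C2' * (Y ^ ((2 * k : ℤ) - n) * h) := by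
                have : 2 * A * (1 / η) ^ n ≤ C2' := by rw [hC2']; have : 0 ≤ E * c := by positivity
                                                       linarith
                gcongr
      intro z hz k
      have hzz : z = (e : ℝ) / q.den + (z - (e : ℝ) / q.den) := by ring
      rw [hzz, tc_shift F n hFd]
      set s := z - (e : ℝ) / q.den with hs
      have hs1 : |s| ≤ 1 / Y ^ 2 := by
        refine hz.trans ?_
        apply one_div_le_one_div_of_le (by positivity)
        nlinarith [sq_nonneg Y]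
      calc _ ≤ ∑ i ∈ Finset.range (n + 1), |((i + (k : ℕ)).choose i : ℝ) * tc F (i + k) ((e : ℝ) / q.den) * s ^ i| :=
            Finset.abs_sum_le_sum_abs _ _
        _ ≤ ∑ i ∈ Finset.range (n + 1), 2 ^ n * C2' * wt n Y h t k := by
            refine Finset.sum_le_sum (fun i _ => ?_)
            have hwk := wt_pos n t hY0 hh0 k
            by_cases hik : i + (k : ℕ) ≤ n
            · rw [abs_mul, abs_mul, abs_pow, Nat.abs_cast]
              have h1 : ((i + (k : ℕ)).choose i : ℝ) ≤ 2 ^ n := by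
                have : (i + (k : ℕ)).choose i ≤ 2 ^ (i + (k : ℕ)) := Nat.choose_le_two_pow _ _
                have h3 : 2 ^ (i + (k : ℕ)) ≤ 2 ^ n := Nat.pow_le_pow_right (by norm_num) hik
                exact_mod_cast this.trans h3
              have h2 := hcen (i + k) hik
              have h3 := wt_shift n t hY hh1 (by linarith) (k : ℕ) i hik
              have h4 : |s| ^ i ≤ (1 / Y ^ 2) ^ i := pow_le_pow_left₀ (abs_nonneg _) hs1 i
              have h5 := wt_pos n t hY0 hh0 ⟨i + (k : ℕ), by omega⟩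
              calc ((i + (k : ℕ)).choose i : ℝ) * |tc F (i + k) ((e : ℝ) / q.den)| * |s| ^ i
                  ≤ 2 ^ n * (C2' * wt n Y h t ⟨i + k, by omega⟩) * (1 / Y ^ 2) ^ i := by gcongr
                _ = 2 ^ n * C2' * (wt n Y h t ⟨i + k, by omega⟩ * (1 / Y ^ 2) ^ i) := by ring
                _ ≤ 2 ^ n * C2' * wt n Y h t k := by gcongr
            · rw [tc_high F n hFd (i + k) (by omega)]
              simp only [mul_zero, zero_mul, abs_zero]
              positivity
        _ = _ := by rw [Finset.sum_const, Finset.card_range, nsmul_eq_mul]; push_cast; ring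

end Pool.Agent.Helper404
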