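import Mathlib
import Pool.Agent.Helper404.BadCore

open MeasureTheory Set Polynomial

namespace Pool.Agent.Helper404

/-- rationals of denominator about `Y` lying in a zone of large height -/
def BadQ (n : ℕ) (t c η : ℝ) (H2 : ℕ) (Y : ℝ) : Set ℚ :=
  {q | 0 < q ∧ q < 1 ∧ η * Y < q.den ∧ (q.den : ℝ) ≤ Y ∧ ∃ Q : ℤ[X], Irreducible Q ∧ Q.natDegree = n ∧
    H2 ≤ HP Q ∧ ∃ β : ℝ, aeval β Q = 0 ∧ |(q : ℝ) - β| ≤ c * (HP Q : ℝ) ^ (-t)}

lemma exists_be (q : ℚ) : ∃ e b : ℤ, 0 ≤ e ∧ e < q.den ∧ q.num * (-e) - b * q.den = 1 := by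
  have hcop : IsCoprime q.num (q.den : ℤ) := by
    rw [Int.isCoprime_iff_gcd_eq_one]
    have := q.reduced
    rw [Nat.coprime_iff_gcd_eq_one] at this
    rw [Int.gcd_def]
    simpa using this
  obtain ⟨x, y, hxy⟩ := hcop
  have hd : (0 : ℤ) < q.den := by exact_mod_cast q.den_pos
  refine ⟨(-x) % q.den, q.num * ((-x) / q.den) - y, Int.emod_nonneg _ hd.ne', Int.emod_lt_of_pos _ hd, ?_⟩
  have h1 := Int.emod_add_mul_ediv (-x) q.den
  have h2 : (-x) % (q.den : ℤ) = -x - q.den * ((-x) / q.den) := by linarith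
  rw [h2]
  linarith

lemma z_inj (q q' : ℚ) (hq0 : 0 < q) (hq1 : q < 1) (hq0' : 0 < q') (hq1' : q' < 1) (e b e' b' : ℤ)
    (h : q.num * (-e) - b * q.den = 1) (h' : q'.num * (-e') - b' * q'.den = 1)
    (heq : e * q'.den = e' * q.den) : q = q' := by
  have c1 : IsCoprime e (q.den : ℤ) := ⟨-q.num, -b, by linarith⟩
  have c2 : IsCoprime e' (q'.den : ℤ) := ⟨-q'.num, -b', by linarith⟩
  have d1 : (q.den : ℤ) ∣ q'.den := by
    have : (q.den : ℤ) ∣ e * q'.den := ⟨e', by rw [heq]; ring⟩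
    exact c1.symm.dvd_of_dvd_mul_left this
  have d2 : (q'.den : ℤ) ∣ q.den := by
    have : (q'.den : ℤ) ∣ e' * q.den := ⟨e, by rw [← heq]; ring⟩
    exact c2.symm.dvd_of_dvd_mul_left this
  have hden : (q.den : ℤ) = q'.den := Int.dvd_antisymm (by positivity) (by positivity) d1 d2
  have hd : (0 : ℤ) < q.den := by exact_mod_cast q.den_pos
  have hee : e = e' := by
    rw [← hden] at heq
    exact mul_right_cancel₀ hd.ne' heq
  subst hee
  have h3 : (q.den : ℤ) ∣ e * (q.num - q'.num) := by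
    refine ⟨b' - b, ?_⟩
    rw [← hden] at h'
    linarith
  have h4 : (q.den : ℤ) ∣ q.num - q'.num := c1.symm.dvd_of_dvd_mul_left h3
  have n1 : 0 < q.num := Rat.num_pos.2 hq0
  have n1' : 0 < q'.num := Rat.num_pos.2 hq0'
  have n2 : q.num < q.den := by
    have := Rat.num_lt_denom_iff.2 hq1
    exact this
  have n2' : q'.num < q'.den := by
    have := Rat.num_lt_denom_iff.2 hq1'
    exact this
  have h5 : q.num - q'.num = 0 := by
    apply Int.eq_zero_of_abs_lt_dvd h4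
    rw [abs_lt]
    constructor <;> omega
  apply Rat.ext
  · omega
  · exact_mod_cast hden

theorem bad_sum (n : ℕ) (hn : 2 ≤ n) (t : ℝ) (ht : (n : ℝ) + 1 < t) (c : ℝ) (hc : 0 < c) (η : ℝ)
    (hη : 0 < η) (hη1 : η ≤ 1) (ε : ℝ) (hε : 0 < ε) : ∃ H2 : ℕ, ∀ Y : ℝ, 1 ≤ Y →
      ∑' _q : BadQ n t c η H2 Y, ENNReal.ofReal (1 / Y ^ 2) ≤ ENNReal.ofReal ε := by
  obtain ⟨C1, C2, hC1, hC2, hcore⟩ := bad_core n hn t ht c hc η hη hη1
  obtain ⟨C3, hC3, γ, hγ, hS⟩ := S_meas n (by omega) t ht C1 C2 hC1 hC2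
  set r : ℝ := (2 : ℝ) ^ (-γ) with hr
  have hr0 : 0 < r := Real.rpow_pos_of_pos (by norm_num) _
  have hr1 : r < 1 := Real.rpow_lt_one_of_one_lt_of_neg (by norm_num) (by linarith)
  obtain ⟨i0, hi0⟩ : ∃ i0 : ℕ, C3 * r ^ i0 / (1 - r) ≤ ε := by
    obtain ⟨i0, hi0⟩ := exists_pow_lt_of_lt_one (show 0 < ε * (1 - r) / (C3 + 1) by
      have : 0 < 1 - r := by linarith
      positivity) hr1
    refine ⟨i0, ?_⟩
    have h1r : 0 < 1 - r := by linarith
    rw [div_le_iff₀ h1r]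
    rw [lt_div_iff₀ (by positivity)] at hi0
    have : 0 < r ^ i0 := by positivity
    nlinarith
  refine ⟨2 ^ i0, fun Y hY => ?_⟩
  have hY0 : 0 < Y := by linarith
  choose e b he0 he1 heb using exists_be
  set rad : ℝ := 1 / (2 * Y ^ 2) with hrad
  have hrad0 : 0 < rad := by positivity
  set B := BadQ n t c η (2 ^ i0) Y with hB
  set zz : ℚ → ℝ := fun q => (e q : ℝ) / q.den with hzz
  have hsep : ∀ q ∈ B, ∀ q' ∈ B, q ≠ q' → 1 / Y ^ 2 ≤ dist (zz q) (zz q') := by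
    intro q hq q' hq' hne
    have hd : (0 : ℝ) < q.den := by exact_mod_cast q.den_pos
    have hd' : (0 : ℝ) < q'.den := by exact_mod_cast q'.den_pos
    have h1 : e q * q'.den - e q' * q.den ≠ 0 := by
      intro h
      exact hne (z_inj q q' hq.1 hq.2.1 hq'.1 hq'.2.1 _ _ _ _ (heb q) (heb q') (by linarith))
    have h2 : (1 : ℝ) ≤ |(e q : ℝ) * q'.den - e q' * q.den| := by
      have := Int.one_le_abs h1
      exact_mod_cast this
    rw [Real.dist_eq, hzz]
    simp only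
    have h3 : (e q : ℝ) / q.den - e q' / q'.den = (e q * q'.den - e q' * q.den) / (q.den * q'.den) := by
      field_simp
    rw [h3, abs_div, abs_of_pos (by positivity : (0 : ℝ) < q.den * q'.den)]
    rw [div_le_div_iff₀ (by positivity) (by positivity), one_mul]
    calc (q.den : ℝ) * q'.den ≤ Y * Y := mul_le_mul hq.2.2.2.1 hq'.2.2.2.1 hd'.le hY0.le
      _ = 1 * Y ^ 2 := by ring
      _ ≤ |(e q : ℝ) * q'.den - e q' * q.den| * Y ^ 2 := by gcongr
  have hdisj : B.PairwiseDisjoint (fun q => Metric.ball (zz q) rad) := by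
    intro q hq q' hq' hne
    apply Metric.ball_disjoint_ball
    refine le_trans (le_of_eq ?_) (hsep q hq q' hq' hne)
    rw [hrad]; field_simp; norm_num
  set SS : ℕ → Set ℝ := fun j => {z ∈ Ico (-1 : ℝ) 2 | ((2 : ℝ) ^ (i0 + j)) ^ (t / (n + 1)) ≤ C1 * Y ∧
    ∃ u : Fin (n + 1) → ℤ, u ≠ 0 ∧ ∀ k : Fin (n + 1), |tc (toP u) k z| ≤ C2 * wt n Y ((2 : ℝ) ^ (i0 + j)) t k}
    with hSS
  have hSSm : ∀ j, volume (SS j) ≤ ENNReal.ofReal (C3 * r ^ i0 * r ^ j) := by
    intro j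
    by_cases hcond : ((2 : ℝ) ^ (i0 + j)) ^ (t / (n + 1)) ≤ C1 * Y
    · have h1 := hS Y ((2 : ℝ) ^ (i0 + j)) hY (one_le_pow₀ (by norm_num)) hcond
      have hsub : SS j ⊆ {z ∈ Ico (-1 : ℝ) 2 | ∃ u : Fin (n + 1) → ℤ, u ≠ 0 ∧
          ∀ k : Fin (n + 1), |tc (toP u) k z| ≤ C2 * wt n Y ((2 : ℝ) ^ (i0 + j)) t k} :=
        fun z hz => ⟨hz.1, hz.2.2⟩
      refine (measure_mono hsub).trans (h1.trans (le_of_eq ?_))
      congr 1
      have h2 : ((2 : ℝ) ^ (i0 + j)) ^ (-γ) = r ^ (i0 + j) := by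
        rw [hr, ← Real.rpow_natCast, ← Real.rpow_natCast, ← Real.rpow_mul (by norm_num),
          ← Real.rpow_mul (by norm_num), mul_comm]
      rw [h2, pow_add]; ring
    · have : SS j = ∅ := by
        ext z
        simp only [hSS, mem_ofPred_eq, mem_empty_iff_false, iff_false]
        exact fun h => hcond h.2.1
      rw [this]; simp
  have hcov : (⋃ q ∈ B, Metric.ball (zz q) rad) ⊆ ⋃ j, SS j := by
    intro z hz
    rw [mem_iUnion₂] at hz
    obtain ⟨q, hq, hzq⟩ := hz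
    rw [Metric.mem_ball, Real.dist_eq] at hzq
    obtain ⟨hq0, hq1, hd1, hd2, Q, hirr, hdeg, hH2, β, hβ, hcl⟩ := hq
    have hQ0 : HP Q ≠ 0 := by
      have := HP_pos hirr.ne_zero; omega
    set i := Nat.log 2 (HP Q) with hi
    have hi1 : 2 ^ i ≤ HP Q := Nat.pow_log_le_self 2 hQ0
    have hi2 : HP Q < 2 ^ (i + 1) := Nat.lt_pow_succ_log_self (by norm_num) _
    have hi3 : i0 ≤ i := by
      rw [hi]
      exact Nat.le_log_of_pow_le (by norm_num) hH2
    obtain ⟨j, hj⟩ := Nat.exists_eq_add_of_le hi3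
    have hc1 := hcore Y q Q β ((2 : ℝ) ^ (i0 + j)) (b q) (e q) hY hq0 hq1 hd1 hd2 hirr hdeg hβ hcl
      (one_le_pow₀ (by norm_num)) (by rw [← hj]; exact_mod_cast hi1)
      (by
        rw [← hj]
        have : HP Q ≤ 2 * 2 ^ i := by rw [pow_succ] at hi2; omega
        exact_mod_cast this) (heb q)
    obtain ⟨hc2, u, hu, hk⟩ := hc1
    rw [mem_iUnion]
    refine ⟨j, ?_, hc2, u, hu, hk z hzq.le⟩
    have hd : (0 : ℝ) < q.den := by exact_mod_cast q.den_pos
    have hz0 : 0 ≤ zz q := div_nonneg (by exact_mod_cast he0 q) hd.le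
    have hz1 : zz q < 1 := by
      rw [hzz]; simp only
      rw [div_lt_one hd]; exact_mod_cast he1 q
    have hrad1 : rad ≤ 1 / 2 := by
      rw [hrad]
      apply one_div_le_one_div_of_le (by norm_num)
      nlinarith
    rw [abs_lt] at hzq
    constructor <;> linarith [hzq.1, hzq.2]
  have hsumfin : ∑' j : ℕ, ENNReal.ofReal (C3 * r ^ i0 * r ^ j) ≤ ENNReal.ofReal ε := by
    rw [← ENNReal.ofReal_tsum_of_nonneg (fun j => by positivity)
      ((summable_geometric_of_lt_one hr0.le hr1).mul_left _)]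
    apply ENNReal.ofReal_le_ofReal
    rw [tsum_mul_left, tsum_geometric_of_lt_one hr0.le hr1]
    rw [← div_eq_mul_inv]
    exact hi0
  calc ∑' _q : B, ENNReal.ofReal (1 / Y ^ 2)
      = ∑' q : B, volume (Metric.ball (zz q) rad) := by
        congr 1
        ext q
        rw [Real.volume_ball]
        congr 1
        rw [hrad]; field_simp
    _ = volume (⋃ q ∈ B, Metric.ball (zz q) rad) := by
        rw [measure_biUnion (to_countable B) hdisj (fun q _ => Metric.isOpen_ball.measurableSet)]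
    _ ≤ volume (⋃ j, SS j) := measure_mono hcov
    _ ≤ ∑' j, volume (SS j) := measure_iUnion_le _
    _ ≤ ∑' j : ℕ, ENNReal.ofReal (C3 * r ^ i0 * r ^ j) := ENNReal.tsum_le_tsum hSSm
    _ ≤ ENNReal.ofReal ε := hsumfin

end Pool.Agent.Helper404
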