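import Mathlib
import Pool.Agent.Helper404.BadSum

open MeasureTheory Set Polynomial Filter Topology

namespace Pool.Agent.Helper404

lemma finite_polys (n H : ℕ) : {Q : ℤ[X] | Q.natDegree ≤ n ∧ HP Q ≤ H}.Finite := by
  have h1 : {f : Fin (n + 1) → ℤ | ∀ i, f i ∈ Icc (-(H : ℤ)) H}.Finite := by
    have : {f : Fin (n + 1) → ℤ | ∀ i, f i ∈ Icc (-(H : ℤ)) H} = Set.pi univ (fun _ => Icc (-(H : ℤ)) H) := by
      ext f
      simp only [mem_ofPred_eq, Set.mem_pi, mem_univ, true_implies]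
    rw [this]
    exact Set.Finite.pi (fun _ => Set.finite_Icc _ _)
  refine (h1.image toP).subset ?_
  rintro Q ⟨hd, hH⟩
  refine ⟨fun k => Q.coeff k, ?_, toP_of_coeff Q hd⟩
  intro i
  have h2 := coeff_le_HP Q i
  have h3 : |(Q.coeff i : ℝ)| ≤ (H : ℝ) := h2.trans (by exact_mod_cast hH)
  have h4 : |Q.coeff i| ≤ (H : ℤ) := by exact_mod_cast h3
  rw [abs_le] at h4
  exact ⟨h4.1, h4.2⟩

/-- union of closed zones with heights in `[H0, H2)` -/
def ZZ (n : ℕ) (t c : ℝ) (H0 H2 : ℕ) : Set ℝ :=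
  {x | ∃ Q : ℤ[X], Irreducible Q ∧ Q.natDegree = n ∧ H0 ≤ HP Q ∧ HP Q < H2 ∧
    ∃ β : ℝ, aeval β Q = 0 ∧ |x - β| ≤ c * (HP Q : ℝ) ^ (-t)}

lemma ZZ_closed (n : ℕ) (t c : ℝ) (H0 H2 : ℕ) : IsClosed (ZZ n t c H0 H2) := by
  set F : Set ℤ[X] := {Q | Irreducible Q ∧ Q.natDegree = n ∧ H0 ≤ HP Q ∧ HP Q < H2} with hF
  have hFfin : F.Finite := (finite_polys n H2).subset (fun Q hQ => ⟨hQ.2.1.le, hQ.2.2.2.le⟩)
  have hEq : ZZ n t c H0 H2 = ⋃ Q ∈ F, ⋃ β ∈ {β : ℝ | aeval β Q = 0},
      Metric.closedBall β (c * (HP Q : ℝ) ^ (-t)) := by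
    ext x
    simp only [ZZ, mem_ofPred_eq, mem_iUnion, Metric.mem_closedBall, Real.dist_eq, exists_prop]
    constructor
    · rintro ⟨Q, h1, h2, h3, h4, β, h5, h6⟩
      exact ⟨Q, ⟨h1, h2, h3, h4⟩, β, h5, h6⟩
    · rintro ⟨Q, ⟨h1, h2, h3, h4⟩, β, h5, h6⟩
      exact ⟨Q, h1, h2, h3, h4, β, h5, h6⟩
  rw [hEq]
  apply hFfin.isClosed_biUnion
  intro Q hQ
  have hroots : {β : ℝ | aeval β Q = 0}.Finite := by
    have hne : Q.map (Int.castRingHom ℝ) ≠ 0 := (Polynomial.map_ne_zero_iff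
      (RingHom.injective_int (Int.castRingHom ℝ))).2 hQ.1.ne_zero
    refine ((Q.map (Int.castRingHom ℝ)).roots.toFinset.finite_toSet).subset ?_
    intro β hβ
    simp only [Finset.mem_coe, Multiset.mem_toFinset, mem_roots hne, IsRoot.def, eval_map]
    simp only [mem_ofPred_eq, aeval_def] at hβ
    exact hβ
  apply hroots.isClosed_biUnion
  intro β _
  exact Metric.isClosed_closedBall

lemma boundary_small (G : Set ℝ) (hG : IsOpen G) (hne : Gᶜ.Nonempty) (hfin : volume G ≠ ⊤) (ε : ℝ)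
    (hε : 0 < ε) : ∃ δ : ℝ, 0 < δ ∧
      volume {x ∈ G | Metric.infDist x Gᶜ ≤ δ} ≤ ENNReal.ofReal ε := by
  set N : ℕ → Set ℝ := fun j => {x ∈ G | Metric.infDist x Gᶜ ≤ 1 / ((j : ℝ) + 1)} with hN
  have hmeas : ∀ j, MeasurableSet (N j) := by
    intro j
    exact hG.measurableSet.inter
      ((Metric.continuous_infDist_pt Gᶜ).measurable measurableSet_Iic)
  have hanti : Antitone N := by
    intro i j hij x hx
    refine ⟨hx.1, hx.2.trans ?_⟩
    apply one_div_le_one_div_of_le (by positivity)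
    have : (i : ℝ) ≤ j := by exact_mod_cast hij
    linarith
  have hempty : ⋂ j, N j = ∅ := by
    ext x
    simp only [mem_iInter, mem_empty_iff_false, iff_false]
    intro h
    have hxG : x ∈ G := (h 0).1
    have hpos : 0 < Metric.infDist x Gᶜ := by
      rw [← hG.isClosed_compl.notMem_iff_infDist_pos hne]
      simpa using hxG
    obtain ⟨j, hj⟩ := exists_nat_one_div_lt hpos
    exact absurd (h j).2 (not_le.2 hj)
  have hlim := tendsto_measure_iInter_atTop (μ := volume) (fun j => (hmeas j).nullMeasurableSet) hanti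
    ⟨0, ne_top_of_le_ne_top hfin (measure_mono (fun x hx => hx.1))⟩
  rw [hempty, measure_empty] at hlim
  have hev := hlim.eventually (gt_mem_nhds (show (0 : ENNReal) < ENNReal.ofReal ε by
    rwa [ENNReal.ofReal_pos]))
  obtain ⟨j, hj⟩ := hev.exists
  exact ⟨1 / ((j : ℝ) + 1), by positivity, hj.le⟩

lemma small_den (η : ℝ) (hη : 0 < η) (Y : ℕ) (hY : 1 ≤ Y) :
    volume {x ∈ Ioo (0 : ℝ) 1 | ∃ q : ℚ, (q.den : ℝ) ≤ η * Y ∧ |x - q| ≤ 1 / ((Y + 1) * q.den)} ≤
      ENNReal.ofReal (4 * η) := by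
  have hY0 : (0 : ℝ) < Y := by exact_mod_cast hY
  set M := ⌊η * Y⌋₊ with hM
  have hsub : {x ∈ Ioo (0 : ℝ) 1 | ∃ q : ℚ, (q.den : ℝ) ≤ η * Y ∧ |x - q| ≤ 1 / ((Y + 1) * q.den)} ⊆
      ⋃ d ∈ Finset.Icc 1 M, ⋃ a ∈ Finset.range (d + 1),
        Metric.closedBall ((a : ℝ) / d) (1 / ((Y + 1) * d)) := by
    rintro x ⟨hx, q, hq1, hq2⟩
    have hd : (0 : ℝ) < q.den := by exact_mod_cast q.den_pos
    have hq : (q : ℝ) = (q.num : ℝ) / q.den := by exact_mod_cast Rat.cast_def (K := ℝ) q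
    have h1 : 1 / (((Y : ℝ) + 1) * q.den) < 1 / q.den := by
      apply one_div_lt_one_div_of_lt hd
      nlinarith
    have h2 := abs_le.1 hq2
    have hn0 : 0 ≤ q.num := by
      have h3 : -1 < (q.num : ℝ) := by
        have h4 : -(1 / (q.den : ℝ)) < q := by linarith [hx.1]
        rw [hq, ← neg_div, div_lt_div_iff_of_pos_right hd] at h4
        exact h4
      have h5 : (-1 : ℤ) < q.num := by exact_mod_cast h3
      omega
    have hn1 : q.num ≤ q.den := by
      have h3 : (q.num : ℝ) < q.den + 1 := by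
        have h4 : (q : ℝ) < 1 + 1 / (q.den : ℝ) := by linarith [hx.2]
        rw [hq, div_lt_iff₀ hd] at h4
        have h5 : (1 + 1 / (q.den : ℝ)) * q.den = q.den + 1 := by field_simp
        linarith
      have h5 : q.num < (q.den : ℤ) + 1 := by exact_mod_cast h3
      omega
    rw [mem_iUnion₂]
    refine ⟨q.den, ?_, ?_⟩
    · rw [Finset.mem_Icc]
      exact ⟨q.den_pos, Nat.le_floor hq1⟩
    · rw [mem_iUnion₂]
      refine ⟨q.num.toNat, ?_, ?_⟩
      · rw [Finset.mem_range]; omega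
      · rw [Metric.mem_closedBall, Real.dist_eq]
        have h6 : ((q.num.toNat : ℕ) : ℝ) = (q.num : ℝ) := by
          have : ((q.num.toNat : ℕ) : ℤ) = q.num := Int.toNat_of_nonneg hn0
          exact_mod_cast this
        rw [h6, ← hq]
        exact hq2
  calc _ ≤ volume (⋃ d ∈ Finset.Icc 1 M, ⋃ a ∈ Finset.range (d + 1),
        Metric.closedBall ((a : ℝ) / d) (1 / ((Y + 1) * d))) := measure_mono hsub
    _ ≤ ∑ d ∈ Finset.Icc 1 M, volume (⋃ a ∈ Finset.range (d + 1),
        Metric.closedBall ((a : ℝ) / d) (1 / ((Y + 1) * d))) := measure_biUnion_finset_le _ _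
    _ ≤ ∑ d ∈ Finset.Icc 1 M, ENNReal.ofReal (4 / (Y + 1)) := by
        refine Finset.sum_le_sum (fun d hd => ?_)
        rw [Finset.mem_Icc] at hd
        have hd1 : (1 : ℝ) ≤ d := by exact_mod_cast hd.1
        calc _ ≤ ∑ a ∈ Finset.range (d + 1), volume (Metric.closedBall ((a : ℝ) / d) (1 / ((Y + 1) * d))) :=
              measure_biUnion_finset_le _ _
          _ = ∑ a ∈ Finset.range (d + 1), ENNReal.ofReal (2 * (1 / ((Y + 1) * d))) := by
              refine Finset.sum_congr rfl (fun a _ => ?_)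
              rw [Real.volume_closedBall]
          _ = ENNReal.ofReal ((d + 1) * (2 * (1 / ((Y + 1) * d)))) := by
              rw [Finset.sum_const, Finset.card_range, nsmul_eq_mul, ← ENNReal.ofReal_natCast,
                ← ENNReal.ofReal_mul (by positivity)]
              congr 1
              push_cast; ring
          _ ≤ ENNReal.ofReal (4 / (Y + 1)) := by
              apply ENNReal.ofReal_le_ofReal
              have e1 : ((d : ℝ) + 1) * (2 * (1 / ((Y + 1) * d))) = (2 * ((d + 1) / d)) / (Y + 1) := by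
                field_simp
              rw [e1]
              have : ((d : ℝ) + 1) / d ≤ 2 := by rw [div_le_iff₀ (by linarith)]; linarith
              gcongr
              linarith
    _ = ENNReal.ofReal (M * (4 / (Y + 1))) := by
        rw [Finset.sum_const, Nat.card_Icc, nsmul_eq_mul, ENNReal.ofReal_mul (by positivity),
          ENNReal.ofReal_natCast]
        simp
    _ ≤ ENNReal.ofReal (4 * η) := by
        apply ENNReal.ofReal_le_ofReal
        have h1 : (M : ℝ) ≤ η * Y := Nat.floor_le (by positivity)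
        rw [mul_div_assoc', div_le_iff₀ (by positivity)]
        nlinarith

theorem exists_good_rational (n : ℕ) (hn : 2 ≤ n) (t : ℝ) (ht : (n : ℝ) + 1 < t) (c : ℝ) (hc : 0 < c)
    (H0 : ℕ) (U : Set ℝ) (hU : IsOpen U) (hU1 : U ⊆ Ioo 0 1)
    (hpos : 0 < volume {x ∈ U | Good n t c H0 x}) : ∃ r : ℚ, (r : ℝ) ∈ U ∧ Good n t c H0 r := by
  by_contra hcon
  push Not at hcon
  have hUfin : volume U ≤ 1 := by
    calc volume U ≤ volume (Ioo (0 : ℝ) 1) := measure_mono hU1
      _ = 1 := by rw [Real.volume_Ioo]; simp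
  have hfin0 : volume {x ∈ U | Good n t c H0 x} ≠ ⊤ :=
    ne_top_of_le_ne_top ENNReal.one_ne_top ((measure_mono (fun x hx => hx.1)).trans hUfin)
  set m : ℝ := (volume {x ∈ U | Good n t c H0 x}).toReal with hm
  have hmpos : 0 < m := ENNReal.toReal_pos hpos.ne' hfin0
  have hmle : m ≤ 1 := by
    have := ENNReal.toReal_mono ENNReal.one_ne_top ((measure_mono (fun x hx => hx.1)).trans hUfin :
      volume {x ∈ U | Good n t c H0 x} ≤ 1)
    simpa using this
  set η : ℝ := m / 16 with hη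
  have hηpos : 0 < η := by positivity
  obtain ⟨H2, hbad⟩ := bad_sum n hn t ht c hc η hηpos (by linarith) (η * m / 16) (by positivity)
  set G : Set ℝ := U \ ZZ n t c H0 H2 with hG
  have hGopen : IsOpen G := hU.sdiff (ZZ_closed n t c H0 H2)
  have hGU : G ⊆ U := sdiff_subset
  have hGc : Gᶜ.Nonempty := ⟨2, fun h => by
    have := hU1 (hGU h)
    linarith [this.2]⟩
  have hGfin : volume G ≠ ⊤ := ne_top_of_le_ne_top ENNReal.one_ne_top ((measure_mono hGU).trans hUfin)
  obtain ⟨δ, hδ, hN⟩ := boundary_small G hGopen hGc hGfin (m / 4) (by positivity)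
  -- choose Y
  obtain ⟨Y, hY⟩ := exists_nat_gt (max 1 (1 / (η * δ)))
  have hY1 : (1 : ℝ) < Y := lt_of_le_of_lt (le_max_left _ _) hY
  have hY1' : 1 ≤ Y := by exact_mod_cast hY1.le
  have hY2 : 1 / (η * δ) < Y := lt_of_le_of_lt (le_max_right _ _) hY
  have hYδ : 1 / (η * (Y : ℝ) ^ 2) ≤ δ := by
    rw [div_lt_iff₀ (by positivity)] at hY2
    rw [div_le_iff₀ (by positivity)]
    nlinarith [mul_pos hηpos hδ]
  have hcover : {x ∈ U | Good n t c H0 x} ⊆
      {x ∈ Ioo (0 : ℝ) 1 | ∃ q : ℚ, (q.den : ℝ) ≤ η * Y ∧ |x - q| ≤ 1 / ((Y + 1) * q.den)} ∪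
      ({x ∈ G | Metric.infDist x Gᶜ ≤ δ} ∪
      ⋃ q ∈ BadQ n t c η H2 Y, Metric.closedBall (q : ℝ) (1 / (η * (Y : ℝ) ^ 2))) := by
    rintro x ⟨hxU, hxG⟩
    have hxG' : x ∈ G := by
      refine ⟨hxU, ?_⟩
      rintro ⟨Q, h1, h2, h3, h4, β, h5, h6⟩
      exact absurd h6 (not_le.2 (hxG Q h1 h2 h3 β h5))
    obtain ⟨q, hq1, hq2⟩ := Real.exists_rat_abs_sub_le_and_den_le x (n := Y) hY1'
    have hd : (0 : ℝ) < q.den := by exact_mod_cast q.den_pos
    by_cases hsmall : (q.den : ℝ) ≤ η * Y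
    · left
      exact ⟨hU1 hxU, q, hsmall, hq1⟩
    · right
      push Not at hsmall
      have hdist : |x - q| ≤ 1 / (η * (Y : ℝ) ^ 2) := by
        refine hq1.trans ?_
        apply one_div_le_one_div_of_le (by positivity)
        nlinarith
      by_cases hqG : (q : ℝ) ∈ G
      · right
        rw [mem_iUnion₂]
        refine ⟨q, ?_, by rw [Metric.mem_closedBall, Real.dist_eq]; exact hdist⟩
        have hq01 := hU1 (hGU hqG)
        refine ⟨by exact_mod_cast hq01.1, by exact_mod_cast hq01.2, hsmall, by exact_mod_cast hq2, ?_⟩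
        have h1 := hcon q (hGU hqG)
        unfold Good at h1
        push Not at h1
        obtain ⟨Q, h2, h3, h4, β, h5, h6⟩ := h1
        refine ⟨Q, h2, h3, ?_, β, h5, h6⟩
        by_contra h7
        exact hqG.2 ⟨Q, h2, h3, h4, not_le.1 h7, β, h5, h6⟩
      · left
        refine ⟨hxG', ?_⟩
        calc Metric.infDist x Gᶜ ≤ dist x q := Metric.infDist_le_dist_of_mem hqG
          _ = |x - q| := Real.dist_eq _ _
          _ ≤ δ := hdist.trans hYδ
  have hbadc : volume (⋃ q ∈ BadQ n t c η H2 Y, Metric.closedBall (q : ℝ) (1 / (η * (Y : ℝ) ^ 2))) ≤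
      ENNReal.ofReal (m / 8) := by
    calc _ ≤ ∑' q : BadQ n t c η H2 Y, volume (Metric.closedBall ((q : ℚ) : ℝ) (1 / (η * (Y : ℝ) ^ 2))) :=
          measure_biUnion_le _ (to_countable _) _
      _ = ∑' _q : BadQ n t c η H2 Y, ENNReal.ofReal (2 / η) * ENNReal.ofReal (1 / (Y : ℝ) ^ 2) := by
          congr 1
          ext q
          rw [Real.volume_closedBall, ← ENNReal.ofReal_mul (by positivity)]
          congr 1
          field_simp
      _ = ENNReal.ofReal (2 / η) * ∑' _q : BadQ n t c η H2 Y, ENNReal.ofReal (1 / (Y : ℝ) ^ 2) :=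
          ENNReal.tsum_mul_left
      _ ≤ ENNReal.ofReal (2 / η) * ENNReal.ofReal (η * m / 16) := by
          gcongr
          exact hbad Y hY1.le
      _ = ENNReal.ofReal (m / 8) := by
          rw [← ENNReal.ofReal_mul (by positivity)]
          congr 1
          field_simp; norm_num
  have hfinal : volume {x ∈ U | Good n t c H0 x} ≤ ENNReal.ofReal (4 * η + (m / 4 + m / 8)) := by
    rw [ENNReal.ofReal_add (by positivity) (by positivity), ENNReal.ofReal_add (by positivity) (by positivity)]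
    refine (measure_mono hcover).trans ((measure_union_le _ _).trans ?_)
    refine add_le_add (small_den η hηpos Y hY1') ((measure_union_le _ _).trans ?_)
    exact add_le_add hN hbadc
  have h1 : m ≤ 4 * η + (m / 4 + m / 8) := by
    rw [hm]
    exact ENNReal.toReal_le_of_le_ofReal (by positivity) hfinal
  rw [hη] at h1
  linarith

end Pool.Agent.Helper404
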