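import Mathlib
import Pool.Agent.Helper404.ST5
import Pool.Agent.Helper404.TT

open Polynomial Module

namespace Pool.Agent.Helper404

lemma lower_of_finite (n : ℕ) (ξ : ℝ) (hξ : Transcendental ℤ ξ) (w : ℝ) (hw : 0 ≤ w)
    (hfin : {P : ℤ[X] | P.natDegree ≤ n ∧ aeval ξ P ≠ 0 ∧ |aeval ξ P| ≤ (HP P : ℝ) ^ (-w)}.Finite) :
    ∃ c : ℝ, 0 < c ∧ c ≤ 1 ∧ ∀ P : ℤ[X], P ≠ 0 → P.natDegree ≤ n →
      c * (HP P : ℝ) ^ (-w) ≤ |aeval ξ P| := by
  set F := hfin.toFinset with hF
  set sg : ℝ := ∑ P ∈ F, 1 / |aeval ξ P| with hsg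
  have hsg0 : 0 ≤ sg := Finset.sum_nonneg (fun P _ => by positivity)
  refine ⟨1 / (1 + sg), by positivity, by rw [div_le_one (by linarith)]; linarith, ?_⟩
  intro P hP hd
  have hne : aeval ξ P ≠ 0 := fun h => hP (transcendental_iff.1 hξ P h)
  have hH : (1 : ℝ) ≤ HP P := by exact_mod_cast HP_pos hP
  have hpow1 : (HP P : ℝ) ^ (-w) ≤ 1 := Real.rpow_le_one_of_one_le_of_nonpos hH (by linarith)
  have hpow0 : 0 < (HP P : ℝ) ^ (-w) := Real.rpow_pos_of_pos (by linarith) _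
  have hc1 : 1 / (1 + sg) ≤ 1 := by rw [div_le_one (by linarith)]; linarith
  have hc0 : 0 < 1 / (1 + sg) := by positivity
  by_cases hmem : |aeval ξ P| ≤ (HP P : ℝ) ^ (-w)
  · have hPF : P ∈ F := by rw [hF, Set.Finite.mem_toFinset]; exact ⟨hd, hne, hmem⟩
    have h1 : 1 / |aeval ξ P| ≤ sg :=
      Finset.single_le_sum (f := fun P : ℤ[X] => 1 / |aeval ξ P|) (fun P _ => by positivity) hPF
    have hpos : 0 < |aeval ξ P| := abs_pos.2 hne
    have h2 : 1 / (1 + sg) ≤ |aeval ξ P| := by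
      rw [div_le_iff₀ (by linarith)]
      rw [div_le_iff₀ hpos] at h1
      nlinarith
    calc _ ≤ 1 / (1 + sg) * 1 := by gcongr
      _ ≤ _ := by rw [mul_one]; exact h2
  · push Not at hmem
    calc _ ≤ 1 * (HP P : ℝ) ^ (-w) := by gcongr
      _ ≤ _ := by rw [one_mul]; exact hmem.le

lemma tc_bound' (n : ℕ) (Q : ℤ[X]) (hQ : Q.natDegree ≤ n) (m : ℕ) (x : ℝ) :
    |tc Q m x| ≤ (n + 1) * 2 ^ n * (max 1 |x|) ^ n * HP Q := by
  unfold tc
  rw [eval_eq_sum_range' (n := n + 1) (Nat.lt_succ_of_le (natDegree_map_le.trans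
    ((natDegree_hasseDeriv_le _ _).trans ((Nat.sub_le _ _).trans hQ))))]
  calc _ ≤ ∑ i ∈ Finset.range (n + 1), |((hasseDeriv m Q).map (Int.castRingHom ℝ)).coeff i * x ^ i| :=
        Finset.abs_sum_le_sum_abs _ _
    _ ≤ ∑ i ∈ Finset.range (n + 1), 2 ^ n * (HP Q : ℝ) * (max 1 |x|) ^ n := by
        refine Finset.sum_le_sum (fun i hi => ?_)
        rw [Finset.mem_range] at hi
        rw [coeff_map, hasseDeriv_coeff, abs_mul, abs_pow]
        have h1 : |x| ^ i ≤ (max 1 |x|) ^ n := by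
          calc |x| ^ i ≤ (max 1 |x|) ^ i := pow_le_pow_left₀ (abs_nonneg _) (le_max_right _ _) _
            _ ≤ (max 1 |x|) ^ n := pow_le_pow_right₀ (le_max_left _ _) (by omega)
        simp only [Int.coe_castRingHom, Int.cast_mul, Int.cast_natCast, abs_mul, Nat.abs_cast]
        by_cases him : i + m ≤ n
        · have h2 : ((i + m).choose m : ℝ) ≤ 2 ^ n := by
            have : (i + m).choose m ≤ 2 ^ (i + m) := Nat.choose_le_two_pow _ _
            have h3 : 2 ^ (i + m) ≤ 2 ^ n := Nat.pow_le_pow_right (by norm_num) him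
            exact_mod_cast this.trans h3
          have h4 := coeff_le_HP Q (i + m)
          gcongr
        · have : Q.coeff (i + m) = 0 := coeff_eq_zero_of_natDegree_lt (by omega)
          rw [this]; simp only [Int.cast_zero, abs_zero, mul_zero, zero_mul]; positivity
    _ = _ := by
        rw [Finset.sum_const, Finset.card_range, nsmul_eq_mul]; push_cast; ring

lemma tc_one (Q : ℤ[X]) (x : ℝ) : tc Q 1 x = aeval x (derivative Q) := by
  unfold tc
  rw [hasseDeriv_one, aeval_def, eval_map]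
  rfl

lemma aeval_add_expand (n : ℕ) (Q : ℤ[X]) (hQ : Q.natDegree ≤ n) (x h : ℝ) :
    aeval (x + h) Q = ∑ m ∈ Finset.range (n + 1), tc Q m x * h ^ m := by
  rw [← eval_add_eq Q n hQ, eval_map, aeval_def]; rfl

lemma newton_root (n : ℕ) (ξ : ℝ) : ∃ Cn : ℝ, 1 ≤ Cn ∧ ∀ R : ℤ[X], R.natDegree ≤ n → ∀ u v : ℝ,
    0 ≤ u → 0 < v → |aeval ξ R| ≤ u → v ≤ |aeval ξ (derivative R)| → 2 * u / v ≤ 1 →
    4 * Cn * HP R * u ≤ v ^ 2 → ∃ α : ℝ, aeval α R = 0 ∧ |ξ - α| ≤ 2 * u / v := by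
  refine ⟨(n + 1) * ((n + 1) * 2 ^ n * (max 1 |ξ|) ^ n), ?_, ?_⟩
  · have h1 : (1 : ℝ) ≤ n + 1 := by
      have : (0 : ℝ) ≤ n := Nat.cast_nonneg n
      linarith
    have h2 : (1 : ℝ) ≤ 2 ^ n := one_le_pow₀ (by norm_num)
    have h3 : (1 : ℝ) ≤ (max 1 |ξ|) ^ n := one_le_pow₀ (le_max_left _ _)
    exact one_le_mul_of_one_le_of_one_le h1
      (one_le_mul_of_one_le_of_one_le (one_le_mul_of_one_le_of_one_le h1 h2) h3)
  intro R hR u v hu hv hRu hRv hr1 hcond
  set Cn : ℝ := (n + 1) * ((n + 1) * 2 ^ n * (max 1 |ξ|) ^ n) with hCn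
  set r : ℝ := 2 * u / v with hr
  have hr0 : 0 ≤ r := by positivity
  -- Taylor estimate
  have hT : ∀ h : ℝ, |h| ≤ 1 → |aeval (ξ + h) R - aeval ξ R - aeval ξ (derivative R) * h| ≤
      Cn * HP R * h ^ 2 := by
    intro h hh
    by_cases hn : n = 0
    · have hR0 : R.natDegree = 0 := by omega
      rw [eq_C_of_natDegree_eq_zero hR0]
      simp only [aeval_C, derivative_C, map_zero, zero_mul, sub_self, abs_zero]
      positivity
    obtain ⟨l, hl⟩ := Nat.exists_eq_succ_of_ne_zero hn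
    have h1 := aeval_add_expand n R hR ξ h
    rw [hl, Nat.succ_eq_add_one, Finset.sum_range_succ', Finset.sum_range_succ'] at h1
    simp only [zero_add, pow_zero, mul_one, pow_one] at h1
    rw [tc_zero, tc_one] at h1
    have h2 : aeval (ξ + h) R - aeval ξ R - aeval ξ (derivative R) * h =
        ∑ k ∈ Finset.range l, tc R (k + 1 + 1) ξ * h ^ (k + 1 + 1) := by rw [h1]; ring
    rw [h2]
    calc _ ≤ ∑ k ∈ Finset.range l, |tc R (k + 1 + 1) ξ * h ^ (k + 1 + 1)| :=
          Finset.abs_sum_le_sum_abs _ _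
      _ ≤ ∑ k ∈ Finset.range l, ((n + 1) * 2 ^ n * (max 1 |ξ|) ^ n * HP R) * h ^ 2 := by
          refine Finset.sum_le_sum (fun k _ => ?_)
          rw [abs_mul, abs_pow]
          have h3 := tc_bound' n R hR (k + 1 + 1) ξ
          have h4 : |h| ^ (k + 1 + 1) ≤ h ^ 2 := by
            rw [← sq_abs h]
            exact pow_le_pow_of_le_one (abs_nonneg _) hh (by omega)
          exact mul_le_mul h3 h4 (by positivity) (by positivity)
      _ = (l : ℝ) * (((n + 1) * 2 ^ n * (max 1 |ξ|) ^ n * HP R) * h ^ 2) := by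
          rw [Finset.sum_const, Finset.card_range, nsmul_eq_mul]
      _ ≤ (n + 1 : ℝ) * (((n + 1) * 2 ^ n * (max 1 |ξ|) ^ n * HP R) * h ^ 2) := by
          have : (l : ℝ) ≤ n + 1 := by
            have : l ≤ n + 1 := by omega
            exact_mod_cast this
          gcongr
      _ = _ := by rw [hCn]; ring
  have herr : Cn * HP R * r ^ 2 ≤ u := by
    have h1 : Cn * HP R * r ^ 2 = (4 * Cn * HP R * u) * (u / v ^ 2) := by
      rw [hr]; field_simp; ring
    rw [h1]
    calc _ ≤ v ^ 2 * (u / v ^ 2) := by gcongr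
      _ = u := by field_simp
  have hvr : v * r = 2 * u := by rw [hr]; field_simp
  have hcont : Continuous (fun x : ℝ => aeval x R) := R.continuous_aeval
  have habs : |r| ≤ 1 := by rw [abs_of_nonneg hr0]; exact hr1
  have habs' : |-r| ≤ 1 := by rw [abs_neg]; exact habs
  have hp := abs_le.1 (hT r habs)
  have hm := abs_le.1 (hT (-r) habs')
  rw [neg_sq] at hm
  have hu' := abs_le.1 hRu
  have hle : ξ - r ≤ ξ + r := by linarith
  have hfin : ∀ α : ℝ, α ∈ Set.Icc (ξ - r) (ξ + r) → |ξ - α| ≤ r := by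
    intro α hα
    rw [abs_le]; constructor <;> linarith [hα.1, hα.2]
  rcases le_abs.1 hRv with hg | hg
  · -- positive derivative
    have h1 : 2 * u ≤ aeval ξ (derivative R) * r := by
      calc 2 * u = v * r := hvr.symm
        _ ≤ _ := by gcongr
    have hpos : 0 ≤ aeval (ξ + r) R := by linarith [hp.1]
    have hneg : aeval (ξ - r) R ≤ 0 := by
      have e : ξ + -r = ξ - r := by ring
      rw [e] at hm
      have e2 : aeval ξ (derivative R) * -r = -(aeval ξ (derivative R) * r) := by ring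
      rw [e2] at hm
      linarith [hm.2]
    obtain ⟨α, hα, hα'⟩ := intermediate_value_Icc hle hcont.continuousOn ⟨hneg, hpos⟩
    exact ⟨α, hα', hfin α hα⟩
  · have h1 : 2 * u ≤ -(aeval ξ (derivative R) * r) := by
      calc 2 * u = v * r := hvr.symm
        _ ≤ -(aeval ξ (derivative R)) * r := by gcongr
        _ = _ := by ring
    have hneg : aeval (ξ + r) R ≤ 0 := by linarith [hp.2]
    have hpos : 0 ≤ aeval (ξ - r) R := by
      have e : ξ + -r = ξ - r := by ring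
      rw [e] at hm
      have e2 : aeval ξ (derivative R) * -r = -(aeval ξ (derivative R) * r) := by ring
      rw [e2] at hm
      linarith [hm.1]
    obtain ⟨α, hα, hα'⟩ := intermediate_value_Icc' hle hcont.continuousOn ⟨hneg, hpos⟩
    exact ⟨α, hα', hfin α hα⟩

/-- an irreducible factor with the given root -/
lemma exists_irr_factor (R : ℤ[X]) (hR : R ≠ 0) (α : ℝ) (hα : aeval α R = 0) :
    ∃ Q G : ℤ[X], Irreducible Q ∧ aeval α Q = 0 ∧ R = G * Q := by
  obtain ⟨f, hf, hassoc⟩ := WfDvdMonoid.exists_factors R hR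
  have h1 : aeval α f.prod = 0 := by
    obtain ⟨u, hu⟩ := hassoc.symm
    rw [← hu, map_mul, hα, zero_mul]
  rw [map_multiset_prod, Multiset.prod_eq_zero_iff, Multiset.mem_map] at h1
  obtain ⟨Q, hQf, hQα⟩ := h1
  have hdvd : Q ∣ R := (Multiset.dvd_prod hQf).trans hassoc.dvd
  obtain ⟨G, hG⟩ := hdvd
  exact ⟨Q, G, hf Q hQf, hQα, by rw [hG, mul_comm]⟩

end Pool.Agent.Helper404
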