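import Mathlib
import Pool.Agent.Helper404.ST6

open Polynomial Module

namespace Pool.Agent.Helper404

/-- counting step: for large `T` the small polynomials span a space of small codimension -/
lemma big_rank (n s : ℕ) (ξ δ c C' C1 T : ℝ) (hδ0 : 0 < δ) (hδ1 : δ ≤ 1) (hn1 : 1 ≤ n)
    (hs1 : δ * n ≤ s) (hc0 : 0 < c) (hc1 : c ≤ 1)
    (hlow : ∀ P : ℤ[X], P ≠ 0 → P.natDegree ≤ n → c * (HP P : ℝ) ^ (-((1 + δ ^ 2) * n)) ≤ |aeval ξ P|)
    (hC' : ∀ (A : ℕ) (Y : ℝ), 1 ≤ A → 0 < Y → Y ≤ A →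
      ∃ S : Finset ℤ[X], (∀ P ∈ S, P.natDegree ≤ n ∧ (∀ k, |P.coeff k| ≤ A) ∧ |aeval ξ P| ≤ Y) ∧
        (A : ℝ) ^ n * Y ≤ C' * S.card) (hC'0 : 0 < C')
    (hC1 : C1 = 4 / c) (hT1 : 1 ≤ T) (hTb : C' * (4 * C1) ^ n < T ^ δ) :
    ∃ S : Finset ℤ[X], (∀ P ∈ S, P.natDegree ≤ n ∧ (HP P : ℝ) ≤ T ^ (1 + δ) ∧
      |aeval ξ P| ≤ T ^ (-(n : ℝ) + δ)) ∧ n + 1 ≤ finrank ℚ (Sp S) + s := by
  have hT0 : 0 < T := by linarith
  have hmono : ∀ a b : ℝ, a ≤ b → T ^ a ≤ T ^ b := fun a b h =>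
    Real.rpow_le_rpow_of_exponent_le hT1 h
  have hnR : (1 : ℝ) ≤ n := by exact_mod_cast hn1
  set w : ℝ := (1 + δ ^ 2) * n with hw
  have hwn : (n : ℝ) ≤ w := by
    rw [hw]
    have : 0 ≤ δ ^ 2 * n := by positivity
    linarith
  have hw0 : 0 ≤ w := by linarith
  have hC14 : 4 ≤ C1 := by
    rw [hC1, le_div_iff₀ hc0]; linarith
  have hC10 : 0 < C1 := by linarith
  set X : ℝ := T ^ (1 + δ) with hX
  have hX1 : 1 ≤ X := Real.one_le_rpow hT1 (by linarith)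
  have hX0 : 0 < X := by linarith
  set A : ℕ := ⌊X⌋₊ with hA
  have hA1 : 1 ≤ A := by
    rw [hA, Nat.one_le_floor_iff]; exact hX1
  have hAX : (A : ℝ) ≤ X := Nat.floor_le hX0.le
  have hAR : (1 : ℝ) ≤ A := by exact_mod_cast hA1
  have hXA : X ≤ 2 * A := by
    have := Nat.lt_floor_add_one X
    rw [← hA] at this
    linarith
  set Y : ℝ := T ^ (-(n : ℝ) + δ) with hY
  have hY0 : 0 < Y := Real.rpow_pos_of_pos hT0 _
  have hY1 : Y ≤ 1 := by
    rw [hY, ← Real.rpow_zero T]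
    exact hmono _ _ (by linarith)
  obtain ⟨S, hS, hcard⟩ := hC' A Y hA1 hY0 (hY1.trans hAR)
  set g : ℝ := C1 * T ^ (δ + δ ^ 2) with hg
  have hTg : 1 ≤ T ^ (δ + δ ^ 2) := Real.one_le_rpow hT1 (by positivity)
  have hg1 : 1 ≤ g := by
    rw [hg]; exact one_le_mul_of_one_le_of_one_le (by linarith) hTg
  have hg0 : 0 < g := by linarith
  set M : ℕ := ⌈g⌉₊ with hM
  have hMg : g ≤ M := Nat.le_ceil g
  have hMR : (1 : ℝ) ≤ M := hg1.trans hMg
  have hM1 : 1 ≤ M := by exact_mod_cast hMR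
  have hM2 : (M : ℝ) ≤ 2 * g := by
    have := (Nat.ceil_lt_add_one hg0.le).le
    rw [← hM] at this
    linarith
  have hMcond : 2 * Y * (2 * (A : ℝ)) ^ w < c * (M : ℝ) ^ (w + 1) := by
    have e1 : 2 * Y * (2 * (A : ℝ)) ^ w ≤ 2 ^ (w + 1) * T ^ ((δ + δ ^ 2) * (w + 1)) := by
      have h1 : (2 * (A : ℝ)) ^ w ≤ (2 * X) ^ w :=
        Real.rpow_le_rpow (by positivity) (by linarith) hw0
      have h2 : (2 * X) ^ w = 2 ^ w * T ^ ((1 + δ) * w) := by
        rw [Real.mul_rpow (by norm_num) hX0.le, hX, ← Real.rpow_mul hT0.le]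
      have h3 : Y * T ^ ((1 + δ) * w) ≤ T ^ ((δ + δ ^ 2) * (w + 1)) := by
        rw [hY, ← Real.rpow_add hT0]
        apply hmono
        have h4 : w - n = δ ^ 2 * n := by rw [hw]; ring
        have h5 : δ ^ 2 * n ≤ δ ^ 2 * (w + 1) := by
          have : (n : ℝ) ≤ w + 1 := by linarith
          gcongr
        have h6 : (δ + δ ^ 2) * (w + 1) = δ * w + δ + δ ^ 2 * (w + 1) := by ring
        have h7 : -(n : ℝ) + δ + (1 + δ) * w = δ * w + δ + (w - n) := by ring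
        rw [h6, h7]; linarith
      calc 2 * Y * (2 * (A : ℝ)) ^ w ≤ 2 * Y * (2 ^ w * T ^ ((1 + δ) * w)) := by
            rw [← h2]; gcongr
        _ = (2 ^ w * 2) * (Y * T ^ ((1 + δ) * w)) := by ring
        _ ≤ (2 ^ w * 2) * T ^ ((δ + δ ^ 2) * (w + 1)) := by gcongr
        _ = _ := by rw [Real.rpow_add (by norm_num : (0 : ℝ) < 2), Real.rpow_one]
    have e2 : (4 : ℝ) ^ (w + 1) * T ^ ((δ + δ ^ 2) * (w + 1)) ≤ c * (M : ℝ) ^ (w + 1) := by
      have h1 : g ^ (w + 1) ≤ (M : ℝ) ^ (w + 1) := Real.rpow_le_rpow hg0.le hMg (by linarith)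
      have h2 : g ^ (w + 1) = C1 ^ (w + 1) * T ^ ((δ + δ ^ 2) * (w + 1)) := by
        rw [hg, Real.mul_rpow hC10.le (by positivity), ← Real.rpow_mul hT0.le]
      have h3 : (4 : ℝ) ^ (w + 1) ≤ c * C1 ^ (w + 1) := by
        rw [hC1, Real.div_rpow (by norm_num) hc0.le]
        have h4 : c ^ (w + 1) ≤ c := by
          calc c ^ (w + 1) ≤ c ^ (1 : ℝ) :=
                Real.rpow_le_rpow_of_exponent_ge hc0 hc1 (by linarith)
            _ = c := Real.rpow_one c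
        have h5 : 0 < c ^ (w + 1) := Real.rpow_pos_of_pos hc0 _
        have h6 : (0 : ℝ) < 4 ^ (w + 1) := Real.rpow_pos_of_pos (by norm_num) _
        rw [mul_div_assoc', le_div_iff₀ h5]
        calc (4 : ℝ) ^ (w + 1) * c ^ (w + 1) ≤ 4 ^ (w + 1) * c := by gcongr
          _ = c * 4 ^ (w + 1) := by ring
      calc _ ≤ c * C1 ^ (w + 1) * T ^ ((δ + δ ^ 2) * (w + 1)) := by gcongr
        _ = c * g ^ (w + 1) := by rw [h2]; ring
        _ ≤ _ := by gcongr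
    have e3 : (2 : ℝ) ^ (w + 1) < 4 ^ (w + 1) :=
      Real.rpow_lt_rpow (by norm_num) (by norm_num) (by linarith)
    have e4 : 0 < T ^ ((δ + δ ^ 2) * (w + 1)) := Real.rpow_pos_of_pos hT0 _
    calc _ ≤ 2 ^ (w + 1) * T ^ ((δ + δ ^ 2) * (w + 1)) := e1
      _ < 4 ^ (w + 1) * T ^ ((δ + δ ^ 2) * (w + 1)) := by gcongr
      _ ≤ _ := e2
  have hrank := rank_bound n ξ w c hc0 hw0 hlow S A hA1 Y hS M hM1 hMcond
  refine ⟨S, ?_, ?_⟩
  · intro P hP
    obtain ⟨h1, h2, h3⟩ := hS P hP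
    refine ⟨h1, ?_, h3⟩
    refine (HP_le_real P A (by positivity) (fun k => ?_)).trans hAX
    exact_mod_cast h2 k
  · by_contra hcon
    push Not at hcon
    set d := finrank ℚ (Sp S) with hd
    have hds : (d : ℝ) + s ≤ n := by
      have : d + s ≤ n := by omega
      exact_mod_cast this
    have h1 : (A : ℝ) ^ n * Y ≤ C' * (M : ℝ) ^ d := by
      refine hcard.trans ?_
      have : (S.card : ℝ) ≤ (M : ℝ) ^ d := by exact_mod_cast hrank
      gcongr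
    have h2 : (M : ℝ) ^ d ≤ (2 * C1) ^ n * T ^ (δ * n) := by
      have h3 : (M : ℝ) ^ d ≤ (2 * g) ^ d := pow_le_pow_left₀ (by positivity) hM2 d
      have h4 : (2 * g) ^ d = (2 * C1) ^ d * T ^ ((δ + δ ^ 2) * d) := by
        rw [hg, ← mul_assoc, mul_pow, ← Real.rpow_natCast (T ^ (δ + δ ^ 2)), ← Real.rpow_mul hT0.le]
      have h5 : (2 * C1) ^ d ≤ (2 * C1) ^ n := pow_le_pow_right₀ (by linarith) (by omega)
      have h6 : T ^ ((δ + δ ^ 2) * d) ≤ T ^ (δ * n) := by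
        apply hmono
        have h7 : (δ + δ ^ 2) * d ≤ (δ + δ ^ 2) * (n - s) := by
          have : (d : ℝ) ≤ n - s := by linarith
          gcongr
        have h8 : (δ + δ ^ 2) * ((n : ℝ) - s) ≤ δ * n := by
          have h9 : δ * (δ * n) ≤ δ * s := by gcongr
          have h10 : 0 ≤ δ ^ 2 * s := by positivity
          nlinarith
        linarith
      rw [h4] at h3
      exact h3.trans (by gcongr)
    have h3 : T ^ (δ * n + δ) ≤ 2 ^ n * ((A : ℝ) ^ n * Y) := by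
      have h4 : X ^ n ≤ (2 * A) ^ n := pow_le_pow_left₀ hX0.le hXA n
      have h5 : X ^ n * Y = T ^ (δ * n + δ) := by
        rw [hX, hY, ← Real.rpow_natCast, ← Real.rpow_mul hT0.le, ← Real.rpow_add hT0]
        congr 1; ring
      rw [← h5]
      calc X ^ n * Y ≤ (2 * A) ^ n * Y := by gcongr
        _ = _ := by rw [mul_pow]; ring
    have h4 : T ^ (δ * n) * T ^ δ ≤ T ^ (δ * n) * (C' * (4 * C1) ^ n) := by
      rw [← Real.rpow_add hT0]
      calc T ^ (δ * n + δ) ≤ 2 ^ n * ((A : ℝ) ^ n * Y) := h3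
        _ ≤ 2 ^ n * (C' * (M : ℝ) ^ d) := by gcongr
        _ ≤ 2 ^ n * (C' * ((2 * C1) ^ n * T ^ (δ * n))) := by gcongr
        _ = T ^ (δ * n) * (C' * (2 ^ n * (2 * C1) ^ n)) := by ring
        _ = T ^ (δ * n) * (C' * (4 * C1) ^ n) := by
            have h44 : (2 : ℝ) ^ n * (2 * C1) ^ n = (4 * C1) ^ n := by
              rw [← mul_pow]; congr 1; ring
            rw [h44]
    have h5 : 0 < T ^ (δ * n) := Real.rpow_pos_of_pos hT0 _
    have h6 := le_of_mul_le_mul_left h4 h5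
    linarith

end Pool.Agent.Helper404
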