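import Mathlib
import Pool.Agent.Helper404.TT

open MeasureTheory Set Polynomial Filter Topology

namespace Pool.Agent.Helper404

/-- the statement of the hit lemma -/
def HitStatement (n : ℕ) (t c₁ c₂ : ℝ) : Prop :=
  ∀ (H0 : ℕ) (r : ℚ), 0 < r → r < 1 → Good n t c₁ H0 (r : ℝ) → ∀ δ : ℝ, 0 < δ → ∀ B : ℕ,
    ∃ P : ℤ[X], Irreducible P ∧ P.natDegree = n ∧ B ≤ HP P ∧ ∃ α : ℝ, aeval α P = 0 ∧
      |α - r| < δ ∧
      0 < volume {x : ℝ | c₁ * (HP P : ℝ) ^ (-t) < |x - α| ∧ |x - α| < c₂ * (HP P : ℝ) ^ (-t) ∧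
        Good n t c₁ H0 x}

lemma exists_H0 (n : ℕ) (hn : 2 ≤ n) (t : ℝ) (ht : (n : ℝ) + 1 < t) (c : ℝ) (hc : 0 < c) :
    ∃ H0 : ℕ, Good n t c H0 ((1 / 2 : ℚ) : ℝ) := by
  have hn0 : (0 : ℝ) < n := by exact_mod_cast (by omega : 0 < n)
  set E : ℝ := n * ((n + 1) * 2 ^ n * (1 + c) ^ n) with hE
  have hEpos : 0 < E := by positivity
  have hlim : Tendsto (fun k : ℕ => (k : ℝ) ^ (t - 1)) atTop atTop :=
    (tendsto_rpow_atTop (by linarith)).comp tendsto_natCast_atTop_atTop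
  obtain ⟨H0, hH0⟩ := ((hlim.eventually_gt_atTop (2 ^ n * (E * c))).and (eventually_ge_atTop 1)).exists
  refine ⟨H0, ?_⟩
  intro Q hirr hdeg hHP β hβ
  by_contra hcon
  push Not at hcon
  have hHP1 : (1 : ℝ) ≤ HP Q := by exact_mod_cast HP_pos hirr.ne_zero
  have hHP0 : (0 : ℝ) < HP Q := by linarith
  have hHPt : (HP Q : ℝ) ^ (-t) ≤ 1 := Real.rpow_le_one_of_one_le_of_nonpos hHP1 (by linarith)
  have hq : |(((1 / 2 : ℚ) : ℚ) : ℝ)| ≤ 1 := by norm_num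
  have h1 := val_bound n Q hdeg.le (((1 / 2 : ℚ) : ℚ) : ℝ) β hq hβ c (hcon.trans (by nlinarith))
  have h2 := rat_lower n hn Q hirr hdeg (1 / 2)
  have h3 : (((1 / 2 : ℚ).den : ℕ) : ℝ) = 2 := by norm_num
  rw [h3] at h2
  have h4 : |aeval (((1 / 2 : ℚ) : ℚ) : ℝ) Q| ≤ E * c * (HP Q : ℝ) ^ (1 - t) := by
    have e1 : (HP Q : ℝ) ^ (1 - t) = HP Q * (HP Q : ℝ) ^ (-t) := by
      rw [sub_eq_add_neg, Real.rpow_add hHP0, Real.rpow_one]
    rw [e1]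
    calc _ ≤ E * HP Q * |(((1 / 2 : ℚ) : ℚ) : ℝ) - β| := h1
      _ ≤ E * HP Q * (c * (HP Q : ℝ) ^ (-t)) := by gcongr
      _ = _ := by ring
  have h5 : (HP Q : ℝ) ^ (t - 1) ≤ 2 ^ n * (E * c) := by
    have e2 : (HP Q : ℝ) ^ (1 - t) = ((HP Q : ℝ) ^ (t - 1))⁻¹ := by
      rw [← Real.rpow_neg hHP0.le]; congr 1; ring
    rw [e2] at h4
    have h6 : 0 < (HP Q : ℝ) ^ (t - 1) := Real.rpow_pos_of_pos hHP0 _
    have h7 : 1 ≤ 2 ^ n * (E * c * ((HP Q : ℝ) ^ (t - 1))⁻¹) := h2.trans (by gcongr)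
    have h8 : 2 ^ n * (E * c * ((HP Q : ℝ) ^ (t - 1))⁻¹) = (2 ^ n * (E * c)) / (HP Q : ℝ) ^ (t - 1) := by
      field_simp
    rw [h8, le_div_iff₀ h6, one_mul] at h7
    exact h7
  have h9 : (H0 : ℝ) ^ (t - 1) ≤ (HP Q : ℝ) ^ (t - 1) := by
    apply Real.rpow_le_rpow (by positivity) (by exact_mod_cast hHP) (by linarith)
  linarith [hH0.1]

lemma step (n : ℕ) (hn : 2 ≤ n) (t : ℝ) (ht : (n : ℝ) + 1 < t) (c₁ c₂ : ℝ) (hc₁ : 0 < c₁)
    (hc : c₁ < c₂) (hit : HitStatement n t c₁ c₂) (H0 : ℕ) (r : ℚ) (hr0 : 0 < r) (hr1 : r < 1)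
    (hgood : Good n t c₁ H0 (r : ℝ)) (ρ : ℝ) (hρ : 0 < ρ) (k : ℕ) :
    ∃ r' : ℚ, ∃ ρ' : ℝ, 0 < r' ∧ r' < 1 ∧ Good n t c₁ H0 (r' : ℝ) ∧ 0 < ρ' ∧
      Metric.closedBall (r' : ℝ) ρ' ⊆ Metric.closedBall (r : ℝ) ρ ∧
      (∀ x ∈ Metric.closedBall (r' : ℝ) ρ', x ∉ ZZ n t c₁ H0 k) ∧
      ∃ P : ℤ[X], Irreducible P ∧ P.natDegree = n ∧ k ≤ HP P ∧ ∃ α : ℝ, aeval α P = 0 ∧
        ∀ x ∈ Metric.closedBall (r' : ℝ) ρ', |x - α| < c₂ * (HP P : ℝ) ^ (-t) := by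
  have hc₂ : 0 < c₂ := hc₁.trans hc
  have hr0R : (0 : ℝ) < r := by exact_mod_cast hr0
  have hr1R : (r : ℝ) < 1 := by exact_mod_cast hr1
  set δ : ℝ := min ρ (min r (1 - r)) with hδ
  have hδpos : 0 < δ := lt_min hρ (lt_min hr0R (by linarith))
  -- choose a height bound
  have hlim : Tendsto (fun k : ℕ => c₂ * (k : ℝ) ^ (-t)) atTop (𝓝 0) := by
    have h1 : Tendsto (fun k : ℕ => (k : ℝ) ^ (-t)) atTop (𝓝 0) :=
      (tendsto_rpow_neg_atTop (by linarith)).comp tendsto_natCast_atTop_atTop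
    simpa using h1.const_mul c₂
  obtain ⟨B, hB1, hB2, hB3⟩ := ((hlim.eventually (gt_mem_nhds (show (0 : ℝ) < δ / 2 by positivity))).and
    ((eventually_ge_atTop k).and (eventually_ge_atTop 1))).exists
  obtain ⟨P, hirr, hdeg, hBP, α, hα, hαr, hvol⟩ := hit H0 r hr0 hr1 hgood (δ / 2) (by positivity) B
  set U : Set ℝ := {x : ℝ | c₁ * (HP P : ℝ) ^ (-t) < |x - α| ∧ |x - α| < c₂ * (HP P : ℝ) ^ (-t)} with hU
  have hUopen : IsOpen U := by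
    have h1 : Continuous (fun x : ℝ => |x - α|) := by fun_prop
    exact (isOpen_lt continuous_const h1).inter (isOpen_lt h1 continuous_const)
  have hHPB : c₂ * (HP P : ℝ) ^ (-t) < δ / 2 := by
    refine lt_of_le_of_lt ?_ hB1
    have hB0 : (0 : ℝ) < B := by exact_mod_cast hB3
    have : (HP P : ℝ) ^ (-t) ≤ (B : ℝ) ^ (-t) :=
      Real.rpow_le_rpow_of_nonpos hB0 (by exact_mod_cast hBP) (by linarith)
    gcongr
  have hUball : ∀ x ∈ U, |x - r| < δ := by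
    intro x hx
    calc |x - r| = |(x - α) + (α - r)| := by ring_nf
      _ ≤ |x - α| + |α - r| := abs_add_le _ _
      _ < δ / 2 + δ / 2 := add_lt_add (hx.2.trans hHPB) hαr
      _ = δ := by ring
  have hU1 : U ⊆ Ioo 0 1 := by
    intro x hx
    have h1 := abs_lt.1 (hUball x hx)
    have h2 : δ ≤ r := (min_le_right _ _).trans (min_le_left _ _)
    have h3 : δ ≤ 1 - r := (min_le_right _ _).trans (min_le_right _ _)
    exact ⟨by linarith [h1.1], by linarith [h1.2]⟩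
  obtain ⟨r', hr'U, hr'good⟩ := exists_good_rational n hn t ht c₁ hc₁ H0 U hUopen hU1 (by
    refine lt_of_lt_of_le hvol (measure_mono ?_)
    rintro x ⟨h1, h2, h3⟩
    exact ⟨⟨h1, h2⟩, h3⟩)
  -- open neighbourhood
  set V : Set ℝ := (U ∩ (ZZ n t c₁ H0 k)ᶜ) ∩ Metric.ball (r : ℝ) ρ with hV
  have hVopen : IsOpen V :=
    (hUopen.inter (ZZ_closed n t c₁ H0 k).isOpen_compl).inter Metric.isOpen_ball
  have hr'V : (r' : ℝ) ∈ V := by
    refine ⟨⟨hr'U, ?_⟩, ?_⟩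
    · rintro ⟨Q, h1, h2, h3, h4, β, h5, h6⟩
      exact absurd h6 (not_le.2 (hr'good Q h1 h2 h3 β h5))
    · rw [Metric.mem_ball, Real.dist_eq]
      exact lt_of_lt_of_le (hUball _ hr'U) (min_le_left _ _)
  obtain ⟨ρ₀, hρ₀, hball⟩ := Metric.isOpen_iff.1 hVopen _ hr'V
  have hcb : Metric.closedBall (r' : ℝ) (ρ₀ / 2) ⊆ V :=
    (Metric.closedBall_subset_ball (by linarith)).trans hball
  have hr'01 := hU1 hr'U
  refine ⟨r', ρ₀ / 2, by exact_mod_cast hr'01.1, by exact_mod_cast hr'01.2, hr'good, by positivity,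
    ?_, ?_, P, hirr, hdeg, hB2.trans hBP, α, hα, ?_⟩
  · exact hcb.trans ((inter_subset_right).trans Metric.ball_subset_closedBall)
  · intro x hx
    exact (hcb hx).1.2
  · intro x hx
    exact (hcb hx).1.1.2

theorem main_of_hit (n : ℕ) (hn : 2 ≤ n) (t : ℝ) (ht : (n : ℝ) + 1 < t) (c₁ c₂ : ℝ) (hc₁ : 0 < c₁)
    (hc : c₁ < c₂) (hit : HitStatement n t c₁ c₂) : ∃ ξ : ℝ,
    {α : ℝ | ∃ P : ℤ[X], Irreducible P ∧ aeval α P = 0 ∧ P.natDegree = n ∧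
      |ξ - α| < c₂ * (HP P : ℝ) ^ (-t)}.Infinite ∧
    {α : ℝ | ∃ P : ℤ[X], Irreducible P ∧ aeval α P = 0 ∧ P.natDegree = n ∧
      |ξ - α| < c₁ * (HP P : ℝ) ^ (-t)}.Finite := by
  have hc₂ : 0 < c₂ := hc₁.trans hc
  obtain ⟨H0, hH0⟩ := exists_H0 n hn t ht c₁ hc₁
  let St := {p : ℚ × ℝ // 0 < p.1 ∧ p.1 < 1 ∧ Good n t c₁ H0 (p.1 : ℝ) ∧ 0 < p.2}
  have hstep : ∀ (s : St) (k : ℕ), ∃ s' : St,
      Metric.closedBall (s'.1.1 : ℝ) s'.1.2 ⊆ Metric.closedBall (s.1.1 : ℝ) s.1.2 ∧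
      (∀ x ∈ Metric.closedBall (s'.1.1 : ℝ) s'.1.2, x ∉ ZZ n t c₁ H0 k) ∧
      ∃ P : ℤ[X], Irreducible P ∧ P.natDegree = n ∧ k ≤ HP P ∧ ∃ α : ℝ, aeval α P = 0 ∧
        ∀ x ∈ Metric.closedBall (s'.1.1 : ℝ) s'.1.2, |x - α| < c₂ * (HP P : ℝ) ^ (-t) := by
    rintro ⟨⟨r, ρ⟩, h0, h1, h2, h3⟩ k
    obtain ⟨r', ρ', a1, a2, a3, a4, a5, a6, a7⟩ := step n hn t ht c₁ c₂ hc₁ hc hit H0 r h0 h1 h2 ρ h3 k
    exact ⟨⟨(r', ρ'), a1, a2, a3, a4⟩, a5, a6, a7⟩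
  choose f hf1 hf2 hf3 using hstep
  let s0 : St := ⟨(1 / 2, 1), by norm_num, by norm_num, hH0, by norm_num⟩
  let s : ℕ → St := fun k => Nat.rec s0 (fun k st => f st k) k
  have hs : ∀ k, s (k + 1) = f (s k) k := fun k => rfl
  obtain ⟨ξ, hξ⟩ := IsCompact.nonempty_iInter_of_sequence_nonempty_isCompact_isClosed
    (fun k => Metric.closedBall ((s k).1.1 : ℝ) (s k).1.2)
    (fun k => by rw [hs]; exact hf1 (s k) k)
    (fun k => Metric.nonempty_closedBall.2 (s k).2.2.2.2.le)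
    (isCompact_closedBall _ _) (fun k => Metric.isClosed_closedBall)
  rw [mem_iInter] at hξ
  have hξ1 : ∀ k, ξ ∉ ZZ n t c₁ H0 k := by
    intro k
    have := hξ (k + 1)
    rw [hs] at this
    exact hf2 (s k) k ξ this
  have hξgood : Good n t c₁ H0 ξ := by
    intro Q h1 h2 h3 β h4
    by_contra hcon
    push Not at hcon
    exact hξ1 (HP Q + 1) ⟨Q, h1, h2, h3, Nat.lt_succ_self _, β, h4, hcon⟩
  have hξ2 : ∀ k, ∃ P : ℤ[X], Irreducible P ∧ P.natDegree = n ∧ k ≤ HP P ∧ ∃ α : ℝ, aeval α P = 0 ∧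
      |ξ - α| < c₂ * (HP P : ℝ) ^ (-t) := by
    intro k
    obtain ⟨P, h1, h2, h3, α, h4, h5⟩ := hf3 (s k) k
    refine ⟨P, h1, h2, h3, α, h4, h5 ξ ?_⟩
    have := hξ (k + 1)
    rw [hs] at this
    exact this
  refine ⟨ξ, ?_, ?_⟩
  · intro hfin
    -- minimal positive distance
    set A := {α : ℝ | ∃ P : ℤ[X], Irreducible P ∧ aeval α P = 0 ∧ P.natDegree = n ∧
      |ξ - α| < c₂ * (HP P : ℝ) ^ (-t)} with hA
    have hopen : IsOpen (A \ {ξ})ᶜ := (hfin.subset sdiff_subset).isClosed.isOpen_compl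
    have hmem : ξ ∈ (A \ {ξ})ᶜ := fun h => h.2 rfl
    obtain ⟨ε, hε, hball⟩ := Metric.isOpen_iff.1 hopen ξ hmem
    have hlim : Tendsto (fun k : ℕ => c₂ * (k : ℝ) ^ (-t)) atTop (𝓝 0) := by
      have h1 : Tendsto (fun k : ℕ => (k : ℝ) ^ (-t)) atTop (𝓝 0) :=
        (tendsto_rpow_neg_atTop (by linarith)).comp tendsto_natCast_atTop_atTop
      simpa using h1.const_mul c₂
    obtain ⟨k, hk1, hk2, hk3⟩ := ((hlim.eventually (gt_mem_nhds hε)).and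
      ((eventually_ge_atTop H0).and (eventually_ge_atTop 1))).exists
    obtain ⟨P, h1, h2, h3, α, h4, h5⟩ := hξ2 k
    have hαA : α ∈ A := ⟨P, h1, h4, h2, h5⟩
    have hk0 : (0 : ℝ) < k := by exact_mod_cast hk3
    have hHP0 : (0 : ℝ) < HP P := lt_of_lt_of_le hk0 (by exact_mod_cast h3)
    have hαξ : α ≠ ξ := by
      intro h
      have h6 := hξgood P h1 h2 (hk2.trans h3) α h4
      rw [h, sub_self, abs_zero] at h6
      have : 0 < c₁ * (HP P : ℝ) ^ (-t) := mul_pos hc₁ (Real.rpow_pos_of_pos hHP0 _)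
      linarith
    have h7 : α ∈ Metric.ball ξ ε := by
      rw [Metric.mem_ball, dist_comm, Real.dist_eq]
      refine h5.trans (lt_of_le_of_lt ?_ hk1)
      have : (HP P : ℝ) ^ (-t) ≤ (k : ℝ) ^ (-t) :=
        Real.rpow_le_rpow_of_nonpos hk0 (by exact_mod_cast h3) (by linarith)
      gcongr
    exact hball h7 ⟨hαA, hαξ⟩
  · have hF := finite_polys n H0
    have hroots : ∀ Q : ℤ[X], Q ≠ 0 → {β : ℝ | aeval β Q = 0}.Finite := by
      intro Q hQ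
      have hne : Q.map (Int.castRingHom ℝ) ≠ 0 := (Polynomial.map_ne_zero_iff
        (RingHom.injective_int (Int.castRingHom ℝ))).2 hQ
      refine ((Q.map (Int.castRingHom ℝ)).roots.toFinset.finite_toSet).subset ?_
      intro β hβ
      simp only [Finset.mem_coe, Multiset.mem_toFinset, mem_roots hne, IsRoot.def, eval_map]
      simp only [mem_ofPred_eq, aeval_def] at hβ
      exact hβ
    have hF' : {Q : ℤ[X] | (Q.natDegree ≤ n ∧ HP Q ≤ H0) ∧ Q ≠ 0}.Finite := hF.subset (fun Q hQ => hQ.1)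
    refine (hF'.biUnion (fun Q hQ => hroots Q hQ.2)).subset ?_
    rintro α ⟨P, h1, h2, h3, h4⟩
    rw [mem_iUnion₂]
    refine ⟨P, ⟨⟨h3.le, ?_⟩, h1.ne_zero⟩, h2⟩
    by_contra h5
    push Not at h5
    have := hξgood P h1 h3 h5.le α h2
    linarith

end Pool.Agent.Helper404
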