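import Mathlib

/-!
# Hilbert schemes of points on normal surfaces with a non-Gorenstein singularity
-/

namespace Pool.Agent.Helper404.HilbNG

set_option linter.unusedSectionVars false

open scoped BigOperators Pointwise

universe u v w

noncomputable section

/-- The closed points of the Hilbert scheme of length `d` subschemes of `Spec A`: ideals of
colength `d`. -/
def Hilb (k : Type u) (A : Type v) [Field k] [CommRing A] [Algebra k A] (d : ℕ) : Type v :=
  {I : Ideal A // Module.Finite k (A ⧸ I) ∧ Module.finrank k (A ⧸ I) = d}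

/-- `I` lies in the standard affine chart of the Hilbert scheme given by `β`
(the classes of the `β j` are a basis of `A ⧸ I`), with coordinates `x`: for every `a`, the
class of `a` is `∑ x (a, j) • β j`. -/
def IsCoord {k : Type u} {A : Type v} [Field k] [CommRing A] [Algebra k A] {d : ℕ}
    (β : Fin d → A) (I : Ideal A) (x : A × Fin d → k) : Prop :=
  LinearIndependent k (fun j => Ideal.Quotient.mk I (β j)) ∧
  ∀ a : A, Ideal.Quotient.mk I a = ∑ j, x (a, j) • Ideal.Quotient.mk I (β j)

/-- Zariski closed subsets of the Hilbert scheme: in every standard chart they are the zero set of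
a family of polynomials in the coordinates. -/
def ZClosed (k : Type u) (A : Type v) [Field k] [CommRing A] [Algebra k A] (d : ℕ)
    (C : Set (Hilb k A d)) : Prop :=
  ∀ β : Fin d → A, ∃ F : Set (MvPolynomial (A × Fin d) k), ∀ I : Hilb k A d,
    ∀ x : A × Fin d → k, IsCoord β I.1 x → (I ∈ C ↔ ∀ f ∈ F, MvPolynomial.eval x f = 0)

/-- A two-dimensional Cohen–Macaulay local ring is Gorenstein iff there is a regular sequence `x, y`
in the maximal ideal such that the socle of `R ⧸ (x, y)` is one-dimensional, i.e.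
`((x, y) : 𝔪) = (x, y, z)` for some `z ∉ (x, y)`. -/
def IsGorensteinTwo (R : Type v) [CommRing R] [IsLocalRing R] : Prop :=
  ∃ x ∈ IsLocalRing.maximalIdeal R, ∃ y ∈ IsLocalRing.maximalIdeal R,
    (∀ a : R, x * a = 0 → a = 0) ∧
    (∀ a : R, y * a ∈ Ideal.span {x} → a ∈ Ideal.span {x}) ∧
    ∃ z : R, z ∉ Ideal.span {x, y} ∧
      ∀ a : R, (∀ m ∈ IsLocalRing.maximalIdeal R, m * a ∈ Ideal.span {x, y}) ↔
        a ∈ Ideal.span {x, y, z}

section topology

variable {k : Type u} {A : Type v} [Field k] [CommRing A] [Algebra k A] {d : ℕ}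

lemma zclosed_empty : ZClosed k A d ∅ := by
  intro β
  refine ⟨{1}, fun I x _ => ?_⟩
  simp

lemma zclosed_sInter (S : Set (Set (Hilb k A d))) (hS : ∀ C ∈ S, ZClosed k A d C) :
    ZClosed k A d (⋂₀ S) := by
  intro β
  choose F hF using fun (C : Set (Hilb k A d)) (hC : C ∈ S) => hS C hC β
  refine ⟨{f | ∃ (C : Set (Hilb k A d)) (hC : C ∈ S), f ∈ F C hC}, fun I x hx => ?_⟩
  constructor
  · rintro hI f ⟨C, hC, hf⟩
    exact (hF C hC I x hx).1 (hI C hC) f hf
  · intro h C hC
    exact (hF C hC I x hx).2 fun f hf => h f ⟨C, hC, hf⟩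

lemma zclosed_union (C D : Set (Hilb k A d)) (hC : ZClosed k A d C) (hD : ZClosed k A d D) :
    ZClosed k A d (C ∪ D) := by
  intro β
  obtain ⟨F, hF⟩ := hC β
  obtain ⟨G, hG⟩ := hD β
  refine ⟨{p | ∃ f ∈ F, ∃ g ∈ G, p = f * g}, fun I x hx => ?_⟩
  constructor
  · rintro (hI | hI) p ⟨f, hf, g, hg, rfl⟩
    · rw [map_mul, (hF I x hx).1 hI f hf, zero_mul]
    · rw [map_mul, (hG I x hx).1 hI g hg, mul_zero]
  · intro h
    by_contra hcon
    have h1 : I ∉ C := fun h1 => hcon (Or.inl h1)
    have h2 : I ∉ D := fun h2 => hcon (Or.inr h2)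
    rw [hF I x hx] at h1
    rw [hG I x hx] at h2
    push Not at h1 h2
    obtain ⟨f, hf, hf0⟩ := h1
    obtain ⟨g, hg, hg0⟩ := h2
    have := h (f * g) ⟨f, hf, g, hg, rfl⟩
    rw [map_mul] at this
    exact mul_ne_zero hf0 hg0 this

/-- The Zariski topology on the closed points of the Hilbert scheme. -/
instance (k : Type u) (A : Type v) [Field k] [CommRing A] [Algebra k A] (d : ℕ) :
    TopologicalSpace (Hilb k A d) :=
  TopologicalSpace.ofClosed {C | ZClosed k A d C} zclosed_empty
    (fun S hS => zclosed_sInter S hS) (fun C hC D hD => zclosed_union C D hC hD)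

lemma isClosed_iff (C : Set (Hilb k A d)) : IsClosed C ↔ ZClosed k A d C := by
  rw [← isOpen_compl_iff]
  change ZClosed k A d Cᶜᶜ ↔ ZClosed k A d C
  rw [compl_compl]

end topology

end

end Pool.Agent.Helper404.HilbNG
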