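import Mathlib
import Pool.Agent.Helper404.HilbDefs

/-!
# Hilbert schemes of points on normal surfaces with a non-Gorenstein singularity
-/

namespace Pool.Agent.Helper404.HilbNG

set_option linter.unusedSectionVars false

open scoped BigOperators Pointwise

universe u v w

noncomputable section

section closedness

variable {k : Type u} {A : Type v} [Field k] [CommRing A] [Algebra k A] {d : ℕ}

lemma auxCL_mk {N : Type w} [AddCommGroup N] [Module A N] [Module k N] [IsScalarTower k A N]
    {β : Fin d → A} {I : Ideal A} {x : A × Fin d → k} (h : IsCoord β I x) (a : A) (n : N) :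
    (Submodule.Quotient.mk (a • n) : N ⧸ (I • (⊤ : Submodule A N))) =
      ∑ j, x (a, j) • (Submodule.Quotient.mk (β j • n) : N ⧸ (I • (⊤ : Submodule A N))) := by
  have h1 : a - ∑ j, x (a, j) • β j ∈ I := by
    rw [← Ideal.Quotient.eq, h.2 a, map_sum]
    refine Finset.sum_congr rfl fun j _ => ?_
    exact (map_smul (Ideal.Quotient.mkₐ k I) (x (a, j)) (β j)).symm
  have h2 : (a - ∑ j, x (a, j) • β j) • n ∈ I • (⊤ : Submodule A N) :=
    Submodule.smul_mem_smul h1 trivial
  have h3 := (Submodule.Quotient.mk_eq_zero _).2 h2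
  rw [sub_smul, Submodule.Quotient.mk_sub, sub_eq_zero, Finset.sum_smul] at h3
  rw [h3, ← Submodule.mkQ_apply, map_sum]
  refine Finset.sum_congr rfl fun j _ => ?_
  rw [Submodule.mkQ_apply, smul_assoc, Submodule.Quotient.mk_smul]

lemma auxCL_coord {β : Fin d → A} {I : Ideal A} {x : A × Fin d → k} (h : IsCoord β I x) (a : A)
    (c : Fin d → k) (hc : a - ∑ j, c j • β j ∈ I) (j : Fin d) : x (a, j) = c j := by
  have h1 : Ideal.Quotient.mk I a = ∑ j, c j • Ideal.Quotient.mk I (β j) := by
    rw [Ideal.Quotient.eq.2 hc, map_sum]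
    refine Finset.sum_congr rfl fun j _ => ?_
    exact map_smul (Ideal.Quotient.mkₐ k I) (c j) (β j)
  have h2 := h.2 a
  rw [h1] at h2
  have h3 : ∑ j, (x (a, j) - c j) • Ideal.Quotient.mk I (β j) = 0 := by
    simp only [sub_smul, Finset.sum_sub_distrib]
    rw [h2, sub_self]
  have h4 := Fintype.linearIndependent_iff.1 h.1 _ h3 j
  exact sub_eq_zero.1 h4

/-- semicontinuity of the fibre dimension -/
theorem closed_le (N : Type w) [AddCommGroup N] [Module A N] [Module k N] [IsScalarTower k A N]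
    [Module.Finite A N] (m : ℕ) :
    ZClosed k A d {I | m ≤ Module.finrank k (N ⧸ (I.1 • (⊤ : Submodule A N)))} := by
  obtain ⟨g, ν, hν⟩ := Module.Finite.exists_fin (R := A) (M := N)
  intro β
  refine ⟨{f | ∃ (p p' : ℕ) (e : (Fin g × Fin d) ≃ Fin p ⊕ Fin p') (κ : Fin p → Fin g → A)
    (v : Fin p' → Fin g × Fin d → k),
     Fintype.card (Fin g × Fin d) < p + m ∧ (∀ i, ∑ l, κ i l • ν l = 0) ∧
     f = (Matrix.of fun t s : Fin g × Fin d => Sum.elim
      (fun i => (MvPolynomial.X (κ i s.1, s.2) : MvPolynomial (A × Fin d) k))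
      (fun j => MvPolynomial.C (v j s)) (e t)).det}, ?_⟩
  intro I x hx
  -- the presentation
  let ρ : (Fin g × Fin d → k) →ₗ[k] (N ⧸ (I.1 • (⊤ : Submodule A N))) :=
    Fintype.linearCombination k
      (fun t : Fin g × Fin d => (Submodule.Quotient.mk (β t.2 • ν t.1) : N ⧸ (I.1 • (⊤ : Submodule A N))))
  have hρ : ∀ v, ρ v = ∑ l, ∑ j, v (l, j) •
      (Submodule.Quotient.mk (β j • ν l) : N ⧸ (I.1 • (⊤ : Submodule A N))) := by
    intro v
    show (Fintype.linearCombination k _) v = _
    rw [Fintype.linearCombination_apply, Fintype.sum_prod_type]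
  have hρκ : ∀ κ : Fin g → A, ρ (fun t => x (κ t.1, t.2)) =
      (Submodule.Quotient.mk (∑ l, κ l • ν l) : N ⧸ (I.1 • (⊤ : Submodule A N))) := by
    intro κ
    rw [hρ, ← Submodule.mkQ_apply, map_sum]
    refine Finset.sum_congr rfl fun l _ => ?_
    rw [Submodule.mkQ_apply, auxCL_mk hx]
  have hsurj : Function.Surjective ρ := by
    intro y
    obtain ⟨n, rfl⟩ := Submodule.Quotient.mk_surjective _ y
    have hn : n ∈ Submodule.span A (Set.range ν) := by rw [hν]; trivial
    obtain ⟨κ, hκ⟩ := (Submodule.mem_span_range_iff_exists_fun A).1 hn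
    exact ⟨_, (hρκ κ).trans (by rw [hκ])⟩
  have hker : ∀ v, ρ v = 0 ↔ ∃ κ : Fin g → A, ∑ l, κ l • ν l = 0 ∧ v = fun t => x (κ t.1, t.2) := by
    intro v
    constructor
    · intro h
      have h1 : (Submodule.Quotient.mk (∑ l, (∑ j, v (l, j) • β j) • ν l) :
          N ⧸ (I.1 • (⊤ : Submodule A N))) = 0 := by
        rw [← h, hρ, ← Submodule.mkQ_apply, map_sum]
        refine Finset.sum_congr rfl fun l _ => ?_
        rw [Finset.sum_smul, map_sum]
        refine Finset.sum_congr rfl fun j _ => ?_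
        rw [Submodule.mkQ_apply, smul_assoc, Submodule.Quotient.mk_smul]
      rw [Submodule.Quotient.mk_eq_zero, ← hν, Submodule.mem_ideal_smul_span_iff_exists_sum] at h1
      obtain ⟨a, ha, hs⟩ := h1
      refine ⟨fun l => (∑ j, v (l, j) • β j) - a l, ?_, ?_⟩
      · simp only [sub_smul, Finset.sum_sub_distrib]
        rw [← hs, Finsupp.sum_fintype _ _ (by simp), sub_self]
      · funext t
        obtain ⟨l, j⟩ := t
        refine (auxCL_coord hx _ (fun j => v (l, j)) ?_ j).symm
        have : (∑ j, v (l, j) • β j) - a l - ∑ j, v (l, j) • β j = - a l := by ring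
        rw [this]
        exact I.1.neg_mem (ha l)
    · rintro ⟨κ, hκ, rfl⟩
      rw [hρκ, hκ, Submodule.Quotient.mk_zero]
  have hdim : Module.finrank k (N ⧸ (I.1 • (⊤ : Submodule A N))) + Module.finrank k (LinearMap.ker ρ) =
      Fintype.card (Fin g × Fin d) := by
    have := LinearMap.finrank_range_add_finrank_ker ρ
    rw [LinearMap.range_eq_top.2 hsurj, finrank_top, Module.finrank_fintype_fun_eq_card] at this
    exact this
  -- evaluation of the polynomials
  have heval : ∀ (p p' : ℕ) (e : (Fin g × Fin d) ≃ Fin p ⊕ Fin p') (κ : Fin p → Fin g → A)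
    (v : Fin p' → Fin g × Fin d → k), MvPolynomial.eval x (Matrix.of fun t s : Fin g × Fin d => Sum.elim
      (fun i => (MvPolynomial.X (κ i s.1, s.2) : MvPolynomial (A × Fin d) k))
      (fun j => MvPolynomial.C (v j s)) (e t)).det =
      (Matrix.of fun t : Fin g × Fin d => Sum.elim
        (fun i => fun s : Fin g × Fin d => x (κ i s.1, s.2)) v (e t)).det := by
    intro p p' e κ v
    rw [RingHom.map_det]
    congr 1
    ext t s
    simp only [RingHom.mapMatrix_apply, Matrix.map_apply, Matrix.of_apply]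
    rcases e t with i | i <;> simp
  show m ≤ _ ↔ _
  constructor
  · rintro hm f ⟨p, p', e, κ, v, hp, hκ, rfl⟩
    rw [heval]
    by_contra hdet
    have hu := (Matrix.isUnit_iff_isUnit_det _).2 (isUnit_iff_ne_zero.2 hdet)
    have hli := Matrix.linearIndependent_rows_iff_isUnit.2 hu
    have hli2 : LinearIndependent k (fun i : Fin p => (fun s : Fin g × Fin d => x (κ i s.1, s.2))) := by
      have h5 := hli.comp (fun i : Fin p => e.symm (Sum.inl i))
        (e.symm.injective.comp Sum.inl_injective)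
      have h6 : (fun i : Fin p => (fun s : Fin g × Fin d => x (κ i s.1, s.2))) =
          (Matrix.of fun t : Fin g × Fin d => Sum.elim
            (fun i => fun s : Fin g × Fin d => x (κ i s.1, s.2)) v (e t)).row ∘
            (fun i : Fin p => e.symm (Sum.inl i)) := by
        funext i
        show _ = Sum.elim (fun i => fun s : Fin g × Fin d => x (κ i s.1, s.2)) v (e (e.symm (Sum.inl i)))
        rw [Equiv.apply_symm_apply]; rfl
      rw [h6]
      exact h5
    have hli3 : LinearIndependent k (fun i : Fin p =>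
        (⟨fun s : Fin g × Fin d => x (κ i s.1, s.2), (hker _).2 ⟨κ i, hκ i, rfl⟩⟩ : LinearMap.ker ρ)) := by
      refine LinearIndependent.of_comp (LinearMap.ker ρ).subtype ?_
      exact hli2
    have := hli3.fintype_card_le_finrank
    rw [Fintype.card_fin] at this
    omega
  · intro hF
    by_contra hm
    obtain ⟨W', hW'⟩ := Submodule.exists_isCompl (LinearMap.ker ρ)
    let b1 := Module.finBasis k (LinearMap.ker ρ)
    let b2 := Module.finBasis k W'
    let B := (b1.prod b2).map (Submodule.prodEquivOfIsCompl _ _ hW')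
    have hcard : Fintype.card (Fin g × Fin d) =
        Fintype.card (Fin (Module.finrank k (LinearMap.ker ρ)) ⊕ Fin (Module.finrank k W')) := by
      rw [← Module.finrank_eq_card_basis B, Module.finrank_fintype_fun_eq_card]
    let e := Fintype.equivOfCardEq hcard
    have hb : ∀ i, ∃ κ : Fin g → A, ∑ l, κ l • ν l = 0 ∧
        ((b1 i : LinearMap.ker ρ) : Fin g × Fin d → k) = fun t => x (κ t.1, t.2) := fun i => (hker _).1 (b1 i).2
    choose κ hκ hκ' using hb
    have h0 := hF _ ⟨_, _, e, κ, fun j => (b2 j : Fin g × Fin d → k), by omega, hκ, rfl⟩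
    rw [heval] at h0
    have hli : LinearIndependent k (B ∘ e) := B.linearIndependent.comp _ e.injective
    have hrow : (Matrix.of fun t : Fin g × Fin d => Sum.elim
        (fun i => fun s : Fin g × Fin d => x (κ i s.1, s.2))
        (fun j => (b2 j : Fin g × Fin d → k)) (e t)).row = B ∘ e := by
      funext t
      show Sum.elim
        (fun i => fun s : Fin g × Fin d => x (κ i s.1, s.2))
        (fun j => (b2 j : Fin g × Fin d → k)) (e t) = B (e t)
      rcases e t with i | i
      · simp [B, ← hκ']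
      · simp [B]
    rw [← hrow] at hli
    have hu := Matrix.linearIndependent_rows_iff_isUnit.1 hli
    have := (Matrix.isUnit_iff_isUnit_det _).1 hu
    rw [h0] at this
    exact not_isUnit_zero this

/-- away from the locus `J` where `N` is not free of rank one, the colength does not change -/
theorem finrank_coprime [IsDomain A] (N : Type w) [AddCommGroup N] [Module A N] [Module k N]
    [IsScalarTower k A N] (hN : ∀ (a : A) (n : N), a • n = 0 → a = 0 ∨ n = 0) (ν : N) (hν : ν ≠ 0)
    (J : Ideal A) (hJ : ∀ a ∈ J, ∀ n : N, ∃ c : A, a • n = c • ν) (I : Ideal A) (hIJ : I ⊔ J = ⊤) :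
    Module.finrank k (N ⧸ (I • (⊤ : Submodule A N))) = Module.finrank k (A ⧸ I) := by
  have h1mem : (1 : A) ∈ I ⊔ J := by rw [hIJ]; exact Submodule.mem_top
  obtain ⟨i, hi, j, hj, hij⟩ := Submodule.mem_sup.mp h1mem
  let ψ : A →ₗ[A] (N ⧸ (I • (⊤ : Submodule A N))) :=
    (Submodule.mkQ (I • (⊤ : Submodule A N))).comp (LinearMap.toSpanSingleton A N ν)
  have hψ : ∀ a, ψ a = Submodule.Quotient.mk (a • ν) := fun a => rfl
  have hsurj : Function.Surjective ψ := by
    intro y
    obtain ⟨n, rfl⟩ := Submodule.Quotient.mk_surjective _ y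
    obtain ⟨c, hc⟩ := hJ j hj n
    refine ⟨c, ?_⟩
    rw [hψ, ← hc]
    have h2 : n = i • n + j • n := by rw [← add_smul, hij, one_smul]
    rw [Submodule.Quotient.eq]
    have h3 : j • n - n = -(i • n) := by
      conv_lhs => rw [h2]
      rw [smul_add, smul_smul, smul_smul, ← add_smul]
      have h4 : (j * i + j * j) = j := by rw [← mul_add, hij, mul_one]
      rw [h4]
      abel
    rw [h3]
    exact Submodule.neg_mem _ (Submodule.smul_mem_smul hi Submodule.mem_top)
  have hclaim : ∀ x ∈ I • (⊤ : Submodule A N), ∃ c ∈ I, j • x = c • ν := by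
    intro x hx
    induction hx using Submodule.smul_induction_on' with
    | smul r hr n _ =>
      obtain ⟨c, hc⟩ := hJ j hj n
      refine ⟨r * c, Ideal.mul_mem_right c I hr, ?_⟩
      rw [smul_comm, hc, smul_smul]
    | add x _ y _ hx hy =>
      obtain ⟨c, hc, h2⟩ := hx
      obtain ⟨c', hc', h3⟩ := hy
      exact ⟨c + c', add_mem hc hc', by rw [smul_add, h2, h3, add_smul]⟩
  have hker : LinearMap.ker ψ = I := by
    ext a
    rw [LinearMap.mem_ker, hψ, Submodule.Quotient.mk_eq_zero]
    constructor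
    · intro ha
      obtain ⟨c, hc, h2⟩ := hclaim _ ha
      have h3 : (j * a - c) • ν = 0 := by rw [sub_smul, mul_smul, h2, sub_self]
      have h4 : j * a - c = 0 := (hN _ _ h3).resolve_right hν
      have h5 : j * a = c := sub_eq_zero.mp h4
      have h6 : a = i * a + j * a := by rw [← add_mul, hij, one_mul]
      rw [h6, h5]
      exact add_mem (Ideal.mul_mem_right a I hi) hc
    · intro ha
      exact Submodule.smul_mem_smul ha Submodule.mem_top
  have e1 : (A ⧸ LinearMap.ker ψ) ≃ₗ[A] (N ⧸ (I • (⊤ : Submodule A N))) :=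
    LinearMap.quotKerEquivOfSurjective ψ hsurj
  have e2 : (A ⧸ LinearMap.ker ψ) ≃ₗ[A] (A ⧸ I) := Submodule.quotEquivOfEq _ _ hker
  have e3 : (N ⧸ (I • (⊤ : Submodule A N))) ≃ₗ[A] (A ⧸ I) := e1.symm.trans e2
  exact (e3.restrictScalars k).finrank_eq

lemma auxEC_infinite [IsDomain A] [Algebra.FiniteType k A] (hA : ¬ IsField A)
    (J : Ideal A) (hJ : J ≠ ⊥) : {M : Ideal A | M.IsMaximal ∧ ¬ J ≤ M}.Infinite := by
  classical
  intro hfin
  have hjac : IsJacobsonRing A := isJacobsonRing_of_finiteType (A := k)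
  obtain ⟨a, haJ, ha0⟩ := Submodule.exists_mem_ne_zero_of_ne_bot hJ
  have hb : ∀ M : Ideal A, M.IsMaximal → ∃ b ∈ M, b ≠ 0 := by
    intro M hM
    have hMb : M ≠ ⊥ := Ring.ne_bot_of_isMaximal_of_not_isField hM hA
    exact Submodule.exists_mem_ne_zero_of_ne_bot hMb
  choose! b hbM hb0 using hb
  set T := hfin.toFinset with hT
  have hmemT : ∀ M, M ∈ T ↔ M.IsMaximal ∧ ¬ J ≤ M := by
    intro M
    simp [hT]
  set p : A := a * ∏ M ∈ T, b M with hp
  have hp0 : p ≠ 0 := by
    refine mul_ne_zero ha0 (Finset.prod_ne_zero_iff.2 ?_)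
    intro M hM
    exact hb0 M ((hmemT M).1 hM).1
  have hbot : (⊥ : Ideal A).jacobson = ⊥ := by
    have h1 : (⊥ : Ideal A).IsRadical := (Ideal.isPrime_bot (α := A)).isRadical
    exact hjac.out h1
  have hnot : p ∉ (⊥ : Ideal A).jacobson := by
    rw [hbot]
    simpa using hp0
  rw [Ideal.jacobson, Ideal.mem_sInf] at hnot
  push Not at hnot
  obtain ⟨M, ⟨-, hMmax⟩, hpM⟩ := hnot
  have haM : a ∉ M := fun h => hpM (M.mul_mem_right _ h)
  have hMT : M ∈ T := (hmemT M).2 ⟨hMmax, fun h => haM (h haJ)⟩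
  apply hpM
  rw [hp]
  refine M.mul_mem_left _ ?_
  rw [← Finset.mul_prod_erase T b hMT]
  exact M.mul_mem_right _ (hbM M hMmax)

lemma auxEC_finite [Algebra.FiniteType k A] (M : Ideal A) (hM : M.IsMaximal) :
    Module.Finite k (A ⧸ M) := by
  letI := Ideal.Quotient.field M
  exact finite_of_finite_type_of_isJacobsonRing k (A ⧸ M)

lemma auxEC_finrank [IsAlgClosed k] [Algebra.FiniteType k A] (M : Ideal A) (hM : M.IsMaximal) :
    Module.finrank k (A ⧸ M) = 1 := by
  letI := Ideal.Quotient.field M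
  haveI : Module.Finite k (A ⧸ M) := auxEC_finite M hM
  have hb : Function.Bijective (algebraMap k (A ⧸ M)) :=
    IsAlgClosed.algebraMap_bijective_of_isIntegral
  have e : k ≃ₗ[k] (A ⧸ M) := LinearEquiv.ofBijective (Algebra.linearMap k (A ⧸ M)) hb
  rw [← e.finrank_eq, Module.finrank_self]

/-- there are `d` distinct closed points away from a proper closed subset -/
theorem exists_coprime [IsAlgClosed k] [IsDomain A] [Algebra.FiniteType k A] (hA : ¬ IsField A)
    (J : Ideal A) (hJ : J ≠ ⊥) (d : ℕ) : ∃ I : Hilb k A d, I.1 ⊔ J = ⊤ := by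
  classical
  obtain ⟨t, ht, htd⟩ := (auxEC_infinite (k := k) hA J hJ).exists_subset_card_eq d
  have hmax : ∀ i : t, (i : Ideal A).IsMaximal := fun i => (ht i.2).1
  have hJi : ∀ i : t, ¬ J ≤ (i : Ideal A) := fun i => (ht i.2).2
  set f : t → Ideal A := fun i => (i : Ideal A) with hf
  have hcop : Pairwise (Function.onFun IsCoprime f) := by
    intro i j hij
    show IsCoprime (f i) (f j)
    rw [Ideal.isCoprime_iff_sup_eq]
    exact Ideal.IsMaximal.coprime_of_ne (hmax i) (hmax j) (fun h => hij (Subtype.ext h))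
  let e0 := Ideal.quotientInfRingEquivPiQuotient f hcop
  let e : (A ⧸ ⨅ i, f i) ≃ₐ[k] (∀ i, A ⧸ f i) := AlgEquiv.ofRingEquiv (f := e0) (by
    intro r
    funext i
    rfl)
  haveI hfin : ∀ i : t, Module.Finite k (A ⧸ f i) := fun i => auxEC_finite (f i) (hmax i)
  have hfr : Module.finrank k (A ⧸ ⨅ i, f i) = d := by
    rw [e.toLinearEquiv.finrank_eq, Module.finrank_pi_fintype]
    rw [Finset.sum_congr rfl (fun i _ => auxEC_finrank (f i) (hmax i))]
    simp [htd]
  have hfi : Module.Finite k (A ⧸ ⨅ i, f i) := Module.Finite.equiv e.toLinearEquiv.symm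
  refine ⟨⟨⨅ i, f i, hfi, hfr⟩, ?_⟩
  show (⨅ i, f i) ⊔ J = ⊤
  have h1 : (⨅ i ∈ (Finset.univ : Finset t), f i) ⊔ J = ⊤ := by
    apply Ideal.iInf_sup_eq_top
    intro i _
    exact (hmax i).out.2 _ (lt_of_le_of_ne le_sup_left (fun h => hJi i (by
      have : J ≤ f i ⊔ J := le_sup_right
      rw [← h] at this
      exact this)))
  simpa using h1

lemma auxQS_ker (I J : Ideal A) :
    LinearMap.ker ((I • (⊤ : Submodule A (A ⧸ J))).mkQ ∘ₗ J.mkQ) = I ⊔ J := by
  rw [LinearMap.ker_comp, Submodule.ker_mkQ]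
  have h1 : I • (⊤ : Submodule A (A ⧸ J)) = Submodule.map J.mkQ I := by
    have h2 : (⊤ : Submodule A (A ⧸ J)) = Submodule.map J.mkQ ⊤ := by
      rw [Submodule.map_top, Submodule.range_mkQ]
    rw [h2, ← Submodule.map_smul'']
    congr 1
    rw [smul_eq_mul, Ideal.mul_top]
  rw [h1, Submodule.comap_map_eq, Submodule.ker_mkQ]

lemma auxQS_surj (I J : Ideal A) :
    Function.Surjective ((I • (⊤ : Submodule A (A ⧸ J))).mkQ ∘ₗ J.mkQ) := by
  rw [LinearMap.coe_comp]
  exact (Submodule.mkQ_surjective _).comp (Submodule.mkQ_surjective _)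

lemma finrank_quot_sup (I J : Ideal A) :
    Module.finrank k ((A ⧸ J) ⧸ (I • (⊤ : Submodule A (A ⧸ J)))) =
      Module.finrank k (A ⧸ (I ⊔ J)) := by
  let e := LinearMap.quotKerEquivOfSurjective _ (auxQS_surj I J)
  let e' := (Submodule.quotEquivOfEq _ _ (auxQS_ker I J)).symm.trans e
  exact (e'.restrictScalars k).finrank_eq.symm

lemma finrank_quot_self (I : Ideal A) :
    Module.finrank k (A ⧸ (I • (⊤ : Submodule A A))) = Module.finrank k (A ⧸ I) := by
  have h : I • (⊤ : Submodule A A) = I := by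
    rw [smul_eq_mul, Ideal.mul_top]
  rw [h]

end closedness

section regular

variable {A : Type v} [CommRing A] {N : Type w} [AddCommGroup N] [Module A N]

lemma auxQZ_iter (s t : A) (ht : ∀ n n' : N, t • n = s • n' → ∃ n'' : N, n = s • n'') (m : ℕ) :
    ∀ n n' : N, t ^ m • n = s • n' → ∃ n'' : N, n = s • n'' := by
  induction m with
  | zero =>
    intro n n' h
    rw [pow_zero, one_smul] at h
    exact ⟨n', h⟩
  | succ m ih =>
    intro n n' h
    rw [pow_succ', mul_smul] at h
    obtain ⟨n1, hn1⟩ := ht _ _ h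
    exact ih n n1 hn1

/-- a regular sequence of length two is quasi-regular -/
theorem quasi_zero (s t : A) (hs : ∀ n : N, s • n = 0 → n = 0)
    (ht : ∀ n n' : N, t • n = s • n' → ∃ n'' : N, n = s • n'') (j : ℕ) (f : ℕ → N)
    (h : ∑ i ∈ Finset.range (j + 1), (s ^ i * t ^ (j - i)) • f i = 0) :
    ∀ i ≤ j, f i ∈ (Ideal.span {s, t}) • (⊤ : Submodule A N) := by
  have hmem_s : ∀ n : N, s • n ∈ (Ideal.span {s, t}) • (⊤ : Submodule A N) := fun n =>
    Submodule.smul_mem_smul (Ideal.subset_span (Set.mem_insert _ _)) Submodule.mem_top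
  have hmem_t : ∀ n : N, t • n ∈ (Ideal.span {s, t}) • (⊤ : Submodule A N) := fun n =>
    Submodule.smul_mem_smul (Ideal.subset_span (Set.mem_insert_of_mem _ (Set.mem_singleton _)))
      Submodule.mem_top
  induction j generalizing f with
  | zero =>
    intro i hi
    obtain rfl : i = 0 := Nat.le_zero.1 hi
    rw [zero_add, Finset.sum_range_one, pow_zero, Nat.sub_zero, pow_zero, one_mul, one_smul] at h
    rw [h]
    exact Submodule.zero_mem _
  | succ j ih =>
    rw [Finset.sum_range_succ'] at h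
    have e1 : ∑ i ∈ Finset.range (j + 1), (s ^ (i + 1) * t ^ (j + 1 - (i + 1))) • f (i + 1) =
        s • ∑ i ∈ Finset.range (j + 1), (s ^ i * t ^ (j - i)) • f (i + 1) := by
      rw [Finset.smul_sum]
      apply Finset.sum_congr rfl
      intro i _
      rw [smul_smul, Nat.add_sub_add_right]
      congr 1
      ring
    rw [e1, pow_zero, one_mul, Nat.sub_zero] at h
    have h1 : t ^ (j + 1) • f 0 =
        s • (-∑ i ∈ Finset.range (j + 1), (s ^ i * t ^ (j - i)) • f (i + 1)) := by
      rw [smul_neg]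
      exact eq_neg_of_add_eq_zero_right h
    obtain ⟨n', hn'⟩ := auxQZ_iter s t ht (j + 1) _ _ h1
    have h2 : ∑ i ∈ Finset.range (j + 1), (s ^ i * t ^ (j - i)) • f (i + 1) +
        t ^ (j + 1) • n' = 0 := by
      apply hs
      rw [smul_add, smul_comm s (t ^ (j + 1)) n', ← hn']
      exact h
    have h3 : ∑ i ∈ Finset.range (j + 1), (s ^ i * t ^ (j - i)) •
        (f (i + 1) + if i = 0 then t • n' else 0) = 0 := by
      simp only [smul_add]
      rw [Finset.sum_add_distrib]
      have h4 : ∑ i ∈ Finset.range (j + 1), (s ^ i * t ^ (j - i)) • (if i = 0 then t • n' else (0 : N)) =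
          t ^ (j + 1) • n' := by
        rw [Finset.sum_eq_single 0]
        · rw [if_pos rfl, pow_zero, one_mul, Nat.sub_zero, smul_smul, pow_succ]
        · intro i _ hi
          rw [if_neg hi, smul_zero]
        · intro hn
          exact absurd (Finset.mem_range.2 (Nat.succ_pos j)) hn
      rw [h4]
      exact h2
    have h5 := ih (fun i => f (i + 1) + if i = 0 then t • n' else 0) h3
    intro i hi
    rcases i with _ | i
    · rw [hn']
      exact hmem_s n'
    · have h6 := h5 i (by omega)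
      by_cases hi0 : i = 0
      · rw [if_pos hi0] at h6
        have h7 := Submodule.sub_mem _ h6 (hmem_t n')
        rwa [add_sub_cancel_right] at h7
      · rw [if_neg hi0, add_zero] at h6
        exact h6

theorem auxQM_pair (s t : A) (L : Submodule A N) (x : N)
    (hx : x ∈ (Ideal.span {s, t}) • L) : ∃ y ∈ L, ∃ z ∈ L, x = s • y + t • z := by
  rw [Ideal.span_insert, Submodule.sup_smul, Submodule.ideal_span_singleton_smul,
    Submodule.ideal_span_singleton_smul, Submodule.mem_sup] at hx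
  obtain ⟨y, hy, z, hz, rfl⟩ := hx
  obtain ⟨y', hy', rfl⟩ := hy
  obtain ⟨z', hz', rfl⟩ := hz
  exact ⟨y', hy', z', hz', rfl⟩

theorem auxQM_pow (s t : A) (L : Submodule A N) (j : ℕ) :
    ∀ x ∈ (Ideal.span {s, t}) ^ j • L, ∃ g : ℕ → N, (∀ i, g i ∈ L) ∧
      x = ∑ i ∈ Finset.range (j + 1), (s ^ i * t ^ (j - i)) • g i := by
  induction j with
  | zero =>
    intro x hx
    rw [pow_zero, Ideal.one_eq_top, Submodule.top_smul] at hx
    exact ⟨fun _ => x, fun _ => hx, by simp⟩
  | succ j ih =>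
    intro x hx
    have e : (Ideal.span {s, t}) ^ (j + 1) • L =
        (Ideal.span {s, t}) • ((Ideal.span {s, t}) ^ j • L) := by
      rw [pow_succ', Submodule.mul_smul]
    rw [e] at hx
    obtain ⟨y, hy, z, hz, rfl⟩ := auxQM_pair s t _ x hx
    obtain ⟨g, hg, rfl⟩ := ih y hy
    obtain ⟨h, hh, rfl⟩ := ih z hz
    refine ⟨fun i => (if i = 0 then 0 else g (i - 1)) + (if i ≤ j then h i else 0), ?_, ?_⟩
    · intro i
      apply L.add_mem
      · split_ifs
        · exact L.zero_mem
        · exact hg _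
      · split_ifs
        · exact hh _
        · exact L.zero_mem
    · simp only [smul_add, Finset.sum_add_distrib]
      congr 1
      · rw [Finset.sum_range_succ' _ (j + 1), if_pos rfl, smul_zero, add_zero, Finset.smul_sum]
        refine Finset.sum_congr rfl (fun i _ => ?_)
        rw [if_neg (Nat.succ_ne_zero i), Nat.add_sub_cancel, smul_smul,
          show j + 1 - (i + 1) = j - i by omega]
        congr 1
        ring
      · rw [Finset.sum_range_succ _ (j + 1), if_neg (by omega), smul_zero, add_zero, Finset.smul_sum]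
        refine Finset.sum_congr rfl (fun i hi => ?_)
        have hi' := Finset.mem_range.mp hi
        rw [if_pos (by omega), smul_smul, show j + 1 - i = (j - i) + 1 by omega]
        congr 1
        ring

theorem quasi_mem (s t : A) (hs : ∀ n : N, s • n = 0 → n = 0)
    (ht : ∀ n n' : N, t • n = s • n' → ∃ n'' : N, n = s • n'') (j : ℕ) (f : ℕ → N)
    (h : ∑ i ∈ Finset.range (j + 1), (s ^ i * t ^ (j - i)) • f i ∈
      (Ideal.span {s, t}) ^ (j + 1) • (⊤ : Submodule A N)) :
    ∀ i ≤ j, f i ∈ (Ideal.span {s, t}) • (⊤ : Submodule A N) := by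
  have e : (Ideal.span {s, t}) ^ (j + 1) • (⊤ : Submodule A N) =
      (Ideal.span {s, t}) ^ j • ((Ideal.span {s, t}) • (⊤ : Submodule A N)) := by
    rw [pow_succ, Submodule.mul_smul]
  rw [e] at h
  obtain ⟨g, hg, hgs⟩ := auxQM_pow s t _ j _ h
  have h0 : ∑ i ∈ Finset.range (j + 1), (s ^ i * t ^ (j - i)) • (f i - g i) = 0 := by
    simp only [smul_sub, Finset.sum_sub_distrib]
    rw [hgs, sub_self]
  intro i hi
  have h1 := quasi_zero s t hs ht j (fun i => f i - g i) h0 i hi
  have h2 := Submodule.add_mem _ h1 (hg i)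
  simpa using h2

variable {k : Type u} [Field k] [Algebra k A] [Module k N] [IsScalarTower k A N]

section auxFP

omit [Algebra k A] [Module k N] [IsScalarTower k A N] in
theorem auxFP_rep (s t : A) (K : ℕ) : ∀ n ∈ (Ideal.span {s, t}) ^ K • (⊤ : Submodule A N),
    ∃ f : ℕ → N, n = ∑ i ∈ Finset.range (K + 1), (s ^ i * t ^ (K - i)) • f i := by
  induction K with
  | zero =>
    intro n _
    exact ⟨fun _ => n, by simp⟩
  | succ K ih =>
    obtain ⟨R, hR⟩ : ∃ R : Submodule A N, ∀ n, n ∈ R ↔ ∃ f : ℕ → N,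
        n = ∑ i ∈ Finset.range (K + 1 + 1), (s ^ i * t ^ (K + 1 - i)) • f i := by
      refine ⟨{ carrier := {n | ∃ f : ℕ → N,
                  n = ∑ i ∈ Finset.range (K + 1 + 1), (s ^ i * t ^ (K + 1 - i)) • f i}
                zero_mem' := ⟨fun _ => 0, by simp⟩
                add_mem' := ?_
                smul_mem' := ?_ }, fun n => Iff.rfl⟩
      · rintro a b ⟨f, hf⟩ ⟨g, hg⟩
        refine ⟨fun i => f i + g i, ?_⟩
        rw [hf, hg, ← Finset.sum_add_distrib]
        refine Finset.sum_congr rfl fun i _ => ?_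
        rw [smul_add]
      · rintro c a ⟨f, hf⟩
        refine ⟨fun i => c • f i, ?_⟩
        rw [hf, Finset.smul_sum]
        refine Finset.sum_congr rfl fun i _ => ?_
        rw [smul_comm]
    have hle : (Ideal.span {s, t}) ^ (K + 1) • (⊤ : Submodule A N) ≤ R := by
      rw [pow_succ', Submodule.mul_smul, Submodule.smul_le]
      intro r hr n hn
      obtain ⟨f, hf⟩ := ih n hn
      obtain ⟨a, b, hab⟩ := Ideal.mem_span_pair.1 hr
      have h1 : s • n ∈ R := by
        rw [hR]
        refine ⟨fun i => Nat.casesOn i 0 f, ?_⟩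
        rw [Finset.sum_range_succ']
        change s • n = ∑ i ∈ Finset.range (K + 1), (s ^ (i + 1) * t ^ (K + 1 - (i + 1))) • f i +
          (s ^ 0 * t ^ (K + 1 - 0)) • (0 : N)
        rw [smul_zero, add_zero, hf, Finset.smul_sum]
        refine Finset.sum_congr rfl fun i _ => ?_
        rw [smul_smul, pow_succ' s i, Nat.add_sub_add_right]
        ring_nf
      have h2 : t • n ∈ R := by
        rw [hR]
        refine ⟨fun i => if i ≤ K then f i else 0, ?_⟩
        rw [Finset.sum_range_succ]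
        change t • n = ∑ i ∈ Finset.range (K + 1), (s ^ i * t ^ (K + 1 - i)) •
          (if i ≤ K then f i else 0) + (s ^ (K + 1) * t ^ (K + 1 - (K + 1))) •
            (if K + 1 ≤ K then f (K + 1) else 0)
        rw [if_neg (by omega), smul_zero, add_zero, hf, Finset.smul_sum]
        refine Finset.sum_congr rfl fun i hi => ?_
        rw [Finset.mem_range] at hi
        rw [if_pos (by omega : i ≤ K), smul_smul]
        have : K + 1 - i = (K - i) + 1 := by omega
        rw [this, pow_succ t]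
        ring_nf
      rw [← hab, add_smul, mul_smul, mul_smul]
      exact R.add_mem (R.smul_mem a h1) (R.smul_mem b h2)
    intro n hn
    exact (hR n).1 (hle hn)

theorem auxFP_mem (s t : A) (K i : ℕ) (hi : i ≤ K) :
    s ^ i * t ^ (K - i) ∈ (Ideal.span {s, t}) ^ K := by
  have h1 : s ∈ Ideal.span {s, t} := Ideal.subset_span (by simp)
  have h2 : t ∈ Ideal.span {s, t} := Ideal.subset_span (by simp)
  have h3 : (Ideal.span {s, t}) ^ K = (Ideal.span {s, t}) ^ i * (Ideal.span {s, t}) ^ (K - i) := by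
    rw [← pow_add]
    congr 1
    omega
  rw [h3]
  exact Ideal.mul_mem_mul (Ideal.pow_mem_pow h1 i) (Ideal.pow_mem_pow h2 _)

theorem auxFP_step (s t : A) (hs : ∀ n : N, s • n = 0 → n = 0)
    (ht : ∀ n n' : N, t • n = s • n' → ∃ n'' : N, n = s • n'') (K : ℕ)
    (L0 L1 L2 : Submodule A N) (hL0 : L0 = (Ideal.span {s, t}) ^ K • (⊤ : Submodule A N))
    (hL1 : L1 = Ideal.span {s, t} • (⊤ : Submodule A N))
    (hL2 : L2 = (Ideal.span {s, t}) ^ (K + 1) • (⊤ : Submodule A N))
    [Module.Finite k (N ⧸ L1)] (hfin : Module.Finite k (N ⧸ L0)) :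
    Module.Finite k (N ⧸ L2) ∧
    Module.finrank k (N ⧸ L2) = Module.finrank k (N ⧸ L0) + (K + 1) * Module.finrank k (N ⧸ L1) := by
  have hmem : ∀ i : Fin (K + 1), ∀ n : N, (s ^ (i : ℕ) * t ^ (K - (i : ℕ))) • n ∈ L0 := by
    intro i n
    rw [hL0]
    exact Submodule.smul_mem_smul (auxFP_mem s t K i (by omega)) Submodule.mem_top
  have hmap : ∀ i : Fin (K + 1), L1 ≤ L2.comap
      (LinearMap.lsmul A N (s ^ (i : ℕ) * t ^ (K - (i : ℕ)))) := by
    intro i
    rw [hL1, Submodule.smul_le]
    intro r hr n _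
    rw [Submodule.mem_comap, LinearMap.lsmul_apply, smul_smul, hL2, pow_succ]
    exact Submodule.smul_mem_smul (Ideal.mul_mem_mul (auxFP_mem s t K i (by omega)) hr)
      Submodule.mem_top
  have hle : L2 ≤ L0 := by
    rw [hL0, hL2]
    exact Submodule.smul_mono_left (Ideal.pow_le_pow_right (Nat.le_succ K))
  obtain ⟨Ψ, hΨ⟩ : ∃ Ψ : (Fin (K + 1) → N ⧸ L1) →ₗ[k] N ⧸ L2, ∀ f : Fin (K + 1) → N,
      Ψ (fun i => Submodule.Quotient.mk (f i)) =
        Submodule.Quotient.mk (∑ i : Fin (K + 1), (s ^ (i : ℕ) * t ^ (K - (i : ℕ))) • f i) := by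
    refine ⟨(∑ i : Fin (K + 1), (Submodule.mapQ L1 L2
      (LinearMap.lsmul A N (s ^ (i : ℕ) * t ^ (K - (i : ℕ)))) (hmap i)).comp
        (LinearMap.proj i)).restrictScalars k, fun f => ?_⟩
    rw [LinearMap.restrictScalars_apply, LinearMap.sum_apply]
    change (∑ i : Fin (K + 1), Submodule.Quotient.mk ((s ^ (i : ℕ) * t ^ (K - (i : ℕ))) • f i)) = _
    rw [← Submodule.mkQ_apply, map_sum]
    rfl
  obtain ⟨q, hq⟩ : ∃ q : (N ⧸ L2) →ₗ[k] N ⧸ L0, ∀ n : N,
      q (Submodule.Quotient.mk n) = Submodule.Quotient.mk n :=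
    ⟨(Submodule.mapQ L2 L0 LinearMap.id hle).restrictScalars k, fun n => rfl⟩
  have hqs : Function.Surjective q := by
    intro y
    obtain ⟨n, rfl⟩ := Submodule.Quotient.mk_surjective _ y
    exact ⟨Submodule.Quotient.mk n, hq n⟩
  have hrep : ∀ g : Fin (K + 1) → N ⧸ L1, ∃ f : Fin (K + 1) → N,
      g = fun i => Submodule.Quotient.mk (f i) := by
    intro g
    choose f hf using fun i => Submodule.Quotient.mk_surjective _ (g i)
    exact ⟨f, funext fun i => (hf i).symm⟩
  have hinj : Function.Injective Ψ := by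
    rw [← LinearMap.ker_eq_bot, LinearMap.ker_eq_bot']
    intro g hg
    obtain ⟨f, rfl⟩ := hrep g
    rw [hΨ, Submodule.Quotient.mk_eq_zero, hL2] at hg
    obtain ⟨f', hf'⟩ : ∃ f' : ℕ → N, ∀ i : Fin (K + 1), f' i = f i :=
      ⟨fun i => if h : i < K + 1 then f ⟨i, h⟩ else 0, fun i => dif_pos i.2⟩
    have h1 := quasi_mem s t hs ht K f' (by
      rw [Finset.sum_range (fun i => (s ^ i * t ^ (K - i)) • f' i)]
      simp only [hf']
      exact hg)
    funext i
    have h2 := h1 i (by omega)
    rw [hf', ← hL1] at h2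
    exact (Submodule.Quotient.mk_eq_zero L1).2 h2
  have hrange : LinearMap.range Ψ = LinearMap.ker q := by
    ext x
    constructor
    · rintro ⟨g, rfl⟩
      obtain ⟨f, rfl⟩ := hrep g
      rw [LinearMap.mem_ker, hΨ, hq, Submodule.Quotient.mk_eq_zero]
      exact Submodule.sum_mem _ fun i _ => hmem i (f i)
    · intro hx
      obtain ⟨n, rfl⟩ := Submodule.Quotient.mk_surjective _ x
      rw [LinearMap.mem_ker, hq, Submodule.Quotient.mk_eq_zero, hL0] at hx
      obtain ⟨f, hf⟩ := auxFP_rep s t K n hx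
      refine ⟨fun i => Submodule.Quotient.mk (f i), ?_⟩
      rw [hΨ (fun i : Fin (K + 1) => f i), hf, Finset.sum_range]
  have hfinker : Module.Finite k (LinearMap.ker q) := by
    rw [← hrange]
    infer_instance
  have hfinquot : Module.Finite k ((N ⧸ L2) ⧸ LinearMap.ker q) :=
    Module.Finite.equiv (q.quotKerEquivOfSurjective hqs).symm
  have hfin2 : Module.Finite k (N ⧸ L2) := Module.Finite.of_submodule_quotient (LinearMap.ker q)
  refine ⟨hfin2, ?_⟩
  have h1 := LinearMap.finrank_range_add_finrank_ker q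
  have h2 : Module.finrank k (LinearMap.range q) = Module.finrank k (N ⧸ L0) := by
    rw [LinearMap.range_eq_top.2 hqs, finrank_top]
  have h3 : Module.finrank k (LinearMap.ker q) = (K + 1) * Module.finrank k (N ⧸ L1) := by
    rw [← hrange, LinearMap.finrank_range_of_inj hinj, Module.finrank_pi_fintype,
      Finset.sum_const, Finset.card_univ, Fintype.card_fin, smul_eq_mul]
  rw [h2, h3] at h1
  exact h1.symm

theorem auxFP_zero (L : Submodule A N) (hL : L = ⊤) :
    Module.Finite k (N ⧸ L) ∧ Module.finrank k (N ⧸ L) = 0 := by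
  subst hL
  have : Subsingleton (N ⧸ (⊤ : Submodule A N)) := Submodule.Quotient.subsingleton_iff.2 rfl
  exact ⟨inferInstance, Module.finrank_zero_of_subsingleton⟩

end auxFP

/-- colength of `(s,t)^K` -/
theorem finrank_pow (s t : A) (hs : ∀ n : N, s • n = 0 → n = 0)
    (ht : ∀ n n' : N, t • n = s • n' → ∃ n'' : N, n = s • n'')
    [Module.Finite k (N ⧸ (Ideal.span {s, t} • (⊤ : Submodule A N)))] (K : ℕ) :
    Module.Finite k (N ⧸ ((Ideal.span {s, t}) ^ K • (⊤ : Submodule A N))) ∧
    Module.finrank k (N ⧸ ((Ideal.span {s, t}) ^ K • (⊤ : Submodule A N))) =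
      Module.finrank k (N ⧸ (Ideal.span {s, t} • (⊤ : Submodule A N))) * (K * (K + 1) / 2) := by
  induction K with
  | zero =>
    have h := auxFP_zero (k := k) ((Ideal.span {s, t}) ^ 0 • (⊤ : Submodule A N))
      (by rw [pow_zero, Ideal.one_eq_top, Submodule.top_smul])
    refine ⟨h.1, ?_⟩
    rw [h.2]
    simp
  | succ K ih =>
    obtain ⟨h1, h2⟩ := auxFP_step (k := k) s t hs ht K _ _ _ rfl rfl rfl ih.1
    refine ⟨h1, ?_⟩
    rw [h2, ih.2]
    have h3 : (K + 1) * (K + 1 + 1) / 2 = K * (K + 1) / 2 + (K + 1) := by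
      have : (K + 1) * (K + 1 + 1) = K * (K + 1) + 2 * (K + 1) := by ring
      rw [this, Nat.add_mul_div_left _ _ (by norm_num)]
    rw [h3]
    ring

/-- elements of `N ⧸ (s,t) N` killed by all `a i`, `i ≤ K` -/
def annSub (k : Type u) [Field k] (N : Type w) [AddCommGroup N] [Module A N] [Algebra k A]
    [Module k N] [IsScalarTower k A N] (s t : A) (K : ℕ) (a : ℕ → A) :
    Submodule k (N ⧸ (Ideal.span {s, t} • (⊤ : Submodule A N))) where
  carrier := {ν | ∀ i ≤ K, a i • ν = 0}
  add_mem' := by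
    intro x y hx hy i hi
    rw [smul_add, hx i hi, hy i hi, add_zero]
  zero_mem' := by
    intro i _
    exact smul_zero _
  smul_mem' := by
    intro c x hx i hi
    have h1 : c • x = (algebraMap k A c) • x := by
      rw [algebraMap_smul]
    rw [h1, smul_smul, mul_comm, ← smul_smul, hx i hi, smul_zero]

/-- the ideal `(s,t)^(K+1) + (∑ a_i s^i t^(K-i))` -/
def idl (s t : A) (K : ℕ) (a : ℕ → A) : Ideal A :=
  (Ideal.span {s, t}) ^ (K + 1) ⊔
    Ideal.span {∑ i ∈ Finset.range (K + 1), a i * (s ^ i * t ^ (K - i))}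

/-- main colength formula -/
theorem finrank_idl (s t : A) (hs : ∀ n : N, s • n = 0 → n = 0)
    (ht : ∀ n n' : N, t • n = s • n' → ∃ n'' : N, n = s • n'')
    [Module.Finite k (N ⧸ (Ideal.span {s, t} • (⊤ : Submodule A N)))] (K : ℕ) (a : ℕ → A) :
    Module.Finite k (N ⧸ (idl s t K a • (⊤ : Submodule A N))) ∧
    Module.finrank k (N ⧸ (idl s t K a • (⊤ : Submodule A N))) +
        Module.finrank k (N ⧸ (Ideal.span {s, t} • (⊤ : Submodule A N))) =
      Module.finrank k (N ⧸ (Ideal.span {s, t} • (⊤ : Submodule A N))) * ((K + 1) * (K + 2) / 2) +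
        Module.finrank k (annSub k N s t K a) := by
  classical
  obtain ⟨hfin, hfr⟩ := finrank_pow (k := k) (N := N) s t hs ht (K + 1)
  have hsp : s ∈ Ideal.span {s, t} := Ideal.subset_span (by simp)
  have htp : t ∈ Ideal.span {s, t} := Ideal.subset_span (by simp)
  have hmon : ∀ i ≤ K, s ^ i * t ^ (K - i) ∈ Ideal.span {s, t} ^ K := by
    intro i hi
    have h1 : s ^ i * t ^ (K - i) ∈ Ideal.span {s, t} ^ (i + (K - i)) := by
      rw [pow_add]
      exact Ideal.mul_mem_mul (Ideal.pow_mem_pow hsp i) (Ideal.pow_mem_pow htp (K - i))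
    rwa [Nat.add_sub_cancel' hi] at h1
  obtain ⟨g, hg⟩ : ∃ g : A, g = ∑ i ∈ Finset.range (K + 1), a i * (s ^ i * t ^ (K - i)) := ⟨_, rfl⟩
  have hgK : g ∈ Ideal.span {s, t} ^ K := by
    rw [hg]
    refine Ideal.sum_mem _ fun i hi => Ideal.mul_mem_left _ _ (hmon i ?_)
    rw [Finset.mem_range] at hi
    omega
  have hgn : ∀ n : N, g • n = ∑ i ∈ Finset.range (K + 1), (s ^ i * t ^ (K - i)) • (a i • n) := by
    intro n
    rw [hg, Finset.sum_smul]
    refine Finset.sum_congr rfl fun i _ => ?_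
    rw [smul_smul, mul_comm]
  have hI : idl s t K a • (⊤ : Submodule A N) =
      (Ideal.span {s, t}) ^ (K + 1) • (⊤ : Submodule A N) ⊔ g • (⊤ : Submodule A N) := by
    rw [idl, ← hg, Submodule.sup_smul, Submodule.ideal_span_singleton_smul]
  have h1 : (Ideal.span {s, t} • (⊤ : Submodule A N)) ≤
      Submodule.comap (LinearMap.lsmul A N g) ((Ideal.span {s, t}) ^ (K + 1) • (⊤ : Submodule A N)) := by
    rw [Submodule.smul_le]
    intro r hr n _
    change g • (r • n) ∈ (Ideal.span {s, t}) ^ (K + 1) • (⊤ : Submodule A N)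
    rw [smul_smul]
    refine Submodule.smul_mem_smul ?_ trivial
    rw [pow_succ]
    exact Ideal.mul_mem_mul hgK hr
  have h2 : (Ideal.span {s, t}) ^ (K + 1) • (⊤ : Submodule A N) ≤ idl s t K a • (⊤ : Submodule A N) := by
    rw [hI]
    exact le_sup_left
  obtain ⟨ψ, hψ⟩ : ∃ ψ : (N ⧸ (Ideal.span {s, t} • (⊤ : Submodule A N))) →ₗ[k]
      (N ⧸ ((Ideal.span {s, t}) ^ (K + 1) • (⊤ : Submodule A N))),
      ∀ n : N, ψ (Submodule.Quotient.mk n) = Submodule.Quotient.mk (g • n) :=
    ⟨(Submodule.mapQ _ _ (LinearMap.lsmul A N g) h1).restrictScalars k, fun n => rfl⟩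
  obtain ⟨π, hπ⟩ : ∃ π : (N ⧸ ((Ideal.span {s, t}) ^ (K + 1) • (⊤ : Submodule A N))) →ₗ[k]
      (N ⧸ (idl s t K a • (⊤ : Submodule A N))),
      ∀ n : N, π (Submodule.Quotient.mk n) = Submodule.Quotient.mk n :=
    ⟨(Submodule.mapQ _ _ (LinearMap.id) h2).restrictScalars k, fun n => rfl⟩
  have hker : LinearMap.ker ψ = annSub k N s t K a := by
    ext x
    obtain ⟨n, rfl⟩ := Submodule.Quotient.mk_surjective _ x
    rw [LinearMap.mem_ker, hψ, Submodule.Quotient.mk_eq_zero]
    have e : (Submodule.Quotient.mk n ∈ annSub k N s t K a) ↔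
        ∀ i ≤ K, a i • n ∈ Ideal.span {s, t} • (⊤ : Submodule A N) := by
      change (∀ i ≤ K, a i • (Submodule.Quotient.mk n :
        N ⧸ (Ideal.span {s, t} • (⊤ : Submodule A N))) = 0) ↔ _
      refine forall_congr' fun i => forall_congr' fun _ => ?_
      rw [← Submodule.Quotient.mk_smul, Submodule.Quotient.mk_eq_zero]
    rw [e, hgn]
    constructor
    · intro h
      exact quasi_mem s t hs ht K (fun i => a i • n) h
    · intro h
      refine Submodule.sum_mem _ fun i hi => ?_
      have hi' : i ≤ K := by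
        rw [Finset.mem_range] at hi
        omega
      rw [pow_succ, ← Ideal.smul_eq_mul, Submodule.smul_assoc]
      exact Submodule.smul_mem_smul (hmon i hi') (h i hi')
  have hran : LinearMap.ker π = LinearMap.range ψ := by
    ext x
    obtain ⟨n, rfl⟩ := Submodule.Quotient.mk_surjective _ x
    rw [LinearMap.mem_ker, hπ, Submodule.Quotient.mk_eq_zero, hI, Submodule.mem_sup]
    constructor
    · rintro ⟨l, hl, m, hm, rfl⟩
      rw [Submodule.mem_smul_pointwise_iff_exists] at hm
      obtain ⟨m', _, rfl⟩ := hm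
      refine ⟨Submodule.Quotient.mk m', ?_⟩
      rw [hψ, Submodule.Quotient.mk_add, (Submodule.Quotient.mk_eq_zero _).2 hl, zero_add]
    · rintro ⟨y, hy⟩
      obtain ⟨m, rfl⟩ := Submodule.Quotient.mk_surjective _ y
      rw [hψ, eq_comm, Submodule.Quotient.eq] at hy
      exact ⟨n - g • m, hy, g • m, Submodule.smul_mem_pointwise_smul _ _ _ trivial, by abel⟩
  have hsurj : Function.Surjective π := by
    intro x
    obtain ⟨n, rfl⟩ := Submodule.Quotient.mk_surjective _ x
    exact ⟨_, hπ n⟩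
  refine ⟨Module.Finite.of_surjective π hsurj, ?_⟩
  have r1 := LinearMap.finrank_range_add_finrank_ker ψ
  have r2 := LinearMap.finrank_range_add_finrank_ker π
  rw [LinearMap.range_eq_top.2 hsurj, finrank_top, hran, hfr] at r2
  rw [hker] at r1
  have e3 : (K + 1) * (K + 1 + 1) / 2 = (K + 1) * (K + 2) / 2 := rfl
  rw [e3] at r2
  omega

end regular

section noether

variable {k : Type u} [Field k] {A : Type v} [CommRing A] [Algebra k A]

theorem auxNN_dim {R S : Type*} [CommRing R] [CommRing S] [Algebra R S] [Algebra.IsIntegral R S]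
    (hinj : Function.Injective (algebraMap R S)) : ringKrullDim R = ringKrullDim S := by
  apply le_antisymm
  · unfold ringKrullDim Order.krullDim
    apply iSup_le
    intro l
    obtain ⟨P, -, hP, hPo⟩ := Ideal.exists_ideal_over_prime_of_isIntegral (S := S)
      (RelSeries.head l).asIdeal (⊥ : Ideal S)
      (by
        intro x hx
        have : algebraMap R S x = 0 := hx
        have hx0 : x = 0 := hinj (by rw [this, map_zero])
        rw [hx0]
        exact Ideal.zero_mem _)
    haveI := hP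
    haveI : P.LiesOver (RelSeries.head l).asIdeal := ⟨hPo.symm⟩
    obtain ⟨L, hL, -⟩ := Ideal.exists_ltSeries_of_hasGoingUp l P
    calc ((l.length : ℕ) : WithBot ℕ∞) = ((L.length : ℕ) : WithBot ℕ∞) := by rw [hL]
      _ ≤ _ := le_iSup (fun p : LTSeries (PrimeSpectrum S) => ((p.length : ℕ) : WithBot ℕ∞)) L
  · apply Order.krullDim_le_of_strictMono (PrimeSpectrum.comap (algebraMap R S))
    intro I J hIJ
    exact Ideal.IsIntegral.comap_lt_comap hIJ

/-- Noether normalisation adapted to a closed point of a surface -/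
theorem exists_noether [IsAlgClosed k] [IsDomain A] [Algebra.FiniteType k A]
    (hdim : ringKrullDim A = 2) (M : Ideal A) (hM : M.IsMaximal) :
    ∃ g : MvPolynomial (Fin 2) k →ₐ[k] A, Function.Injective g ∧ g.Finite ∧
      g (MvPolynomial.X 0) ∈ M ∧ g (MvPolynomial.X 1) ∈ M := by
  obtain ⟨s, g0, hinj, hfin⟩ := exists_finite_inj_algHom_of_fg k A
  have hs : s = 2 := by
    letI := g0.toRingHom.toAlgebra
    haveI : Module.Finite (MvPolynomial (Fin s) k) A := hfin
    have h1 := auxNN_dim (R := MvPolynomial (Fin s) k) (S := A) hinj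
    rw [hdim, MvPolynomial.ringKrullDim_of_isNoetherianRing] at h1
    simp only [ringKrullDim_eq_zero_of_field, zero_add, Nat.card_eq_fintype_card,
      Fintype.card_fin] at h1
    exact_mod_cast h1
  subst hs
  have hc : ∀ a : A, ∃ c : k, a - algebraMap k A c ∈ M := by
    intro a
    letI : Field (A ⧸ M) := Ideal.Quotient.field M
    haveI : Module.Finite k (A ⧸ M) := finite_of_finite_type_of_isJacobsonRing k (A ⧸ M)
    have hb := IsAlgClosed.algebraMap_bijective_of_isIntegral (k := k) (K := A ⧸ M)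
    obtain ⟨c, hc⟩ := hb.2 (Ideal.Quotient.mk M a)
    refine ⟨c, ?_⟩
    rw [← Ideal.Quotient.eq, ← hc]
    rfl
  obtain ⟨c0, hc0⟩ := hc (g0 (MvPolynomial.X 0))
  obtain ⟨c1, hc1⟩ := hc (g0 (MvPolynomial.X 1))
  let c : Fin 2 → k := ![c0, c1]
  let τ : MvPolynomial (Fin 2) k →ₐ[k] MvPolynomial (Fin 2) k :=
    MvPolynomial.aeval (fun i => MvPolynomial.X i - MvPolynomial.C (c i))
  let σ : MvPolynomial (Fin 2) k →ₐ[k] MvPolynomial (Fin 2) k :=
    MvPolynomial.aeval (fun i => MvPolynomial.X i + MvPolynomial.C (c i))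
  have h1 : τ.comp σ = AlgHom.id k _ := by
    apply MvPolynomial.algHom_ext
    intro i
    simp [τ, σ]
  have h2 : σ.comp τ = AlgHom.id k _ := by
    apply MvPolynomial.algHom_ext
    intro i
    simp [τ, σ]
  have hτi : Function.Injective τ := by
    intro x y hxy
    have h3 := congrArg σ hxy
    have h4 : ∀ z, σ (τ z) = z := fun z => DFunLike.congr_fun h2 z
    rwa [h4, h4] at h3
  have hτs : Function.Surjective τ := fun y => ⟨σ y, DFunLike.congr_fun h1 y⟩
  refine ⟨g0.comp τ, hinj.comp hτi, hfin.comp (AlgHom.Finite.of_surjective _ hτs), ?_, ?_⟩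
  · have : (g0.comp τ) (MvPolynomial.X 0) = g0 (MvPolynomial.X 0) - algebraMap k A c0 := by
      simp [τ, c, ← MvPolynomial.algebraMap_eq]
    rw [this]
    exact hc0
  · have : (g0.comp τ) (MvPolynomial.X 1) = g0 (MvPolynomial.X 1) - algebraMap k A c1 := by
      simp [τ, c, ← MvPolynomial.algebraMap_eq]
    rw [this]
    exact hc1

end noether

section dual

variable {k : Type u} [Field k] {A : Type v} [CommRing A] [Algebra k A]

/-- polynomial ring in two variables -/
abbrev P (k : Type u) [Field k] := MvPolynomial (Fin 2) k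

variable [Algebra (P k) A] [IsScalarTower k (P k) A]

variable (k A) in
/-- the dualising module `Hom_P (A, P)` -/
def Om : Type (max u v) := A →ₗ[P k] P k

instance : AddCommGroup (Om k A) := inferInstanceAs (AddCommGroup (A →ₗ[P k] P k))

instance : Module k (Om k A) := inferInstanceAs (Module k (A →ₗ[P k] P k))

instance : Module A (Om k A) where
  smul a f := (show A →ₗ[P k] P k from f) ∘ₗ (LinearMap.mulLeft (P k) a)
  one_smul f := by
    refine LinearMap.ext fun x => ?_
    change (show A →ₗ[P k] P k from f) (1 * x) = (show A →ₗ[P k] P k from f) x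
    rw [one_mul]
  mul_smul a b f := by
    refine LinearMap.ext fun x => ?_
    change (show A →ₗ[P k] P k from f) (a * b * x) = (show A →ₗ[P k] P k from f) (b * (a * x))
    rw [mul_comm a b, mul_assoc]
  smul_zero a := rfl
  smul_add a f g := rfl
  add_smul a b f := by
    refine LinearMap.ext fun x => ?_
    change (show A →ₗ[P k] P k from f) ((a + b) * x) =
      (show A →ₗ[P k] P k from f) (a * x) + (show A →ₗ[P k] P k from f) (b * x)
    rw [add_mul, map_add]
  zero_smul f := by
    refine LinearMap.ext fun x => ?_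
    change (show A →ₗ[P k] P k from f) (0 * x) = 0
    rw [zero_mul, map_zero]

/-- evaluation -/
def Om.ev (f : Om k A) (x : A) : P k := (show A →ₗ[P k] P k from f) x

lemma Om.ext {f g : Om k A} (h : ∀ x, f.ev x = g.ev x) : f = g := LinearMap.ext h

lemma Om.smul_ev (a : A) (f : Om k A) (x : A) : (a • f).ev x = f.ev (a * x) := rfl

instance : IsScalarTower k A (Om k A) := by
  constructor
  intro c a f
  apply Om.ext
  intro x
  have h1 : (c • (a • f)).ev x = c • ((a • f).ev x) := rfl
  rw [Om.smul_ev, h1, Om.smul_ev, smul_mul_assoc]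
  have h2 : c • (a * x) = (algebraMap k (P k) c) • (a * x) := by
    rw [algebraMap_smul]
  have h3 : f.ev ((algebraMap k (P k) c) • (a * x)) = (algebraMap k (P k) c) • f.ev (a * x) :=
    LinearMap.map_smul (show A →ₗ[P k] P k from f) _ _
  rw [h2, h3, algebraMap_smul]

variable (k A) in
/-- the ideal generated by the two variables -/
def auxLB_I : Ideal A := Ideal.span {algebraMap (P k) A (MvPolynomial.X 0),
        algebraMap (P k) A (MvPolynomial.X 1)}

lemma auxLB_X_mem (i : Fin 2) : algebraMap (P k) A (MvPolynomial.X i) ∈ auxLB_I k A := by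
  rcases Fin.exists_fin_two.1 ⟨i, rfl⟩ with h | h
  · rw [h]; exact Ideal.subset_span (Set.mem_insert _ _)
  · rw [h]; exact Ideal.subset_span (Set.mem_insert_of_mem _ (Set.mem_singleton _))

lemma auxLB_C (c : k) : algebraMap (P k) A (MvPolynomial.C c) = algebraMap k A c :=
  (IsScalarTower.algebraMap_apply k (P k) A c).symm

lemma auxLB_Csmul (c : k) (a : A) : c • a = (MvPolynomial.C c : P k) • a := by
  rw [Algebra.smul_def c a, Algebra.smul_def (MvPolynomial.C c : P k) a, auxLB_C]

lemma auxLB_const (p : P k) : algebraMap (P k) A p -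
    algebraMap k A (MvPolynomial.constantCoeff p) ∈ auxLB_I k A := by
  induction p using MvPolynomial.induction_on with
  | C a =>
    rw [MvPolynomial.constantCoeff_C, auxLB_C, sub_self]
    exact Submodule.zero_mem _
  | add p q hp hq =>
    rw [map_add, map_add, map_add, add_sub_add_comm]
    exact Ideal.add_mem _ hp hq
  | mul_X p i hp =>
    rw [map_mul, map_mul, MvPolynomial.constantCoeff_X, mul_zero, map_zero, sub_zero]
    exact Ideal.mul_mem_left _ _ (auxLB_X_mem i)

lemma auxLB_smul (p : P k) (a : A) :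
    (Submodule.Quotient.mk (p • a) : A ⧸ (auxLB_I k A • (⊤ : Submodule A A))) =
      (MvPolynomial.constantCoeff p) •
        (Submodule.Quotient.mk a : A ⧸ (auxLB_I k A • (⊤ : Submodule A A))) := by
  rw [← Submodule.Quotient.mk_smul, Submodule.Quotient.eq]
  have h : p • a - (MvPolynomial.constantCoeff p) • a = (algebraMap (P k) A p -
      algebraMap k A (MvPolynomial.constantCoeff p)) • a := by
    rw [sub_smul, algebraMap_smul, algebraMap_smul]
  rw [h]
  exact Submodule.smul_mem_smul (auxLB_const p) Submodule.mem_top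

lemma auxLB_fin [Module.Finite (P k) A] :
    Module.Finite k (A ⧸ (auxLB_I k A • (⊤ : Submodule A A))) := by
  classical
  obtain ⟨S, hS⟩ := Module.Finite.fg_top (R := P k) (M := A)
  refine ⟨⟨S.image (fun a => (Submodule.Quotient.mk a :
    A ⧸ (auxLB_I k A • (⊤ : Submodule A A)))), ?_⟩⟩
  rw [eq_top_iff]
  rintro x -
  obtain ⟨a, rfl⟩ := Submodule.Quotient.mk_surjective _ x
  have ha : a ∈ Submodule.span (P k) (S : Set A) := by rw [hS]; exact Submodule.mem_top
  induction ha using Submodule.span_induction with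
  | mem a ha =>
    refine Submodule.subset_span ?_
    rw [Finset.coe_image]
    exact ⟨a, ha, rfl⟩
  | zero => exact Submodule.zero_mem _
  | add a b _ _ ha hb =>
    rw [Submodule.Quotient.mk_add]
    exact Submodule.add_mem _ ha hb
  | smul p a _ ha =>
    rw [auxLB_smul]
    exact Submodule.smul_mem _ _ ha

/-- membership in the ideal in terms of the polynomial ring -/
lemma auxLB_mem {x : A} (hx : x ∈ auxLB_I k A • (⊤ : Submodule A A)) :
    x ∈ (Ideal.span {MvPolynomial.X 0, MvPolynomial.X 1} : Ideal (P k)) •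
      (⊤ : Submodule (P k) A) := by
  have hx' : x ∈ auxLB_I k A := by
    rw [smul_eq_mul, Ideal.mul_top] at hx
    exact hx
  obtain ⟨a, b, rfl⟩ := Ideal.mem_span_pair.1 hx'
  refine Submodule.add_mem _ ?_ ?_
  · rw [mul_comm, ← Algebra.smul_def]
    exact Submodule.smul_mem_smul (Ideal.subset_span (Set.mem_insert _ _)) Submodule.mem_top
  · rw [mul_comm, ← Algebra.smul_def]
    exact Submodule.smul_mem_smul (Ideal.subset_span (Set.mem_insert_of_mem _
      (Set.mem_singleton _))) Submodule.mem_top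

lemma auxLB_high (r : P k) (j : ℕ)
    (hr : ∀ m : Fin 2 →₀ ℕ, m 0 + m 1 ≤ j → MvPolynomial.coeff m r = 0) :
    algebraMap (P k) A r ∈ (auxLB_I k A) ^ (j + 1) := by
  rw [MvPolynomial.as_sum r, map_sum]
  refine Ideal.sum_mem _ fun m hm => ?_
  have hm' : MvPolynomial.coeff m r ≠ 0 := MvPolynomial.mem_support_iff.1 hm
  have hdeg : j + 1 ≤ m 0 + m 1 := by
    by_contra h
    exact hm' (hr m (by omega))
  rw [MvPolynomial.monomial_eq, Finsupp.prod_fintype _ _ (fun i => pow_zero _), Fin.prod_univ_two,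
    map_mul, map_mul, map_pow, map_pow]
  refine Ideal.mul_mem_left _ _ ?_
  refine Ideal.pow_le_pow_right hdeg ?_
  rw [pow_add]
  exact Ideal.mul_mem_mul (Ideal.pow_mem_pow (auxLB_X_mem 0) _)
    (Ideal.pow_mem_pow (auxLB_X_mem 1) _)

/-- the exponent `(l, j - l)` -/
def auxLB_m (j l : ℕ) : Fin 2 →₀ ℕ := Finsupp.single 0 l + Finsupp.single 1 (j - l)

lemma auxLB_m0 (j l : ℕ) : auxLB_m j l 0 = l := by simp [auxLB_m]

lemma auxLB_m1 (j l : ℕ) : auxLB_m j l 1 = j - l := by simp [auxLB_m]

lemma auxLB_m_eq (j : ℕ) (m : Fin 2 →₀ ℕ) (h : m 0 + m 1 = j) : auxLB_m j (m 0) = m := by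
  ext i
  rcases Fin.exists_fin_two.1 ⟨i, rfl⟩ with h1 | h1
  · rw [h1, auxLB_m0]
  · rw [h1, auxLB_m1]; omega

/-- the homogeneous part of degree `j` -/
def auxLB_q (j : ℕ) (p : P k) : P k :=
  ∑ l ∈ Finset.range (j + 1), MvPolynomial.monomial (auxLB_m j l) (MvPolynomial.coeff (auxLB_m j l) p)

lemma auxLB_q_coeff (j : ℕ) (p : P k) (hp : ∀ m : Fin 2 →₀ ℕ, m 0 + m 1 < j →
    MvPolynomial.coeff m p = 0) (m : Fin 2 →₀ ℕ) (hm : m 0 + m 1 ≤ j) :
    MvPolynomial.coeff m (p - auxLB_q j p) = 0 := by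
  rw [MvPolynomial.coeff_sub, auxLB_q, MvPolynomial.coeff_sum]
  rcases hm.lt_or_eq with h | h
  · rw [hp m h, Finset.sum_eq_zero, sub_zero]
    intro l hl
    have hl' := Finset.mem_range.1 hl
    rw [MvPolynomial.coeff_monomial, if_neg]
    intro he
    rw [← he, auxLB_m0, auxLB_m1] at h
    omega
  · rw [Finset.sum_eq_single (m 0)]
    · rw [auxLB_m_eq j m h, MvPolynomial.coeff_monomial, if_pos rfl, sub_self]
    · intro l _ hne
      rw [MvPolynomial.coeff_monomial, if_neg]
      intro he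
      apply hne
      rw [← he, auxLB_m0]
    · intro hn
      exact absurd (Finset.mem_range.2 (by omega)) hn

lemma auxLB_q_map (j : ℕ) (p : P k) : algebraMap (P k) A (auxLB_q j p) =
    ∑ l ∈ Finset.range (j + 1), algebraMap k A (MvPolynomial.coeff (auxLB_m j l) p) *
      (algebraMap (P k) A (MvPolynomial.X 0) ^ l *
        algebraMap (P k) A (MvPolynomial.X 1) ^ (j - l)) := by
  rw [auxLB_q, map_sum]
  refine Finset.sum_congr rfl fun l _ => ?_
  rw [MvPolynomial.monomial_eq, Finsupp.prod_fintype _ _ (fun i => pow_zero _), Fin.prod_univ_two,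
    map_mul, map_mul, map_pow, map_pow, auxLB_C, auxLB_m0, auxLB_m1]

/-- elements `e i` whose images are a basis of `A ⧸ (s,t)` are a basis of `A` locally at the
origin -/
theorem exists_local_basis [Module.Finite (P k) A]
    (hs : ∀ n : A, algebraMap (P k) A (MvPolynomial.X 0) • n = 0 → n = 0)
    (ht : ∀ n n' : A, algebraMap (P k) A (MvPolynomial.X 1) • n =
      algebraMap (P k) A (MvPolynomial.X 0) • n' →
      ∃ n'' : A, n = algebraMap (P k) A (MvPolynomial.X 0) • n'') :
    ∃ (n : ℕ) (e : Fin n → A) (h : P k), MvPolynomial.constantCoeff h ≠ 0 ∧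
      LinearIndependent (P k) e ∧
      (∀ a : A, ∃ c : Fin n → P k, h • a = ∑ i, c i • e i) ∧
      Nonempty (Module.Basis (Fin n) k (A ⧸ (Ideal.span {algebraMap (P k) A (MvPolynomial.X 0),
        algebraMap (P k) A (MvPolynomial.X 1)} • (⊤ : Submodule A A)))) := by
  classical
  haveI : Module.Finite k (A ⧸ (auxLB_I k A • (⊤ : Submodule A A))) := auxLB_fin
  let b := Module.finBasis k (A ⧸ (auxLB_I k A • (⊤ : Submodule A A)))
  choose e he using fun i => Submodule.Quotient.mk_surjective _ (b i)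
  -- combinations
  have hcomb : ∀ c : Fin (Module.finrank k (A ⧸ (auxLB_I k A • (⊤ : Submodule A A)))) → k,
      (Submodule.Quotient.mk (∑ i, c i • e i) : A ⧸ (auxLB_I k A • (⊤ : Submodule A A))) =
      ∑ i, c i • b i := by
    intro c
    have : (Submodule.Quotient.mk (∑ i, c i • e i) : A ⧸ (auxLB_I k A • (⊤ : Submodule A A))) =
        ∑ i, Submodule.Quotient.mk (c i • e i) :=
      map_sum (Submodule.mkQ (auxLB_I k A • (⊤ : Submodule A A))) _ _
    rw [this]
    refine Finset.sum_congr rfl fun i _ => ?_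
    rw [Submodule.Quotient.mk_smul, he]
  -- Nakayama
  have hsup : (⊤ : Submodule (P k) A) ≤ Submodule.span (P k) (Set.range e) ⊔
      (Ideal.span {MvPolynomial.X 0, MvPolynomial.X 1} : Ideal (P k)) •
        (⊤ : Submodule (P k) A) := by
    rintro a -
    have h1 : (Submodule.Quotient.mk a : A ⧸ (auxLB_I k A • (⊤ : Submodule A A))) =
        Submodule.Quotient.mk (∑ i, (b.repr (Submodule.Quotient.mk a)) i • e i) := by
      rw [hcomb]
      exact (b.sum_repr _).symm
    rw [Submodule.Quotient.eq] at h1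
    have h2 := auxLB_mem h1
    have h3 : a = (∑ i, (b.repr (Submodule.Quotient.mk a)) i • e i) +
        (a - ∑ i, (b.repr (Submodule.Quotient.mk a)) i • e i) := by ring
    rw [h3]
    refine Submodule.add_mem_sup ?_ h2
    refine Submodule.sum_mem _ fun i _ => ?_
    have h4 : (b.repr (Submodule.Quotient.mk a)) i • e i =
        (MvPolynomial.C ((b.repr (Submodule.Quotient.mk a)) i) : P k) • e i :=
      auxLB_Csmul _ _
    rw [h4]
    exact Submodule.smul_mem _ _ (Submodule.subset_span ⟨i, rfl⟩)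
  obtain ⟨h, hh1, hh2⟩ := Submodule.exists_sub_one_mem_and_smul_le_of_fg_of_le_sup
    (Module.Finite.fg_top (R := P k) (M := A)) le_rfl hsup
  refine ⟨_, e, h, ?_, ?_, ?_, ⟨b⟩⟩
  · have h1 : (Ideal.span {MvPolynomial.X 0, MvPolynomial.X 1} : Ideal (P k)) ≤
        RingHom.ker (MvPolynomial.constantCoeff (σ := Fin 2) (R := k)) := by
      rw [Ideal.span_le]
      rintro x (rfl | rfl)
      · exact MvPolynomial.constantCoeff_X k 0
      · exact MvPolynomial.constantCoeff_X k 1
    have h2 := RingHom.mem_ker.1 (h1 hh1)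
    rw [map_sub, map_one, sub_eq_zero] at h2
    rw [h2]
    exact one_ne_zero
  · -- independence
    rw [Fintype.linearIndependent_iff]
    intro p hp
    have key : ∀ j : ℕ, ∀ i, ∀ m : Fin 2 →₀ ℕ, m 0 + m 1 < j →
        MvPolynomial.coeff m (p i) = 0 := by
      intro j
      induction j with
      | zero => intro i m hm; exact absurd hm (Nat.not_lt_zero _)
      | succ j ih =>
        have hsum : ∑ l ∈ Finset.range (j + 1), (algebraMap (P k) A (MvPolynomial.X 0) ^ l *
            algebraMap (P k) A (MvPolynomial.X 1) ^ (j - l)) •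
            (∑ i, MvPolynomial.coeff (auxLB_m j l) (p i) • e i) ∈
            (Ideal.span {algebraMap (P k) A (MvPolynomial.X 0),
              algebraMap (P k) A (MvPolynomial.X 1)}) ^ (j + 1) • (⊤ : Submodule A A) := by
          have h1 : ∑ l ∈ Finset.range (j + 1), (algebraMap (P k) A (MvPolynomial.X 0) ^ l *
            algebraMap (P k) A (MvPolynomial.X 1) ^ (j - l)) •
            (∑ i, MvPolynomial.coeff (auxLB_m j l) (p i) • e i) =
            ∑ i, algebraMap (P k) A (auxLB_q j (p i)) * e i := by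
            simp_rw [auxLB_q_map, Finset.sum_mul, Finset.smul_sum]
            rw [Finset.sum_comm]
            refine Finset.sum_congr rfl fun i _ => Finset.sum_congr rfl fun l _ => ?_
            rw [smul_eq_mul, Algebra.smul_def]
            ring
          have h2 : ∑ i, algebraMap (P k) A (auxLB_q j (p i)) * e i =
              - ∑ i, algebraMap (P k) A (p i - auxLB_q j (p i)) * e i := by
            have h3 : ∑ i, algebraMap (P k) A (p i) * e i = 0 := by
              rw [← hp]
              refine Finset.sum_congr rfl fun i _ => ?_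
              rw [Algebra.smul_def]
            simp_rw [map_sub, sub_mul]
            rw [Finset.sum_sub_distrib, h3, zero_sub, neg_neg]
          rw [h1, h2]
          refine Submodule.neg_mem _ (Submodule.sum_mem _ fun i _ => ?_)
          have h4 := auxLB_high (A := A) (p i - auxLB_q j (p i)) j
            (fun m hm => auxLB_q_coeff j (p i) (ih i) m hm)
          rw [← smul_eq_mul]
          exact Submodule.smul_mem_smul h4 Submodule.mem_top
        have hq := quasi_mem (N := A) _ _ hs ht j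
          (fun l => ∑ i, MvPolynomial.coeff (auxLB_m j l) (p i) • e i) hsum
        intro i m hm
        rcases (Nat.lt_succ_iff.1 hm).lt_or_eq with h1 | h1
        · exact ih i m h1
        · have h2 := hq (m 0) (by omega)
          have h3 : (Submodule.Quotient.mk (∑ i, MvPolynomial.coeff (auxLB_m j (m 0)) (p i) • e i) :
              A ⧸ (auxLB_I k A • (⊤ : Submodule A A))) = 0 :=
            (Submodule.Quotient.mk_eq_zero _).2 h2
          rw [hcomb, auxLB_m_eq j m h1] at h3
          exact (Fintype.linearIndependent_iff.1 b.linearIndependent) _ h3 i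
    intro i
    rw [MvPolynomial.ext_iff]
    intro m
    rw [key (m 0 + m 1 + 1) i m (Nat.lt_succ_self _), MvPolynomial.coeff_zero]
  · intro a
    have h1 : h • a ∈ Submodule.span (P k) (Set.range e) :=
      hh2 (Submodule.smul_mem_pointwise_smul a h ⊤ Submodule.mem_top)
    obtain ⟨c, hc⟩ := (Submodule.mem_span_range_iff_exists_fun (P k)).1 h1
    exact ⟨c, hc.symm⟩

/-- normality implies that the variables are a regular sequence -/
theorem normal_regular [IsDomain A] [IsIntegrallyClosed A] [Module.Finite (P k) A]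
    (hinj : Function.Injective (algebraMap (P k) A)) (n n' : A)
    (h : algebraMap (P k) A (MvPolynomial.X 1) • n = algebraMap (P k) A (MvPolynomial.X 0) • n') :
    ∃ n'' : A, n = algebraMap (P k) A (MvPolynomial.X 0) • n'' := by
  classical
  haveI : Module.IsTorsionFree (P k) A := Module.isTorsionFree_iff_algebraMap_injective.2 hinj
  have hX0 : (MvPolynomial.X 0 : P k) ≠ 0 := MvPolynomial.X_ne_zero 0
  have hX1 : (MvPolynomial.X 1 : P k) ≠ 0 := MvPolynomial.X_ne_zero 1
  have hn : IsIntegral (P k) n := Algebra.IsIntegral.isIntegral n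
  have hn' : IsIntegral (P k) n' := Algebra.IsIntegral.isIntegral n'
  have e1 := IsIntegrallyClosed.minpoly_smul hX1 hn
  have e2 := IsIntegrallyClosed.minpoly_smul hX0 hn'
  have h' : (MvPolynomial.X 1 : P k) • n = (MvPolynomial.X 0 : P k) • n' := by
    rw [Algebra.smul_def, Algebra.smul_def]
    exact h
  rw [h'] at e1
  have e3 := e1.symm.trans e2
  have hdeg : (minpoly (P k) n).natDegree = (minpoly (P k) n').natDegree := by
    have := congrArg Polynomial.natDegree e3
    simpa using this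
  obtain ⟨p, hp⟩ : ∃ p, p = minpoly (P k) n := ⟨_, rfl⟩
  obtain ⟨m, hm⟩ : ∃ m, m = p.natDegree := ⟨_, rfl⟩
  have hprime : Prime (MvPolynomial.X 0 : P k) := MvPolynomial.X_prime
  have hnd : ∀ j : ℕ, ¬ (MvPolynomial.X 0 : P k) ∣ MvPolynomial.X 1 ^ j := by
    intro j hj
    have h1 := hprime.dvd_of_dvd_pow hj
    rw [MvPolynomial.X_dvd_X] at h1
    exact absurd h1 (by decide)
  have hdvd : ∀ i, (MvPolynomial.X 0 : P k) ^ (m - i) ∣ p.coeff i := by
    intro i
    have h1 := congrArg (fun q => q.coeff i) e3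
    simp only [Polynomial.coeff_scaleRoots] at h1
    rw [← hdeg, ← hp, ← hm] at h1
    have h2 : (MvPolynomial.X 0 : P k) ^ (m - i) ∣ p.coeff i * MvPolynomial.X 1 ^ (m - i) := by
      rw [h1]
      exact dvd_mul_left _ _
    exact hprime.pow_dvd_of_dvd_mul_right (m - i) (hnd _) h2
  choose c hc using hdvd
  have hs0 : algebraMap (P k) A (MvPolynomial.X 0) ≠ 0 := by
    rw [Ne, map_eq_zero_iff _ hinj]
    exact hX0
  obtain ⟨σ, hσ⟩ : ∃ σ : FractionRing A,
    σ = algebraMap A (FractionRing A) (algebraMap (P k) A (MvPolynomial.X 0)) := ⟨_, rfl⟩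
  have hσ' : σ = algebraMap (P k) (FractionRing A) (MvPolynomial.X 0) := by
    rw [hσ, ← IsScalarTower.algebraMap_apply]
  have hσ0 : σ ≠ 0 := by
    rw [hσ, Ne, map_eq_zero_iff _ (IsFractionRing.injective A (FractionRing A))]
    exact hs0
  obtain ⟨ξ, hξ⟩ : ∃ ξ : FractionRing A, σ * ξ = algebraMap A (FractionRing A) n :=
    ⟨algebraMap A (FractionRing A) n / σ, mul_div_cancel₀ _ hσ0⟩
  have hroot : Polynomial.aeval ξ (Polynomial.X ^ m +
      ∑ i : Fin m, Polynomial.C (c i) * Polynomial.X ^ (i : ℕ) : Polynomial (P k)) = 0 := by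
    have hσm : σ ^ m ≠ 0 := pow_ne_zero _ hσ0
    have h5 : σ ^ m * Polynomial.aeval ξ (Polynomial.X ^ m +
        ∑ i : Fin m, Polynomial.C (c i) * Polynomial.X ^ (i : ℕ) : Polynomial (P k)) =
        Polynomial.aeval (algebraMap A (FractionRing A) n) p := by
      have hlead : p.coeff m = 1 := by
        rw [hm, hp]
        exact (minpoly.monic hn).coeff_natDegree
      rw [Polynomial.aeval_eq_sum_range (p := p), ← hm, Finset.sum_range_succ, hlead, one_smul]
      simp only [map_add, map_pow, Polynomial.aeval_X, map_sum, map_mul, Polynomial.aeval_C]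
      rw [mul_add, Finset.mul_sum, ← mul_pow, hξ, add_comm, Finset.sum_range]
      congr 1
      refine Finset.sum_congr rfl fun i _ => ?_
      rw [hc i, Algebra.smul_def, map_mul, map_pow, ← hσ', ← hξ, mul_pow]
      have h7 : σ ^ m = σ ^ (m - i) * σ ^ (i:ℕ) := by
        rw [← pow_add]
        congr 1
        have := i.2
        omega
      rw [h7]
      ring
    have h6 : Polynomial.aeval (algebraMap A (FractionRing A) n) p = 0 := by
      rw [Polynomial.aeval_algebraMap_apply, hp, minpoly.aeval, map_zero]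
    rw [h6] at h5
    exact (mul_eq_zero.1 h5).resolve_left hσm
  have hint : IsIntegral (P k) ξ :=
    ⟨_, Polynomial.monic_X_pow_add (Polynomial.degree_sum_fin_lt _),
      by rw [← Polynomial.aeval_def]; exact hroot⟩
  have hintA : IsIntegral A ξ := hint.tower_top
  obtain ⟨y, hy⟩ := IsIntegrallyClosed.isIntegral_iff.1 hintA
  refine ⟨y, ?_⟩
  apply IsFractionRing.injective A (FractionRing A)
  rw [smul_eq_mul, map_mul, hy, ← hσ, hξ]


lemma auxOM_ev_alg (p : P k) (f : Om k A) (x : A) :
    f.ev (algebraMap (P k) A p * x) = p * f.ev x := by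
  have h : f.ev (p • x) = p • f.ev x :=
    LinearMap.map_smul (show A →ₗ[P k] P k from f) p x
  rw [Algebra.smul_def] at h
  rw [h, smul_eq_mul]

lemma auxOM_ev_zero (x : A) : (0 : Om k A).ev x = 0 := rfl

/-- a linear map as an element of the dualising module -/
def auxOM_mk (g : A →ₗ[P k] P k) : Om k A := g

lemma auxOM_mk_ev (g : A →ₗ[P k] P k) (x : A) : (auxOM_mk g).ev x = g x := rfl

theorem om_torsionfree [IsDomain A] [Module.Finite (P k) A]
    (hinj : Function.Injective (algebraMap (P k) A)) (a : A) (f : Om k A) (h : a • f = 0) :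
    a = 0 ∨ f = 0 := by
  by_cases ha : a = 0
  · exact Or.inl ha
  right
  have hint : IsIntegral (P k) a := Algebra.IsIntegral.isIntegral a
  obtain ⟨p, hp, c, hc⟩ := hint.isAlgebraic.exists_nonzero_dvd (mem_nonZeroDivisors_of_ne_zero ha)
  apply Om.ext
  intro x
  rw [auxOM_ev_zero]
  have h1 : (a • f).ev (c * x) = 0 := by rw [h]; exact auxOM_ev_zero _
  rw [Om.smul_ev, ← mul_assoc, ← hc, auxOM_ev_alg] at h1
  rcases mul_eq_zero.1 h1 with h2 | h2
  · exact absurd h2 hp
  · exact h2

theorem om_regular (f g : Om k A)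
    (h : algebraMap (P k) A (MvPolynomial.X 1) • f = algebraMap (P k) A (MvPolynomial.X 0) • g) :
    ∃ f' : Om k A, f = algebraMap (P k) A (MvPolynomial.X 0) • f' := by
  have h1 : ∀ x : A, (MvPolynomial.X 0 : P k) ∣ f.ev x := by
    intro x
    have h2 : (algebraMap (P k) A (MvPolynomial.X 1) • f).ev x =
        (algebraMap (P k) A (MvPolynomial.X 0) • g).ev x := by rw [h]
    rw [Om.smul_ev, Om.smul_ev, auxOM_ev_alg, auxOM_ev_alg] at h2
    have h3 : (MvPolynomial.X 0 : P k) ∣ MvPolynomial.X 1 * f.ev x := ⟨_, h2⟩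
    rcases MvPolynomial.X_dvd_mul_iff.1 h3 with h4 | h4
    · rw [MvPolynomial.X_dvd_X] at h4
      exact absurd h4 (by decide)
    · exact h4
  choose c hc using h1
  have hX : (MvPolynomial.X 0 : P k) ≠ 0 := MvPolynomial.X_ne_zero 0
  let f'' : A →ₗ[P k] P k :=
    { toFun := c
      map_add' := by
        intro x y
        apply mul_left_cancel₀ hX
        rw [mul_add, ← hc, ← hc, ← hc]
        exact LinearMap.map_add (show A →ₗ[P k] P k from f) x y
      map_smul' := by
        intro p x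
        apply mul_left_cancel₀ hX
        have h5 : f.ev (p • x) = p • f.ev x :=
          LinearMap.map_smul (show A →ₗ[P k] P k from f) p x
        rw [RingHom.id_apply, ← hc, h5, hc x, smul_eq_mul, smul_eq_mul]
        ring }
  refine ⟨auxOM_mk f'', ?_⟩
  apply Om.ext
  intro x
  rw [Om.smul_ev, auxOM_ev_alg, hc x]
  rfl

theorem om_finite [Module.Finite (P k) A] : Module.Finite A (Om k A) := by
  have h1 : Module.Finite (P k) (A →ₗ[P k] P k) := inferInstance
  obtain ⟨S, hS⟩ := h1.fg_top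
  obtain ⟨S', hS'⟩ : ∃ S' : Finset (Om k A), ∀ g : A →ₗ[P k] P k, g ∈ S → auxOM_mk g ∈ S' :=
    ⟨S, fun g hg => hg⟩
  refine ⟨⟨S', ?_⟩⟩
  rw [eq_top_iff]
  intro f _
  have hf : (show A →ₗ[P k] P k from f) ∈ Submodule.span (P k) (S : Set (A →ₗ[P k] P k)) := by
    rw [hS]; trivial
  have key : auxOM_mk (show A →ₗ[P k] P k from f) ∈ Submodule.span A (S' : Set (Om k A)) := by
    refine Submodule.span_induction
      (p := fun (g : A →ₗ[P k] P k) _ => auxOM_mk g ∈
        Submodule.span A (S' : Set (Om k A))) ?_ ?_ ?_ ?_ hf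
    · intro g hg
      exact Submodule.subset_span (hS' g hg)
    · exact Submodule.zero_mem _
    · intro g g' _ _ h h'
      exact Submodule.add_mem _ h h'
    · intro p g _ h
      have h2 : auxOM_mk (p • g) = algebraMap (P k) A p • auxOM_mk g := by
        apply Om.ext
        intro x
        rw [Om.smul_ev, auxOM_ev_alg]
        rfl
      rw [h2]
      exact Submodule.smul_mem _ _ h
  exact key

lemma auxOD_split (p : P k) : ∃ q0 q1 : P k,
    p = MvPolynomial.C (MvPolynomial.constantCoeff p) + MvPolynomial.X 0 * q0 +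
      MvPolynomial.X 1 * q1 := by
  induction p using MvPolynomial.induction_on with
  | C a => exact ⟨0, 0, by simp⟩
  | add p q hp hq =>
    obtain ⟨a, b, h1⟩ := hp
    obtain ⟨c, d, h2⟩ := hq
    refine ⟨a + c, b + d, ?_⟩
    rw [map_add, map_add]
    linear_combination h1 + h2
  | mul_X p i _ =>
    fin_cases i
    · exact ⟨p, 0, by simp [mul_comm]⟩
    · exact ⟨0, p, by simp [mul_comm]⟩

lemma auxOD_coord {n : ℕ} (e : Fin n → A) (h : P k) (hli : LinearIndependent (P k) e)
    (hr : ∀ a : A, ∃ c : Fin n → P k, h • a = ∑ i, c i • e i) :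
    ∃ φ : Fin n → Om k A, ∀ a, h • a = ∑ i, (φ i).ev a • e i := by
  choose c hc using hr
  have uniq : ∀ c1 c2 : Fin n → P k, ∑ i, c1 i • e i = ∑ i, c2 i • e i → c1 = c2 := by
    intro c1 c2 h12
    have h3 := Fintype.linearIndependent_iff.1 hli (fun i => c1 i - c2 i) (by
      simp only [sub_smul, Finset.sum_sub_distrib]
      rw [h12, sub_self])
    funext i
    exact sub_eq_zero.1 (h3 i)
  refine ⟨fun i => (show A →ₗ[P k] P k from
    { toFun := fun a => c a i
      map_add' := ?_
      map_smul' := ?_ }), hc⟩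
  · intro a b
    have := uniq (c (a + b)) (fun i => c a i + c b i) (by
      rw [← hc, smul_add, hc a, hc b]
      simp only [add_smul, Finset.sum_add_distrib])
    exact congrFun this i
  · intro p a
    have := uniq (c (p • a)) (fun i => p * c a i) (by
      rw [← hc, smul_comm, hc a, Finset.smul_sum]
      simp only [mul_smul])
    exact congrFun this i

/-- the constant coefficient functional -/
def auxOD_theta : Om k A →ₗ[k] Module.Dual k A where
  toFun f :=
    { toFun := fun a => MvPolynomial.constantCoeff (f.ev a)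
      map_add' := by
        intro a b
        have : f.ev (a + b) = f.ev a + f.ev b := map_add (show A →ₗ[P k] P k from f) a b
        rw [this, map_add]
      map_smul' := by
        intro r a
        have : f.ev (r • a) = r • f.ev a :=
          LinearMap.map_smul_of_tower (show A →ₗ[P k] P k from f) r a
        rw [this, MvPolynomial.smul_eq_C_mul, map_mul, MvPolynomial.constantCoeff_C]
        rfl }
  map_add' := by
    intro f g
    ext a
    change MvPolynomial.constantCoeff (f.ev a + g.ev a) = _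
    rw [map_add]
    rfl
  map_smul' := by
    intro r f
    ext a
    change MvPolynomial.constantCoeff (r • f.ev a) = _
    rw [MvPolynomial.smul_eq_C_mul, map_mul, MvPolynomial.constantCoeff_C]
    rfl

lemma auxOD_theta_apply (f : Om k A) (a : A) :
    auxOD_theta f a = MvPolynomial.constantCoeff (f.ev a) := rfl

lemma auxOD_ev_add (f : Om k A) (a b : A) : f.ev (a + b) = f.ev a + f.ev b :=
  map_add (show A →ₗ[P k] P k from f) a b

lemma auxOD_ev_smul (f : Om k A) (p : P k) (a : A) : f.ev (p • a) = p * f.ev a :=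
  map_smul (show A →ₗ[P k] P k from f) p a

lemma auxOD_ev_alg (f : Om k A) (p : P k) (a : A) :
    f.ev (algebraMap (P k) A p * a) = p * f.ev a := by
  rw [← Algebra.smul_def, auxOD_ev_smul]

lemma auxOD_add_ev (f g : Om k A) (a : A) : (f + g).ev a = f.ev a + g.ev a := rfl

lemma auxOD_sum_ev {ι : Type*} (s : Finset ι) (f : ι → Om k A) (a : A) :
    (∑ i ∈ s, f i).ev a = ∑ i ∈ s, (f i).ev a := by
  classical
  induction s using Finset.induction_on with
  | empty => simp; rfl
  | insert i s hi ih => rw [Finset.sum_insert hi, Finset.sum_insert hi, auxOD_add_ev, ih]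

lemma auxOD_mem (f : Om k A) (p : P k) (hp : MvPolynomial.constantCoeff p = 0) :
    algebraMap (P k) A p • f ∈ (Ideal.span {algebraMap (P k) A (MvPolynomial.X 0),
        algebraMap (P k) A (MvPolynomial.X 1)} • (⊤ : Submodule A (Om k A))) := by
  obtain ⟨q0, q1, h⟩ := auxOD_split p
  rw [hp, map_zero, zero_add] at h
  rw [h, map_add, map_mul, map_mul, add_smul, mul_smul, mul_smul]
  refine Submodule.add_mem _ ?_ ?_
  · exact Submodule.smul_mem_smul (Ideal.subset_span (by simp)) trivial
  · exact Submodule.smul_mem_smul (Ideal.subset_span (by simp)) trivial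

lemma auxOD_theta_zero (f : Om k A) (hf : f ∈ (Ideal.span {algebraMap (P k) A (MvPolynomial.X 0),
        algebraMap (P k) A (MvPolynomial.X 1)} • (⊤ : Submodule A (Om k A)))) :
    auxOD_theta f = 0 := by
  refine Submodule.smul_induction_on hf ?_ ?_
  · intro r hr g _
    obtain ⟨a, b, rfl⟩ := Ideal.mem_span_pair.1 hr
    ext x
    rw [auxOD_theta_apply, Om.smul_ev]
    have : (a * algebraMap (P k) A (MvPolynomial.X 0) + b * algebraMap (P k) A (MvPolynomial.X 1)) *
        x = algebraMap (P k) A (MvPolynomial.X 0) * (a * x) +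
          algebraMap (P k) A (MvPolynomial.X 1) * (b * x) := by ring
    rw [this, auxOD_ev_add, auxOD_ev_alg, auxOD_ev_alg]
    simp
  · intro x y hx hy
    rw [map_add, hx, hy, add_zero]

lemma auxOD_lam (l : Module.Dual k A)
    (hl : ∀ x ∈ Ideal.span {algebraMap (P k) A (MvPolynomial.X 0),
        algebraMap (P k) A (MvPolynomial.X 1)}, l x = 0) (p : P k) (a : A) :
    l (p • a) = MvPolynomial.constantCoeff p * l a := by
  obtain ⟨q0, q1, h⟩ := auxOD_split p
  have h1 : p • a = MvPolynomial.constantCoeff p • a +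
      (q0 • a) * algebraMap (P k) A (MvPolynomial.X 0) +
      (q1 • a) * algebraMap (P k) A (MvPolynomial.X 1) := by
    conv_lhs => rw [h]
    rw [add_smul, add_smul]
    congr 1
    · congr 1
      · rw [← MvPolynomial.algebraMap_eq, algebraMap_smul]
      · rw [mul_comm (MvPolynomial.X 0) q0, mul_smul, Algebra.smul_def (MvPolynomial.X 0) a]
        rw [Algebra.smul_def q0, Algebra.smul_def q0]
        ring
    · rw [mul_comm (MvPolynomial.X 1) q1, mul_smul, Algebra.smul_def (MvPolynomial.X 1) a]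
      rw [Algebra.smul_def q1, Algebra.smul_def q1]
      ring
  rw [h1, add_assoc, map_add, map_smul, smul_eq_mul]
  rw [hl _ (Ideal.mem_span_pair.2 ⟨q0 • a, q1 • a, rfl⟩), add_zero]

lemma auxOD_ker {n : ℕ} (e : Fin n → A) (h : P k) (h0 : MvPolynomial.constantCoeff h ≠ 0)
    (φ : Fin n → Om k A) (hφ : ∀ a, h • a = ∑ i, (φ i).ev a • e i) (f : Om k A)
    (hf : auxOD_theta f = 0) :
    f ∈ (Ideal.span {algebraMap (P k) A (MvPolynomial.X 0),
        algebraMap (P k) A (MvPolynomial.X 1)} • (⊤ : Submodule A (Om k A))) := by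
  have hf' : ∀ a, MvPolynomial.constantCoeff (f.ev a) = 0 := by
    intro a
    have := congrArg (fun l : Module.Dual k A => l a) hf
    exact this
  have h1 : algebraMap (P k) A h • f = ∑ i, algebraMap (P k) A (f.ev (e i)) • φ i := by
    apply Om.ext
    intro x
    rw [Om.smul_ev, auxOD_sum_ev, ← Algebra.smul_def, hφ]
    have : f.ev (∑ i, (φ i).ev x • e i) = ∑ i, f.ev ((φ i).ev x • e i) :=
      map_sum (show A →ₗ[P k] P k from f) _ _
    rw [this]
    refine Finset.sum_congr rfl fun i _ => ?_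
    rw [auxOD_ev_smul, Om.smul_ev, auxOD_ev_alg, mul_comm]
  have h2 : algebraMap (P k) A h • f ∈ (Ideal.span {algebraMap (P k) A (MvPolynomial.X 0),
        algebraMap (P k) A (MvPolynomial.X 1)} • (⊤ : Submodule A (Om k A))) := by
    rw [h1]
    exact Submodule.sum_mem _ fun i _ => auxOD_mem _ _ (hf' _)
  obtain ⟨c, hc⟩ : ∃ c, c = MvPolynomial.constantCoeff h := ⟨_, rfl⟩
  have h3 : algebraMap (P k) A (h - MvPolynomial.C c) • f ∈
      (Ideal.span {algebraMap (P k) A (MvPolynomial.X 0),
        algebraMap (P k) A (MvPolynomial.X 1)} • (⊤ : Submodule A (Om k A))) := by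
    apply auxOD_mem
    rw [map_sub, MvPolynomial.constantCoeff_C, hc, sub_self]
  have h4 : algebraMap (P k) A (MvPolynomial.C c) • f ∈
      (Ideal.span {algebraMap (P k) A (MvPolynomial.X 0),
        algebraMap (P k) A (MvPolynomial.X 1)} • (⊤ : Submodule A (Om k A))) := by
    have := Submodule.sub_mem _ h2 h3
    rw [← sub_smul, ← map_sub, sub_sub_cancel] at this
    exact this
  have h5 := Submodule.smul_mem _ (algebraMap (P k) A (MvPolynomial.C c⁻¹)) h4
  rw [smul_smul, ← map_mul, ← map_mul, inv_mul_cancel₀ (hc ▸ h0), map_one, map_one, one_smul] at h5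
  exact h5

lemma auxOD_range {n : ℕ} (e : Fin n → A) (h : P k) (h0 : MvPolynomial.constantCoeff h ≠ 0)
    (φ : Fin n → Om k A) (hφ : ∀ a, h • a = ∑ i, (φ i).ev a • e i) (l : Module.Dual k A)
    (hl : ∀ x ∈ Ideal.span {algebraMap (P k) A (MvPolynomial.X 0),
        algebraMap (P k) A (MvPolynomial.X 1)}, l x = 0) :
    ∃ f : Om k A, auxOD_theta f = l := by
  refine ⟨∑ i, ((MvPolynomial.constantCoeff h)⁻¹ * l (e i)) • φ i, ?_⟩
  ext a
  rw [map_sum, LinearMap.sum_apply]
  have h1 := congrArg l (hφ a)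
  rw [auxOD_lam l hl, map_sum] at h1
  simp only [auxOD_lam l hl] at h1
  have h2 : l a = (MvPolynomial.constantCoeff h)⁻¹ * (MvPolynomial.constantCoeff h * l a) := by
    rw [← mul_assoc, inv_mul_cancel₀ h0, one_mul]
  rw [h2, h1, Finset.mul_sum]
  refine Finset.sum_congr rfl fun i _ => ?_
  rw [map_smul, LinearMap.smul_apply, auxOD_theta_apply, smul_eq_mul]
  ring

lemma auxOD_dual (W : Ideal A) :
    Module.finrank k (W.restrictScalars k : Submodule k A).dualAnnihilator =
      Module.finrank k (A ⧸ W) := by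
  rw [← ((W.restrictScalars k : Submodule k A).dualQuotEquivDualAnnihilator).finrank_eq,
    Subspace.dual_finrank_eq]
  exact (Submodule.Quotient.restrictScalarsEquiv k W).finrank_eq

/-- `ω ⧸ (s,t) ω` has the same dimension as `A ⧸ (s,t)`, and its part killed by a maximal ideal is
one-dimensional -/
theorem om_dual [Module.Finite (P k) A]
    (hs : ∀ n : A, algebraMap (P k) A (MvPolynomial.X 0) • n = 0 → n = 0)
    (ht : ∀ n n' : A, algebraMap (P k) A (MvPolynomial.X 1) • n =
      algebraMap (P k) A (MvPolynomial.X 0) • n' →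
      ∃ n'' : A, n = algebraMap (P k) A (MvPolynomial.X 0) • n'') (K : ℕ) (a : ℕ → A) :
    Module.Finite k (Om k A ⧸ (Ideal.span {algebraMap (P k) A (MvPolynomial.X 0),
        algebraMap (P k) A (MvPolynomial.X 1)} • (⊤ : Submodule A (Om k A)))) ∧
    Module.finrank k (Om k A ⧸ (Ideal.span {algebraMap (P k) A (MvPolynomial.X 0),
        algebraMap (P k) A (MvPolynomial.X 1)} • (⊤ : Submodule A (Om k A)))) =
      Module.finrank k (A ⧸ (Ideal.span {algebraMap (P k) A (MvPolynomial.X 0),
        algebraMap (P k) A (MvPolynomial.X 1)} • (⊤ : Submodule A A))) ∧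
    Module.finrank k (annSub k (Om k A) (algebraMap (P k) A (MvPolynomial.X 0))
        (algebraMap (P k) A (MvPolynomial.X 1)) K a) =
      Module.finrank k (A ⧸ (Ideal.span {algebraMap (P k) A (MvPolynomial.X 0),
        algebraMap (P k) A (MvPolynomial.X 1)} ⊔ Ideal.span (a '' Set.Iic K))) := by
  obtain ⟨n, e, h, h0, hli, hr, ⟨b⟩⟩ := exists_local_basis hs ht
  obtain ⟨φ, hφ⟩ := auxOD_coord e h hli hr
  have hker := auxOD_ker e h h0 φ hφ
  have hsurj := auxOD_range e h h0 φ hφ
  have hzero := auxOD_theta_zero (k := k) (A := A)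
  have hJ : (Ideal.span {algebraMap (P k) A (MvPolynomial.X 0),
        algebraMap (P k) A (MvPolynomial.X 1)} • (⊤ : Submodule A A)) =
        Ideal.span {algebraMap (P k) A (MvPolynomial.X 0),
        algebraMap (P k) A (MvPolynomial.X 1)} := by
    rw [smul_eq_mul, Ideal.mul_top]
  have hfin0 : Module.Finite k (A ⧸ (Ideal.span {algebraMap (P k) A (MvPolynomial.X 0),
        algebraMap (P k) A (MvPolynomial.X 1)} • (⊤ : Submodule A A))) := Module.Finite.of_basis b
  rw [hJ] at hfin0 ⊢
  generalize hs0 : algebraMap (P k) A (MvPolynomial.X 0) = s at *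
  generalize ht0 : algebraMap (P k) A (MvPolynomial.X 1) = t at *
  let N : Submodule A (Om k A) := Ideal.span {s, t} • (⊤ : Submodule A (Om k A))
  let Ψ : (Om k A ⧸ N) →ₗ[k] Module.Dual k A :=
    ((N.restrictScalars k).liftQ auxOD_theta (fun f hf => hzero f hf)) ∘ₗ
      (Submodule.Quotient.restrictScalarsEquiv k N).symm.toLinearMap
  have hΨ : ∀ f : Om k A, Ψ (Submodule.Quotient.mk f) = auxOD_theta f := fun f => rfl
  have hinj : Function.Injective Ψ := by
    rw [injective_iff_map_eq_zero]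
    intro x hx
    obtain ⟨f, rfl⟩ := Submodule.Quotient.mk_surjective N x
    rw [hΨ] at hx
    exact (Submodule.Quotient.mk_eq_zero N).2 (hker f hx)
  have hrange : LinearMap.range Ψ =
      ((Ideal.span {s, t}).restrictScalars k : Submodule k A).dualAnnihilator := by
    ext l
    rw [Submodule.mem_dualAnnihilator]
    constructor
    · rintro ⟨x, rfl⟩
      obtain ⟨f, rfl⟩ := Submodule.Quotient.mk_surjective N x
      intro w hw
      rw [hΨ]
      have h1 : auxOD_theta (w • f) = 0 := hzero _ (Submodule.smul_mem_smul hw trivial)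
      have h2 := congrArg (fun l : Module.Dual k A => l 1) h1
      simp only [auxOD_theta_apply, Om.smul_ev, mul_one] at h2
      exact h2
    · intro hl
      obtain ⟨f, hf⟩ := hsurj l hl
      exact ⟨Submodule.Quotient.mk f, by rw [hΨ, hf]⟩
  have hfinJ : Module.Finite k
      ((Ideal.span {s, t}).restrictScalars k : Submodule k A).dualAnnihilator := by
    have h1 : Module.Finite k (A ⧸ ((Ideal.span {s, t}).restrictScalars k : Submodule k A)) :=
      Module.Finite.equiv (Submodule.Quotient.restrictScalarsEquiv k (Ideal.span {s, t})).symm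
    exact Module.Finite.equiv
      ((Ideal.span {s, t}).restrictScalars k : Submodule k A).dualQuotEquivDualAnnihilator
  refine ⟨?_, ?_, ?_⟩
  · have h1 : Module.Finite k (LinearMap.range Ψ) := by rw [hrange]; exact hfinJ
    exact Module.Finite.equiv (LinearEquiv.ofInjective Ψ hinj).symm
  · rw [← auxOD_dual, ← hrange]
    exact (LinearEquiv.ofInjective Ψ hinj).finrank_eq
  · have hmap : (annSub k (Om k A) s t K a).map Ψ =
        ((Ideal.span {s, t} ⊔ Ideal.span (a '' Set.Iic K)).restrictScalars k :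
          Submodule k A).dualAnnihilator := by
      ext l
      rw [Submodule.mem_dualAnnihilator]
      constructor
      · rintro ⟨x, hx, rfl⟩
        obtain ⟨f, rfl⟩ := Submodule.Quotient.mk_surjective N x
        have hx' : ∀ i ≤ K, a i • f ∈ N := by
          intro i hi
          have := hx i hi
          rw [← Submodule.Quotient.mk_smul] at this
          exact (Submodule.Quotient.mk_eq_zero N).1 this
        have hI : ∀ w ∈ Ideal.span {s, t} ⊔ Ideal.span (a '' Set.Iic K), w • f ∈ N := by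
          intro w hw
          have hle : Ideal.span {s, t} ⊔ Ideal.span (a '' Set.Iic K) ≤
              Submodule.comap (LinearMap.toSpanSingleton A (Om k A) f) N := by
            refine sup_le ?_ ?_
            · intro r hr
              exact Submodule.smul_mem_smul hr trivial
            · rw [Ideal.span_le]
              rintro _ ⟨i, hi, rfl⟩
              exact hx' i hi
          exact hle hw
        intro w hw
        rw [hΨ]
        have h1 : auxOD_theta (w • f) = 0 := hzero _ (hI w hw)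
        have h2 := congrArg (fun l : Module.Dual k A => l 1) h1
        simp only [auxOD_theta_apply, Om.smul_ev, mul_one] at h2
        exact h2
      · intro hl
        obtain ⟨f, hf⟩ := hsurj l (fun x hx => hl x (Ideal.mem_sup_left hx))
        refine ⟨Submodule.Quotient.mk f, ?_, by rw [hΨ, hf]⟩
        intro i hi
        rw [← Submodule.Quotient.mk_smul]
        refine (Submodule.Quotient.mk_eq_zero N).2 (hker _ ?_)
        ext x
        rw [auxOD_theta_apply, Om.smul_ev, ← auxOD_theta_apply, hf]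
        have : a i * x ∈ Ideal.span {s, t} ⊔ Ideal.span (a '' Set.Iic K) :=
          Ideal.mem_sup_right (Ideal.mul_mem_right _ _ (Ideal.subset_span ⟨i, hi, rfl⟩))
        exact hl _ this
    rw [← auxOD_dual, ← hmap]
    exact (Submodule.equivMapOfInjective Ψ hinj (annSub k (Om k A) s t K a)).finrank_eq

theorem auxRO_coord (n : ℕ) (e : Fin n → A) (h : P k) (he : LinearIndependent (P k) e)
    (hc : ∀ a : A, ∃ c : Fin n → P k, h • a = ∑ i, c i • e i) (i0 : Fin n) :
    ∃ ν : A →ₗ[P k] P k, ν (e i0) = h := by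
  have hmem : ∀ a : A, h • a ∈ Submodule.span (P k) (Set.range e) := by
    intro a
    obtain ⟨c, hc'⟩ := hc a
    rw [hc']
    exact Submodule.sum_mem _ fun i _ => Submodule.smul_mem _ _ (Submodule.subset_span ⟨i, rfl⟩)
  let L : A →ₗ[P k] Submodule.span (P k) (Set.range e) :=
    (LinearMap.lsmul (P k) A h).codRestrict _ hmem
  refine ⟨(Finsupp.lapply i0) ∘ₗ he.repr ∘ₗ L, ?_⟩
  have h1 : L (e i0) = h • ⟨e i0, Submodule.subset_span ⟨i0, rfl⟩⟩ := Subtype.ext rfl
  show he.repr (L (e i0)) i0 = h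
  rw [h1, map_smul, he.repr_eq_single i0 _ rfl]
  simp

theorem auxRO_rel (n : ℕ) (hn : 0 < n) (e : Fin n → A) (h : P k) (hh : h ≠ 0)
    (he : LinearIndependent (P k) e)
    (hc : ∀ a : A, ∃ c : Fin n → P k, h • a = ∑ i, c i • e i) (f g : A →ₗ[P k] P k) :
    ∃ a b : A, (a ≠ 0 ∨ b ≠ 0) ∧ ∀ x, f (a * x) + g (b * x) = 0 := by
  let Ψ : ((Fin n → P k) × (Fin n → P k)) →ₗ[P k] (Fin n → P k) :=
    LinearMap.pi fun i =>
      LinearMap.coprod
        (f ∘ₗ (LinearMap.mulRight (P k) (e i)) ∘ₗ (Fintype.linearCombination (P k) e))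
        (g ∘ₗ (LinearMap.mulRight (P k) (e i)) ∘ₗ (Fintype.linearCombination (P k) e))
  have hΨ : ¬ Function.Injective Ψ := by
    intro hi
    have := LinearMap.finrank_le_finrank_of_injective hi
    rw [Module.finrank_prod, Module.finrank_fin_fun] at this
    omega
  rw [injective_iff_map_eq_zero] at hΨ
  push Not at hΨ
  obtain ⟨⟨u, v⟩, h1, h2⟩ := hΨ
  refine ⟨Fintype.linearCombination (P k) e u, Fintype.linearCombination (P k) e v, ?_, ?_⟩
  · by_contra hcon
    push Not at hcon
    have hinj' := he.fintypeLinearCombination_injective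
    apply h2
    have e1 : u = 0 := hinj' (by rw [hcon.1, map_zero])
    have e2 : v = 0 := hinj' (by rw [hcon.2, map_zero])
    rw [e1, e2]
    rfl
  · set a := Fintype.linearCombination (P k) e u with ha
    set b := Fintype.linearCombination (P k) e v with hb
    have hz : ∀ i, f (a * e i) + g (b * e i) = 0 := fun i => congrFun h1 i
    let G : A →ₗ[P k] P k := f ∘ₗ (LinearMap.mulLeft (P k) a) + g ∘ₗ (LinearMap.mulLeft (P k) b)
    have hG : ∀ x, G x = f (a * x) + g (b * x) := fun x => rfl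
    intro x
    rw [← hG]
    obtain ⟨c, hc'⟩ := hc x
    have h3 : h * G x = 0 := by
      rw [← smul_eq_mul, ← map_smul, hc', map_sum]
      refine Finset.sum_eq_zero fun i _ => ?_
      rw [map_smul, hG, hz, smul_zero]
    exact (mul_eq_zero.1 h3).resolve_left hh

/-- `ω` has rank one -/
theorem om_rank_one [IsDomain A] [Module.Finite (P k) A]
    (hinj : Function.Injective (algebraMap (P k) A))
    (hs : ∀ n : A, algebraMap (P k) A (MvPolynomial.X 0) • n = 0 → n = 0)
    (ht : ∀ n n' : A, algebraMap (P k) A (MvPolynomial.X 1) • n =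
      algebraMap (P k) A (MvPolynomial.X 0) • n' →
      ∃ n'' : A, n = algebraMap (P k) A (MvPolynomial.X 0) • n'') :
    ∃ ν : Om k A, ν ≠ 0 ∧ ∃ J : Ideal A, J ≠ ⊥ ∧ ∀ a ∈ J, ∀ f : Om k A, ∃ c : A, a • f = c • ν := by
  classical
  obtain ⟨n, e, h, hh0, he, hc, -⟩ := exists_local_basis (k := k) (A := A) hs ht
  have hh : h ≠ 0 := by
    rintro rfl
    exact hh0 (map_zero _)
  have hn : 0 < n := by
    rcases Nat.eq_zero_or_pos n with h0 | h0
    · subst h0
      obtain ⟨c, hc'⟩ := hc 1
      simp only [Finset.univ_eq_empty, Finset.sum_empty, Algebra.smul_def, mul_one] at hc'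
      exact absurd ((map_eq_zero_iff _ hinj).1 hc') hh
    · exact h0
  obtain ⟨ν, hν⟩ : ∃ ν : Om k A, ν.ev (e ⟨0, hn⟩) = h := auxRO_coord n e h he hc ⟨0, hn⟩
  have hν0 : ν ≠ 0 := by
    intro h0
    rw [h0] at hν
    exact hh hν.symm
  have key : ∀ f : Om k A, ∃ a : A, a ≠ 0 ∧ ∃ c : A, a • f = c • ν := by
    intro f
    obtain ⟨a, b, hab, hx⟩ := auxRO_rel n hn e h hh he hc f ν
    have hrel : a • f = (-b) • ν := by
      refine Om.ext fun x => ?_
      rw [Om.smul_ev, Om.smul_ev]
      have h1 : f.ev (a * x) + ν.ev (b * x) = 0 := hx x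
      have h2 : ν.ev (-b * x) = - ν.ev (b * x) := by
        rw [neg_mul]
        exact map_neg (show A →ₗ[P k] P k from ν) (b * x)
      rw [h2]
      exact eq_neg_of_add_eq_zero_left h1
    refine ⟨a, ?_, -b, hrel⟩
    intro ha
    rw [ha, zero_smul] at hrel
    rcases om_torsionfree hinj (-b) ν hrel.symm with h1 | h1
    · rcases hab with h2 | h2
      · exact h2 ha
      · exact h2 (neg_eq_zero.1 h1)
    · exact hν0 h1
  haveI : Module.Finite A (Om k A) := om_finite
  obtain ⟨S, hS⟩ := (Module.Finite.fg_top : (⊤ : Submodule A (Om k A)).FG)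
  choose α hα0 γ hγ using key
  refine ⟨ν, hν0, Ideal.span {∏ f ∈ S, α f}, ?_, ?_⟩
  · rw [Ne, Ideal.span_singleton_eq_bot]
    exact Finset.prod_ne_zero_iff.2 fun f _ => hα0 f
  · have hD : ∀ f : Om k A, ∃ c : A, (∏ f ∈ S, α f) • f = c • ν := by
      intro f
      have hf : f ∈ Submodule.span A (S : Set (Om k A)) := by rw [hS]; trivial
      induction hf using Submodule.span_induction with
      | mem x hx =>
        have hx' : x ∈ S := hx
        refine ⟨(∏ g ∈ S.erase x, α g) * γ x, ?_⟩
        rw [← Finset.prod_erase_mul S α hx', mul_smul, hγ, mul_smul]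
      | zero => exact ⟨0, by rw [smul_zero, zero_smul]⟩
      | add x y _ _ hx hy =>
        obtain ⟨c, hc1⟩ := hx
        obtain ⟨d, hd1⟩ := hy
        exact ⟨c + d, by rw [smul_add, hc1, hd1, add_smul]⟩
      | smul r x _ hx =>
        obtain ⟨c, hc1⟩ := hx
        exact ⟨r * c, by rw [smul_comm, hc1, mul_smul]⟩
    intro a ha f
    obtain ⟨r, rfl⟩ := Ideal.mem_span_singleton'.1 ha
    obtain ⟨c, hc1⟩ := hD f
    exact ⟨r * c, by rw [mul_smul, hc1, mul_smul]⟩

end dual

section socle

variable {k : Type u} [Field k] {A : Type v} [CommRing A] [Algebra k A]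

theorem auxSO_z (k : Type u) [Field k] [Algebra k A] [IsNoetherianRing A] (M : Ideal A)
    [hM : M.IsMaximal] (P : Submodule A A) (hPM : ∀ x ∈ P, x ∈ M) [Module.Finite k (A ⧸ P)] :
    ∃ z : A, z ∉ P ∧ ∀ m ∈ M, m * z ∈ P := by
  classical
  haveI h1 : IsArtinian k (A ⧸ P) := inferInstance
  haveI h2 : IsArtinian A (A ⧸ P) := isArtinian_of_tower k h1
  have hex : ∃ r : ℕ, ∃ e : A, e ∉ M ∧ ∀ x ∈ M ^ r, e * x ∈ P := by
    let f : ℕ →o (Submodule A (A ⧸ P))ᵒᵈ :=
      ⟨fun r => OrderDual.toDual (Submodule.map P.mkQ (M ^ r : Ideal A)), fun r r' h =>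
        OrderDual.toDual_le_toDual.2 (Submodule.map_mono (Ideal.pow_le_pow_right h))⟩
    obtain ⟨r, hr⟩ := IsArtinian.monotone_stabilizes f
    have h3 : Submodule.map P.mkQ (M ^ r : Ideal A) = Submodule.map P.mkQ (M ^ (r + 1) : Ideal A) :=
      hr (r + 1) (Nat.le_succ r)
    have h4 : Submodule.map P.mkQ (M ^ r : Ideal A) ≤
        M • Submodule.map P.mkQ (M ^ r : Ideal A) := by
      rw [← Submodule.map_smul'']
      have h5 : (M • (M ^ r : Ideal A) : Submodule A A) = (M ^ (r + 1) : Ideal A) := by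
        rw [pow_succ']
        rfl
      rw [h5]
      exact h3.le
    have hfg : (Submodule.map P.mkQ (M ^ r : Ideal A)).FG :=
      Submodule.FG.map _ (IsNoetherian.noetherian _)
    obtain ⟨e, he1, he2⟩ :=
      Submodule.exists_sub_one_mem_and_smul_eq_zero_of_fg_of_le_smul M _ hfg h4
    refine ⟨r, e, fun heM => hM.ne_top ((Ideal.eq_top_iff_one M).2 ?_), fun x hx => ?_⟩
    · have h6 := M.sub_mem heM he1
      rwa [sub_sub_cancel] at h6
    · have h7 := he2 (P.mkQ x) (Submodule.mem_map_of_mem hx)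
      rw [← map_smul, Submodule.mkQ_apply, Submodule.Quotient.mk_eq_zero, smul_eq_mul] at h7
      exact h7
  obtain ⟨e, heM, he⟩ := Nat.find_spec hex
  have hr0 : Nat.find hex ≠ 0 := by
    intro h0
    rw [h0] at he
    have h8 := he 1 (by rw [pow_zero, Ideal.one_eq_top]; exact Submodule.mem_top)
    rw [mul_one] at h8
    exact heM (hPM e h8)
  obtain ⟨r', hr'⟩ := Nat.exists_eq_succ_of_ne_zero hr0
  have hnot := Nat.find_min hex (m := r') (by omega)
  push Not at hnot
  obtain ⟨y, hy, hey⟩ := hnot e heM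
  refine ⟨e * y, hey, fun m hm => ?_⟩
  have h9 : m * (e * y) = e * (m * y) := by ring
  rw [h9]
  apply he
  rw [hr', Nat.succ_eq_add_one, pow_succ']
  exact Ideal.mul_mem_mul hm hy

theorem auxSO_surj (M : Ideal A) [hM : M.IsMaximal] (a : Localization.AtPrime M) :
    ∃ (b u : A), u ∉ M ∧ IsUnit (algebraMap A (Localization.AtPrime M) u) ∧
      a * algebraMap A (Localization.AtPrime M) u = algebraMap A (Localization.AtPrime M) b := by
  obtain ⟨⟨b, u⟩, hbu⟩ := IsLocalization.surj M.primeCompl a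
  exact ⟨b, u, u.2, IsLocalization.map_units _ u, hbu⟩

theorem auxSO_mem (M : Ideal A) [hM : M.IsMaximal] (I : Ideal A) (b : A) :
    algebraMap A (Localization.AtPrime M) b ∈ I.map (algebraMap A (Localization.AtPrime M)) ↔
      ∃ v, v ∉ M ∧ v * b ∈ I := by
  rw [IsLocalization.algebraMap_mem_map_algebraMap_iff M.primeCompl]
  rfl

/-- if `A_M` is not Gorenstein then the socle of `A ⧸ (s,t)` at `M` has dimension at least two -/
theorem socle_ge_two [IsNoetherianRing A] (M : Ideal A) [hM : M.IsMaximal] (s t : A)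
    (hsM : s ∈ M) (htM : t ∈ M) (hs : ∀ n : A, s • n = 0 → n = 0)
    (ht : ∀ n n' : A, t • n = s • n' → ∃ n'' : A, n = s • n'')
    [Module.Finite k (A ⧸ (Ideal.span {s, t} • (⊤ : Submodule A A)))]
    (hG : ¬ IsGorensteinTwo (Localization.AtPrime M)) (K : ℕ) (a : ℕ → A)
    (ha : Ideal.span {s, t} ⊔ Ideal.span (a '' Set.Iic K) = M) :
    2 ≤ Module.finrank k (annSub k A s t K a) := by
  classical
  by_contra hlt
  apply hG
  set Q : Submodule A A := Ideal.span {s, t} • (⊤ : Submodule A A) with hQ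
  have hQe : Q = Ideal.span {s, t} := Ideal.mul_top _
  have hQm : ∀ x, x ∈ Q ↔ x ∈ Ideal.span {s, t} := fun x => by rw [hQe]
  have hPM : Ideal.span {s, t} ≤ M := by
    rw [Ideal.span_le]
    rintro x (rfl | hx)
    · exact hsM
    · rw [Set.mem_singleton_iff] at hx
      rw [hx]
      exact htM
  obtain ⟨z, hz, hMz⟩ := auxSO_z k M Q (fun x hx => hPM ((hQm x).1 hx))
  have hzP : z ∉ Ideal.span {s, t} := fun h => hz ((hQm z).2 h)
  have hMzP : ∀ m ∈ M, m * z ∈ Ideal.span {s, t} := fun m hm => (hQm _).1 (hMz m hm)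
  have haM : ∀ i ≤ K, a i ∈ M := by
    intro i hi
    rw [← ha]
    exact Ideal.mem_sup_right (Ideal.subset_span ⟨i, hi, rfl⟩)
  have hB : ∀ b : A, (∀ i ≤ K, a i * b ∈ Ideal.span {s, t}) → b ∈ Ideal.span {s, t, z} := by
    intro b hb
    have hmemS : ∀ b : A, (∀ i ≤ K, a i * b ∈ Ideal.span {s, t}) →
        (Submodule.Quotient.mk b : A ⧸ Q) ∈ annSub k A s t K a := by
      intro b hb i hi
      rw [← Submodule.Quotient.mk_smul, Submodule.Quotient.mk_eq_zero, smul_eq_mul]
      exact (hQm _).2 (hb i hi)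
    let zS : annSub k A s t K a := ⟨Submodule.Quotient.mk z,
      hmemS z fun i hi => hMzP (a i) (haM i hi)⟩
    let bS : annSub k A s t K a := ⟨Submodule.Quotient.mk b, hmemS b hb⟩
    have hz0 : zS ≠ 0 := by
      intro h0
      have h1 : (Submodule.Quotient.mk z : A ⧸ Q) = 0 := congrArg Subtype.val h0
      rw [Submodule.Quotient.mk_eq_zero] at h1
      exact hz h1
    haveI : Module.Finite k (annSub k A s t K a) := FiniteDimensional.finiteDimensional_submodule _
    haveI : Nontrivial (annSub k A s t K a) := ⟨⟨zS, 0, hz0⟩⟩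
    have hpos : 0 < Module.finrank k (annSub k A s t K a) := Module.finrank_pos
    have hone : Module.finrank k (annSub k A s t K a) = 1 := by omega
    obtain ⟨c, hc⟩ := (finrank_eq_one_iff_of_nonzero' zS hz0).1 hone bS
    have h2 : c • (Submodule.Quotient.mk z : A ⧸ Q) = Submodule.Quotient.mk b :=
      congrArg Subtype.val hc
    rw [← Submodule.Quotient.mk_smul, Submodule.Quotient.eq, hQm] at h2
    have h3 : b = algebraMap k A c * z - (c • z - b) := by
      rw [Algebra.smul_def]
      ring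
    rw [h3]
    refine Ideal.sub_mem _ (Ideal.mul_mem_left _ _ (Ideal.subset_span (by simp))) ?_
    exact Ideal.span_mono (by
      intro x hx
      rcases hx with hx | hx
      · exact Or.inl hx
      · exact Or.inr (Or.inl hx)) h2
  set φ := algebraMap A (Localization.AtPrime M) with hφ
  have hpair : Ideal.span {φ s, φ t} = (Ideal.span {s, t}).map φ := by
    rw [Ideal.map_span, Set.image_pair]
  have hsing : Ideal.span {φ s} = (Ideal.span {s}).map φ := by
    rw [Ideal.map_span, Set.image_singleton]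
  have htrip : Ideal.span {φ s, φ t, φ z} = (Ideal.span {s, t, z}).map φ := by
    rw [Ideal.map_span, Set.image_insert_eq, Set.image_pair]
  refine ⟨φ s, ?_, φ t, ?_, ?_, ?_, φ z, ?_, ?_⟩
  · exact (IsLocalization.AtPrime.to_map_mem_maximal_iff (Localization.AtPrime M) M s).2 hsM
  · exact (IsLocalization.AtPrime.to_map_mem_maximal_iff (Localization.AtPrime M) M t).2 htM
  · intro x hx
    obtain ⟨b, u, hu, huu, hb⟩ := auxSO_surj M x
    have h1 : φ (s * b) = 0 := by
      rw [map_mul, ← hb, ← mul_assoc, hx, zero_mul]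
    obtain ⟨v, hv⟩ := (IsLocalization.map_eq_zero_iff M.primeCompl _ _).1 h1
    have h2 : (v : A) * b = 0 := by
      apply hs
      rw [smul_eq_mul, ← hv]
      ring
    have h3 : φ b = 0 := (IsLocalization.map_eq_zero_iff M.primeCompl _ _).2 ⟨v, h2⟩
    rw [h3] at hb
    exact huu.mul_left_eq_zero.1 hb
  · intro x hx
    obtain ⟨b, u, hu, huu, hb⟩ := auxSO_surj M x
    rw [hsing] at hx ⊢
    have h1 : φ (t * b) ∈ (Ideal.span {s}).map φ := by
      rw [map_mul, ← hb, ← mul_assoc]
      exact Ideal.mul_mem_right _ _ hx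
    obtain ⟨v, hv, hvm⟩ := (auxSO_mem M _ _).1 h1
    obtain ⟨c, hc⟩ := Ideal.mem_span_singleton'.1 hvm
    obtain ⟨n'', hn⟩ := ht (v * b) c (by
      rw [smul_eq_mul, smul_eq_mul, mul_comm s c, hc]
      ring)
    have h2 : φ b ∈ (Ideal.span {s}).map φ := (auxSO_mem M _ _).2 ⟨v, hv, by
      rw [hn, smul_eq_mul]
      exact Ideal.mul_mem_right _ _ (Ideal.mem_span_singleton_self s)⟩
    rw [← hb] at h2
    exact (Ideal.mul_unit_mem_iff_mem _ huu).1 h2
  · rw [hpair]
    intro h1
    obtain ⟨v, hv, hvz⟩ := (auxSO_mem M _ _).1 h1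
    apply hzP
    obtain ⟨c, m, hm, hcm⟩ : ∃ c m, m ∈ M ∧ c * v + m = 1 := by
      have h2 : M ⊔ Ideal.span {v} = ⊤ := by
        apply hM.1.2
        refine lt_of_le_of_ne le_sup_left ?_
        intro h3
        apply hv
        rw [h3]
        exact Ideal.mem_sup_right (Ideal.mem_span_singleton_self v)
      have h4 : (1 : A) ∈ M ⊔ Ideal.span {v} := by
        rw [h2]
        exact Submodule.mem_top
      obtain ⟨m, hm, y, hy, hmy⟩ := Submodule.mem_sup.1 h4
      obtain ⟨c, hc⟩ := Ideal.mem_span_singleton'.1 hy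
      exact ⟨c, m, hm, by rw [hc, add_comm]; exact hmy⟩
    have h5 : z = c * (v * z) + m * z := by
      calc z = (c * v + m) * z := by rw [hcm, one_mul]
        _ = c * (v * z) + m * z := by ring
    rw [h5]
    exact Ideal.add_mem _ (Ideal.mul_mem_left _ _ hvz) (hMzP m hm)
  · intro x
    obtain ⟨b, u, hu, huu, hb⟩ := auxSO_surj M x
    rw [hpair, htrip]
    constructor
    · intro hx
      have h1 : ∀ i, ∃ v, v ∉ M ∧ (i ≤ K → v * (a i * b) ∈ Ideal.span {s, t}) := by
        intro i
        by_cases hi : i ≤ K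
        · have h2 : φ (a i * b) ∈ (Ideal.span {s, t}).map φ := by
            rw [map_mul, ← hb, ← mul_assoc]
            refine Ideal.mul_mem_right _ _ (hx _ ?_)
            exact (IsLocalization.AtPrime.to_map_mem_maximal_iff (Localization.AtPrime M) M
              (a i)).2 (haM i hi)
          obtain ⟨v, hv, hvm⟩ := (auxSO_mem M _ _).1 h2
          exact ⟨v, hv, fun _ => hvm⟩
        · exact ⟨1, fun h => hM.ne_top ((Ideal.eq_top_iff_one M).2 h), fun h => absurd h hi⟩
      choose v hv hvm using h1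
      have hprod : ∏ i ∈ Finset.range (K + 1), v i ∉ M := by
        intro h3
        obtain ⟨i, _, hi⟩ := (hM.isPrime.prod_mem_iff).1 h3
        exact hv i hi
      have h4 : (∏ i ∈ Finset.range (K + 1), v i) * b ∈ Ideal.span {s, t, z} := by
        apply hB
        intro i hi
        have hir : i ∈ Finset.range (K + 1) := Finset.mem_range.2 (by omega)
        rw [← Finset.mul_prod_erase _ v hir]
        have h5 : a i * (v i * (∏ x ∈ (Finset.range (K + 1)).erase i, v x) * b) =
            (∏ x ∈ (Finset.range (K + 1)).erase i, v x) * (v i * (a i * b)) := by ring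
        rw [h5]
        exact Ideal.mul_mem_left _ _ (hvm i hi)
      have h6 : φ b ∈ (Ideal.span {s, t, z}).map φ := (auxSO_mem M _ _).2 ⟨_, hprod, h4⟩
      rw [← hb] at h6
      exact (Ideal.mul_unit_mem_iff_mem _ huu).1 h6
    · intro hx m hm
      obtain ⟨m', u', hu', huu', hm'⟩ := auxSO_surj M m
      have hm'M : m' ∈ M := by
        rw [← IsLocalization.AtPrime.to_map_mem_maximal_iff (Localization.AtPrime M) M m']
        rw [← hφ, ← hm']
        exact Ideal.mul_mem_right _ _ hm
      rw [← htrip] at hx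
      rw [← hpair]
      have key : ∀ y ∈ ({φ s, φ t, φ z} : Set (Localization.AtPrime M)),
          m * y ∈ Ideal.span {φ s, φ t} := by
        rintro y (rfl | rfl | rfl)
        · exact Ideal.mul_mem_left _ _ (Ideal.subset_span (Or.inl rfl))
        · exact Ideal.mul_mem_left _ _ (Ideal.subset_span (Or.inr rfl))
        · rw [hpair]
          apply (Ideal.mul_unit_mem_iff_mem _ huu').1
          have h7 : m * φ z * φ u' = φ (m' * z) := by
            rw [map_mul, ← hm']
            ring
          rw [h7]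
          exact Ideal.mem_map_of_mem _ (hMzP m' hm'M)
      refine Submodule.span_induction (p := fun y _ => m * y ∈ Ideal.span {φ s, φ t})
        (fun y hy => key y hy) ?_ ?_ ?_ hx
      · rw [mul_zero]
        exact Ideal.zero_mem _
      · intro y y' _ _ h8 h9
        rw [mul_add]
        exact Ideal.add_mem _ h8 h9
      · intro c y _ h8
        rw [smul_eq_mul, mul_left_comm]
        exact Ideal.mul_mem_left _ _ h8

end socle

section big

variable {k : Type u} {A : Type v} [Field k] [CommRing A] [Algebra k A] {d : ℕ}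

theorem auxBR_nondeg {k : Type u} {R : Type v} [Field k] [IsAlgClosed k] [CommRing R] [Algebra k R]
    [Module.Finite k R] [IsReduced R] (ν : R) (h : ∀ c, Algebra.trace k R (ν * c) = 0) : ν = 0 := by
  classical
  haveI : IsArtinianRing R := IsArtinianRing.of_finite k R
  apply (IsArtinianRing.equivPi R).injective
  funext m
  rw [map_zero, Pi.zero_apply, IsArtinianRing.equivPi_apply]
  haveI : m.asIdeal.IsMaximal := m.isMaximal
  have hbij : Function.Bijective (algebraMap k (R ⧸ m.asIdeal)) :=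
    IsAlgClosed.algebraMap_bijective_of_isIntegral
  let E : k ≃ₗ[k] (R ⧸ m.asIdeal) :=
    LinearEquiv.ofBijective (Algebra.linearMap k (R ⧸ m.asIdeal)) hbij
  let χ : R →ₗ[k] k := E.symm.toLinearMap ∘ₗ (Ideal.Quotient.mkₐ k m.asIdeal).toLinearMap
  have hχ : ∀ x, algebraMap k (R ⧸ m.asIdeal) (χ x) = Ideal.Quotient.mk m.asIdeal x := by
    intro x
    exact E.apply_symm_apply (Ideal.Quotient.mk m.asIdeal x)
  let e : R := (IsArtinianRing.equivPi R).symm (Pi.single m 1)
  have he : ∀ n : MaximalSpectrum R, Ideal.Quotient.mk n.asIdeal e =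
      (Pi.single m 1 : ∀ n : MaximalSpectrum R, R ⧸ n.asIdeal) n := by
    intro n
    rw [← IsArtinianRing.equivPi_apply]
    show (IsArtinianRing.equivPi R) ((IsArtinianRing.equivPi R).symm (Pi.single m 1)) n = _
    rw [AlgEquiv.apply_symm_apply]
  have hmul : ∀ x : R, x * e = χ x • e := by
    intro x
    apply (IsArtinianRing.equivPi R).injective
    funext n
    rw [IsArtinianRing.equivPi_apply, IsArtinianRing.equivPi_apply, map_mul, he n,
      Algebra.smul_def, map_mul, he n]
    by_cases hn : n = m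
    · subst hn
      rw [← hχ x]
      rfl
    · rw [Pi.single_eq_of_ne hn, mul_zero, mul_zero]
  have hχe : χ e = 1 := by
    apply hbij.1
    rw [hχ, he m, Pi.single_eq_same, map_one]
  have htr : Algebra.trace k R e = 1 := by
    have h1 : Algebra.lmul k R e = χ.smulRight e := by
      ext x
      simp only [Algebra.coe_lmul_eq_mul, LinearMap.mul_apply', LinearMap.smulRight_apply]
      rw [mul_comm, hmul]
    rw [Algebra.trace_apply, h1, LinearMap.trace_smulRight, hχe]
  have h2 := h e
  rw [hmul, map_smul, htr, smul_eq_mul, mul_one] at h2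
  rw [← hχ ν, h2, map_zero]

theorem auxBR_iff {k : Type u} {R : Type v} [Field k] [IsAlgClosed k] [CommRing R] [Algebra k R]
    {ι : Type*} [Fintype ι] [DecidableEq ι] (b : Module.Basis ι k R) :
    ¬ IsReduced R ↔ (Algebra.traceMatrix k b).det = 0 := by
  haveI : Module.Finite k R := Module.Finite.of_basis b
  rw [← Matrix.exists_mulVec_eq_zero_iff]
  constructor
  · intro h
    have : ∃ ν : R, IsNilpotent ν ∧ ν ≠ 0 := by
      by_contra hcon
      push Not at hcon
      exact h ⟨hcon⟩
    obtain ⟨ν, hν, hν0⟩ := this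
    refine ⟨b.equivFun ν, ?_, ?_⟩
    · intro h0
      exact hν0 (b.equivFun.map_eq_zero_iff.1 h0)
    · rw [Algebra.traceMatrix_of_basis_mulVec]
      funext i
      have h1 : IsNilpotent (ν * b i) := (Commute.all ν (b i)).isNilpotent_mul_right hν
      have h2 : IsNilpotent (Algebra.lmul k R (ν * b i)) := h1.map _
      have h3 := (LinearMap.isNilpotent_trace_of_isNilpotent h2).eq_zero
      rw [Pi.zero_apply, Algebra.trace_apply]
      exact h3
  · rintro ⟨v, hv, hv0⟩ hred
    apply hv
    have h1 : b.equivFun (b.equivFun.symm v) = v := LinearEquiv.apply_symm_apply _ _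
    rw [← h1, Algebra.traceMatrix_of_basis_mulVec] at hv0
    have h2 : b.equivFun.symm v = 0 := by
      apply auxBR_nondeg (k := k)
      intro c
      have h3 : Algebra.trace k R ∘ₗ (LinearMap.mulLeft k (b.equivFun.symm v)) = 0 := by
        apply b.ext
        intro i
        exact congrFun hv0 i
      exact LinearMap.congr_fun h3 c
    rw [← h1, h2, map_zero]

/-- the non-reduced locus is closed -/
theorem closed_nonreduced [IsAlgClosed k] :
    ZClosed k A d {I | ¬ IsReduced (A ⧸ I.1)} := by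
  classical
  intro β
  refine ⟨{Matrix.det (Matrix.of fun j l : Fin d =>
    ∑ m : Fin d, (MvPolynomial.X (β j * β l * β m, m) : MvPolynomial (A × Fin d) k))}, ?_⟩
  intro I x hx
  obtain ⟨hli, hsp⟩ := hx
  have hspan : ⊤ ≤ Submodule.span k (Set.range fun j => Ideal.Quotient.mk I.1 (β j)) := by
    intro z _
    obtain ⟨a, rfl⟩ := Ideal.Quotient.mk_surjective z
    rw [hsp a]
    exact sum_mem fun j _ => Submodule.smul_mem _ _ (Submodule.subset_span ⟨j, rfl⟩)
  let b : Module.Basis (Fin d) k (A ⧸ I.1) := Module.Basis.mk hli hspan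
  have hb : ∀ j, b j = Ideal.Quotient.mk I.1 (β j) := fun j => by
    rw [Module.Basis.mk_apply]
  have hrepr : ∀ a j, b.repr (Ideal.Quotient.mk I.1 a) j = x (a, j) := by
    intro a j
    have h1 : Ideal.Quotient.mk I.1 a = ∑ j, x (a, j) • b j := by
      rw [hsp a]
      exact Finset.sum_congr rfl fun j _ => by rw [hb]
    rw [h1, b.repr_sum_self]
  have htr : ∀ c : A, Algebra.trace k (A ⧸ I.1) (Ideal.Quotient.mk I.1 c) =
      ∑ m, x (c * β m, m) := by
    intro c
    rw [Algebra.trace_eq_matrix_trace b, Matrix.trace]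
    refine Finset.sum_congr rfl fun m _ => ?_
    rw [Matrix.diag_apply, Algebra.leftMulMatrix_eq_repr_mul, hb, ← map_mul, hrepr]
  have hdet : MvPolynomial.eval x (Matrix.det (Matrix.of fun j l : Fin d =>
      ∑ m : Fin d, (MvPolynomial.X (β j * β l * β m, m) : MvPolynomial (A × Fin d) k))) =
      (Algebra.traceMatrix k b).det := by
    rw [RingHom.map_det]
    congr 1
    ext j l
    rw [Algebra.traceMatrix_apply, Algebra.traceForm_apply, hb, hb, ← map_mul, htr]
    simp
  simp only [Set.mem_setOf_eq, Set.mem_singleton_iff, forall_eq]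
  rw [hdet]
  exact auxBR_iff b

lemma auxBC_uniq {V : Type*} [AddCommGroup V] [Module k V] (v : Fin d → V)
    (hv : LinearIndependent k v) (c c' : Fin d → k) (h : ∑ m, c m • v m = ∑ m, c' m • v m) :
    ∀ m, c m = c' m := by
  intro m
  have h1 : ∑ m, (c m - c' m) • v m = 0 := by
    simp only [sub_smul, Finset.sum_sub_distrib]
    rw [h, sub_self]
  exact sub_eq_zero.mp (Fintype.linearIndependent_iff.mp hv _ h1 m)

lemma auxBC_exp (I : Ideal A) (γ β : Fin d → A) (x' : A × Fin d → k) (hx' : IsCoord γ I x')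
    (c : Fin d → k) :
    ∑ i, c i • Ideal.Quotient.mk I (β i) =
      ∑ m, (∑ i, c i * x' (β i, m)) • Ideal.Quotient.mk I (γ m) := by
  have h1 : ∀ i, c i • Ideal.Quotient.mk I (β i) =
      ∑ m, (c i * x' (β i, m)) • Ideal.Quotient.mk I (γ m) := by
    intro i
    rw [hx'.2 (β i), Finset.smul_sum]
    simp only [smul_smul]
  rw [Finset.sum_congr rfl (fun i _ => h1 i), Finset.sum_comm]
  simp only [Finset.sum_smul]

lemma auxBC_rel (I : Ideal A) (γ β : Fin d → A) (x' x : A × Fin d → k) (hx' : IsCoord γ I x')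
    (hx : IsCoord β I x) (b : A) (m : Fin d) :
    x' (b, m) = ∑ i, x (b, i) * x' (β i, m) := by
  have h1 := hx.2 b
  rw [auxBC_exp I γ β x' hx', hx'.2 b] at h1
  exact auxBC_uniq _ hx'.1 _ _ h1 m

lemma auxBC_det (I : Ideal A) (γ β : Fin d → A) (x' x : A × Fin d → k) (hx' : IsCoord γ I x')
    (hx : IsCoord β I x) : (Matrix.of fun i m => x' (β i, m)).det ≠ 0 := by
  have h1 : (Matrix.of fun m i => x (γ m, i)) * (Matrix.of fun i m => x' (β i, m)) =
      (1 : Matrix (Fin d) (Fin d) k) := by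
    ext m m'
    rw [Matrix.mul_apply]
    simp only [Matrix.of_apply]
    rw [← auxBC_rel I γ β x' x hx' hx]
    have h2 := hx'.2 (γ m)
    have h3 : Ideal.Quotient.mk I (γ m) =
        ∑ j, (if j = m then (1:k) else 0) • Ideal.Quotient.mk I (γ j) := by
      rw [Finset.sum_eq_single m]
      · rw [if_pos rfl, one_smul]
      · intro j _ hj
        rw [if_neg hj, zero_smul]
      · intro h
        exact absurd (Finset.mem_univ m) h
    have h4 := auxBC_uniq (fun j => Ideal.Quotient.mk I (γ j)) hx'.1 _ _ (h2.symm.trans h3) m'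
    rw [h4, Matrix.one_apply]
    by_cases hmm : m' = m
    · rw [if_pos hmm, if_pos hmm.symm]
    · rw [if_neg hmm, if_neg (fun h => hmm h.symm)]
  intro h0
  have h5 := congrArg Matrix.det h1
  rw [Matrix.det_mul, h0, mul_zero, Matrix.det_one] at h5
  exact zero_ne_one h5

lemma auxBC_ex (I : Ideal A) (γ β : Fin d → A) (x' : A × Fin d → k) (hx' : IsCoord γ I x')
    (hdet : (Matrix.of fun i m => x' (β i, m)).det ≠ 0) : ∃ x : A × Fin d → k, IsCoord β I x := by
  obtain ⟨G, hG⟩ : ∃ G : Matrix (Fin d) (Fin d) k, G = Matrix.of fun i m => x' (β i, m) := ⟨_, rfl⟩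
  rw [← hG] at hdet
  have hun : IsUnit G.det := isUnit_iff_ne_zero.mpr hdet
  have hvm : ∀ (c : Fin d → k) (m : Fin d), ∑ i, c i * x' (β i, m) = (Matrix.vecMul c G) m := by
    intro c m
    rw [hG]
    rfl
  refine ⟨fun p => (Matrix.vecMul (fun m => x' (p.1, m)) G⁻¹) p.2, ?_, ?_⟩
  · rw [Fintype.linearIndependent_iff]
    intro c hc
    rw [auxBC_exp I γ β x' hx' c] at hc
    have h1 := Fintype.linearIndependent_iff.mp hx'.1 _ hc
    have h2 : Matrix.vecMul c G = 0 := by
      funext m
      rw [← hvm]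
      exact h1 m
    have h3 : Matrix.vecMul (Matrix.vecMul c G) G⁻¹ = c := by
      rw [Matrix.vecMul_vecMul, Matrix.mul_nonsing_inv _ hun, Matrix.vecMul_one]
    rw [h2, Matrix.zero_vecMul] at h3
    intro i
    rw [← h3]
    rfl
  · intro b
    simp only
    rw [auxBC_exp I γ β x' hx', hx'.2 b]
    refine Finset.sum_congr rfl fun m _ => ?_
    rw [hvm]
    have h4 : Matrix.vecMul (fun i => Matrix.vecMul (fun m => x' (b, m)) G⁻¹ i) G =
        fun m => x' (b, m) := by
      change Matrix.vecMul (Matrix.vecMul (fun m => x' (b, m)) G⁻¹) G = _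
      rw [Matrix.vecMul_vecMul, Matrix.nonsing_inv_mul _ hun, Matrix.vecMul_one]
    rw [h4]

lemma auxBC_eval (γ β : Fin d → A) {ι : Type} [Fintype ι] (a : ι → A) (j : ι → Fin d)
    (F : MvPolynomial ι k) : ∃ f : MvPolynomial (A × Fin d) k, ∀ (I : Ideal A)
      (x' x : A × Fin d → k), IsCoord γ I x' → IsCoord β I x →
      MvPolynomial.eval x' f = (Matrix.of fun i m => x' (β i, m)).det ^ F.totalDegree *
        MvPolynomial.eval (fun l => x (a l, j l)) F := by
  obtain ⟨G, hG⟩ : ∃ G : Matrix (Fin d) (Fin d) (MvPolynomial (A × Fin d) k),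
      G = Matrix.of fun i m => MvPolynomial.X (β i, m) := ⟨_, rfl⟩
  refine ⟨∑ s ∈ F.support, MvPolynomial.C (F.coeff s) * G.det ^ (F.totalDegree - ∑ l, s l) *
    ∏ l, (∑ m, MvPolynomial.X (a l, m) * G.adjugate m (j l)) ^ (s l), ?_⟩
  intro I x' x hx' hx
  obtain ⟨H, hH⟩ : ∃ H : Matrix (Fin d) (Fin d) k, H = Matrix.of fun i m => x' (β i, m) := ⟨_, rfl⟩
  rw [← hH]
  have hmap : (MvPolynomial.eval x').mapMatrix G = H := by
    rw [hG, hH]
    ext i m
    simp [RingHom.mapMatrix_apply]
  have hdet : MvPolynomial.eval x' G.det = H.det := by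
    rw [RingHom.map_det, hmap]
  have hadj : ∀ m l, MvPolynomial.eval x' (G.adjugate m l) = H.adjugate m l := by
    intro m l
    have h1 := RingHom.map_adjugate (MvPolynomial.eval x') G
    rw [hmap] at h1
    rw [← h1]
    rfl
  have hu : ∀ l, MvPolynomial.eval x' (∑ m, MvPolynomial.X (a l, m) * G.adjugate m (j l)) =
      H.det * x (a l, j l) := by
    intro l
    rw [map_sum]
    simp only [map_mul, MvPolynomial.eval_X, hadj]
    have h1 : ∑ m, x' (a l, m) * H.adjugate m (j l) =
        Matrix.vecMul (Matrix.vecMul (fun i => x (a l, i)) H) H.adjugate (j l) := by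
      change _ = ∑ m, (Matrix.vecMul (fun i => x (a l, i)) H) m * H.adjugate m (j l)
      refine Finset.sum_congr rfl fun m _ => ?_
      congr 1
      rw [auxBC_rel I γ β x' x hx' hx, hH]
      rfl
    rw [h1, Matrix.vecMul_vecMul, Matrix.mul_adjugate, Matrix.vecMul_smul, Matrix.vecMul_one]
    rfl
  rw [map_sum, MvPolynomial.eval_eq', Finset.mul_sum]
  refine Finset.sum_congr rfl fun s hs => ?_
  rw [map_mul, map_mul, map_pow, MvPolynomial.eval_C, hdet, map_prod]
  simp only [map_pow, hu, mul_pow, Finset.prod_mul_distrib]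
  rw [Finset.prod_pow_eq_pow_sum]
  have h2 : ∑ l, s l ≤ F.totalDegree := by
    have h3 := MvPolynomial.le_totalDegree hs
    rwa [Finsupp.sum_fintype _ _ (fun _ => rfl)] at h3
  have h4 : H.det ^ F.totalDegree = H.det ^ (F.totalDegree - ∑ l, s l) * H.det ^ (∑ l, s l) := by
    rw [← pow_add, Nat.sub_add_cancel h2]
  rw [h4]
  ring

/-- outside the chart `β`, or `F = 0` in the chart: a closed condition -/
theorem closed_chart (β : Fin d → A) {ι : Type} [Fintype ι] (a : ι → A) (j : ι → Fin d)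
    (F : MvPolynomial ι k) :
    ZClosed k A d {I | ∀ x, IsCoord β I.1 x → MvPolynomial.eval (fun l => x (a l, j l)) F = 0} := by
  intro γ
  obtain ⟨f, hf⟩ := auxBC_eval γ β a j F
  refine ⟨{(Matrix.of fun i m => (MvPolynomial.X (β i, m) : MvPolynomial (A × Fin d) k)).det * f},
    ?_⟩
  intro I x' hx'
  have hdet : MvPolynomial.eval x'
      (Matrix.of fun i m => (MvPolynomial.X (β i, m) : MvPolynomial (A × Fin d) k)).det =
      (Matrix.of fun i m => x' (β i, m)).det := by
    rw [RingHom.map_det]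
    congr 1
    ext i m
    simp [RingHom.mapMatrix_apply]
  constructor
  · intro h g hg
    rw [Set.mem_singleton_iff.mp hg, map_mul, hdet]
    by_cases h0 : (Matrix.of fun i m => x' (β i, m)).det = 0
    · rw [h0, zero_mul]
    · obtain ⟨x, hx⟩ := auxBC_ex I.1 γ β x' hx' h0
      have h1 : MvPolynomial.eval (fun l => x (a l, j l)) F = 0 := h x hx
      rw [hf I.1 x' x hx' hx, h1, mul_zero, mul_zero]
  · intro h x hx
    have h1 := h _ (Set.mem_singleton _)
    rw [map_mul, hdet, hf I.1 x' x hx' hx] at h1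
    have h2 := auxBC_det I.1 γ β x' x hx' hx
    exact ((mul_eq_zero.mp ((mul_eq_zero.mp h1).resolve_left h2)).resolve_left
      (pow_ne_zero _ h2))

lemma auxBD_trdeg {k : Type u} {K : Type w} [Field k] [Field K] [Algebra k K] {ι : Type}
    {κ : Type} [Fintype ι] [Fintype κ] (x : κ → K) (y : ι → K) (hy : AlgebraicIndependent k y)
    (h : ∀ l, IsAlgebraic (Algebra.adjoin k (Set.range x)) (y l)) :
    Fintype.card ι ≤ Fintype.card κ := by
  have h1 : (AlgebraicIndependent.matroid k K).Indep (Set.range y) := hy.coe_range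
  have h2 : Set.range y ⊆ (AlgebraicIndependent.matroid k K).closure (Set.range x) := by
    rw [AlgebraicIndependent.matroid_closure_eq]
    rintro _ ⟨l, rfl⟩
    exact h l
  have h3 := h1.encard_le_eRk_of_subset h2
  rw [Matroid.eRk_closure_eq] at h3
  have h4 := h3.trans (Matroid.eRk_le_encard _ _)
  have h5 : (Set.range y).encard = Fintype.card ι := by
    rw [← Set.image_univ, hy.injective.encard_image, Set.encard_univ, ENat.card_eq_coe_fintype_card]
  have h6 : (Set.range x).encard ≤ Fintype.card κ := by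
    rw [← Set.image_univ]
    refine (Set.encard_image_le _ _).trans ?_
    rw [Set.encard_univ, ENat.card_eq_coe_fintype_card]
  have h7 := (h5 ▸ h4).trans h6
  exact_mod_cast h7

lemma auxBD_alg {k : Type u} {A : Type v} [Field k] [CommRing A] [Algebra k A]
    [Algebra (P k) A] [IsScalarTower k (P k) A] [Module.Finite (P k) A] {K : Type w} [Field K]
    [Algebra k K] {d : ℕ} (χ : Fin d → A →ₐ[k] K) (i : Fin d) (b : A) :
    IsAlgebraic (Algebra.adjoin k (Set.range fun e : Fin d × Fin 2 =>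
      χ e.1 (algebraMap (P k) A (MvPolynomial.X e.2)))) (χ i b) := by
  have hb : IsIntegral (P k) b := Algebra.IsIntegral.isIntegral b
  obtain ⟨S, hS⟩ : ∃ S, S = Algebra.adjoin k (Set.range fun e : Fin d × Fin 2 =>
      χ e.1 (algebraMap (P k) A (MvPolynomial.X e.2))) := ⟨_, rfl⟩
  have hmem : ∀ e : Fin 2, χ i (algebraMap (P k) A (MvPolynomial.X e)) ∈ S := by
    intro e
    rw [hS]
    exact Algebra.subset_adjoin ⟨(i, e), rfl⟩
  rw [← hS]
  have h1 := IsIntegral.map_of_comp_eq
    ((MvPolynomial.aeval (fun e : Fin 2 => (⟨_, hmem e⟩ : S)) : P k →ₐ[k] S) : P k →+* S)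
    ((χ i : A →ₐ[k] K) : A →+* K) (by
      apply MvPolynomial.ringHom_ext
      · intro r
        have h2 : (algebraMap (P k) A) (MvPolynomial.C r) = algebraMap k A r := by
          rw [IsScalarTower.algebraMap_apply k (P k) A]
          rfl
        simp only [RingHom.comp_apply, AlgHom.coe_toRingHom, RingHom.coe_coe]
        rw [h2, MvPolynomial.aeval_C, AlgHom.commutes]
        rfl
      · intro e
        simp only [RingHom.comp_apply, RingHom.coe_coe]
        rw [MvPolynomial.aeval_X]
        rfl) hb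
  exact h1.isAlgebraic

/-- determinant functions -/
def auxBD_D {k : Type u} {A : Type v} [Field k] [CommRing A] [Algebra k A] {d : ℕ}
    (γ : Fin d → A) (p : Fin d → (A →ₐ[k] k)) : k := Matrix.det (Matrix.of fun i m => p i (γ m))

lemma auxBD_cramer {k : Type u} {A : Type v} [Field k] [CommRing A] [Algebra k A] {d : ℕ}
    (β : Fin d → A) (p : Fin d → (A →ₐ[k] k)) (x : A × Fin d → k)
    (hx : ∀ b i, p i b = ∑ m, x (b, m) * p i (β m)) (a : A) (j : Fin d) :
    auxBD_D β p * x (a, j) = auxBD_D (Function.update β j a) p := by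
  unfold auxBD_D
  have h1 : (Matrix.of fun i m => p i (β m)).mulVec (fun m => x (a, m)) = fun i => p i a := by
    funext i
    rw [hx a i, Matrix.mulVec, dotProduct]
    refine Finset.sum_congr rfl fun m _ => ?_
    rw [Matrix.of_apply, mul_comm]
  have h2 : (Matrix.of fun i m => p i (Function.update β j a m)) =
      (Matrix.of fun i m => p i (β m)).updateCol j (fun i => p i a) := by
    ext i m
    by_cases hm : m = j
    · subst hm
      simp
    · rw [Matrix.updateCol_ne hm, Matrix.of_apply, Matrix.of_apply, Function.update_of_ne hm]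
  rw [h2, ← Matrix.cramer_apply, Matrix.cramer_eq_adjugate_mulVec, ← h1, Matrix.mulVec_mulVec,
    Matrix.adjugate_mul, Matrix.smul_mulVec, Matrix.one_mulVec]
  simp

lemma auxBD_detmem {R : Type u} {K : Type w} [CommRing R] [IsDomain R] [Field K] [Algebra R K]
    {d : ℕ} (M : Matrix (Fin d) (Fin d) K) (h : ∀ i m, IsAlgebraic R (M i m)) :
    IsAlgebraic R M.det := by
  have h1 : M.det ∈ Subalgebra.algebraicClosure R K := by
    rw [Matrix.det_apply]
    refine Subalgebra.sum_mem _ fun σ _ => ?_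
    refine Subalgebra.zsmul_mem _ ?_ _
    exact Subalgebra.prod_mem _ fun i _ => h _ _
  exact h1

/-- more than `2 d` coordinate functions are algebraically dependent on the locus of `d` distinct
points of a surface -/
theorem alg_dep [Algebra (P k) A] [IsScalarTower k (P k) A] [Module.Finite (P k) A]
    (β : Fin d → A) {ι : Type} [Fintype ι] (hι : 2 * d < Fintype.card ι) (a : ι → A)
    (j : ι → Fin d) :
    ∃ F : MvPolynomial ι k, F ≠ 0 ∧ ∀ p : Fin d → (A →ₐ[k] k),
      Matrix.det (Matrix.of fun i m => p i (β m)) ≠ 0 → ∀ x : A × Fin d → k,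
        (∀ b i, p i b = ∑ m, x (b, m) * p i (β m)) →
          MvPolynomial.eval (fun l => x (a l, j l)) F = 0 := by
  classical
  by_contra hcon
  push Not at hcon
  -- the ring of functions
  obtain ⟨Ω, hΩ⟩ : ∃ Ω : Type (max u v),
      Ω = {p : Fin d → (A →ₐ[k] k) // Matrix.det (Matrix.of fun i m => p i (β m)) ≠ 0} := ⟨_, rfl⟩
  obtain ⟨pt, hpt, hsurj⟩ : ∃ pt : Ω → (Fin d → (A →ₐ[k] k)),
      (∀ ω, auxBD_D β (pt ω) ≠ 0) ∧ ∀ p : Fin d → (A →ₐ[k] k),
        Matrix.det (Matrix.of fun i m => p i (β m)) ≠ 0 → ∃ ω, pt ω = p := by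
    subst hΩ
    exact ⟨fun ω => ω.1, fun ω => ω.2, fun p hp => ⟨⟨p, hp⟩, rfl⟩⟩
  clear hΩ
  obtain ⟨y, hy⟩ : ∃ y : ι → (Ω → k), y = fun l ω =>
      (auxBD_D β (pt ω))⁻¹ * auxBD_D (Function.update β (j l) (a l)) (pt ω) := ⟨_, rfl⟩
  have hyx : ∀ ω, ∀ x : A × Fin d → k, (∀ b i, pt ω i b = ∑ m, x (b, m) * pt ω i (β m)) →
      ∀ l, y l ω = x (a l, j l) := by
    intro ω x hx l
    rw [hy]
    show (auxBD_D β (pt ω))⁻¹ * auxBD_D (Function.update β (j l) (a l)) (pt ω) = x (a l, j l)
    rw [← auxBD_cramer β (pt ω) x hx, inv_mul_cancel_left₀ (hpt ω)]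
  have hev : ∀ (F : MvPolynomial ι k) (ω : Ω),
      (MvPolynomial.aeval y F : Ω → k) ω = MvPolynomial.eval (fun l => y l ω) F := by
    intro F ω
    have h1 : (Pi.evalAlgHom k (fun _ : Ω => k) ω) (MvPolynomial.aeval y F) =
        MvPolynomial.aeval (fun l => y l ω) F :=
      MvPolynomial.comp_aeval_apply y (Pi.evalAlgHom k (fun _ : Ω => k) ω) F
    rw [MvPolynomial.aeval_eq_eval] at h1
    exact h1
  have hne : ∀ F : MvPolynomial ι k, F ≠ 0 → MvPolynomial.aeval y F ≠ 0 := by
    intro F hF h0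
    obtain ⟨p, hp, x, hx, hFx⟩ := hcon F hF
    obtain ⟨ω, rfl⟩ := hsurj p hp
    apply hFx
    have h1 := hev F ω
    rw [h0] at h1
    have h2 : (fun l => y l ω) = fun l => x (a l, j l) := by
      funext l
      exact hyx ω x hx l
    rw [h2] at h1
    exact h1.symm
  -- a prime ideal
  obtain ⟨q, hq, -, hqd⟩ := Ideal.exists_le_prime_disjoint (⊥ : Ideal (Ω → k))
    ((nonZeroDivisors (MvPolynomial ι k)).map
      ((MvPolynomial.aeval y : MvPolynomial ι k →ₐ[k] (Ω → k)) : MvPolynomial ι k →* (Ω → k))) (by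
      rw [Set.disjoint_left]
      rintro f hf ⟨F, hF, hFf⟩
      have h1 : f = 0 := hf
      rw [h1] at hFf
      exact hne F (nonZeroDivisors.ne_zero hF) hFf)
  obtain ⟨φ, hφ⟩ : ∃ φ : (Ω → k) →ₐ[k] FractionRing ((Ω → k) ⧸ q),
      φ = (IsScalarTower.toAlgHom k ((Ω → k) ⧸ q) (FractionRing ((Ω → k) ⧸ q))).comp
        (Ideal.Quotient.mkₐ k q) := ⟨_, rfl⟩
  have hφ0 : ∀ f, φ f = 0 → f ∈ q := by
    intro f hf
    rw [hφ] at hf
    have h1 : algebraMap ((Ω → k) ⧸ q) (FractionRing ((Ω → k) ⧸ q)) (Ideal.Quotient.mk q f) = 0 :=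
      hf
    rw [map_eq_zero_iff _ (IsFractionRing.injective _ _)] at h1
    exact Ideal.Quotient.eq_zero_iff_mem.1 h1
  have hind : AlgebraicIndependent k (fun l => φ (y l)) := by
    rw [algebraicIndependent_iff]
    intro F hF
    by_contra hF0
    have h1 : φ (MvPolynomial.aeval y F) = 0 := by
      rw [← hF]
      exact MvPolynomial.comp_aeval_apply y φ F
    have h2 := hφ0 _ h1
    exact Set.disjoint_left.1 hqd h2 ⟨F, mem_nonZeroDivisors_of_ne_zero hF0, rfl⟩
  obtain ⟨ψ, hψ⟩ : ∃ ψ : Fin d → A →ₐ[k] (Ω → k), ∀ i b ω, ψ i b ω = pt ω i b := by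
    refine ⟨fun i => AlgHom.pi (fun ω => pt ω i), fun i b ω => rfl⟩
  have hD : ∀ γ : Fin d → A, (fun ω => auxBD_D γ (pt ω)) =
      Matrix.det (Matrix.of fun i m => ψ i (γ m)) := by
    intro γ
    funext ω
    have h1 := RingHom.map_det (Pi.evalRingHom (fun _ : Ω => k) ω)
      (Matrix.of fun i m => ψ i (γ m))
    have h2 : (Matrix.of fun i m => pt ω i (γ m)) =
        (Pi.evalRingHom (fun _ : Ω => k) ω).mapMatrix (Matrix.of fun i m => ψ i (γ m)) := by
      ext i m
      exact (hψ i (γ m) ω).symm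
    unfold auxBD_D
    rw [h2, ← h1]
    rfl
  have halg : ∀ γ : Fin d → A, IsAlgebraic (Algebra.adjoin k (Set.range fun e : Fin d × Fin 2 =>
      (φ.comp (ψ e.1)) (algebraMap (P k) A (MvPolynomial.X e.2))))
        (φ (fun ω => auxBD_D γ (pt ω))) := by
    intro γ
    rw [hD γ]
    have h1 := RingHom.map_det (φ : (Ω → k) →+* FractionRing ((Ω → k) ⧸ q))
      (Matrix.of fun i m => ψ i (γ m))
    have h2 : φ (Matrix.det (Matrix.of fun i m => ψ i (γ m))) =
        ((φ : (Ω → k) →+* FractionRing ((Ω → k) ⧸ q)).mapMatrix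
          (Matrix.of fun i m => ψ i (γ m))).det := h1
    rw [h2]
    apply auxBD_detmem
    intro i m
    exact auxBD_alg (fun i => φ.comp (ψ i)) i (γ m)
  have h := auxBD_trdeg (fun e : Fin d × Fin 2 =>
      (φ.comp (ψ e.1)) (algebraMap (P k) A (MvPolynomial.X e.2))) (fun l => φ (y l)) hind (by
    intro l
    have h1 : (fun ω => auxBD_D β (pt ω)) * y l =
        fun ω => auxBD_D (Function.update β (j l) (a l)) (pt ω) := by
      funext ω
      rw [hy]
      show auxBD_D β (pt ω) * ((auxBD_D β (pt ω))⁻¹ *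
        auxBD_D (Function.update β (j l) (a l)) (pt ω)) = _
      rw [mul_inv_cancel_left₀ (hpt ω)]
    have h2 : φ (fun ω => auxBD_D β (pt ω)) ≠ 0 := by
      intro h0
      have h3 : (fun ω => auxBD_D β (pt ω)) * (fun ω => (auxBD_D β (pt ω))⁻¹) = 1 := by
        funext ω
        exact mul_inv_cancel₀ (hpt ω)
      have h4 := congrArg φ h3
      rw [map_mul, h0, zero_mul, map_one] at h4
      exact zero_ne_one h4
    have h5 : φ (y l) = (φ (fun ω => auxBD_D β (pt ω)))⁻¹ *
        φ (fun ω => auxBD_D (Function.update β (j l) (a l)) (pt ω)) := by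
      rw [← h1, map_mul, inv_mul_cancel_left₀ h2]
    show IsAlgebraic _ (φ (y l))
    rw [h5]
    exact (halg β).inv.mul (halg _))
  rw [Fintype.card_prod, Fintype.card_fin, Fintype.card_fin] at h
  omega

theorem auxBP_inj {k : Type u} {R : Type v} [Field k] [CommRing R] [Algebra k R] [IsAlgClosed k]
    [Module.Finite k R] [IsReduced R] (r : R) (h : ∀ p : R →ₐ[k] k, p r = 0) : r = 0 := by
  haveI : IsArtinianRing R := IsArtinianRing.of_finite k R
  have h1 : r ∈ Ideal.jacobson (⊥ : Ideal R) := by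
    rw [Ideal.jacobson, Ideal.mem_sInf]
    rintro m ⟨-, hm⟩
    haveI : m.IsMaximal := hm
    letI : Field (R ⧸ m) := Ideal.Quotient.field m
    haveI : Algebra.IsIntegral k (R ⧸ m) := inferInstance
    have hb : Function.Bijective (algebraMap k (R ⧸ m)) :=
      IsAlgClosed.algebraMap_bijective_of_isIntegral
    let e : k ≃ₐ[k] (R ⧸ m) := AlgEquiv.ofBijective (Algebra.ofId k (R ⧸ m)) hb
    have h2 := h ((e.symm : (R ⧸ m) →ₐ[k] k).comp (Ideal.Quotient.mkₐ k m))
    have h3 : e.symm (Ideal.Quotient.mk m r) = 0 := h2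
    have h4 : Ideal.Quotient.mk m r = 0 := by
      have := congrArg e h3
      rwa [AlgEquiv.apply_symm_apply, map_zero] at this
    exact Ideal.Quotient.eq_zero_iff_mem.1 h4
  have h2 : IsNilpotent r := by
    have h3 := IsArtinianRing.isNilpotent_jacobson_bot (R := R)
    obtain ⟨n, hn⟩ := h3
    refine ⟨n, ?_⟩
    have h4 : r ^ n ∈ (Ideal.jacobson (⊥ : Ideal R)) ^ n := Ideal.pow_mem_pow h1 n
    rw [hn] at h4
    exact h4
  exact h2.eq_zero

/-- a reduced subscheme of length `d` is given by `d` points -/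
theorem reduced_points [IsAlgClosed k] (I : Hilb k A d) (hr : IsReduced (A ⧸ I.1))
    (β : Fin d → A) (x : A × Fin d → k) (hx : IsCoord β I.1 x) :
    ∃ p : Fin d → (A →ₐ[k] k), Matrix.det (Matrix.of fun i m => p i (β m)) ≠ 0 ∧
      ∀ b i, p i b = ∑ m, x (b, m) * p i (β m) := by
  obtain ⟨I, hfin, hrk⟩ := I
  have hcard : Nat.card ((A ⧸ I) →ₐ[k] k) = d := by
    apply le_antisymm
    · rw [← hrk]; exact card_algHom_le_finrank k (A ⧸ I) k
    · haveI : Finite ((A ⧸ I) →ₐ[k] k) := inferInstance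
      haveI : Fintype ((A ⧸ I) →ₐ[k] k) := Fintype.ofFinite _
      let e : (A ⧸ I) →ₗ[k] (((A ⧸ I) →ₐ[k] k) → k) := LinearMap.pi fun p => p.toLinearMap
      have he : Function.Injective e := by
        rw [injective_iff_map_eq_zero]
        intro r hrr
        exact auxBP_inj r (fun p => congrFun hrr p)
      have h1 := LinearMap.finrank_le_finrank_of_injective he
      rw [hrk, Module.finrank_fintype_fun_eq_card] at h1
      rwa [Nat.card_eq_fintype_card]
  have hσ : Nonempty (Fin d ≃ ((A ⧸ I) →ₐ[k] k)) := by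
    rw [← hcard]
    exact ⟨(Finite.equivFin _).symm⟩
  obtain ⟨σ⟩ := hσ
  refine ⟨fun i => (σ i).comp (Ideal.Quotient.mkₐ k I), ?_, ?_⟩
  · intro hdet
    rw [← Matrix.exists_mulVec_eq_zero_iff] at hdet
    obtain ⟨v, hv0, hv⟩ := hdet
    have h1 : ∀ p : (A ⧸ I) →ₐ[k] k, p (∑ m, v m • Ideal.Quotient.mk I (β m)) = 0 := by
      intro p
      obtain ⟨i, rfl⟩ := σ.surjective p
      have h2 := congrFun hv i
      rw [map_sum]
      simp only [map_smul, smul_eq_mul]
      simp only [Matrix.mulVec, dotProduct, Matrix.of_apply, AlgHom.comp_apply,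
        Ideal.Quotient.mkₐ_eq_mk, Pi.zero_apply] at h2
      rw [← h2]
      exact Finset.sum_congr rfl fun m _ => mul_comm _ _
    have h2 := auxBP_inj _ h1
    have h3 := Fintype.linearIndependent_iff.1 hx.1 v h2
    exact hv0 (funext h3)
  · intro b i
    have h1 := congrArg (σ i) (hx.2 b)
    rw [map_sum] at h1
    simp only [map_smul, smul_eq_mul] at h1
    exact h1

/-- infinitely many maximal ideals -/
theorem auxBE_inf [IsDomain A] [IsJacobsonRing A] (hA : ¬ IsField A) (d : ℕ) :
    ∃ S : Finset (Ideal A), S.card = d ∧ ∀ m ∈ S, m.IsMaximal := by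
  classical
  induction d with
  | zero => exact ⟨∅, rfl, by simp⟩
  | succ d ih =>
    obtain ⟨S, hS, hmax⟩ := ih
    have hb : ∀ m : Ideal A, ∃ b : A, b ≠ 0 ∧ (m ∈ S → b ∈ m) := by
      intro m
      by_cases hm : m ∈ S
      · obtain ⟨b, hb1, hb2⟩ := Submodule.exists_mem_ne_zero_of_ne_bot
          (Ring.ne_bot_of_isMaximal_of_not_isField (hmax m hm) hA)
        exact ⟨b, hb2, fun _ => hb1⟩
      · exact ⟨1, one_ne_zero, fun h => absurd h hm⟩
    choose b hb0 hbm using hb
    have hprod : ∏ m ∈ S, b m ≠ 0 := Finset.prod_ne_zero_iff.2 fun m _ => hb0 m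
    have hjac : (⊥ : Ideal A).jacobson = ⊥ :=
      IsJacobsonRing.out inferInstance (Ideal.isPrime_bot (α := A)).isRadical
    have hnot : ∏ m ∈ S, b m ∉ (⊥ : Ideal A).jacobson := by
      rw [hjac]
      exact hprod
    have hex : ∃ M : Ideal A, M.IsMaximal ∧ ∏ m ∈ S, b m ∉ M := by
      by_contra hcon
      push Not at hcon
      exact hnot (Ideal.mem_sInf.2 fun {J} hJ => hcon J hJ.2)
    obtain ⟨M, hM, hMb⟩ := hex
    have hMS : M ∉ S := fun h => hMb (Ideal.mem_of_dvd M (Finset.dvd_prod_of_mem b h) (hbm M h))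
    refine ⟨insert M S, by rw [Finset.card_insert_of_notMem hMS, hS], ?_⟩
    intro m hm
    rcases Finset.mem_insert.1 hm with rfl | hm
    · exact hM
    · exact hmax m hm

theorem auxBE_finrank [IsAlgClosed k] [Algebra.FiniteType k A] (M : Ideal A) (hM : M.IsMaximal) :
    Module.Finite k (A ⧸ M) ∧ Module.finrank k (A ⧸ M) = 1 := by
  let _ : Field (A ⧸ M) := Ideal.Quotient.field M
  have : Module.Finite k (A ⧸ M) := finite_of_finite_type_of_isJacobsonRing k (A ⧸ M)
  have hbij := IsAlgClosed.algebraMap_bijective_of_isIntegral (k := k) (K := A ⧸ M)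
  refine ⟨inferInstance, ?_⟩
  have e : k ≃ₗ[k] (A ⧸ M) := LinearEquiv.ofBijective (Algebra.linearMap k (A ⧸ M)) hbij
  rw [← e.finrank_eq, Module.finrank_self]

theorem exists_reduced [IsAlgClosed k] [IsDomain A] [Algebra.FiniteType k A] (hA : ¬ IsField A)
    (d : ℕ) : ∃ I : Hilb k A d, IsReduced (A ⧸ I.1) := by
  classical
  have : IsJacobsonRing A := isJacobsonRing_of_finiteType (A := k)
  obtain ⟨S, hS, hmax⟩ := auxBE_inf hA d
  let f : S → Ideal A := fun m => m.1
  have hcop : Pairwise (Function.onFun IsCoprime f) := by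
    intro m m' hne
    have := hmax m.1 m.2
    have := hmax m'.1 m'.2
    exact Ideal.isCoprime_of_isMaximal fun h => hne (Subtype.ext h)
  let φ : A →ₐ[k] (∀ m : S, A ⧸ f m) := AlgHom.pi fun m => Ideal.Quotient.mkₐ k (f m)
  have hφ : Function.Surjective φ := by
    intro y
    obtain ⟨r, hr⟩ := Ideal.pi_quotient_surjective hcop y
    exact ⟨r, funext hr⟩
  have e : (A ⧸ RingHom.ker φ) ≃ₐ[k] (∀ m : S, A ⧸ f m) :=
    Ideal.quotientKerAlgEquivOfSurjective hφ
  have hfin : ∀ m : S, Module.Finite k (A ⧸ f m) := fun m => (auxBE_finrank m.1 (hmax m.1 m.2)).1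
  have hrank : ∀ m : S, Module.finrank k (A ⧸ f m) = 1 :=
    fun m => (auxBE_finrank m.1 (hmax m.1 m.2)).2
  have hfree : ∀ m : S, Module.Free k (A ⧸ f m) := fun m => Module.Free.of_divisionRing k _
  have hred : ∀ m : S, IsReduced (A ⧸ f m) := by
    intro m
    have : (f m).IsPrime := (hmax m.1 m.2).isPrime
    infer_instance
  refine ⟨⟨RingHom.ker φ, Module.Finite.equiv e.symm.toLinearEquiv, ?_⟩, ?_⟩
  · rw [e.toLinearEquiv.finrank_eq, Module.finrank_pi_fintype]
    simp [hrank, hS]
  · exact isReduced_of_injective e.toRingEquiv.toRingHom e.injective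

/-- the quotient by an ideal which is the kernel of a surjective linear map -/
theorem auxBF_coord {n : ℕ} {D : Type*} [AddCommGroup D] [Module k D] (T : A →ₗ[k] D)
    (Bas : Module.Basis (Fin n) k D) (β : Fin n → A) (hβ : ∀ m, T (β m) = Bas m) (I : Ideal A)
    (hI : ∀ a, a ∈ I ↔ T a = 0) :
    (Module.Finite k (A ⧸ I) ∧ Module.finrank k (A ⧸ I) = n) ∧
      IsCoord β I (fun p => Bas.repr (T p.1) p.2) := by
  have hsurj : Function.Surjective T := by
    intro z
    refine ⟨∑ m, Bas.repr z m • β m, ?_⟩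
    rw [map_sum]
    simp only [map_smul, hβ]
    exact Bas.sum_repr z
  have hker : I.restrictScalars k = LinearMap.ker T := by
    ext a
    rw [LinearMap.mem_ker]
    exact hI a
  obtain ⟨E, hE⟩ : ∃ E : (A ⧸ I) ≃ₗ[k] D, ∀ a, E (Ideal.Quotient.mk I a) = T a := by
    refine ⟨(Submodule.Quotient.restrictScalarsEquiv k I).symm ≪≫ₗ
      (Submodule.quotEquivOfEq _ _ hker) ≪≫ₗ (T.quotKerEquivOfSurjective hsurj), fun a => rfl⟩
  have hEβ : ∀ m, E (Ideal.Quotient.mk I (β m)) = Bas m := fun m => by rw [hE, hβ]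
  have : Module.Finite k D := Module.Finite.of_basis Bas
  refine ⟨⟨Module.Finite.equiv E.symm, ?_⟩, ?_, ?_⟩
  · rw [E.finrank_eq, Module.finrank_eq_card_basis Bas, Fintype.card_fin]
  · refine LinearIndependent.of_comp E.toLinearMap ?_
    have h1 : (E.toLinearMap ∘ fun m => Ideal.Quotient.mk I (β m)) = Bas := funext hEβ
    rw [h1]
    exact Bas.linearIndependent
  · intro a
    apply E.injective
    rw [map_sum, hE]
    simp only [map_smul, hEβ]
    exact (Bas.sum_repr (T a)).symm

/-- the ideals between `M ^ (r + 1)` and `M ^ r` of given colength contain an affine space -/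
theorem exists_family (M : Ideal A) (hM : ∀ a : A, ∃ c : k, a - algebraMap k A c ∈ M) (r L h q : ℕ)
    (hfin : Module.Finite k (A ⧸ M ^ (r + 1))) (hL : Module.finrank k (A ⧸ M ^ r) = L)
    (hh : Module.finrank k (A ⧸ M ^ (r + 1)) = L + h) (hq : q ≤ h) :
    ∃ (β : Fin (L + (h - q)) → A) (a : Fin q × Fin (h - q) → A)
      (j : Fin q × Fin (h - q) → Fin (L + (h - q))), ∀ y : Fin q × Fin (h - q) → k,
        ∃ (I : Hilb k A (L + (h - q))) (x : A × Fin (L + (h - q)) → k),
          IsCoord β I.1 x ∧ ∀ l, x (a l, j l) = y l := by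
  classical
  have hle : M ^ (r + 1) ≤ M ^ r := Ideal.pow_le_pow_right (Nat.le_succ r)
  -- the projection
  obtain ⟨π, hπ⟩ : ∃ π : (A ⧸ M ^ (r + 1)) →ₗ[k] (A ⧸ M ^ r),
      ∀ a, π (Ideal.Quotient.mk _ a) = Ideal.Quotient.mk _ a :=
    ⟨(Ideal.Quotient.factorₐ k hle).toLinearMap, fun a => rfl⟩
  obtain ⟨pr, hpr⟩ : ∃ pr : A →ₗ[k] (A ⧸ M ^ (r + 1)), ∀ a, pr a = Ideal.Quotient.mk _ a :=
    ⟨(Ideal.Quotient.mkₐ k (M ^ (r + 1))).toLinearMap, fun a => rfl⟩
  have hprs : Function.Surjective pr := by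
    intro b
    obtain ⟨a, ha⟩ := Ideal.Quotient.mk_surjective b
    exact ⟨a, (hpr a).trans ha⟩
  have hπs : Function.Surjective π := by
    intro b
    obtain ⟨a, ha⟩ := Ideal.Quotient.mk_surjective b
    exact ⟨Ideal.Quotient.mk _ a, (hπ a).trans ha⟩
  have hfinC : Module.Finite k (A ⧸ M ^ r) := Module.Finite.of_surjective π hπs
  have hN : Module.finrank k (LinearMap.ker π) = h := by
    have h1 := LinearMap.finrank_range_add_finrank_ker π
    rw [LinearMap.range_eq_top.2 hπs, finrank_top, hL, hh] at h1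
    omega
  obtain ⟨v⟩ : Nonempty (Module.Basis (Fin h) k (LinearMap.ker π)) :=
    ⟨Module.finBasisOfFinrankEq k _ hN⟩
  obtain ⟨c⟩ : Nonempty (Module.Basis (Fin L) k (A ⧸ M ^ r)) :=
    ⟨Module.finBasisOfFinrankEq k _ hL⟩
  obtain ⟨P', hP'⟩ := LinearMap.exists_leftInverse_of_injective (LinearMap.ker π).subtype
    (LinearMap.ker_eq_bot.2 (Submodule.injective_subtype _))
  have hP'' : ∀ n : LinearMap.ker π, P' n = n := fun n => LinearMap.congr_fun hP' n
  have hΨ : ∀ z : (A ⧸ M ^ r) × LinearMap.ker π, ∃ a : A, π (pr a) = z.1 ∧ P' (pr a) = z.2 := by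
    rintro ⟨z1, z2⟩
    obtain ⟨b, hb⟩ := hπs z1
    obtain ⟨a, ha⟩ := hprs (b + ((z2 - P' b : LinearMap.ker π) : A ⧸ M ^ (r + 1)))
    refine ⟨a, ?_, ?_⟩
    · rw [ha, map_add, hb]
      have h2 : π ((z2 - P' b : LinearMap.ker π) : A ⧸ M ^ (r + 1)) = 0 :=
        (z2 - P' b : LinearMap.ker π).2
      rw [h2, add_zero]
    · rw [ha, map_add, hP'']
      abel
  -- the basis of the target
  obtain ⟨Bas, hBas⟩ : ∃ Bas : Module.Basis (Fin (L + (h - q))) k
      ((A ⧸ M ^ r) × (Fin (h - q) → k)),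
      Bas = (c.prod (Pi.basisFun k (Fin (h - q)))).reindex finSumFinEquiv := ⟨_, rfl⟩
  have hB1 : ∀ i, Bas (Fin.castAdd (h - q) i) = (c i, 0) := by
    intro i
    rw [hBas, Module.Basis.reindex_apply, finSumFinEquiv_symm_apply_castAdd]
    ext <;> simp
  have hB2 : ∀ i, Bas (Fin.natAdd L i) = (0, Pi.single i 1) := by
    intro i
    rw [hBas, Module.Basis.reindex_apply, finSumFinEquiv_symm_apply_natAdd]
    ext <;> simp
  have hB3 : ∀ (f : Fin (h - q) → k) i, Bas.repr (0, f) (Fin.natAdd L i) = f i := by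
    intro f i
    rw [hBas, Module.Basis.repr_reindex_apply, finSumFinEquiv_symm_apply_natAdd,
      Module.Basis.prod_repr_inr, Pi.basisFun_repr]
  -- the elements
  have hidx : ∀ j : Fin (h - q), q + (j : ℕ) < h := fun j => by have := j.2; omega
  have hidx' : ∀ i : Fin q, (i : ℕ) < h := fun i => by have := i.2; omega
  choose bc hbc1 hbc2 using fun i : Fin L => hΨ (c i, 0)
  choose bv hbv1 hbv2 using fun i : Fin h => hΨ (0, v i)
  obtain ⟨β, hβc, hβv⟩ : ∃ β : Fin (L + (h - q)) → A, (∀ i, β (Fin.castAdd (h - q) i) = bc i) ∧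
      ∀ j : Fin (h - q), β (Fin.natAdd L j) = bv ⟨q + j, hidx j⟩ :=
    ⟨fun m => Fin.addCases (motive := fun _ => A) bc (fun j => bv ⟨q + j, hidx j⟩) m,
      fun i => Fin.addCases_left i, fun j => Fin.addCases_right j⟩
  refine ⟨β, fun l => bv ⟨l.1, hidx' l.1⟩, fun l => Fin.natAdd L l.2, fun y => ?_⟩
  obtain ⟨w, hw1, hw2⟩ : ∃ w : (LinearMap.ker π) →ₗ[k] (Fin (h - q) → k),
      (∀ j : Fin (h - q), w (v ⟨q + j, hidx j⟩) = Pi.single j 1) ∧
      ∀ i : Fin q, w (v ⟨i, hidx' i⟩) = fun j => y (i, j) := by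
    refine ⟨v.constr k (fun i : Fin h => if hi : (i : ℕ) < q then (fun j => y (⟨i, hi⟩, j))
      else Pi.single (⟨(i : ℕ) - q, by have := i.2; omega⟩ : Fin (h - q)) 1), ?_, ?_⟩
    · intro j
      rw [Module.Basis.constr_basis, dif_neg (by simp)]
      congr 1
      exact Fin.ext (by simp)
    · intro i
      rw [Module.Basis.constr_basis, dif_pos (by simp)]
  obtain ⟨T, hT⟩ : ∃ T : A →ₗ[k] ((A ⧸ M ^ r) × (Fin (h - q) → k)),
      ∀ a, T a = (π (pr a), w (P' (pr a))) :=
    ⟨(π.prod (w ∘ₗ P')) ∘ₗ pr, fun a => rfl⟩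
  have hTpr : ∀ a ∈ M ^ (r + 1), T a = 0 := by
    intro a ha
    have h1 : pr a = 0 := by
      rw [hpr]
      exact Ideal.Quotient.eq_zero_iff_mem.2 ha
    rw [hT, h1, map_zero, map_zero, map_zero]
    rfl
  have hTr : ∀ a, T a = 0 → a ∈ M ^ r := by
    intro a ha
    rw [hT] at ha
    have h1 : π (pr a) = 0 := (Prod.ext_iff.1 ha).1
    rw [hpr, hπ] at h1
    exact Ideal.Quotient.eq_zero_iff_mem.1 h1
  obtain ⟨I, hI⟩ : ∃ I : Ideal A, ∀ a, a ∈ I ↔ T a = 0 := by
    refine ⟨{ carrier := {a | T a = 0}, add_mem' := ?_, zero_mem' := ?_, smul_mem' := ?_ },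
      fun a => Iff.rfl⟩
    · intro a b ha hb
      show T (a + b) = 0
      have ha' : T a = 0 := ha
      have hb' : T b = 0 := hb
      rw [map_add, ha', hb', add_zero]
    · exact map_zero T
    · intro s a ha
      show T (s * a) = 0
      have ha' : T a = 0 := ha
      obtain ⟨c', hc'⟩ := hM s
      have h1 : s * a = c' • a + (s - algebraMap k A c') * a := by
        rw [Algebra.smul_def]
        ring
      have h2 : (s - algebraMap k A c') * a ∈ M ^ (r + 1) := by
        rw [pow_succ']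
        exact Ideal.mul_mem_mul hc' (hTr a ha')
      rw [h1, map_add, map_smul, ha', smul_zero, hTpr _ h2, add_zero]
  have hβT : ∀ m, T (β m) = Bas m := by
    intro m
    refine Fin.addCases (fun i => ?_) (fun j => ?_) m
    · rw [hβc, hB1, hT, hbc1, hbc2, map_zero]
    · rw [hβv, hB2, hT, hbv1, hbv2, hw1]
  obtain ⟨h1, h2⟩ := auxBF_coord T Bas _ hβT I hI
  refine ⟨⟨I, h1⟩, _, h2, fun l => ?_⟩
  show Bas.repr (T (bv ⟨l.1, hidx' l.1⟩)) (Fin.natAdd L l.2) = y l
  rw [hT, hbv1, hbv2, hw2]
  exact hB3 _ _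

/-- numerical lemma -/
theorem exists_big (L : ℕ → ℕ) (h0 : L 0 = 0) (hmono : Monotone L) (r₀ : ℕ)
    (hr : 2 * r₀ ^ 2 + 3 * r₀ < L r₀) :
    ∃ r, 2 * (L r + ((L (r + 1) - L r) - (L (r + 1) - L r) / 2)) <
      ((L (r + 1) - L r) / 2) * ((L (r + 1) - L r) - (L (r + 1) - L r) / 2) := by
  by_contra hc
  have hc' : ∀ r, ((L (r + 1) - L r) / 2) * ((L (r + 1) - L r) - (L (r + 1) - L r) / 2) ≤
      2 * (L r + ((L (r + 1) - L r) - (L (r + 1) - L r) / 2)) := by
    intro r
    by_contra h1
    exact hc ⟨r, not_le.mp h1⟩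
  have key : ∀ r, L r ≤ 2 * r ^ 2 + 3 * r := by
    intro r
    induction r with
    | zero => simp [h0]
    | succ r ih =>
      have h1 := hc' r
      have hm := hmono (Nat.le_succ r)
      obtain ⟨h, hh⟩ : ∃ h, L (r + 1) = L r + h := ⟨L (r + 1) - L r, by
        rw [Nat.succ_eq_add_one] at hm; omega⟩
      rw [hh, Nat.add_sub_cancel_left] at h1
      by_contra hlt
      have h6 : 4 * r + 6 ≤ h := by
        by_contra h7
        apply hlt
        have h8 : h ≤ 4 * r + 5 := by omega
        rw [hh]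
        nlinarith
      have ha : 2 * r + 3 ≤ h / 2 := by omega
      have hb : 2 * r + 3 ≤ h - h / 2 := by omega
      generalize h / 2 = a at *
      generalize h - a = b at *
      obtain ⟨a', rfl⟩ := Nat.exists_eq_add_of_le ha
      obtain ⟨b', rfl⟩ := Nat.exists_eq_add_of_le hb
      nlinarith [Nat.zero_le (a' * b'), Nat.zero_le (r * a'), Nat.zero_le (r * b')]
  exact absurd (key r₀) (not_le.mpr hr)

/-- multiplicity greater than four -/
theorem exists_of_mult (L : ℕ → ℕ) (e : ℝ) (he : 4 < e)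
    (h : Filter.Tendsto (fun r : ℕ => 2 * (L r : ℝ) / (r : ℝ) ^ 2) Filter.atTop (nhds e)) :
    ∃ r : ℕ, 2 * r ^ 2 + 3 * r < L r := by
  classical
  set e' : ℝ := (4 + e) / 2 with he'
  have h1 : 4 < e' := by rw [he']; linarith
  have h2 : e' < e := by rw [he']; linarith
  have hev := h.eventually (lt_mem_nhds h2)
  obtain ⟨N, hN⟩ := Filter.eventually_atTop.1 hev
  obtain ⟨K, hK⟩ := exists_nat_gt (3 / (e' / 2 - 2))
  refine ⟨max N (max K 1), ?_⟩
  set r := max N (max K 1) with hr
  have hrN : N ≤ r := le_max_left _ _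
  have hrK : K ≤ r := le_trans (le_max_left _ _) (le_max_right _ _)
  have hr1 : 1 ≤ r := le_trans (le_max_right _ _) (le_max_right _ _)
  have hrpos : (0 : ℝ) < r := by exact_mod_cast hr1
  have h3 := hN r hrN
  have hr2 : (0 : ℝ) < (r : ℝ) ^ 2 := by positivity
  rw [lt_div_iff₀ hr2] at h3
  have hpos : 0 < e' / 2 - 2 := by linarith
  have hKr : (K : ℝ) ≤ r := by exact_mod_cast hrK
  have h4 : 3 / (e' / 2 - 2) < r := lt_of_lt_of_le hK hKr
  rw [div_lt_iff₀ hpos] at h4
  have h5 : (2 : ℝ) * (r : ℝ) ^ 2 + 3 * (r : ℝ) < (L r : ℝ) := by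
    nlinarith
  exact_mod_cast h5

theorem finite_pow [IsAlgClosed k] [Algebra.FiniteType k A] (M : Ideal A) (hM : M.IsMaximal)
    (r : ℕ) : Module.Finite k (A ⧸ M ^ r) := by
  have : Algebra.FiniteType k (A ⧸ M ^ r) := inferInstance
  rw [Module.finite_iff_krullDimLE_zero k (A ⧸ M ^ r)]
  rw [Ideal.krullDimLE_zero_quotient_iff_forall_minimalPrimes_isMaximal]
  intro J hJ
  have hJp : J.IsPrime := hJ.1.1
  have hle : M ^ r ≤ J := hJ.1.2
  have hMJ : M ≤ J := by
    by_cases hr : r = 0
    · subst hr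
      rw [pow_zero, Ideal.one_eq_top] at hle
      exact absurd (top_le_iff.1 hle) hJp.ne_top
    · exact hJp.le_of_pow_le hle
  rw [← hM.eq_of_le hJp.ne_top hMJ]
  exact hM

theorem exists_const [IsAlgClosed k] [Algebra.FiniteType k A] (M : Ideal A) (hM : M.IsMaximal)
    (a : A) : ∃ c : k, a - algebraMap k A c ∈ M := by
  letI := Ideal.Quotient.field M
  have hf : Module.Finite k (A ⧸ M) := finite_of_finite_type_of_isJacobsonRing k (A ⧸ M)
  have hi : Algebra.IsIntegral k (A ⧸ M) := inferInstance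
  obtain ⟨c, hc⟩ := (IsAlgClosed.algebraMap_bijective_of_isIntegral (k := k) (K := A ⧸ M)).2
    (Ideal.Quotient.mk M a)
  refine ⟨c, ?_⟩
  rw [← Ideal.Quotient.eq]
  rw [← hc]
  rfl

theorem big_family [IsAlgClosed k] [IsDomain A] [Algebra.FiniteType k A] (hA : ¬ IsField A)
    [Algebra (P k) A] [IsScalarTower k (P k) A] [Module.Finite (P k) A]
    (β : Fin d → A) {ι : Type} [Fintype ι] (hι : 2 * d < Fintype.card ι) (a : ι → A)
    (j : ι → Fin d)
    (hfam : ∀ y : ι → k, ∃ (I : Hilb k A d) (x : A × Fin d → k), IsCoord β I.1 x ∧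
      ∀ l, x (a l, j l) = y l) : ¬ IrreducibleSpace (Hilb k A d) := by
  intro hirr
  obtain ⟨F, hF, hF2⟩ := alg_dep (k := k) (A := A) β hι a j
  obtain ⟨-, hpre⟩ := (irreducibleSpace_def (Hilb k A d)).1 hirr
  have hC1 : IsClosed {I : Hilb k A d | ∀ x, IsCoord β I.1 x →
      MvPolynomial.eval (fun l => x (a l, j l)) F = 0} :=
    (isClosed_iff _).2 (closed_chart β a j F)
  have hC2 : IsClosed {I : Hilb k A d | ¬ IsReduced (A ⧸ I.1)} :=
    (isClosed_iff _).2 closed_nonreduced
  have hcov : (Set.univ : Set (Hilb k A d)) ⊆ {I : Hilb k A d | ∀ x, IsCoord β I.1 x →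
      MvPolynomial.eval (fun l => x (a l, j l)) F = 0} ∪ {I : Hilb k A d | ¬ IsReduced (A ⧸ I.1)} := by
    intro Z _
    by_cases hZ : IsReduced (A ⧸ Z.1)
    · left
      intro x hx
      obtain ⟨p, hp1, hp2⟩ := reduced_points Z hZ β x hx
      exact hF2 p hp1 x hp2
    · right
      exact hZ
  rcases (isPreirreducible_iff_isClosed_union_isClosed.1 hpre) _ _ hC1 hC2 hcov with h | h
  · refine hF (MvPolynomial.funext fun y => ?_)
    obtain ⟨I, x, hx, hxy⟩ := hfam y
    have h1 := h (Set.mem_univ I) x hx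
    rw [map_zero]
    rw [← h1]
    congr 1
    congr 1
    funext l
    exact (hxy l).symm
  · obtain ⟨Z, hZ⟩ := exists_reduced (k := k) (A := A) hA d
    exact h (Set.mem_univ Z) hZ

end big

section final

variable {k : Type u} [Field k] {A : Type v} [CommRing A] [Algebra k A]

lemma finrank_maximal [IsAlgClosed k] [Algebra.FiniteType k A] (M : Ideal A) [M.IsMaximal] :
    Module.finrank k (A ⧸ M) = 1 := by
  letI := Ideal.Quotient.field M
  haveI : Module.Finite k (A ⧸ M) := finite_of_finite_type_of_isJacobsonRing k (A ⧸ M)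
  have hb : Function.Bijective (algebraMap k (A ⧸ M)) :=
    IsAlgClosed.algebraMap_bijective_of_isIntegral (k := k) (K := A ⧸ M)
  have h1 := (AlgEquiv.ofBijective (Algebra.ofId k (A ⧸ M)) hb).toLinearEquiv.finrank_eq
  rw [← h1]
  exact Module.finrank_self k

lemma exists_gens [IsNoetherianRing A] (M : Ideal A) (s t : A) (hs : s ∈ M) (ht : t ∈ M) :
    ∃ (K : ℕ) (a : ℕ → A), Ideal.span {s, t} ⊔ Ideal.span (a '' Set.Iic K) = M := by
  obtain ⟨S, hS⟩ := (isNoetherianRing_iff_ideal_fg A).1 inferInstance M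
  refine ⟨S.toList.length, fun i => S.toList.getD i 0, le_antisymm (sup_le ?_ ?_) ?_⟩
  · rw [Ideal.span_le]
    intro x hx
    rcases hx with rfl | hx
    · exact hs
    · rw [Set.mem_singleton_iff] at hx
      rw [hx]
      exact ht
  · rw [Ideal.span_le]
    rintro x ⟨i, -, rfl⟩
    by_cases hi : i < S.toList.length
    · have h1 : S.toList.getD i 0 = S.toList[i] := by
        rw [List.getD_eq_getElem _ _ hi]
      change S.toList.getD i 0 ∈ M
      rw [h1, ← hS]
      apply Ideal.subset_span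
      have h2 : S.toList[i] ∈ S.toList := List.getElem_mem hi
      exact_mod_cast Finset.mem_toList.1 h2
    · have h1 : S.toList.getD i 0 = 0 := by
        apply List.getD_eq_default
        omega
      change S.toList.getD i 0 ∈ M
      rw [h1]
      exact M.zero_mem
  · refine le_trans ?_ le_sup_right
    rw [← hS, Ideal.span_le]
    intro x hx
    apply Ideal.subset_span
    have hx2 : x ∈ S.toList := Finset.mem_toList.2 (by exact_mod_cast hx)
    obtain ⟨i, hi, rfl⟩ := List.getElem_of_mem hx2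
    refine ⟨i, ?_, ?_⟩
    · simp only [Set.mem_Iic]
      omega
    · exact List.getD_eq_getElem _ _ hi

lemma not_irr {X : Type*} [TopologicalSpace X] (f g : X → ℕ) (d : ℕ)
    (hf : IsClosed {Z | d ≤ f Z}) (hg : IsClosed {Z | 1 ≤ g Z})
    (hcov : ∀ Z, d ≤ f Z ∨ 1 ≤ g Z) (Z1 : X) (h1 : f Z1 < d) (Z2 : X) (h2 : g Z2 < 1) :
    ¬ IrreducibleSpace X := by
  intro hirr
  obtain ⟨-, hpre⟩ := (irreducibleSpace_def X).1 hirr
  have hcov' : (Set.univ : Set X) ⊆ {Z | d ≤ f Z} ∪ {Z | 1 ≤ g Z} := fun Z _ => hcov Z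
  rcases (isPreirreducible_iff_isClosed_union_isClosed.1 hpre) _ _ hf hg hcov' with h3 | h3
  · have h4 : d ≤ f Z1 := h3 (Set.mem_univ Z1)
    omega
  · have h4 : 1 ≤ g Z2 := h3 (Set.mem_univ Z2)
    omega

theorem main_P [IsAlgClosed k] [IsDomain A] [Algebra.FiniteType k A] [IsIntegrallyClosed A]
    [Algebra (P k) A] [IsScalarTower k (P k) A] [Module.Finite (P k) A]
    (hinj : Function.Injective (algebraMap (P k) A)) (hA : ¬ IsField A)
    (M : Ideal A) [hM : M.IsMaximal]
    (hsM : algebraMap (P k) A (MvPolynomial.X 0) ∈ M)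
    (htM : algebraMap (P k) A (MvPolynomial.X 1) ∈ M)
    (hG : ¬ IsGorensteinTwo (Localization.AtPrime M)) :
    ∃ d, 1 ≤ d ∧ Nonempty (Hilb k A d) ∧ ¬ IrreducibleSpace (Hilb k A d) := by
  have hN : IsNoetherianRing A := Algebra.FiniteType.isNoetherianRing k A
  have hs0 : algebraMap (P k) A (MvPolynomial.X 0) ≠ 0 := by
    intro h
    rw [map_eq_zero_iff _ hinj] at h
    exact MvPolynomial.X_ne_zero 0 h
  have hs : ∀ n : A, algebraMap (P k) A (MvPolynomial.X 0) • n = 0 → n = 0 := by
    intro n hn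
    exact (mul_eq_zero.1 hn).resolve_left hs0
  have ht := normal_regular (k := k) (A := A) hinj
  obtain ⟨n, e, h, hh, he, hsp, ⟨b⟩⟩ := exists_local_basis (k := k) (A := A) hs ht
  have hfin : Module.Finite k (A ⧸ (Ideal.span {algebraMap (P k) A (MvPolynomial.X 0),
        algebraMap (P k) A (MvPolynomial.X 1)} • (⊤ : Submodule A A))) := Module.Finite.of_basis b
  obtain ⟨K, a, ha⟩ := exists_gens M _ _ hsM htM
  have hsoc := socle_ge_two (k := k) M _ _ hsM htM hs ht hG K a ha
  obtain ⟨hf1, hf2⟩ := finrank_idl (k := k) (N := A) _ _ hs ht K a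
  obtain ⟨ho1, ho2, ho3⟩ := om_dual (k := k) (A := A) hs ht K a
  have hsO : ∀ f : Om k A, algebraMap (P k) A (MvPolynomial.X 0) • f = 0 → f = 0 := by
    intro f hf
    exact (om_torsionfree hinj _ _ hf).resolve_left hs0
  obtain ⟨hg1, hg2⟩ := finrank_idl (k := k) (N := Om k A) _ _ hsO (om_regular (k := k) (A := A)) K a
  rw [ha, finrank_maximal] at ho3
  rw [ho2, ho3] at hg2
  rw [finrank_quot_self] at hf2
  have hfinI : Module.Finite k (A ⧸ idl (algebraMap (P k) A (MvPolynomial.X 0))
      (algebraMap (P k) A (MvPolynomial.X 1)) K a) := by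
    have h1 : (idl (algebraMap (P k) A (MvPolynomial.X 0))
      (algebraMap (P k) A (MvPolynomial.X 1)) K a • (⊤ : Submodule A A)) =
      idl (algebraMap (P k) A (MvPolynomial.X 0)) (algebraMap (P k) A (MvPolynomial.X 1)) K a := by
      rw [smul_eq_mul, Ideal.mul_top]
    rw [h1] at hf1
    exact hf1
  obtain ⟨ν, hν, J, hJ, hJν⟩ := om_rank_one (k := k) (A := A) hinj hs ht
  have hOfin : Module.Finite A (Om k A) := om_finite
  set I := idl (algebraMap (P k) A (MvPolynomial.X 0)) (algebraMap (P k) A (MvPolynomial.X 1)) K a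
    with hI
  set d := Module.finrank k (A ⧸ I) with hd
  have hlt : Module.finrank k (Om k A ⧸ (I • (⊤ : Submodule A (Om k A)))) < d := by omega
  refine ⟨d, Nat.one_le_iff_ne_zero.2 (fun h0 => by rw [h0] at hlt; exact absurd hlt (Nat.not_lt_zero _)), ⟨⟨I, hfinI, hd.symm⟩⟩, ?_⟩
  obtain ⟨Z2, hZ2⟩ := exists_coprime (k := k) hA J hJ d
  refine not_irr (fun Z : Hilb k A d => Module.finrank k (Om k A ⧸ (Z.1 • (⊤ : Submodule A (Om k A)))))
    (fun Z : Hilb k A d => Module.finrank k ((A ⧸ J) ⧸ (Z.1 • (⊤ : Submodule A (A ⧸ J))))) d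
    ((isClosed_iff _).2 (closed_le (Om k A) d)) ((isClosed_iff _).2 (closed_le (A ⧸ J) 1)) ?_
    ⟨I, hfinI, hd.symm⟩ hlt Z2 ?_
  · intro Z
    by_cases hZ : Z.1 ⊔ J = ⊤
    · left
      have h5 := finrank_coprime (k := k) (Om k A) (om_torsionfree hinj) ν hν J hJν Z.1 hZ
      rw [Z.2.2] at h5
      exact h5.ge
    · right
      have h5 := finrank_quot_sup (k := k) Z.1 J
      have hZf : Module.Finite k (A ⧸ Z.1) := Z.2.1
      have hf3 : Module.Finite k (A ⧸ (Z.1 ⊔ J)) :=
        Module.Finite.of_surjective (Ideal.Quotient.factorₐ k (le_sup_left : Z.1 ≤ Z.1 ⊔ J)).toLinearMap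
          (Ideal.Quotient.factor_surjective (le_sup_left : Z.1 ≤ Z.1 ⊔ J))
      have hnt : Nontrivial (A ⧸ (Z.1 ⊔ J)) := Ideal.Quotient.nontrivial_iff.2 hZ
      have h6 : 1 ≤ Module.finrank k (A ⧸ (Z.1 ⊔ J)) := Module.finrank_pos
      rw [← h5] at h6
      exact h6
  · have h5 := finrank_quot_sup (k := k) Z2.1 J
    have : Subsingleton (A ⧸ (⊤ : Ideal A)) := Ideal.Quotient.subsingleton_iff.2 rfl
    have h6 : Module.finrank k (A ⧸ (⊤ : Ideal A)) = 0 := Module.finrank_zero_of_subsingleton
    rw [hZ2, h6] at h5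
    exact Nat.lt_one_iff.2 h5

/-- **Main theorem.** -/
theorem main [IsAlgClosed k] [IsDomain A] [Algebra.FiniteType k A] [IsIntegrallyClosed A]
    (hdim : ringKrullDim A = 2) (M : Ideal A) [hM : M.IsMaximal]
    (hG : ¬ IsGorensteinTwo (Localization.AtPrime M)) :
    ∃ d, 1 ≤ d ∧ Nonempty (Hilb k A d) ∧ ¬ IrreducibleSpace (Hilb k A d) := by
  obtain ⟨g, hg1, hg2, hg3, hg4⟩ := exists_noether (k := k) hdim M hM
  letI : Algebra (P k) A := g.toRingHom.toAlgebra
  haveI : IsScalarTower k (P k) A := IsScalarTower.of_algebraMap_eq fun x => (g.commutes x).symm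
  haveI : Module.Finite (P k) A := hg2
  refine main_P (k := k) (A := A) hg1 ?_ M hg3 hg4 hG
  intro hf
  have := ringKrullDim_eq_zero_of_isField hf
  rw [hdim] at this
  norm_num at this

/-- **Main theorem, high multiplicity.** -/
theorem main_big [IsAlgClosed k] [IsDomain A] [Algebra.FiniteType k A]
    (hdim : ringKrullDim A = 2) (M : Ideal A) (hM : M.IsMaximal) (r₀ : ℕ)
    (hr : 2 * r₀ ^ 2 + 3 * r₀ < Module.finrank k (A ⧸ M ^ r₀)) :
    ∃ d, 1 ≤ d ∧ Nonempty (Hilb k A d) ∧ ¬ IrreducibleSpace (Hilb k A d) := by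
  obtain ⟨g, hg1, hg2, hg3, hg4⟩ := exists_noether (k := k) hdim M hM
  let _ : Algebra (P k) A := g.toRingHom.toAlgebra
  have _ : IsScalarTower k (P k) A := IsScalarTower.of_algebraMap_eq fun x => (g.commutes x).symm
  have _ : Module.Finite (P k) A := hg2
  have hA : ¬ IsField A := by
    intro hf
    have := ringKrullDim_eq_zero_of_isField hf
    rw [hdim] at this
    norm_num at this
  set L : ℕ → ℕ := fun r => Module.finrank k (A ⧸ M ^ r) with hL
  have hL0 : L 0 = 0 := by
    have : Subsingleton (A ⧸ M ^ 0) := by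
      rw [pow_zero, Ideal.one_eq_top]
      exact Ideal.Quotient.subsingleton_iff.2 rfl
    exact Module.finrank_zero_of_subsingleton
  have hmono : Monotone L := by
    refine monotone_nat_of_le_succ fun r => ?_
    have hf := finite_pow (k := k) M hM (r + 1)
    exact LinearMap.finrank_le_finrank_of_surjective
      (f := (Ideal.Quotient.factorₐ k (Ideal.pow_le_pow_right (Nat.le_succ r) :
        M ^ (r + 1) ≤ M ^ r)).toLinearMap)
      (Ideal.Quotient.factor_surjective (Ideal.pow_le_pow_right (Nat.le_succ r)))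
  obtain ⟨r, hr1⟩ := exists_big L hL0 hmono r₀ hr
  have hle : L r ≤ L (r + 1) := hmono (Nat.le_succ r)
  set h := L (r + 1) - L r with hh
  obtain ⟨β, a, j, hfam⟩ := exists_family (k := k) M (exists_const (k := k) M hM) r (L r) h (h / 2)
    (finite_pow (k := k) M hM (r + 1)) rfl (by change L (r + 1) = L r + h; omega) (Nat.div_le_self _ _)
  have hcard : 2 * (L r + (h - h / 2)) < Fintype.card (Fin (h / 2) × Fin (h - h / 2)) := by
    rw [Fintype.card_prod, Fintype.card_fin, Fintype.card_fin]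
    exact hr1
  refine ⟨L r + (h - h / 2), ?_, ?_, big_family (k := k) (A := A) hA β hcard a j hfam⟩
  · by_contra hlt
    have h1 : h - h / 2 = 0 := by omega
    rw [h1] at hr1
    omega
  · obtain ⟨I, -⟩ := hfam 0
    exact ⟨I⟩

end final

end

end Pool.Agent.Helper404.HilbNG
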