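import Mathlib
import Pool.Agent.Helper404.HilbDefs
import Pool.Agent.Helper404.HilbCore

/-!
# Points of embedding dimension four
-/

namespace Pool.Agent.Helper404.HilbNG

set_option linter.unusedSectionVars false

open scoped BigOperators Pointwise

universe u v w

noncomputable section

section psi

/-- solutions of the linearised commutation equations at four endomorphisms -/
def lin {k : Type u} [Field k] {E : Type v} [AddCommGroup E] [Module k E]
    (X : Fin 4 → Module.End k E) : Submodule k (Fin 4 → Module.End k E) where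
  carrier := {Y | ∀ i j, X i * Y j - Y j * X i + (Y i * X j - X j * Y i) = 0}
  add_mem' := by
    intro Y Z hY hZ i j
    have h1 := hY i j
    have h2 := hZ i j
    have h3 : X i * (Y + Z) j - (Y + Z) j * X i + ((Y + Z) i * X j - X j * (Y + Z) i) =
        (X i * Y j - Y j * X i + (Y i * X j - X j * Y i)) +
        (X i * Z j - Z j * X i + (Z i * X j - X j * Z i)) := by
      simp only [Pi.add_apply]
      noncomm_ring
    rw [h3, h1, h2, add_zero]
  zero_mem' := by
    intro i j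
    simp
  smul_mem' := by
    intro c Y hY i j
    have h1 := hY i j
    have h3 : X i * (c • Y) j - (c • Y) j * X i + ((c • Y) i * X j - X j * (c • Y) i) =
        c • (X i * Y j - Y j * X i + (Y i * X j - X j * Y i)) := by
      simp only [Pi.smul_apply, mul_smul_comm, smul_mul_assoc, smul_sub, smul_add]
    rw [h3, h1, smul_zero]

variable {k : Type u} {A : Type v} [Field k] [CommRing A] [Algebra k A] {d : ℕ}

/-- dimension of the space of linearised commutation equations for multiplication by `a i` on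
`A ⧸ I` -/
def ps (k : Type u) {A : Type v} [Field k] [CommRing A] [Algebra k A] (a : Fin 4 → A)
    (I : Ideal A) : ℕ :=
  Module.finrank k (lin (fun i => LinearMap.mulLeft k (Ideal.Quotient.mk I (a i))))

/-- the model algebra `k ⊕ k^4 ⊕ k^3` with structure constants `s` -/
def XX (s : Fin 3 → Fin 4 → Fin 4 → k) (i : Fin 4) :
    Module.End k (k × (Fin 4 → k) × (Fin 3 → k)) where
  toFun u := (0, Pi.single i u.1, fun l => ∑ j, s l i j * u.2.1 j)
  map_add' u v := by
    refine Prod.ext (by simp) (Prod.ext ?_ ?_)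
    · simp [Pi.single_add]
    · funext l
      simp [mul_add, Finset.sum_add_distrib]
  map_smul' c u := by
    refine Prod.ext (by simp) (Prod.ext ?_ ?_)
    · funext j
      by_cases h : j = i
      · subst h; simp
      · simp [h]
    · funext l
      simp only [Prod.smul_snd, Prod.smul_fst, Pi.smul_apply, smul_eq_mul, RingHom.id_apply]
      rw [Finset.mul_sum]
      exact Finset.sum_congr rfl fun j _ => by ring

/-- the special structure constants: `x_0 x_2 = w_0`, `x_0 x_3 = x_1 x_2 = w_1`, `x_1 x_3 = w_2` -/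
def s0 {R : Type u} [CommRing R] : Fin 3 → Fin 4 → Fin 4 → R :=
  ![![![0, 0, 1, 0], ![0, 0, 0, 0], ![1, 0, 0, 0], ![0, 0, 0, 0]],
    ![![0, 0, 0, 1], ![0, 0, 1, 0], ![0, 1, 0, 0], ![1, 0, 0, 0]],
    ![![0, 0, 0, 0], ![0, 0, 0, 1], ![0, 0, 0, 0], ![0, 1, 0, 0]]]

theorem auxPA_select {ι : Type*} [Finite ι] {V : Type*} [AddCommGroup V] [Module k V]
    (v : ι → V) (q : ℕ) (hq : q ≤ Module.finrank k (Submodule.span k (Set.range v))) :
    ∃ c : Fin q → ι, LinearIndependent k (v ∘ c) := by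
  classical
  obtain ⟨κ, a, ha, hsp, hli⟩ := exists_linearIndependent' k v
  have : Finite κ := Finite.of_injective a ha
  have := Fintype.ofFinite κ
  have hcard : Fintype.card κ = Module.finrank k (Submodule.span k (Set.range v)) := by
    rw [← hsp, finrank_span_eq_card hli]
  have hle : Fintype.card (Fin q) ≤ Fintype.card κ := by
    rw [Fintype.card_fin, hcard]; exact hq
  obtain ⟨e⟩ := Function.Embedding.nonempty_of_card_le hle
  exact ⟨a ∘ e, hli.comp e e.injective⟩

theorem auxPA_minor {R C : Type*} [Fintype R] [Fintype C]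
    (L : Matrix R C k) (q : ℕ) :
    q ≤ L.rank ↔ ∃ (r : Fin q → R) (c : Fin q → C), (L.submatrix r c).det ≠ 0 := by
  classical
  constructor
  · intro hq
    rw [Matrix.rank_eq_finrank_span_cols] at hq
    obtain ⟨c, hc⟩ := auxPA_select (k := k) L.col q hq
    have h1 : (L.submatrix id c).rank = q := by
      rw [Matrix.rank_eq_finrank_span_cols]
      have : (L.submatrix id c).col = L.col ∘ c := rfl
      rw [this, finrank_span_eq_card hc, Fintype.card_fin]
    have h2 : q ≤ Module.finrank k (Submodule.span k (Set.range (L.submatrix id c).row)) := by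
      rw [← Matrix.rank_eq_finrank_span_row, h1]
    obtain ⟨r, hr⟩ := auxPA_select (k := k) (L.submatrix id c).row q h2
    refine ⟨r, c, ?_⟩
    have h3 : LinearIndependent k (L.submatrix r c).row := hr
    have h4 := Matrix.linearIndependent_rows_iff_isUnit.1 h3
    exact ((Matrix.isUnit_iff_isUnit_det _).1 h4).ne_zero
  · rintro ⟨r, c, h⟩
    have h1 : IsUnit (L.submatrix r c) :=
      (Matrix.isUnit_iff_isUnit_det _).2 (isUnit_iff_ne_zero.2 h)
    have h2 := Matrix.rank_of_isUnit _ h1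
    rw [Fintype.card_fin] at h2
    calc q = (L.submatrix r c).rank := h2.symm
      _ ≤ L.rank := Matrix.rank_submatrix_le _ _ _

/-- the matrix of the linearised commutation equations -/
def auxPA_mat {B : Type*} [CommRing B] (X : Fin 4 → Matrix (Fin d) (Fin d) B) :
    Matrix (Fin 4 × Fin 4 × Fin d × Fin d) (Fin 4 × Fin d × Fin d) B :=
  fun p c => (if c.1 = p.2.1 then
      (X p.1 p.2.2.1 c.2.1 * (if c.2.2 = p.2.2.2 then 1 else 0)
        - (if c.2.1 = p.2.2.1 then 1 else 0) * X p.1 c.2.2 p.2.2.2) else 0)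
    + (if c.1 = p.1 then
      ((if c.2.1 = p.2.2.1 then 1 else 0) * X p.2.1 c.2.2 p.2.2.2
        - X p.2.1 p.2.2.1 c.2.1 * (if c.2.2 = p.2.2.2 then 1 else 0)) else 0)

/-- the matrices encoded in a vector -/
def auxPA_slice {B : Type*} (y : Fin 4 × Fin d × Fin d → B) (l : Fin 4) :
    Matrix (Fin d) (Fin d) B := Matrix.of fun a b => y (l, a, b)

theorem auxPA_slice_apply {B : Type*} (y : Fin 4 × Fin d × Fin d → B) (l : Fin 4) (a b : Fin d) :
    auxPA_slice y l a b = y (l, a, b) := rfl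

theorem auxPA_mulVec {B : Type*} [CommRing B] (X : Fin 4 → Matrix (Fin d) (Fin d) B)
    (y : Fin 4 × Fin d × Fin d → B) (i j : Fin 4) (a b : Fin d) :
    (auxPA_mat X).mulVec y (i, j, a, b) =
      (X i * auxPA_slice y j - auxPA_slice y j * X i
        + (auxPA_slice y i * X j - X j * auxPA_slice y i)) a b := by
  classical
  simp only [Matrix.mulVec, dotProduct, auxPA_mat, Fintype.sum_prod_type, Matrix.add_apply,
    Matrix.sub_apply, Matrix.mul_apply, auxPA_slice_apply]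
  simp only [add_mul, Finset.sum_add_distrib, ite_mul, zero_mul, sub_mul, mul_ite, mul_one,
    mul_zero, one_mul]
  congr 1
  · rw [Finset.sum_eq_single j]
    · simp only [if_true, Finset.sum_sub_distrib]
      congr 1
      · refine Finset.sum_congr rfl fun x _ => ?_
        simp
      · simp [mul_comm]
    · intro l _ hl
      simp [hl]
    · intro h; exact absurd (Finset.mem_univ _) h
  · rw [Finset.sum_eq_single i]
    · simp only [if_true, Finset.sum_sub_distrib]
      congr 1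
      · simp [mul_comm]
      · refine Finset.sum_congr rfl fun x _ => ?_
        simp
    · intro l _ hl
      simp [hl]
    · intro h; exact absurd (Finset.mem_univ _) h

theorem auxPA_map {B : Type*} [CommRing B] (X : Fin 4 → Matrix (Fin d) (Fin d) B)
    (φ : B →+* k) : (auxPA_mat X).map φ = auxPA_mat (fun i => (X i).map φ) := by
  ext p c
  simp only [auxPA_mat, Matrix.map_apply, map_add]
  congr 1
  · split_ifs <;> simp
  · split_ifs <;> simp

theorem auxPA_ker (X : Fin 4 → Matrix (Fin d) (Fin d) k) :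
    Module.finrank k (lin (fun i => Matrix.toLin' (X i))) =
      Module.finrank k (LinearMap.ker (auxPA_mat X).mulVecLin) := by
  classical
  let e : (Fin 4 → Module.End k (Fin d → k)) ≃ₗ[k] (Fin 4 × Fin d × Fin d → k) :=
    { toFun := fun Y p => LinearMap.toMatrix' (Y p.1) p.2.1 p.2.2
      invFun := fun y l => Matrix.toLin' (auxPA_slice y l)
      left_inv := by
        intro Y
        funext l
        show Matrix.toLin' (LinearMap.toMatrix' (Y l)) = Y l
        exact Matrix.toLin'_toMatrix' _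
      right_inv := by
        intro y
        funext p
        show LinearMap.toMatrix' (Matrix.toLin' (auxPA_slice y p.1)) p.2.1 p.2.2 = y p
        rw [LinearMap.toMatrix'_toLin']
        rfl
      map_add' := by
        intro Y Z
        funext p
        simp
      map_smul' := by
        intro c Y
        funext p
        simp }
  have key : Submodule.map (e : (Fin 4 → Module.End k (Fin d → k)) →ₗ[k] _)
      (lin (fun i => Matrix.toLin' (X i))) = LinearMap.ker (auxPA_mat X).mulVecLin := by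
    ext y
    rw [Submodule.mem_map_equiv, LinearMap.mem_ker]
    have hsymm : ∀ l, e.symm y l =
        Matrix.toLin' (auxPA_slice y l) := fun l => rfl
    have hexp : ∀ i j, Matrix.toLin' (X i) * e.symm y j - e.symm y j * Matrix.toLin' (X i)
        + (e.symm y i * Matrix.toLin' (X j) - Matrix.toLin' (X j) * e.symm y i) =
        Matrix.toLin' (X i * auxPA_slice y j - auxPA_slice y j * X i
        + (auxPA_slice y i * X j - X j * auxPA_slice y i)) := by
      intro i j
      rw [hsymm, hsymm, map_add, map_sub, map_sub, Matrix.toLin'_mul, Matrix.toLin'_mul,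
        Matrix.toLin'_mul, Matrix.toLin'_mul]
      rfl
    constructor
    · intro h
      funext p
      obtain ⟨i, j, a, b⟩ := p
      have h1 := h i j
      rw [hexp] at h1
      have h2 := (LinearEquiv.map_eq_zero_iff Matrix.toLin').1 h1
      show (auxPA_mat X).mulVec y (i, j, a, b) = 0
      rw [auxPA_mulVec, h2]
      rfl
    · intro h i j
      show Matrix.toLin' (X i) * e.symm y j - e.symm y j * Matrix.toLin' (X i)
        + (e.symm y i * Matrix.toLin' (X j) - Matrix.toLin' (X j) * e.symm y i) = 0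
      rw [hexp, LinearEquiv.map_eq_zero_iff]
      ext a b
      have h3 := auxPA_mulVec X y i j a b
      rw [← h3]
      exact congrFun h (i, j, a, b)
  rw [← LinearEquiv.finrank_map_eq e, key]

/-- the locus where the solution space is large is closed -/
theorem linmat {B : Type v} [CommRing B] (X : Fin 4 → Matrix (Fin d) (Fin d) B) (m : ℕ) :
    ∃ F : Set B, ∀ φ : B →+* k,
      (m ≤ Module.finrank k (lin (fun i => Matrix.toLin' ((X i).map φ)))) ↔ ∀ f ∈ F, φ f = 0 := by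
  classical
  let C := Fin 4 × Fin d × Fin d
  let q : ℕ := Fintype.card C + 1 - m
  refine ⟨{f | ∃ (r : Fin q → Fin 4 × Fin 4 × Fin d × Fin d) (c : Fin q → C),
    f = ((auxPA_mat X).submatrix r c).det}, fun φ => ?_⟩
  rw [auxPA_ker (fun i => (X i).map φ)]
  have hrk := LinearMap.finrank_range_add_finrank_ker
    (auxPA_mat (fun i => (X i).map φ)).mulVecLin
  rw [Module.finrank_pi] at hrk
  have hrk' : (auxPA_mat (fun i => (X i).map φ)).rank +
      Module.finrank k (LinearMap.ker (auxPA_mat (fun i => (X i).map φ)).mulVecLin) =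
      Fintype.card C := hrk
  have hdet : ∀ (r : Fin q → Fin 4 × Fin 4 × Fin d × Fin d) (c : Fin q → C),
      φ (((auxPA_mat X).submatrix r c).det) =
        ((auxPA_mat (fun i => (X i).map φ)).submatrix r c).det := by
    intro r c
    rw [RingHom.map_det, ← auxPA_map]
    rfl
  have hiff : m ≤ Module.finrank k
      (LinearMap.ker (auxPA_mat (fun i => (X i).map φ)).mulVecLin) ↔
      ¬ (q ≤ (auxPA_mat (fun i => (X i).map φ)).rank) := by
    omega
  rw [hiff, auxPA_minor]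
  constructor
  · rintro h f ⟨r, c, rfl⟩
    rw [hdet]
    by_contra hne
    exact h ⟨r, c, hne⟩
  · rintro h ⟨r, c, hne⟩
    exact hne (by rw [← hdet]; exact h _ ⟨r, c, rfl⟩)

theorem auxPB_mem {E E' : Type*} [AddCommGroup E] [Module k E] [AddCommGroup E'] [Module k E']
    (e : E ≃ₗ[k] E') (X : Fin 4 → Module.End k E) (X' : Fin 4 → Module.End k E')
    (hX : ∀ i, X' i = e.conjAlgEquiv k (X i)) (Y : Fin 4 → Module.End k E) :
    (fun i => e.conjAlgEquiv k (Y i)) ∈ lin X' ↔ Y ∈ lin X := by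
  have key : ∀ i j, X' i * e.conjAlgEquiv k (Y j) - e.conjAlgEquiv k (Y j) * X' i +
      (e.conjAlgEquiv k (Y i) * X' j - X' j * e.conjAlgEquiv k (Y i)) =
      e.conjAlgEquiv k (X i * Y j - Y j * X i + (Y i * X j - X j * Y i)) := by
    intro i j
    rw [hX, hX]
    simp only [map_add, map_sub, map_mul]
  constructor
  · intro h i j
    have h1 : X' i * e.conjAlgEquiv k (Y j) - e.conjAlgEquiv k (Y j) * X' i +
      (e.conjAlgEquiv k (Y i) * X' j - X' j * e.conjAlgEquiv k (Y i)) = 0 := h i j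
    rw [key] at h1
    exact (e.conjAlgEquiv k).injective (by rw [h1, map_zero])
  · intro h i j
    have h1 : X i * Y j - Y j * X i + (Y i * X j - X j * Y i) = 0 := h i j
    show X' i * e.conjAlgEquiv k (Y j) - e.conjAlgEquiv k (Y j) * X' i +
      (e.conjAlgEquiv k (Y i) * X' j - X' j * e.conjAlgEquiv k (Y i)) = 0
    rw [key, h1, map_zero]

theorem lin_congr {E E' : Type*} [AddCommGroup E] [Module k E] [AddCommGroup E'] [Module k E']
    (e : E ≃ₗ[k] E') (X : Fin 4 → Module.End k E) (X' : Fin 4 → Module.End k E')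
    (h : ∀ i v, e (X i v) = X' i (e v)) :
    Module.finrank k (lin X) = Module.finrank k (lin X') := by
  have hX : ∀ i, X' i = e.conjAlgEquiv k (X i) := by
    intro i
    refine LinearMap.ext (fun v => ?_)
    show X' i v = e (X i (e.symm v))
    rw [h, LinearEquiv.apply_symm_apply]
  let Φ : (Fin 4 → Module.End k E) ≃ₗ[k] (Fin 4 → Module.End k E') :=
    LinearEquiv.piCongrRight (fun _ => (e.conjAlgEquiv k).toLinearEquiv)
  have hΦ : ∀ Y, Φ Y = fun i => e.conjAlgEquiv k (Y i) := fun Y => rfl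
  have hmap : lin X' = (lin X).map (Φ : (Fin 4 → Module.End k E) →ₗ[k] (Fin 4 → Module.End k E')) := by
    ext Y'
    rw [Submodule.mem_map]
    constructor
    · intro hY
      refine ⟨Φ.symm Y', ?_, Φ.apply_symm_apply Y'⟩
      rw [← auxPB_mem e X X' hX, ← hΦ, Φ.apply_symm_apply]
      exact hY
    · rintro ⟨Y, hY, rfl⟩
      exact (auxPB_mem e X X' hX Y).mpr hY
  rw [hmap]
  exact (LinearEquiv.finrank_map_eq Φ (lin X)).symm

theorem closed_psi (a : Fin 4 → A) (m : ℕ) : ZClosed k A d {I | m ≤ ps k a I.1} := by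
  intro β
  obtain ⟨F, hF⟩ := linmat (k := k) (d := d)
    (fun i : Fin 4 => (Matrix.of (fun j l : Fin d =>
      (MvPolynomial.X (a i * β l, j) : MvPolynomial (A × Fin d) k)))) m
  refine ⟨F, fun I x hx => ?_⟩
  obtain ⟨hli, hx2⟩ := hx
  have hsp : ⊤ ≤ Submodule.span k (Set.range (fun j => Ideal.Quotient.mk I.1 (β j))) := by
    intro u _
    obtain ⟨c, rfl⟩ := Ideal.Quotient.mk_surjective u
    rw [hx2 c]
    exact Submodule.sum_mem _ fun j _ => Submodule.smul_mem _ _ (Submodule.subset_span ⟨j, rfl⟩)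
  let b := Module.Basis.mk hli hsp
  have hb : ∀ j, b j = Ideal.Quotient.mk I.1 (β j) := fun j => by
    simp only [b, Module.Basis.mk_apply]
  have key : ps k a I.1 = Module.finrank k (lin (fun i =>
      Matrix.toLin' ((Matrix.of (fun j l : Fin d =>
        (MvPolynomial.X (a i * β l, j) : MvPolynomial (A × Fin d) k))).map
          (MvPolynomial.eval x)))) := by
    unfold ps
    apply lin_congr b.equivFun
    intro i v
    apply b.equivFun.symm.injective
    rw [LinearEquiv.symm_apply_apply, Module.Basis.equivFun_symm_apply]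
    have hv : v = ∑ l, b.equivFun v l • Ideal.Quotient.mk I.1 (β l) := by
      conv_lhs => rw [← b.sum_equivFun v]
      exact Finset.sum_congr rfl fun l _ => by rw [hb l]
    have h1 : ∀ l, Ideal.Quotient.mk I.1 (a i) * Ideal.Quotient.mk I.1 (β l) =
        ∑ j, x (a i * β l, j) • Ideal.Quotient.mk I.1 (β j) := by
      intro l
      rw [← map_mul, hx2 (a i * β l)]
    rw [LinearMap.mulLeft_apply]
    conv_lhs => rw [hv]
    rw [Finset.mul_sum]
    simp only [mul_smul_comm, h1, hb]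
    simp only [Finset.smul_sum]
    rw [Finset.sum_comm]
    refine Finset.sum_congr rfl fun j _ => ?_
    rw [Matrix.toLin'_apply, Matrix.mulVec, dotProduct, Finset.sum_smul]
    refine Finset.sum_congr rfl fun l _ => ?_
    rw [Matrix.map_apply, Matrix.of_apply, MvPolynomial.eval_X, smul_smul, mul_comm]
  rw [Set.mem_setOf_eq, key]
  exact hF (MvPolynomial.eval x)

theorem auxPD_alg [IsAlgClosed k] (B : Type v) [CommRing B] [Algebra k B] [Module.Finite k B]
    [IsReduced B] : ∃ (ι : Type v) (_ : Fintype ι), Nonempty (B ≃ₐ[k] (ι → k)) := by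
  have hart : IsArtinianRing B := IsArtinianRing.of_finite k B
  have hfin : Finite (MaximalSpectrum B) := inferInstance
  refine ⟨MaximalSpectrum B, Fintype.ofFinite _, ⟨?_⟩⟩
  have hb : ∀ m : MaximalSpectrum B,
      Function.Bijective (Algebra.ofId k (B ⧸ m.asIdeal)) := by
    intro m
    have hm := m.isMaximal
    have hp : m.asIdeal.IsPrime := hm.isPrime
    have : IsDomain (B ⧸ m.asIdeal) := Ideal.Quotient.isDomain _
    have : Module.Finite k (B ⧸ m.asIdeal) := inferInstance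
    have : Algebra.IsIntegral k (B ⧸ m.asIdeal) := inferInstance
    exact IsAlgClosed.algebraMap_bijective_of_isIntegral
  exact ((IsArtinianRing.equivPi B).restrictScalars k).trans
    (AlgEquiv.piCongrRight (fun m => (AlgEquiv.ofBijective _ (hb m)).symm))

/-- matrix entries of the solutions -/
def auxPD_M {ι : Type w} [Fintype ι] [DecidableEq ι] (c : Fin 4 → ι → ι → k)
    (u : ((Fin 4 × ι) → k) × (((Finset.univ : Finset ι).offDiag) → k)) (j : Fin 4) (q r : ι) : k :=
  if h : (q, r) ∈ (Finset.univ : Finset ι).offDiag then u.2 ⟨(q, r), h⟩ * c j q r else u.1 (j, q)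

/-- the solutions as endomorphisms -/
def auxPD_Y {ι : Type w} [Fintype ι] [DecidableEq ι] (c : Fin 4 → ι → ι → k) :
    (((Fin 4 × ι) → k) × (((Finset.univ : Finset ι).offDiag) → k)) →ₗ[k]
      (Fin 4 → Module.End k (ι → k)) where
  toFun u j := Matrix.toLin' (Matrix.of (auxPD_M c u j))
  map_add' u w := by
    funext j
    rw [Pi.add_apply, ← map_add]
    congr 1
    ext q r
    simp only [Matrix.add_apply, Matrix.of_apply, auxPD_M]
    split_ifs
    · simp only [Prod.snd_add, Pi.add_apply]; ring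
    · simp only [Prod.fst_add, Pi.add_apply]
  map_smul' z u := by
    funext j
    rw [Pi.smul_apply, RingHom.id_apply, ← map_smul]
    congr 1
    ext q r
    simp only [Matrix.smul_apply, Matrix.of_apply, auxPD_M, smul_eq_mul]
    split_ifs
    · simp only [Prod.smul_snd, Pi.smul_apply, smul_eq_mul]; ring
    · simp only [Prod.smul_fst, Pi.smul_apply, smul_eq_mul]

theorem auxPD_diag {ι : Type w} [Fintype ι] [DecidableEq ι] (p : Fin 4 → ι → k) :
    4 * Fintype.card ι + Fintype.card ι * (Fintype.card ι - 1) ≤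
      Module.finrank k (lin (fun i => LinearMap.mulLeft k (p i))) := by
  classical
  let c : Fin 4 → ι → ι → k := fun j q r =>
    if (∀ i, p i q = p i r) then (if j = 0 then 1 else 0) else p j q - p j r
  have hc1 : ∀ q r, ∃ j, c j q r ≠ 0 := by
    intro q r
    by_cases h : ∀ i, p i q = p i r
    · refine ⟨0, ?_⟩
      simp only [c, if_pos h]
      simp
    · have h' := h
      push Not at h'
      obtain ⟨i, hi⟩ := h'
      refine ⟨i, ?_⟩
      simp only [c, if_neg h]
      exact sub_ne_zero.2 hi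
  have hc2 : ∀ q r i j, (p i q - p i r) * c j q r = (p j q - p j r) * c i q r := by
    intro q r i j
    by_cases h : ∀ i, p i q = p i r
    · rw [h i, h j]; ring
    · simp only [c, if_neg h]; ring
  have hmem : ∀ u, auxPD_Y c u ∈ lin (fun i => LinearMap.mulLeft k (p i)) := by
    intro u i j
    apply LinearMap.ext
    intro v
    funext q
    have hY : ∀ (l : Fin 4) (v : ι → k), auxPD_Y c u l v q = ∑ r, auxPD_M c u l q r * v r := by
      intro l v
      show Matrix.toLin' (Matrix.of (auxPD_M c u l)) v q = _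
      rw [Matrix.toLin'_apply]
      rfl
    have hX : ∀ (l : Fin 4) (v : ι → k), (LinearMap.mulLeft k (p l)) v = fun r => p l r * v r :=
      fun l v => rfl
    simp only [LinearMap.add_apply, LinearMap.sub_apply, Module.End.mul_apply, Pi.add_apply,
      Pi.sub_apply, hX, hY, LinearMap.zero_apply, Pi.zero_apply]
    rw [Finset.mul_sum, Finset.mul_sum, ← Finset.sum_sub_distrib, ← Finset.sum_sub_distrib,
      ← Finset.sum_add_distrib]
    apply Finset.sum_eq_zero
    intro r _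
    have key : (p i q - p i r) * auxPD_M c u j q r = (p j q - p j r) * auxPD_M c u i q r := by
      unfold auxPD_M
      by_cases h : (q, r) ∈ (Finset.univ : Finset ι).offDiag
      · rw [dif_pos h, dif_pos h]
        linear_combination u.2 ⟨(q, r), h⟩ * hc2 q r i j
      · rw [dif_neg h, dif_neg h]
        have hqr : q = r := by
          by_contra h'
          exact h (by simp [Finset.mem_offDiag, h'])
        rw [hqr]; ring
    linear_combination (v r) * key
  let L := (auxPD_Y c).codRestrict (lin (fun i => LinearMap.mulLeft k (p i))) hmem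
  have hinj : Function.Injective L := by
    refine (injective_iff_map_eq_zero L).2 ?_
    intro u hu
    have hu' : ∀ j, auxPD_M c u j = fun _ _ => 0 := by
      intro j
      have h1 : auxPD_Y c u = 0 := congrArg Subtype.val hu
      have h2 : Matrix.toLin' (Matrix.of (auxPD_M c u j)) = 0 := congrFun h1 j
      have h3 : Matrix.of (auxPD_M c u j) = 0 := by
        apply Matrix.toLin'.injective
        rw [h2, map_zero]
      funext q r
      exact congrFun (congrFun h3 q) r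
    refine Prod.ext ?_ ?_
    · funext x
      obtain ⟨j, q⟩ := x
      have h1 := congrFun (congrFun (hu' j) q) q
      unfold auxPD_M at h1
      rw [dif_neg (by simp [Finset.mem_offDiag])] at h1
      exact h1
    · funext x
      obtain ⟨⟨q, r⟩, hx⟩ := x
      obtain ⟨j, hj⟩ := hc1 q r
      have h1 := congrFun (congrFun (hu' j) q) r
      unfold auxPD_M at h1
      rw [dif_pos hx] at h1
      exact (mul_eq_zero.1 h1).resolve_right hj
  have h1 := LinearMap.finrank_le_finrank_of_injective hinj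
  refine le_trans (le_of_eq ?_) h1
  rw [Module.finrank_prod, Module.finrank_fintype_fun_eq_card, Module.finrank_fintype_fun_eq_card,
    Fintype.card_prod, Fintype.card_fin, Fintype.card_coe, Finset.offDiag_card, Finset.card_univ,
    Nat.mul_sub, mul_one]

theorem psi_reduced [IsAlgClosed k] (a : Fin 4 → A) (I : Hilb k A d) (hr : IsReduced (A ⧸ I.1)) :
    4 * d + d * (d - 1) ≤ ps k a I.1 := by
  classical
  have hfin : Module.Finite k (A ⧸ I.1) := I.2.1
  obtain ⟨ι, hι, ⟨e⟩⟩ := auxPD_alg (k := k) (A ⧸ I.1)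
  have hcard : Fintype.card ι = d := by
    rw [← Module.finrank_fintype_fun_eq_card k, ← e.toLinearEquiv.finrank_eq, I.2.2]
  have h1 : ps k a I.1 = Module.finrank k
      (lin (fun i => LinearMap.mulLeft k (e (Ideal.Quotient.mk I.1 (a i))))) := by
    unfold ps
    exact lin_congr e.toLinearEquiv _ _ (fun i v => map_mul e _ _)
  have h2 := auxPD_diag (fun i => e (Ideal.Quotient.mk I.1 (a i)))
  rw [hcard] at h2
  exact h2.trans (le_of_eq h1.symm)

/-- column action of `XX s0` on the standard basis -/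
def auxPE_col : Fin 4 → Fin 8 → Option (Fin 8) :=
  ![![some 1, none, none, some 5, some 6, none, none, none],
    ![some 2, none, none, some 6, some 7, none, none, none],
    ![some 3, some 5, some 6, none, none, none, none, none],
    ![some 4, some 6, some 7, none, none, none, none, none]]

/-- row action -/
def auxPE_row : Fin 4 → Fin 8 → Option (Fin 8) :=
  ![![none, some 0, none, none, none, some 3, some 4, none],
    ![none, none, some 0, none, none, none, some 3, some 4],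
    ![none, none, none, some 0, none, some 1, some 2, none],
    ![none, none, none, none, some 0, none, some 1, some 2]]

/-- standard basis -/
def auxPE_e (k : Type u) [Field k] : Fin 8 → k × (Fin 4 → k) × (Fin 3 → k) :=
  ![(1, 0, 0), (0, Pi.single 0 1, 0), (0, Pi.single 1 1, 0), (0, Pi.single 2 1, 0),
    (0, Pi.single 3 1, 0), (0, 0, Pi.single 0 1), (0, 0, Pi.single 1 1), (0, 0, Pi.single 2 1)]

/-- coordinates -/
def auxPE_c (k : Type u) [Field k] : Fin 8 → (k × (Fin 4 → k) × (Fin 3 → k)) →ₗ[k] k :=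
  ![LinearMap.fst k k _,
    (LinearMap.proj 0) ∘ₗ (LinearMap.fst k (Fin 4 → k) (Fin 3 → k)) ∘ₗ (LinearMap.snd k k _),
    (LinearMap.proj 1) ∘ₗ (LinearMap.fst k (Fin 4 → k) (Fin 3 → k)) ∘ₗ (LinearMap.snd k k _),
    (LinearMap.proj 2) ∘ₗ (LinearMap.fst k (Fin 4 → k) (Fin 3 → k)) ∘ₗ (LinearMap.snd k k _),
    (LinearMap.proj 3) ∘ₗ (LinearMap.fst k (Fin 4 → k) (Fin 3 → k)) ∘ₗ (LinearMap.snd k k _),
    (LinearMap.proj 0) ∘ₗ (LinearMap.snd k (Fin 4 → k) (Fin 3 → k)) ∘ₗ (LinearMap.snd k k _),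
    (LinearMap.proj 1) ∘ₗ (LinearMap.snd k (Fin 4 → k) (Fin 3 → k)) ∘ₗ (LinearMap.snd k k _),
    (LinearMap.proj 2) ∘ₗ (LinearMap.snd k (Fin 4 → k) (Fin 3 → k)) ∘ₗ (LinearMap.snd k k _)]

theorem auxPE_rowlem (i : Fin 4) (a : Fin 8) (v : k × (Fin 4 → k) × (Fin 3 → k)) :
    auxPE_c k a (XX s0 i v) = (auxPE_row i a).elim 0 (fun c => auxPE_c k c v) := by
  fin_cases i <;> fin_cases a <;> simp [XX, s0, auxPE_c, auxPE_row, Fin.sum_univ_four, Pi.single_apply]

theorem auxPE_collem (i : Fin 4) (b : Fin 8) :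
    XX (k := k) s0 i (auxPE_e k b) = (auxPE_col i b).elim 0 (fun c => auxPE_e k c) := by
  fin_cases i <;> fin_cases b <;>
    (refine Prod.ext ?_ (Prod.ext ?_ ?_) <;>
      first
        | (simp [XX, s0, auxPE_e, auxPE_col]; done)
        | (funext j; fin_cases j <;> simp [XX, s0, auxPE_e, auxPE_col, Fin.sum_univ_four, Pi.single_apply]))

theorem auxPE_span (v : k × (Fin 4 → k) × (Fin 3 → k)) :
    v = ∑ b, auxPE_c k b v • auxPE_e k b := by
  refine Prod.ext ?_ (Prod.ext ?_ ?_)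
  · simp [Fin.sum_univ_eight, auxPE_c, auxPE_e]
  · funext j
    fin_cases j <;> simp [Fin.sum_univ_eight, auxPE_c, auxPE_e, Pi.single_apply]
  · funext j
    fin_cases j <;> simp [Fin.sum_univ_eight, auxPE_c, auxPE_e, Pi.single_apply]

theorem auxPE_eqn (Y : Fin 4 → Module.End k (k × (Fin 4 → k) × (Fin 3 → k)))
    (hY : Y ∈ lin (XX (k := k) s0)) (i j : Fin 4) (a b : Fin 8) :
    (auxPE_row i a).elim 0 (fun c => auxPE_c k c (Y j (auxPE_e k b)))
      - (auxPE_col i b).elim 0 (fun c => auxPE_c k a (Y j (auxPE_e k c)))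
      + ((auxPE_col j b).elim 0 (fun c => auxPE_c k a (Y i (auxPE_e k c)))
      - (auxPE_row j a).elim 0 (fun c => auxPE_c k c (Y i (auxPE_e k b)))) = 0 := by
  have h := hY i j
  have h2 := congrArg (fun T : Module.End k (k × (Fin 4 → k) × (Fin 3 → k)) => auxPE_c k a (T (auxPE_e k b))) h
  simp only [LinearMap.add_apply, LinearMap.sub_apply, Module.End.mul_apply, LinearMap.zero_apply,
    map_add, map_sub, map_zero, auxPE_rowlem, auxPE_collem] at h2
  have e1 : ∀ (o : Option (Fin 8)) (T : Module.End k (k × (Fin 4 → k) × (Fin 3 → k))),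
      auxPE_c k a (T (o.elim 0 (fun c => auxPE_e k c))) = o.elim 0 (fun c => auxPE_c k a (T (auxPE_e k c))) := by
    intro o T
    cases o <;> simp
  rw [e1, e1] at h2
  exact h2

/-- index set of the determining entries -/
def auxPE_S : Finset (Fin 4 × Fin 8 × Fin 8) := Finset.univ.filter (fun u => u.2.2 = 0 ∨
  u ∈ ([(0, 5, 1), (0, 6, 1), (0, 7, 1), (1, 5, 1), (1, 5, 2), (1, 6, 1), (1, 6, 2), (1, 7, 1), (1, 7, 2), (2, 3, 1), (2, 3, 2), (2, 4, 1), (2, 4, 2), (2, 5, 1), (2, 5, 2), (2, 5, 3), (2, 6, 1), (2, 6, 2), (2, 6, 3), (2, 7, 1), (2, 7, 2), (2, 7, 3), (3, 3, 1), (3, 3, 2), (3, 4, 1), (3, 4, 2), (3, 4, 3), (3, 4, 5), (3, 4, 6), (3, 4, 7), (3, 5, 1), (3, 5, 2), (3, 5, 3), (3, 5, 4), (3, 5, 5), (3, 6, 1), (3, 6, 2), (3, 6, 3), (3, 6, 4), (3, 6, 5), (3, 6, 6), (3, 6, 7), (3, 7, 1), (3, 7, 2), (3, 7, 3), (3, 7, 4), (3, 7, 5), (3, 7, 6), (3, 7, 7)] : List (Fin 4 × Fin 8 × Fin 8)))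


theorem auxPE_zero (y : Fin 4 → Fin 8 → Fin 8 → k) (hS : ∀ u ∈ auxPE_S, y u.1 u.2.1 u.2.2 = 0)
    (E : ∀ (i j : Fin 4) (a b : Fin 8), (auxPE_row i a).elim 0 (fun c => y j c b)
      - (auxPE_col i b).elim 0 (fun c => y j a c)
      + ((auxPE_col j b).elim 0 (fun c => y i a c)
      - (auxPE_row j a).elim 0 (fun c => y i c b)) = 0) :
    ∀ j a b, y j a b = 0 := by
  have z000 : y 0 0 0 = 0 := hS (0, 0, 0) (by decide)
  have z010 : y 0 1 0 = 0 := hS (0, 1, 0) (by decide)
  have z020 : y 0 2 0 = 0 := hS (0, 2, 0) (by decide)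
  have z030 : y 0 3 0 = 0 := hS (0, 3, 0) (by decide)
  have z040 : y 0 4 0 = 0 := hS (0, 4, 0) (by decide)
  have z050 : y 0 5 0 = 0 := hS (0, 5, 0) (by decide)
  have z051 : y 0 5 1 = 0 := hS (0, 5, 1) (by decide)
  have z060 : y 0 6 0 = 0 := hS (0, 6, 0) (by decide)
  have z061 : y 0 6 1 = 0 := hS (0, 6, 1) (by decide)
  have z070 : y 0 7 0 = 0 := hS (0, 7, 0) (by decide)
  have z071 : y 0 7 1 = 0 := hS (0, 7, 1) (by decide)
  have z100 : y 1 0 0 = 0 := hS (1, 0, 0) (by decide)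
  have z110 : y 1 1 0 = 0 := hS (1, 1, 0) (by decide)
  have z120 : y 1 2 0 = 0 := hS (1, 2, 0) (by decide)
  have z130 : y 1 3 0 = 0 := hS (1, 3, 0) (by decide)
  have z140 : y 1 4 0 = 0 := hS (1, 4, 0) (by decide)
  have z150 : y 1 5 0 = 0 := hS (1, 5, 0) (by decide)
  have z151 : y 1 5 1 = 0 := hS (1, 5, 1) (by decide)
  have z152 : y 1 5 2 = 0 := hS (1, 5, 2) (by decide)
  have z160 : y 1 6 0 = 0 := hS (1, 6, 0) (by decide)
  have z161 : y 1 6 1 = 0 := hS (1, 6, 1) (by decide)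
  have z162 : y 1 6 2 = 0 := hS (1, 6, 2) (by decide)
  have z170 : y 1 7 0 = 0 := hS (1, 7, 0) (by decide)
  have z171 : y 1 7 1 = 0 := hS (1, 7, 1) (by decide)
  have z172 : y 1 7 2 = 0 := hS (1, 7, 2) (by decide)
  have z200 : y 2 0 0 = 0 := hS (2, 0, 0) (by decide)
  have z210 : y 2 1 0 = 0 := hS (2, 1, 0) (by decide)
  have z220 : y 2 2 0 = 0 := hS (2, 2, 0) (by decide)
  have z230 : y 2 3 0 = 0 := hS (2, 3, 0) (by decide)
  have z231 : y 2 3 1 = 0 := hS (2, 3, 1) (by decide)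
  have z232 : y 2 3 2 = 0 := hS (2, 3, 2) (by decide)
  have z240 : y 2 4 0 = 0 := hS (2, 4, 0) (by decide)
  have z241 : y 2 4 1 = 0 := hS (2, 4, 1) (by decide)
  have z242 : y 2 4 2 = 0 := hS (2, 4, 2) (by decide)
  have z250 : y 2 5 0 = 0 := hS (2, 5, 0) (by decide)
  have z251 : y 2 5 1 = 0 := hS (2, 5, 1) (by decide)
  have z252 : y 2 5 2 = 0 := hS (2, 5, 2) (by decide)
  have z253 : y 2 5 3 = 0 := hS (2, 5, 3) (by decide)
  have z260 : y 2 6 0 = 0 := hS (2, 6, 0) (by decide)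
  have z261 : y 2 6 1 = 0 := hS (2, 6, 1) (by decide)
  have z262 : y 2 6 2 = 0 := hS (2, 6, 2) (by decide)
  have z263 : y 2 6 3 = 0 := hS (2, 6, 3) (by decide)
  have z270 : y 2 7 0 = 0 := hS (2, 7, 0) (by decide)
  have z271 : y 2 7 1 = 0 := hS (2, 7, 1) (by decide)
  have z272 : y 2 7 2 = 0 := hS (2, 7, 2) (by decide)
  have z273 : y 2 7 3 = 0 := hS (2, 7, 3) (by decide)
  have z300 : y 3 0 0 = 0 := hS (3, 0, 0) (by decide)
  have z310 : y 3 1 0 = 0 := hS (3, 1, 0) (by decide)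
  have z320 : y 3 2 0 = 0 := hS (3, 2, 0) (by decide)
  have z330 : y 3 3 0 = 0 := hS (3, 3, 0) (by decide)
  have z331 : y 3 3 1 = 0 := hS (3, 3, 1) (by decide)
  have z332 : y 3 3 2 = 0 := hS (3, 3, 2) (by decide)
  have z340 : y 3 4 0 = 0 := hS (3, 4, 0) (by decide)
  have z341 : y 3 4 1 = 0 := hS (3, 4, 1) (by decide)
  have z342 : y 3 4 2 = 0 := hS (3, 4, 2) (by decide)
  have z343 : y 3 4 3 = 0 := hS (3, 4, 3) (by decide)
  have z345 : y 3 4 5 = 0 := hS (3, 4, 5) (by decide)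
  have z346 : y 3 4 6 = 0 := hS (3, 4, 6) (by decide)
  have z347 : y 3 4 7 = 0 := hS (3, 4, 7) (by decide)
  have z350 : y 3 5 0 = 0 := hS (3, 5, 0) (by decide)
  have z351 : y 3 5 1 = 0 := hS (3, 5, 1) (by decide)
  have z352 : y 3 5 2 = 0 := hS (3, 5, 2) (by decide)
  have z353 : y 3 5 3 = 0 := hS (3, 5, 3) (by decide)
  have z354 : y 3 5 4 = 0 := hS (3, 5, 4) (by decide)
  have z355 : y 3 5 5 = 0 := hS (3, 5, 5) (by decide)
  have z360 : y 3 6 0 = 0 := hS (3, 6, 0) (by decide)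
  have z361 : y 3 6 1 = 0 := hS (3, 6, 1) (by decide)
  have z362 : y 3 6 2 = 0 := hS (3, 6, 2) (by decide)
  have z363 : y 3 6 3 = 0 := hS (3, 6, 3) (by decide)
  have z364 : y 3 6 4 = 0 := hS (3, 6, 4) (by decide)
  have z365 : y 3 6 5 = 0 := hS (3, 6, 5) (by decide)
  have z366 : y 3 6 6 = 0 := hS (3, 6, 6) (by decide)
  have z367 : y 3 6 7 = 0 := hS (3, 6, 7) (by decide)
  have z370 : y 3 7 0 = 0 := hS (3, 7, 0) (by decide)
  have z371 : y 3 7 1 = 0 := hS (3, 7, 1) (by decide)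
  have z372 : y 3 7 2 = 0 := hS (3, 7, 2) (by decide)
  have z373 : y 3 7 3 = 0 := hS (3, 7, 3) (by decide)
  have z374 : y 3 7 4 = 0 := hS (3, 7, 4) (by decide)
  have z375 : y 3 7 5 = 0 := hS (3, 7, 5) (by decide)
  have z376 : y 3 7 6 = 0 := hS (3, 7, 6) (by decide)
  have z377 : y 3 7 7 = 0 := hS (3, 7, 7) (by decide)
  have q0 : y 1 0 1 - 0 + (0 - 0) = 0 := E 0 1 1 1
  have z101 : y 1 0 1 = 0 := by linear_combination (1) * q0
  have q1 : y 1 0 2 - 0 + (0 - 0) = 0 := E 0 1 1 2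
  have z102 : y 1 0 2 = 0 := by linear_combination (1) * q1
  have q2 : y 1 0 5 - 0 + (0 - 0) = 0 := E 0 1 1 5
  have z105 : y 1 0 5 = 0 := by linear_combination (1) * q2
  have q3 : y 1 0 6 - 0 + (0 - 0) = 0 := E 0 1 1 6
  have z106 : y 1 0 6 = 0 := by linear_combination (1) * q3
  have q4 : y 1 0 7 - 0 + (0 - 0) = 0 := E 0 1 1 7
  have z107 : y 1 0 7 = 0 := by linear_combination (1) * q4
  have q5 : 0 - 0 + (0 - y 0 0 1) = 0 := E 0 1 2 1
  have z001 : y 0 0 1 = 0 := by linear_combination (-1) * q5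
  have q6 : 0 - 0 + (0 - y 0 0 2) = 0 := E 0 1 2 2
  have z002 : y 0 0 2 = 0 := by linear_combination (-1) * q6
  have q7 : 0 - 0 + (0 - y 0 0 5) = 0 := E 0 1 2 5
  have z005 : y 0 0 5 = 0 := by linear_combination (-1) * q7
  have q8 : 0 - 0 + (0 - y 0 0 6) = 0 := E 0 1 2 6
  have z006 : y 0 0 6 = 0 := by linear_combination (-1) * q8
  have q9 : 0 - 0 + (0 - y 0 0 7) = 0 := E 0 1 2 7
  have z007 : y 0 0 7 = 0 := by linear_combination (-1) * q9
  have q10 : y 1 3 0 - y 1 5 1 + (y 0 5 2 - 0) = 0 := E 0 1 5 0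
  have z052 : y 0 5 2 = 0 := by linear_combination (1) * q10 + (-1) * z130 + (1) * z151
  have q11 : y 1 3 1 - 0 + (0 - 0) = 0 := E 0 1 5 1
  have z131 : y 1 3 1 = 0 := by linear_combination (1) * q11
  have q12 : y 1 3 2 - 0 + (0 - 0) = 0 := E 0 1 5 2
  have z132 : y 1 3 2 = 0 := by linear_combination (1) * q12
  have q13 : y 1 3 5 - 0 + (0 - 0) = 0 := E 0 1 5 5
  have z135 : y 1 3 5 = 0 := by linear_combination (1) * q13
  have q14 : y 1 3 6 - 0 + (0 - 0) = 0 := E 0 1 5 6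
  have z136 : y 1 3 6 = 0 := by linear_combination (1) * q14
  have q15 : y 1 3 7 - 0 + (0 - 0) = 0 := E 0 1 5 7
  have z137 : y 1 3 7 = 0 := by linear_combination (1) * q15
  have q16 : y 1 4 0 - y 1 6 1 + (y 0 6 2 - y 0 3 0) = 0 := E 0 1 6 0
  have z062 : y 0 6 2 = 0 := by linear_combination (1) * q16 + (-1) * z140 + (1) * z161 + (1) * z030
  have q17 : 0 - y 1 7 1 + (y 0 7 2 - y 0 4 0) = 0 := E 0 1 7 0
  have z072 : y 0 7 2 = 0 := by linear_combination (1) * q17 + (1) * z171 + (1) * z040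
  have q18 : 0 - 0 + (0 - y 0 4 1) = 0 := E 0 1 7 1
  have z041 : y 0 4 1 = 0 := by linear_combination (-1) * q18
  have q19 : 0 - 0 + (0 - y 0 4 2) = 0 := E 0 1 7 2
  have z042 : y 0 4 2 = 0 := by linear_combination (-1) * q19
  have q20 : 0 - 0 + (0 - y 0 4 5) = 0 := E 0 1 7 5
  have z045 : y 0 4 5 = 0 := by linear_combination (-1) * q20
  have q21 : 0 - 0 + (0 - y 0 4 6) = 0 := E 0 1 7 6
  have z046 : y 0 4 6 = 0 := by linear_combination (-1) * q21
  have q22 : 0 - 0 + (0 - y 0 4 7) = 0 := E 0 1 7 7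
  have z047 : y 0 4 7 = 0 := by linear_combination (-1) * q22
  have q23 : 0 - y 2 0 5 + (0 - 0) = 0 := E 0 2 0 3
  have z205 : y 2 0 5 = 0 := by linear_combination (-1) * q23
  have q24 : 0 - y 2 0 6 + (0 - 0) = 0 := E 0 2 0 4
  have z206 : y 2 0 6 = 0 := by linear_combination (-1) * q24
  have q25 : y 2 0 7 - 0 + (0 - 0) = 0 := E 0 2 1 7
  have z207 : y 2 0 7 = 0 := by linear_combination (1) * q25
  have q26 : 0 - 0 + (y 0 2 5 - 0) = 0 := E 0 2 2 1
  have z025 : y 0 2 5 = 0 := by linear_combination (1) * q26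
  have q27 : 0 - 0 + (y 0 2 6 - 0) = 0 := E 0 2 2 2
  have z026 : y 0 2 6 = 0 := by linear_combination (1) * q27
  have q28 : 0 - y 2 2 5 + (0 - 0) = 0 := E 0 2 2 3
  have z225 : y 2 2 5 = 0 := by linear_combination (-1) * q28
  have q29 : 0 - y 2 2 6 + (0 - 0) = 0 := E 0 2 2 4
  have z226 : y 2 2 6 = 0 := by linear_combination (-1) * q29
  have q30 : 0 - y 2 3 1 + (y 0 3 3 - y 0 0 0) = 0 := E 0 2 3 0
  have z033 : y 0 3 3 = 0 := by linear_combination (1) * q30 + (1) * z231 + (1) * z000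
  have q31 : 0 - 0 + (y 0 3 5 - y 0 0 1) = 0 := E 0 2 3 1
  have z035 : y 0 3 5 = 0 := by linear_combination (1) * q31 + (1) * z001
  have q32 : 0 - 0 + (y 0 3 6 - y 0 0 2) = 0 := E 0 2 3 2
  have z036 : y 0 3 6 = 0 := by linear_combination (1) * q32 + (1) * z002
  have q33 : 0 - y 2 4 1 + (y 0 4 3 - 0) = 0 := E 0 2 4 0
  have z043 : y 0 4 3 = 0 := by linear_combination (1) * q33 + (1) * z241
  have q34 : 0 - y 2 4 5 + (0 - 0) = 0 := E 0 2 4 3
  have z245 : y 2 4 5 = 0 := by linear_combination (-1) * q34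
  have q35 : 0 - y 2 4 6 + (0 - 0) = 0 := E 0 2 4 4
  have z246 : y 2 4 6 = 0 := by linear_combination (-1) * q35
  have q36 : y 2 3 0 - y 2 5 1 + (y 0 5 3 - y 0 1 0) = 0 := E 0 2 5 0
  have z053 : y 0 5 3 = 0 := by linear_combination (1) * q36 + (-1) * z230 + (1) * z251 + (1) * z010
  have q37 : y 2 4 0 - y 2 6 1 + (y 0 6 3 - y 0 2 0) = 0 := E 0 2 6 0
  have z063 : y 0 6 3 = 0 := by linear_combination (1) * q37 + (-1) * z240 + (1) * z261 + (1) * z020
  have q38 : 0 - y 2 7 1 + (y 0 7 3 - 0) = 0 := E 0 2 7 0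
  have z073 : y 0 7 3 = 0 := by linear_combination (1) * q38 + (1) * z271
  have q39 : 0 - 0 + (y 0 7 5 - 0) = 0 := E 0 2 7 1
  have z075 : y 0 7 5 = 0 := by linear_combination (1) * q39
  have q40 : 0 - 0 + (y 0 7 6 - 0) = 0 := E 0 2 7 2
  have z076 : y 0 7 6 = 0 := by linear_combination (1) * q40
  have q41 : 0 - y 2 7 5 + (0 - 0) = 0 := E 0 2 7 3
  have z275 : y 2 7 5 = 0 := by linear_combination (-1) * q41
  have q42 : 0 - y 2 7 6 + (0 - 0) = 0 := E 0 2 7 4
  have z276 : y 2 7 6 = 0 := by linear_combination (-1) * q42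
  have q43 : 0 - y 3 0 5 + (0 - 0) = 0 := E 0 3 0 3
  have z305 : y 3 0 5 = 0 := by linear_combination (-1) * q43
  have q44 : 0 - y 3 0 6 + (0 - 0) = 0 := E 0 3 0 4
  have z306 : y 3 0 6 = 0 := by linear_combination (-1) * q44
  have q45 : y 3 0 7 - 0 + (0 - 0) = 0 := E 0 3 1 7
  have z307 : y 3 0 7 = 0 := by linear_combination (1) * q45
  have q46 : 0 - 0 + (y 0 2 7 - 0) = 0 := E 0 3 2 2
  have z027 : y 0 2 7 = 0 := by linear_combination (1) * q46
  have q47 : 0 - y 3 2 5 + (0 - 0) = 0 := E 0 3 2 3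
  have z325 : y 3 2 5 = 0 := by linear_combination (-1) * q47
  have q48 : 0 - y 3 2 6 + (0 - 0) = 0 := E 0 3 2 4
  have z326 : y 3 2 6 = 0 := by linear_combination (-1) * q48
  have q49 : 0 - y 3 3 1 + (y 0 3 4 - 0) = 0 := E 0 3 3 0
  have z034 : y 0 3 4 = 0 := by linear_combination (1) * q49 + (1) * z331
  have q50 : 0 - 0 + (y 0 3 7 - 0) = 0 := E 0 3 3 2
  have z037 : y 0 3 7 = 0 := by linear_combination (1) * q50
  have q51 : 0 - y 3 3 5 + (0 - 0) = 0 := E 0 3 3 3
  have z335 : y 3 3 5 = 0 := by linear_combination (-1) * q51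
  have q52 : 0 - y 3 3 6 + (0 - 0) = 0 := E 0 3 3 4
  have z336 : y 3 3 6 = 0 := by linear_combination (-1) * q52
  have q53 : 0 - y 3 4 1 + (y 0 4 4 - y 0 0 0) = 0 := E 0 3 4 0
  have z044 : y 0 4 4 = 0 := by linear_combination (1) * q53 + (1) * z341 + (1) * z000
  have q54 : 0 - y 3 4 5 + (0 - y 0 0 3) = 0 := E 0 3 4 3
  have z003 : y 0 0 3 = 0 := by linear_combination (-1) * q54 + (-1) * z345
  have q55 : 0 - y 3 4 6 + (0 - y 0 0 4) = 0 := E 0 3 4 4
  have z004 : y 0 0 4 = 0 := by linear_combination (-1) * q55 + (-1) * z346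
  have q56 : y 3 3 0 - y 3 5 1 + (y 0 5 4 - 0) = 0 := E 0 3 5 0
  have z054 : y 0 5 4 = 0 := by linear_combination (1) * q56 + (-1) * z330 + (1) * z351
  have q57 : y 3 3 1 - 0 + (y 0 5 6 - 0) = 0 := E 0 3 5 1
  have z056 : y 0 5 6 = 0 := by linear_combination (1) * q57 + (-1) * z331
  have q58 : y 3 3 2 - 0 + (y 0 5 7 - 0) = 0 := E 0 3 5 2
  have z057 : y 0 5 7 = 0 := by linear_combination (1) * q58 + (-1) * z332
  have q59 : y 3 3 3 - y 3 5 5 + (0 - 0) = 0 := E 0 3 5 3
  have z333 : y 3 3 3 = 0 := by linear_combination (1) * q59 + (1) * z355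
  have q60 : y 3 3 7 - 0 + (0 - 0) = 0 := E 0 3 5 7
  have z337 : y 3 3 7 = 0 := by linear_combination (1) * q60
  have q61 : y 3 4 0 - y 3 6 1 + (y 0 6 4 - y 0 1 0) = 0 := E 0 3 6 0
  have z064 : y 0 6 4 = 0 := by linear_combination (1) * q61 + (-1) * z340 + (1) * z361 + (1) * z010
  have q62 : y 3 4 3 - y 3 6 5 + (0 - y 0 1 3) = 0 := E 0 3 6 3
  have z013 : y 0 1 3 = 0 := by linear_combination (-1) * q62 + (1) * z343 + (-1) * z365
  have q63 : y 3 4 5 - 0 + (0 - y 0 1 5) = 0 := E 0 3 6 5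
  have z015 : y 0 1 5 = 0 := by linear_combination (-1) * q63 + (1) * z345
  have q64 : y 3 4 6 - 0 + (0 - y 0 1 6) = 0 := E 0 3 6 6
  have z016 : y 0 1 6 = 0 := by linear_combination (-1) * q64 + (1) * z346
  have q65 : y 3 4 7 - 0 + (0 - y 0 1 7) = 0 := E 0 3 6 7
  have z017 : y 0 1 7 = 0 := by linear_combination (-1) * q65 + (1) * z347
  have q66 : 0 - y 3 7 1 + (y 0 7 4 - y 0 2 0) = 0 := E 0 3 7 0
  have z074 : y 0 7 4 = 0 := by linear_combination (1) * q66 + (1) * z371 + (1) * z020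
  have q67 : 0 - 0 + (y 0 7 6 - y 0 2 1) = 0 := E 0 3 7 1
  have z021 : y 0 2 1 = 0 := by linear_combination (-1) * q67 + (1) * z076
  have q68 : 0 - y 3 7 5 + (0 - y 0 2 3) = 0 := E 0 3 7 3
  have z023 : y 0 2 3 = 0 := by linear_combination (-1) * q68 + (-1) * z375
  have q69 : 0 - y 3 7 6 + (0 - y 0 2 4) = 0 := E 0 3 7 4
  have z024 : y 0 2 4 = 0 := by linear_combination (-1) * q69 + (-1) * z376
  have q70 : 0 - 0 + (y 1 1 5 - 0) = 0 := E 1 2 1 1
  have z115 : y 1 1 5 = 0 := by linear_combination (1) * q70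
  have q71 : 0 - 0 + (y 1 1 6 - 0) = 0 := E 1 2 1 2
  have z116 : y 1 1 6 = 0 := by linear_combination (1) * q71
  have q72 : 0 - y 2 1 6 + (0 - 0) = 0 := E 1 2 1 3
  have z216 : y 2 1 6 = 0 := by linear_combination (-1) * q72
  have q73 : 0 - y 2 1 7 + (0 - 0) = 0 := E 1 2 1 4
  have z217 : y 2 1 7 = 0 := by linear_combination (-1) * q73
  have q74 : y 2 0 3 - y 2 2 6 + (0 - 0) = 0 := E 1 2 2 3
  have z203 : y 2 0 3 = 0 := by linear_combination (1) * q74 + (1) * z226
  have q75 : 0 - y 2 3 2 + (y 1 3 3 - y 1 0 0) = 0 := E 1 2 3 0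
  have z133 : y 1 3 3 = 0 := by linear_combination (1) * q75 + (1) * z232 + (1) * z100
  have q76 : 0 - y 2 4 2 + (y 1 4 3 - 0) = 0 := E 1 2 4 0
  have z143 : y 1 4 3 = 0 := by linear_combination (1) * q76 + (1) * z242
  have q77 : 0 - 0 + (y 1 4 5 - 0) = 0 := E 1 2 4 1
  have z145 : y 1 4 5 = 0 := by linear_combination (1) * q77
  have q78 : 0 - 0 + (y 1 4 6 - 0) = 0 := E 1 2 4 2
  have z146 : y 1 4 6 = 0 := by linear_combination (1) * q78
  have q79 : 0 - y 2 4 7 + (0 - 0) = 0 := E 1 2 4 4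
  have z247 : y 2 4 7 = 0 := by linear_combination (-1) * q79
  have q80 : 0 - y 2 5 2 + (y 1 5 3 - y 1 1 0) = 0 := E 1 2 5 0
  have z153 : y 1 5 3 = 0 := by linear_combination (1) * q80 + (1) * z252 + (1) * z110
  have q81 : 0 - 0 + (0 - y 1 1 7) = 0 := E 1 2 5 7
  have z117 : y 1 1 7 = 0 := by linear_combination (-1) * q81
  have q82 : y 2 3 0 - y 2 6 2 + (y 1 6 3 - y 1 2 0) = 0 := E 1 2 6 0
  have z163 : y 1 6 3 = 0 := by linear_combination (1) * q82 + (-1) * z230 + (1) * z262 + (1) * z120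
  have q83 : y 2 4 0 - y 2 7 2 + (y 1 7 3 - 0) = 0 := E 1 2 7 0
  have z173 : y 1 7 3 = 0 := by linear_combination (1) * q83 + (-1) * z240 + (1) * z272
  have q84 : y 2 4 1 - 0 + (y 1 7 5 - 0) = 0 := E 1 2 7 1
  have z175 : y 1 7 5 = 0 := by linear_combination (1) * q84 + (-1) * z241
  have q85 : y 2 4 2 - 0 + (y 1 7 6 - 0) = 0 := E 1 2 7 2
  have z176 : y 1 7 6 = 0 := by linear_combination (1) * q85 + (-1) * z242
  have q86 : y 2 4 3 - y 2 7 6 + (0 - 0) = 0 := E 1 2 7 3
  have z243 : y 2 4 3 = 0 := by linear_combination (1) * q86 + (1) * z276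
  have q87 : 0 - y 3 1 6 + (0 - 0) = 0 := E 1 3 1 3
  have z316 : y 3 1 6 = 0 := by linear_combination (-1) * q87
  have q88 : 0 - y 3 1 7 + (0 - 0) = 0 := E 1 3 1 4
  have z317 : y 3 1 7 = 0 := by linear_combination (-1) * q88
  have q89 : y 3 0 3 - y 3 2 6 + (0 - 0) = 0 := E 1 3 2 3
  have z303 : y 3 0 3 = 0 := by linear_combination (1) * q89 + (1) * z326
  have q90 : 0 - y 3 3 2 + (y 1 3 4 - 0) = 0 := E 1 3 3 0
  have z134 : y 1 3 4 = 0 := by linear_combination (1) * q90 + (1) * z332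
  have q91 : 0 - y 3 4 2 + (y 1 4 4 - y 1 0 0) = 0 := E 1 3 4 0
  have z144 : y 1 4 4 = 0 := by linear_combination (1) * q91 + (1) * z342 + (1) * z100
  have q92 : 0 - 0 + (y 1 4 7 - y 1 0 2) = 0 := E 1 3 4 2
  have z147 : y 1 4 7 = 0 := by linear_combination (1) * q92 + (1) * z102
  have q93 : 0 - y 3 4 6 + (0 - y 1 0 3) = 0 := E 1 3 4 3
  have z103 : y 1 0 3 = 0 := by linear_combination (-1) * q93 + (-1) * z346
  have q94 : 0 - y 3 4 7 + (0 - y 1 0 4) = 0 := E 1 3 4 4
  have z104 : y 1 0 4 = 0 := by linear_combination (-1) * q94 + (-1) * z347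
  have q95 : 0 - y 3 5 2 + (y 1 5 4 - 0) = 0 := E 1 3 5 0
  have z154 : y 1 5 4 = 0 := by linear_combination (1) * q95 + (1) * z352
  have q96 : 0 - 0 + (y 1 5 6 - 0) = 0 := E 1 3 5 1
  have z156 : y 1 5 6 = 0 := by linear_combination (1) * q96
  have q97 : 0 - 0 + (y 1 5 7 - 0) = 0 := E 1 3 5 2
  have z157 : y 1 5 7 = 0 := by linear_combination (1) * q97
  have q98 : 0 - y 3 5 6 + (0 - 0) = 0 := E 1 3 5 3
  have z356 : y 3 5 6 = 0 := by linear_combination (-1) * q98
  have q99 : 0 - y 3 5 7 + (0 - 0) = 0 := E 1 3 5 4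
  have z357 : y 3 5 7 = 0 := by linear_combination (-1) * q99
  have q100 : y 3 3 0 - y 3 6 2 + (y 1 6 4 - y 1 1 0) = 0 := E 1 3 6 0
  have z164 : y 1 6 4 = 0 := by linear_combination (1) * q100 + (-1) * z330 + (1) * z362 + (1) * z110
  have q101 : y 3 3 3 - y 3 6 6 + (0 - y 1 1 3) = 0 := E 1 3 6 3
  have z113 : y 1 1 3 = 0 := by linear_combination (-1) * q101 + (1) * z333 + (-1) * z366
  have q102 : y 3 4 0 - y 3 7 2 + (y 1 7 4 - y 1 2 0) = 0 := E 1 3 7 0
  have z174 : y 1 7 4 = 0 := by linear_combination (1) * q102 + (-1) * z340 + (1) * z372 + (1) * z120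
  have q103 : y 3 4 1 - 0 + (y 1 7 6 - y 1 2 1) = 0 := E 1 3 7 1
  have z121 : y 1 2 1 = 0 := by linear_combination (-1) * q103 + (1) * z341 + (1) * z176
  have q104 : y 3 4 3 - y 3 7 6 + (0 - y 1 2 3) = 0 := E 1 3 7 3
  have z123 : y 1 2 3 = 0 := by linear_combination (-1) * q104 + (1) * z343 + (-1) * z376
  have q105 : y 3 4 5 - 0 + (0 - y 1 2 5) = 0 := E 1 3 7 5
  have z125 : y 1 2 5 = 0 := by linear_combination (-1) * q105 + (1) * z345
  have q106 : y 3 4 6 - 0 + (0 - y 1 2 6) = 0 := E 1 3 7 6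
  have z126 : y 1 2 6 = 0 := by linear_combination (-1) * q106 + (1) * z346
  have q107 : y 3 4 7 - 0 + (0 - y 1 2 7) = 0 := E 1 3 7 7
  have z127 : y 1 2 7 = 0 := by linear_combination (-1) * q107 + (1) * z347
  have q108 : 0 - y 3 0 3 + (y 2 0 4 - 0) = 0 := E 2 3 0 0
  have z204 : y 2 0 4 = 0 := by linear_combination (1) * q108 + (1) * z303
  have q109 : 0 - y 3 1 5 + (y 2 1 6 - 0) = 0 := E 2 3 1 1
  have z315 : y 3 1 5 = 0 := by linear_combination (-1) * q109 + (1) * z216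
  have q110 : 0 - y 3 2 6 + (y 2 2 7 - 0) = 0 := E 2 3 2 2
  have z227 : y 2 2 7 = 0 := by linear_combination (1) * q110 + (1) * z326
  have q111 : y 3 0 0 - y 3 3 3 + (y 2 3 4 - 0) = 0 := E 2 3 3 0
  have z234 : y 2 3 4 = 0 := by linear_combination (1) * q111 + (-1) * z300 + (1) * z333
  have q112 : y 3 0 4 - 0 + (0 - 0) = 0 := E 2 3 3 4
  have z304 : y 3 0 4 = 0 := by linear_combination (1) * q112
  have q113 : 0 - y 3 4 3 + (y 2 4 4 - y 2 0 0) = 0 := E 2 3 4 0
  have z244 : y 2 4 4 = 0 := by linear_combination (1) * q113 + (1) * z343 + (1) * z200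
  have q114 : 0 - y 3 4 5 + (y 2 4 6 - y 2 0 1) = 0 := E 2 3 4 1
  have z201 : y 2 0 1 = 0 := by linear_combination (-1) * q114 + (-1) * z345 + (1) * z246
  have q115 : 0 - y 3 4 6 + (y 2 4 7 - y 2 0 2) = 0 := E 2 3 4 2
  have z202 : y 2 0 2 = 0 := by linear_combination (-1) * q115 + (-1) * z346 + (1) * z247
  have q116 : y 3 1 0 - y 3 5 3 + (y 2 5 4 - 0) = 0 := E 2 3 5 0
  have z254 : y 2 5 4 = 0 := by linear_combination (1) * q116 + (-1) * z310 + (1) * z353
  have q117 : y 3 1 3 - 0 + (0 - 0) = 0 := E 2 3 5 3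
  have z313 : y 3 1 3 = 0 := by linear_combination (1) * q117
  have q118 : y 3 1 4 - 0 + (0 - 0) = 0 := E 2 3 5 4
  have z314 : y 3 1 4 = 0 := by linear_combination (1) * q118
  have q119 : y 3 2 0 - y 3 6 3 + (y 2 6 4 - y 2 1 0) = 0 := E 2 3 6 0
  have z264 : y 2 6 4 = 0 := by linear_combination (1) * q119 + (-1) * z320 + (1) * z363 + (1) * z210
  have q120 : y 3 2 5 - 0 + (0 - y 2 1 5) = 0 := E 2 3 6 5
  have z215 : y 2 1 5 = 0 := by linear_combination (-1) * q120 + (1) * z325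
  have q121 : y 3 2 7 - 0 + (0 - y 2 1 7) = 0 := E 2 3 6 7
  have z327 : y 3 2 7 = 0 := by linear_combination (1) * q121 + (1) * z217
  have q122 : 0 - y 3 7 3 + (y 2 7 4 - y 2 2 0) = 0 := E 2 3 7 0
  have z274 : y 2 7 4 = 0 := by linear_combination (1) * q122 + (1) * z373 + (1) * z220
  have q123 : 0 - y 3 7 5 + (y 2 7 6 - y 2 2 1) = 0 := E 2 3 7 1
  have z221 : y 2 2 1 = 0 := by linear_combination (-1) * q123 + (-1) * z375 + (1) * z276
  have q124 : 0 - 0 + (0 - y 2 2 3) = 0 := E 2 3 7 3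
  have z223 : y 2 2 3 = 0 := by linear_combination (-1) * q124
  have q125 : 0 - 0 + (0 - y 2 2 4) = 0 := E 2 3 7 4
  have z224 : y 2 2 4 = 0 := by linear_combination (-1) * q125
  have q126 : 0 - y 1 2 1 + (y 0 2 2 - y 0 0 0) = 0 := E 0 1 2 0
  have z022 : y 0 2 2 = 0 := by linear_combination (1) * q126 + (1) * z121 + (1) * z000
  have q127 : 0 - y 1 3 1 + (y 0 3 2 - 0) = 0 := E 0 1 3 0
  have z032 : y 0 3 2 = 0 := by linear_combination (1) * q127 + (1) * z131
  have q128 : 0 - y 1 4 1 + (y 0 4 2 - 0) = 0 := E 0 1 4 0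
  have z141 : y 1 4 1 = 0 := by linear_combination (-1) * q128 + (1) * z042
  have q129 : y 1 3 3 - y 1 5 5 + (y 0 5 6 - 0) = 0 := E 0 1 5 3
  have z155 : y 1 5 5 = 0 := by linear_combination (-1) * q129 + (1) * z133 + (1) * z056
  have q130 : y 1 4 1 - 0 + (0 - y 0 3 1) = 0 := E 0 1 6 1
  have z031 : y 0 3 1 = 0 := by linear_combination (-1) * q130 + (1) * z141
  have q131 : y 1 4 2 - 0 + (0 - y 0 3 2) = 0 := E 0 1 6 2
  have z142 : y 1 4 2 = 0 := by linear_combination (1) * q131 + (1) * z032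
  have q132 : 0 - y 1 7 6 + (y 0 7 7 - y 0 4 4) = 0 := E 0 1 7 4
  have z077 : y 0 7 7 = 0 := by linear_combination (1) * q132 + (1) * z176 + (1) * z044
  have q133 : y 2 0 0 - y 2 1 1 + (y 0 1 3 - 0) = 0 := E 0 2 1 0
  have z211 : y 2 1 1 = 0 := by linear_combination (-1) * q133 + (1) * z200 + (1) * z013
  have q134 : 0 - y 2 3 5 + (0 - y 0 0 3) = 0 := E 0 2 3 3
  have z235 : y 2 3 5 = 0 := by linear_combination (-1) * q134 + (-1) * z003
  have q135 : 0 - y 2 3 6 + (0 - y 0 0 4) = 0 := E 0 2 3 4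
  have z236 : y 2 3 6 = 0 := by linear_combination (-1) * q135 + (-1) * z004
  have q136 : y 2 3 2 - 0 + (y 0 5 6 - y 0 1 2) = 0 := E 0 2 5 2
  have z012 : y 0 1 2 = 0 := by linear_combination (-1) * q136 + (1) * z232 + (1) * z056
  have q137 : y 2 3 7 - 0 + (0 - y 0 1 7) = 0 := E 0 2 5 7
  have z237 : y 2 3 7 = 0 := by linear_combination (1) * q137 + (1) * z017
  have q138 : y 2 4 1 - 0 + (y 0 6 5 - y 0 2 1) = 0 := E 0 2 6 1
  have z065 : y 0 6 5 = 0 := by linear_combination (1) * q138 + (-1) * z241 + (1) * z021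
  have q139 : y 2 4 2 - 0 + (y 0 6 6 - y 0 2 2) = 0 := E 0 2 6 2
  have z066 : y 0 6 6 = 0 := by linear_combination (1) * q139 + (-1) * z242 + (1) * z022
  have q140 : y 2 4 3 - y 2 6 5 + (0 - y 0 2 3) = 0 := E 0 2 6 3
  have z265 : y 2 6 5 = 0 := by linear_combination (-1) * q140 + (1) * z243 + (-1) * z023
  have q141 : y 2 4 4 - y 2 6 6 + (0 - y 0 2 4) = 0 := E 0 2 6 4
  have z266 : y 2 6 6 = 0 := by linear_combination (-1) * q141 + (1) * z244 + (-1) * z024
  have q142 : 0 - y 3 0 1 + (y 0 0 4 - 0) = 0 := E 0 3 0 0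
  have z301 : y 3 0 1 = 0 := by linear_combination (-1) * q142 + (1) * z004
  have q143 : y 3 0 2 - 0 + (y 0 1 7 - 0) = 0 := E 0 3 1 2
  have z302 : y 3 0 2 = 0 := by linear_combination (1) * q143 + (-1) * z017
  have q144 : 0 - y 3 2 1 + (y 0 2 4 - 0) = 0 := E 0 3 2 0
  have z321 : y 3 2 1 = 0 := by linear_combination (-1) * q144 + (1) * z024
  have q145 : y 3 3 4 - y 3 5 6 + (0 - 0) = 0 := E 0 3 5 4
  have z334 : y 3 3 4 = 0 := by linear_combination (1) * q145 + (1) * z356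
  have q146 : y 3 4 1 - 0 + (y 0 6 6 - y 0 1 1) = 0 := E 0 3 6 1
  have z011 : y 0 1 1 = 0 := by linear_combination (-1) * q146 + (1) * z341 + (1) * z066
  have q147 : y 3 4 2 - 0 + (y 0 6 7 - y 0 1 2) = 0 := E 0 3 6 2
  have z067 : y 0 6 7 = 0 := by linear_combination (1) * q147 + (-1) * z342 + (1) * z012
  have q148 : 0 - y 2 1 2 + (y 1 1 3 - 0) = 0 := E 1 2 1 0
  have z212 : y 2 1 2 = 0 := by linear_combination (-1) * q148 + (1) * z113
  have q149 : y 2 0 0 - y 2 2 2 + (y 1 2 3 - 0) = 0 := E 1 2 2 0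
  have z222 : y 2 2 2 = 0 := by linear_combination (-1) * q149 + (1) * z200 + (1) * z123
  have q150 : 0 - 0 + (y 1 5 5 - y 1 1 1) = 0 := E 1 2 5 1
  have z111 : y 1 1 1 = 0 := by linear_combination (-1) * q150 + (1) * z155
  have q151 : 0 - 0 + (y 1 5 6 - y 1 1 2) = 0 := E 1 2 5 2
  have z112 : y 1 1 2 = 0 := by linear_combination (-1) * q151 + (1) * z156
  have q152 : 0 - y 2 5 6 + (0 - y 1 1 3) = 0 := E 1 2 5 3
  have z256 : y 2 5 6 = 0 := by linear_combination (-1) * q152 + (-1) * z113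
  have q153 : y 2 3 1 - 0 + (y 1 6 5 - y 1 2 1) = 0 := E 1 2 6 1
  have z165 : y 1 6 5 = 0 := by linear_combination (1) * q153 + (-1) * z231 + (1) * z121
  have q154 : y 2 3 3 - y 2 6 6 + (0 - y 1 2 3) = 0 := E 1 2 6 3
  have z233 : y 2 3 3 = 0 := by linear_combination (1) * q154 + (1) * z266 + (1) * z123
  have q155 : y 2 4 4 - y 2 7 7 + (0 - 0) = 0 := E 1 2 7 4
  have z277 : y 2 7 7 = 0 := by linear_combination (-1) * q155 + (1) * z244
  have q156 : y 3 3 1 - 0 + (y 1 6 6 - y 1 1 1) = 0 := E 1 3 6 1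
  have z166 : y 1 6 6 = 0 := by linear_combination (1) * q156 + (-1) * z331 + (1) * z111
  have q157 : y 3 3 2 - 0 + (y 1 6 7 - y 1 1 2) = 0 := E 1 3 6 2
  have z167 : y 1 6 7 = 0 := by linear_combination (1) * q157 + (-1) * z332 + (1) * z112
  have q158 : y 3 3 4 - y 3 6 7 + (0 - y 1 1 4) = 0 := E 1 3 6 4
  have z114 : y 1 1 4 = 0 := by linear_combination (-1) * q158 + (1) * z334 + (-1) * z367
  have q159 : 0 - y 3 1 3 + (y 2 1 4 - 0) = 0 := E 2 3 1 0
  have z214 : y 2 1 4 = 0 := by linear_combination (1) * q159 + (1) * z313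
  have q160 : 0 - y 3 2 3 + (y 2 2 4 - 0) = 0 := E 2 3 2 0
  have z323 : y 3 2 3 = 0 := by linear_combination (-1) * q160 + (1) * z224
  have q161 : y 3 1 1 - y 3 5 5 + (y 2 5 6 - 0) = 0 := E 2 3 5 1
  have z311 : y 3 1 1 = 0 := by linear_combination (1) * q161 + (1) * z355 + (-1) * z256
  have q162 : y 3 2 3 - 0 + (0 - y 2 1 3) = 0 := E 2 3 6 3
  have z213 : y 2 1 3 = 0 := by linear_combination (-1) * q162 + (1) * z323
  have q163 : y 3 2 4 - 0 + (0 - y 2 1 4) = 0 := E 2 3 6 4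
  have z324 : y 3 2 4 = 0 := by linear_combination (1) * q163 + (1) * z214
  have q164 : y 2 3 1 - 0 + (y 0 5 5 - y 0 1 1) = 0 := E 0 2 5 1
  have z055 : y 0 5 5 = 0 := by linear_combination (1) * q164 + (-1) * z231 + (1) * z011
  have q165 : y 2 3 3 - y 2 5 5 + (0 - y 0 1 3) = 0 := E 0 2 5 3
  have z255 : y 2 5 5 = 0 := by linear_combination (-1) * q165 + (1) * z233 + (-1) * z013
  have q166 : y 2 3 4 - y 2 5 6 + (0 - y 0 1 4) = 0 := E 0 2 5 4
  have z014 : y 0 1 4 = 0 := by linear_combination (-1) * q166 + (1) * z234 + (-1) * z256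
  have q167 : y 3 4 4 - y 3 6 6 + (0 - y 0 1 4) = 0 := E 0 3 6 4
  have z344 : y 3 4 4 = 0 := by linear_combination (1) * q167 + (1) * z366 + (1) * z014
  have q168 : 0 - y 2 5 7 + (0 - y 1 1 4) = 0 := E 1 2 5 4
  have z257 : y 2 5 7 = 0 := by linear_combination (-1) * q168 + (-1) * z114
  have q169 : y 2 3 2 - 0 + (y 1 6 6 - y 1 2 2) = 0 := E 1 2 6 2
  have z122 : y 1 2 2 = 0 := by linear_combination (-1) * q169 + (1) * z232 + (1) * z166
  have q170 : 0 - y 3 1 2 + (y 1 1 4 - 0) = 0 := E 1 3 1 0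
  have z312 : y 3 1 2 = 0 := by linear_combination (-1) * q170 + (1) * z114
  have q171 : y 3 4 2 - 0 + (y 1 7 7 - y 1 2 2) = 0 := E 1 3 7 2
  have z177 : y 1 7 7 = 0 := by linear_combination (1) * q171 + (-1) * z342 + (1) * z122
  have q172 : y 3 4 4 - y 3 7 7 + (0 - y 1 2 4) = 0 := E 1 3 7 4
  have z124 : y 1 2 4 = 0 := by linear_combination (-1) * q172 + (1) * z344 + (-1) * z377
  have q173 : y 2 3 4 - y 2 6 7 + (0 - y 1 2 4) = 0 := E 1 2 6 4
  have z267 : y 2 6 7 = 0 := by linear_combination (-1) * q173 + (1) * z234 + (-1) * z124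
  have q174 : y 3 0 0 - y 3 2 2 + (y 1 2 4 - 0) = 0 := E 1 3 2 0
  have z322 : y 3 2 2 = 0 := by linear_combination (-1) * q174 + (1) * z300 + (1) * z124
  intro j a b
  fin_cases j <;> fin_cases a <;> fin_cases b <;> first
    | assumption


theorem auxPE_card : auxPE_S.card = 81 := by decide +kernel

theorem psi_zero : Module.finrank k (lin (XX (k := k) s0)) ≤ 87 := by
  let Φ : lin (XX (k := k) s0) →ₗ[k] (auxPE_S → k) :=
    LinearMap.pi (fun u : auxPE_S => (auxPE_c k u.1.2.1) ∘ₗ (LinearMap.applyₗ (auxPE_e k u.1.2.2)) ∘ₗ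
      (LinearMap.proj u.1.1) ∘ₗ (lin (XX (k := k) s0)).subtype)
  have hΦ : Function.Injective Φ := by
    rw [injective_iff_map_eq_zero]
    rintro ⟨Y, hY⟩ h
    have hS : ∀ u ∈ auxPE_S, auxPE_c k u.2.1 (Y u.1 (auxPE_e k u.2.2)) = 0 := by
      intro u hu
      have := congrFun h ⟨u, hu⟩
      exact this
    have hz := auxPE_zero (fun j a b => auxPE_c k a (Y j (auxPE_e k b))) hS (auxPE_eqn Y hY)
    have hz2 : ∀ j b, Y j (auxPE_e k b) = 0 := by
      intro j b
      rw [auxPE_span (Y j (auxPE_e k b))]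
      exact Finset.sum_eq_zero fun a _ => by rw [show auxPE_c k a (Y j (auxPE_e k b)) = 0 from hz j a b, zero_smul]
    apply Subtype.ext
    funext j
    apply LinearMap.ext
    intro v
    show Y j v = 0
    rw [auxPE_span v, map_sum]
    exact Finset.sum_eq_zero fun b _ => by rw [map_smul, hz2, smul_zero]
  have h1 := LinearMap.finrank_le_finrank_of_injective hΦ
  have h2 : Module.finrank k (auxPE_S → k) = 81 := by
    rw [Module.finrank_pi, Fintype.card_coe, auxPE_card]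
  omega

/-- coordinates on the model algebra -/
def auxPF_e (k : Type u) [Field k] : (k × (Fin 4 → k) × (Fin 3 → k)) ≃ₗ[k] (Fin 8 → k) where
  toFun u := ![u.1, u.2.1 0, u.2.1 1, u.2.1 2, u.2.1 3, u.2.2 0, u.2.2 1, u.2.2 2]
  invFun v := (v 0, ![v 1, v 2, v 3, v 4], ![v 5, v 6, v 7])
  map_add' u v := by
    funext p
    fin_cases p <;> simp
  map_smul' c u := by
    funext p
    fin_cases p <;> simp
  left_inv u := by
    refine Prod.ext rfl (Prod.ext ?_ ?_)
    · funext j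
      fin_cases j <;> rfl
    · funext j
      fin_cases j <;> rfl
  right_inv v := by
    funext p
    fin_cases p <;> rfl

/-- the matrices of the model algebra -/
def auxPF_X {B : Type v} [CommRing B] (s : Fin 3 → Fin 4 → Fin 4 → B) (i : Fin 4) :
    Matrix (Fin 8) (Fin 8) B :=
  ![![0, 0, 0, 0, 0, 0, 0, 0],
    ![if (0 : Fin 4) = i then 1 else 0, 0, 0, 0, 0, 0, 0, 0],
    ![if (1 : Fin 4) = i then 1 else 0, 0, 0, 0, 0, 0, 0, 0],
    ![if (2 : Fin 4) = i then 1 else 0, 0, 0, 0, 0, 0, 0, 0],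
    ![if (3 : Fin 4) = i then 1 else 0, 0, 0, 0, 0, 0, 0, 0],
    ![0, s 0 i 0, s 0 i 1, s 0 i 2, s 0 i 3, 0, 0, 0],
    ![0, s 1 i 0, s 1 i 1, s 1 i 2, s 1 i 3, 0, 0, 0],
    ![0, s 2 i 0, s 2 i 1, s 2 i 2, s 2 i 3, 0, 0, 0]]

theorem auxPF_conj (s : Fin 3 → Fin 4 → Fin 4 → k) (i : Fin 4)
    (v : k × (Fin 4 → k) × (Fin 3 → k)) :
    auxPF_e k (XX s i v) = Matrix.toLin' (auxPF_X s i) (auxPF_e k v) := by
  rw [Matrix.toLin'_apply]
  funext p
  fin_cases p <;>
    simp [auxPF_e, XX, auxPF_X, Matrix.mulVec, dotProduct, Fin.sum_univ_succ, Pi.single_apply]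

theorem auxPF_map {B : Type v} [CommRing B] (φ : B →+* k) (s : Fin 3 → Fin 4 → Fin 4 → B)
    (i : Fin 4) : (auxPF_X s i).map φ = auxPF_X (fun l i j => φ (s l i j)) i := by
  ext p q
  rw [Matrix.map_apply]
  fin_cases p <;> fin_cases q <;> simp [auxPF_X, apply_ite φ]

theorem psi_generic (s : Fin 3 → Fin 4 → Fin 4 → Polynomial k)
    (h0 : Module.finrank k (lin (XX (fun l i j => (s l i j).eval 0))) ≤ 87) :
    ∃ g : Polynomial k, g.eval 0 ≠ 0 ∧ ∀ t : k, g.eval t ≠ 0 →
      Module.finrank k (lin (XX (fun l i j => (s l i j).eval t))) ≤ 87 := by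
  obtain ⟨F, hF⟩ := linmat (k := k) (d := 8) (B := Polynomial k) (fun i => auxPF_X s i) 88
  have key : ∀ t : k, Module.finrank k (lin (XX (fun l i j => (s l i j).eval t))) =
      Module.finrank k (lin (fun i => Matrix.toLin'
        ((auxPF_X s i).map (Polynomial.evalRingHom t)))) := by
    intro t
    refine lin_congr (auxPF_e k) _ _ ?_
    intro i v
    rw [auxPF_map]
    exact auxPF_conj _ i v
  have h1 : ∃ f ∈ F, Polynomial.evalRingHom (0 : k) f ≠ 0 := by
    by_contra hcon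
    push Not at hcon
    have h2 := (hF (Polynomial.evalRingHom (0 : k))).2 hcon
    have h3 := key 0

    omega
  obtain ⟨f, hf, hf0⟩ := h1
  refine ⟨f, by simpa using hf0, ?_⟩
  intro t ht
  by_contra hcon
  have h2 : 88 ≤ Module.finrank k (lin (fun i => Matrix.toLin'
        ((auxPF_X s i).map (Polynomial.evalRingHom t)))) := by
    rw [← key t]; omega
  have h3 := (hF (Polynomial.evalRingHom t)).1 h2 f hf
  exact ht (by simpa using h3)

/-- bilinear form of a matrix -/
def auxPG_B (q : Matrix (Fin 4) (Fin 4) k) (x y : Fin 4 → k) : k :=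
  ∑ i, ∑ j, x i * q i j * y j

lemma auxPG_addl (q : Matrix (Fin 4) (Fin 4) k) (x x' y : Fin 4 → k) :
    auxPG_B q (x + x') y = auxPG_B q x y + auxPG_B q x' y := by
  simp only [auxPG_B, Pi.add_apply, add_mul, Finset.sum_add_distrib]

lemma auxPG_addr (q : Matrix (Fin 4) (Fin 4) k) (x y y' : Fin 4 → k) :
    auxPG_B q x (y + y') = auxPG_B q x y + auxPG_B q x y' := by
  simp only [auxPG_B, Pi.add_apply, mul_add, Finset.sum_add_distrib]

lemma auxPG_negl (q : Matrix (Fin 4) (Fin 4) k) (x y : Fin 4 → k) :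
    auxPG_B q (-x) y = - auxPG_B q x y := by
  simp only [auxPG_B, Pi.neg_apply, neg_mul, Finset.sum_neg_distrib]

lemma auxPG_negr (q : Matrix (Fin 4) (Fin 4) k) (x y : Fin 4 → k) :
    auxPG_B q x (-y) = - auxPG_B q x y := by
  simp only [auxPG_B, Pi.neg_apply, mul_neg, Finset.sum_neg_distrib]

lemma auxPG_smulr (q : Matrix (Fin 4) (Fin 4) k) (x y : Fin 4 → k) (t : k) :
    auxPG_B q x (t • y) = t * auxPG_B q x y := by
  simp only [auxPG_B, Pi.smul_apply, smul_eq_mul, Finset.mul_sum]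
  refine Finset.sum_congr rfl fun i _ => Finset.sum_congr rfl fun j _ => ?_
  ring

lemma auxPG_comm (q : Matrix (Fin 4) (Fin 4) k) (hq : ∀ i j, q i j = q j i) (x y : Fin 4 → k) :
    auxPG_B q x y = auxPG_B q y x := by
  unfold auxPG_B
  rw [Finset.sum_comm]
  refine Finset.sum_congr rfl fun i _ => Finset.sum_congr rfl fun j _ => ?_
  rw [hq j i]; ring

lemma auxPG_addq (q q' : Matrix (Fin 4) (Fin 4) k) (x y : Fin 4 → k) :
    auxPG_B (q + q') x y = auxPG_B q x y + auxPG_B q' x y := by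
  simp only [auxPG_B, Matrix.add_apply, mul_add, add_mul, Finset.sum_add_distrib]

lemma auxPG_smulq (c : k) (q : Matrix (Fin 4) (Fin 4) k) (x y : Fin 4 → k) :
    auxPG_B (c • q) x y = c * auxPG_B q x y := by
  simp only [auxPG_B, Matrix.smul_apply, smul_eq_mul, Finset.mul_sum]
  refine Finset.sum_congr rfl fun i _ => Finset.sum_congr rfl fun j _ => ?_
  ring

lemma auxPG_single (q : Matrix (Fin 4) (Fin 4) k) (i j : Fin 4) :
    auxPG_B q (Pi.single i 1) (Pi.single j 1) = q i j := by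
  simp [auxPG_B, Pi.single_apply]

lemma auxPG_zero [CharZero k] (q : Matrix (Fin 4) (Fin 4) k) (hq : ∀ i j, q i j = q j i)
    (h : ∀ x, auxPG_B q x x = 0) : q = 0 := by
  ext i j
  have h1 := h (Pi.single i 1 + Pi.single j 1)
  rw [auxPG_addl, auxPG_addr, auxPG_addr, h, h, auxPG_comm q hq (Pi.single j 1), auxPG_single] at h1
  have h2 : (2:k) * q i j = 0 := by linear_combination h1
  simpa using h2

lemma auxPG_D [CharZero k] (q1 q2 : Matrix (Fin 4) (Fin 4) k) (h1 : ∀ i j, q1 i j = q1 j i)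
    (h2 : ∀ i j, q2 i j = q2 j i) (hli : LinearIndependent k ![q1, q2]) :
    ∃ e f, auxPG_B q1 e e * auxPG_B q2 e f - auxPG_B q2 e e * auxPG_B q1 e f ≠ 0 := by
  by_contra hcon
  push Not at hcon
  have hq2 : q2 ≠ 0 := hli.ne_zero 1
  have hex : ∃ e, auxPG_B q2 e e ≠ 0 := by
    by_contra h
    push Not at h
    exact hq2 (auxPG_zero q2 h2 h)
  obtain ⟨e, he⟩ := hex
  obtain ⟨c, hc⟩ : ∃ c, c = auxPG_B q1 e e / auxPG_B q2 e e := ⟨_, rfl⟩
  obtain ⟨q, hq⟩ : ∃ q, q = q1 + (-c) • q2 := ⟨_, rfl⟩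
  have hB : ∀ x y, auxPG_B q x y = auxPG_B q1 x y - c * auxPG_B q2 x y := by
    intro x y
    rw [hq, auxPG_addq, auxPG_smulq]; ring
  have hqs : ∀ i j, q i j = q j i := by
    intro i j
    rw [hq]
    simp only [Matrix.add_apply, Matrix.smul_apply]
    rw [h1 i j, h2 i j]
  have hid : ∀ x f, auxPG_B q x x * auxPG_B q2 x f - auxPG_B q2 x x * auxPG_B q x f = 0 := by
    intro x f
    rw [hB, hB]
    linear_combination hcon x f
  have hqe : auxPG_B q e e = 0 := by
    rw [hB, hc]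
    field_simp
    ring
  have hqef : ∀ f, auxPG_B q e f = 0 := by
    intro f
    have := hid e f
    rw [hqe, zero_mul, zero_sub, neg_eq_zero] at this
    exact (mul_eq_zero.mp this).resolve_left he
  have hqf : ∀ f, auxPG_B q f f = 0 := by
    intro f
    have a1 := hid (e + f) e
    have a2 := hid (e + (-f)) e
    have hfe : auxPG_B q f e = 0 := by rw [auxPG_comm q hqs]; exact hqef f
    simp only [auxPG_addl, auxPG_addr, auxPG_negl, auxPG_negr, hqe, hqef, hfe] at a1 a2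
    have h3 : (2:k) * (auxPG_B q f f * auxPG_B q2 e e) = 0 := by linear_combination a1 + a2
    have h4 : auxPG_B q f f * auxPG_B q2 e e = 0 := by simpa using h3
    exact (mul_eq_zero.mp h4).resolve_right he
  have hq0 : q = 0 := auxPG_zero q hqs hqf
  rw [LinearIndependent.pair_iff] at hli
  have := hli 1 (-c) (by rw [one_smul, ← hq, hq0])
  exact one_ne_zero this.1

lemma auxPG_ind (e : Fin 4 → k) (he : e ≠ 0) : ∃ f, LinearIndependent k ![e, f] := by
  obtain ⟨i, hi⟩ := Function.ne_iff.mp he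
  obtain ⟨j, hj⟩ : ∃ j : Fin 4, j ≠ i := exists_ne i
  refine ⟨Pi.single j 1, ?_⟩
  rw [LinearIndependent.pair_iff' he]
  intro a ha
  have h1 := congrFun ha i
  rw [Pi.smul_apply, Pi.single_eq_of_ne (Ne.symm hj), smul_eq_mul] at h1
  have h2 : a = 0 := (mul_eq_zero.mp h1).resolve_right hi
  have h3 := congrFun ha j
  rw [h2, zero_smul, Pi.single_eq_same] at h3
  exact zero_ne_one h3

lemma auxPG_mat (e f : Fin 4 → k) (h : LinearIndependent k ![e, f]) :
    ∃ M : Matrix (Fin 4) (Fin 4) k, IsUnit M.det ∧ M 0 = e ∧ M 1 = f := by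
  obtain ⟨x, hx⟩ := exists_linearIndependent_snoc_of_lt_finrank h (by simp)
  obtain ⟨y, hy⟩ := exists_linearIndependent_snoc_of_lt_finrank hx (by simp)
  refine ⟨Matrix.of (Fin.snoc (Fin.snoc ![e, f] x) y), ?_, ?_, ?_⟩
  · rw [← Matrix.isUnit_iff_isUnit_det, ← Matrix.linearIndependent_rows_iff_isUnit]
    exact hy
  · rfl
  · rfl

/-- good pair of vectors -/
lemma auxPG_pair [CharZero k] (Q : Submodule k (Matrix (Fin 4) (Fin 4) k))
    (hs : ∀ q ∈ Q, ∀ i j, q i j = q j i) (hQ : Module.finrank k Q ≤ 2) :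
    ∃ e f, LinearIndependent k ![e, f] ∧
      ∀ q ∈ Q, auxPG_B q e e = 0 → auxPG_B q e f = 0 → q = 0 := by
  by_cases hc : ∃ q1 ∈ Q, ∃ q2 ∈ Q, LinearIndependent k ![q1, q2]
  · obtain ⟨q1, hq1, q2, hq2, hli⟩ := hc
    obtain ⟨e, f, hD⟩ := auxPG_D q1 q2 (hs q1 hq1) (hs q2 hq2) hli
    refine ⟨e, f, ?_, ?_⟩
    · have he : e ≠ 0 := by
        rintro rfl
        apply hD
        simp [auxPG_B]
      rw [LinearIndependent.pair_iff' he]
      rintro a rfl
      apply hD
      rw [auxPG_smulr, auxPG_smulr]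
      ring
    · -- the map Q → k × k is surjective hence injective
      let Φ : Q →ₗ[k] (k × k) :=
        { toFun := fun q => (auxPG_B q.1 e e, auxPG_B q.1 e f)
          map_add' := by
            intro a b
            simp [auxPG_addq]
          map_smul' := by
            intro c a
            simp [auxPG_smulq] }
      have hsurj : Function.Surjective Φ := by
        rintro ⟨s, t⟩
        obtain ⟨Δ, hΔ⟩ : ∃ Δ, Δ = auxPG_B q1 e e * auxPG_B q2 e f -
          auxPG_B q2 e e * auxPG_B q1 e f := ⟨_, rfl⟩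
        rw [← hΔ] at hD
        refine ⟨((s * auxPG_B q2 e f - t * auxPG_B q2 e e) / Δ) • ⟨q1, hq1⟩ +
          ((t * auxPG_B q1 e e - s * auxPG_B q1 e f) / Δ) • ⟨q2, hq2⟩, ?_⟩
        rw [map_add, map_smul, map_smul]
        apply Prod.ext
        · change ((s * auxPG_B q2 e f - t * auxPG_B q2 e e) / Δ) * auxPG_B q1 e e +
            ((t * auxPG_B q1 e e - s * auxPG_B q1 e f) / Δ) * auxPG_B q2 e e = s
          field_simp
          rw [hΔ]; ring
        · change ((s * auxPG_B q2 e f - t * auxPG_B q2 e e) / Δ) * auxPG_B q1 e f +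
            ((t * auxPG_B q1 e e - s * auxPG_B q1 e f) / Δ) * auxPG_B q2 e f = t
          field_simp
          rw [hΔ]; ring
      have hrk := LinearMap.finrank_range_add_finrank_ker Φ
      rw [LinearMap.range_eq_top.mpr hsurj, finrank_top, Module.finrank_prod,
        Module.finrank_self] at hrk
      have hk : Module.finrank k (LinearMap.ker Φ) = 0 := by omega
      have hker : LinearMap.ker Φ = ⊥ := Submodule.finrank_eq_zero.mp hk
      intro q hq ha hb
      have hm : (⟨q, hq⟩ : Q) ∈ LinearMap.ker Φ := by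
        rw [LinearMap.mem_ker]
        exact Prod.ext ha hb
      rw [hker, Submodule.mem_bot] at hm
      exact congrArg Subtype.val hm
  · push Not at hc
    have hex : ∃ e : Fin 4 → k, e ≠ 0 ∧ ∀ q ∈ Q, auxPG_B q e e = 0 → q = 0 := by
      by_cases hb : ∃ q1 ∈ Q, q1 ≠ 0
      · obtain ⟨q1, hq1, hne⟩ := hb
        have : ∃ e, auxPG_B q1 e e ≠ 0 := by
          by_contra h
          push Not at h
          exact hne (auxPG_zero q1 (hs q1 hq1) h)
        obtain ⟨e, he⟩ := this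
        refine ⟨e, ?_, ?_⟩
        · rintro rfl
          apply he
          simp [auxPG_B]
        · intro q hq h0
          have h1 := hc q1 hq1 q hq
          rw [LinearIndependent.pair_iff' hne] at h1
          push Not at h1
          obtain ⟨a, rfl⟩ := h1
          rw [auxPG_smulq] at h0
          have ha : a = 0 := (mul_eq_zero.mp h0).resolve_right he
          rw [ha, zero_smul]
      · push Not at hb
        refine ⟨Pi.single 0 1, ?_, fun q hq _ => hb q hq⟩
        intro h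
        have := congrFun h 0
        simp at this
    obtain ⟨e, he, hall⟩ := hex
    obtain ⟨f, hf⟩ := auxPG_ind e he
    exact ⟨e, f, hf, fun q hq h _ => hall q hq h⟩

/-- parametrised skew matrices -/
def auxPG_skew : (Fin 6 → k) →ₗ[k] Matrix (Fin 4) (Fin 4) k where
  toFun v := !![0, v 0, v 1, v 2; -v 0, 0, v 3, v 4; -v 1, -v 3, 0, v 5; -v 2, -v 4, -v 5, 0]
  map_add' := by
    intro a b
    ext i j
    fin_cases i <;> fin_cases j <;> simp <;> ring
  map_smul' := by
    intro c a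
    ext i j
    fin_cases i <;> fin_cases j <;> simp

lemma auxPG_skew_tr (v : Fin 6 → k) : (auxPG_skew v).transpose = - auxPG_skew v := by
  ext i j
  fin_cases i <;> fin_cases j <;> simp [auxPG_skew]

lemma auxPG_skew_inj (v : Fin 6 → k) (h : auxPG_skew v = 0) : v = 0 := by
  ext i
  fin_cases i
  · exact congrFun (congrFun h 0) 1
  · exact congrFun (congrFun h 0) 2
  · exact congrFun (congrFun h 0) 3
  · exact congrFun (congrFun h 1) 2
  · exact congrFun (congrFun h 1) 3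
  · exact congrFun (congrFun h 2) 3

lemma auxPG_fin [CharZero k] (R Q : Submodule k (Matrix (Fin 4) (Fin 4) k))
    (hskew : ∀ c : Matrix (Fin 4) (Fin 4) k, c.transpose = -c → c ∈ R)
    (hR : Module.finrank k R ≤ 8) (hQR : Q ≤ R) (hs : ∀ q ∈ Q, q.transpose = q) :
    Module.finrank k Q ≤ 2 := by
  let T : (Q × (Fin 6 → k)) →ₗ[k] R :=
    LinearMap.codRestrict R (Q.subtype.comp (LinearMap.fst k Q (Fin 6 → k)) +
      auxPG_skew.comp (LinearMap.snd k Q (Fin 6 → k))) (by
        intro p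
        exact R.add_mem (hQR p.1.2) (hskew _ (auxPG_skew_tr p.2)))
  have hT : Function.Injective T := by
    rw [← LinearMap.ker_eq_bot, LinearMap.ker_eq_bot']
    rintro ⟨q, v⟩ h
    have h1 : q.1 + auxPG_skew v = 0 := congrArg Subtype.val h
    have h2 : q.1 - auxPG_skew v = 0 := by
      have := congrArg Matrix.transpose h1
      rw [Matrix.transpose_add, hs q.1 q.2, auxPG_skew_tr, Matrix.transpose_zero] at this
      rw [sub_eq_add_neg]; exact this
    have h3 : (2:k) • q.1 = 0 := by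
      have : q.1 + auxPG_skew v + (q.1 - auxPG_skew v) = 0 := by rw [h1, h2, add_zero]
      rw [← this, two_smul]; abel
    have h4 : q.1 = 0 := (smul_eq_zero.mp h3).resolve_left two_ne_zero
    have h5 : auxPG_skew v = 0 := by rw [h4, zero_add] at h1; exact h1
    have h6 := auxPG_skew_inj v h5
    rw [h6]
    have h7 : q = 0 := Subtype.ext h4
    rw [h7]; rfl
  have := LinearMap.finrank_le_finrank_of_injective hT
  rw [Module.finrank_prod, Module.finrank_fin_fun] at this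
  omega

lemma auxPG_conj (h q : Matrix (Fin 4) (Fin 4) k) (i j : Fin 4) :
    (h * q * h.transpose) i j = auxPG_B q (h i) (h j) := by
  simp only [Matrix.mul_apply, auxPG_B, Matrix.transpose_apply, Finset.sum_mul]
  rw [Finset.sum_comm]

/-- two quadrics have independent coefficients at `x_0 ^ 2`, `x_0 x_1` in suitable coordinates -/
theorem quad_coords [CharZero k] (R : Submodule k (Matrix (Fin 4) (Fin 4) k))
    (hskew : ∀ c : Matrix (Fin 4) (Fin 4) k, c.transpose = -c → c ∈ R)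
    (hR : Module.finrank k R ≤ 8) :
    ∃ (g : Matrix (Fin 4) (Fin 4) k) (μ ν : Fin 4 → Fin 4 → k), IsUnit g.det ∧
      (∀ i j : Fin 4, i.val + j.val ≤ 1 → μ i j = 0 ∧ ν i j = 0) ∧
      ∀ c : Matrix (Fin 4) (Fin 4) k, g.transpose * c * g ∈ R → ∀ σ : Fin 4 → Fin 4 → k,
        (∀ i j, σ i j = σ j i) → σ 0 0 = - ∑ i, ∑ j, μ i j * σ i j →
        σ 0 1 = - ∑ i, ∑ j, ν i j * σ i j → ∑ i, ∑ j, c i j * σ i j = 0 := by
  classical
  let Q : Submodule k (Matrix (Fin 4) (Fin 4) k) :=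
    { carrier := {q | q ∈ R ∧ q.transpose = q}
      add_mem' := by
        rintro a b ⟨ha, ha'⟩ ⟨hb, hb'⟩
        exact ⟨R.add_mem ha hb, by rw [Matrix.transpose_add, ha', hb']⟩
      zero_mem' := ⟨R.zero_mem, Matrix.transpose_zero⟩
      smul_mem' := by
        rintro c a ⟨ha, ha'⟩
        exact ⟨R.smul_mem c ha, by rw [Matrix.transpose_smul, ha']⟩ }
  have hQR : Q ≤ R := fun q hq => hq.1
  have hQs : ∀ q ∈ Q, q.transpose = q := fun q hq => hq.2
  have hQs' : ∀ q ∈ Q, ∀ i j, q i j = q j i := by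
    intro q hq i j
    conv_lhs => rw [← hQs q hq]
    rfl
  have hQ2 := auxPG_fin R Q hskew hR hQR hQs
  obtain ⟨e, f, hef, hinj⟩ := auxPG_pair Q hQs' hQ2
  obtain ⟨h, hdet, h0, h1⟩ := auxPG_mat e f hef
  let Φ : Q →ₗ[k] (k × k) :=
    { toFun := fun q => (auxPG_B q.1 e e, auxPG_B q.1 e f)
      map_add' := by
        intro a b
        simp [auxPG_addq]
      map_smul' := by
        intro c a
        simp [auxPG_smulq] }
  have hΦ : LinearMap.ker Φ = ⊥ := by
    rw [LinearMap.ker_eq_bot']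
    intro q hq
    apply Subtype.ext
    exact hinj q.1 q.2 (congrArg Prod.fst hq) (congrArg Prod.snd hq)
  obtain ⟨L, hL⟩ := LinearMap.exists_leftInverse_of_injective Φ hΦ
  have hrep : ∀ q : Q, q = auxPG_B q.1 e e • L (1, 0) + auxPG_B q.1 e f • L (0, 1) := by
    intro q
    have hq := LinearMap.congr_fun hL q
    rw [LinearMap.comp_apply, LinearMap.id_apply] at hq
    conv_lhs => rw [← hq]
    rw [← map_smul, ← map_smul, ← map_add]
    congr 1
    apply Prod.ext
    · change auxPG_B q.1 e e = auxPG_B q.1 e e * 1 + auxPG_B q.1 e f * 0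
      ring
    · change auxPG_B q.1 e f = auxPG_B q.1 e e * 0 + auxPG_B q.1 e f * 1
      ring
  refine ⟨(h⁻¹).transpose, fun i j => if i.val + j.val ≤ 1 then 0 else auxPG_B (L (1, 0)).1 (h i) (h j),
    fun i j => if i.val + j.val ≤ 1 then 0 else auxPG_B (L (0, 1)).1 (h i) (h j) / 2, ?_, ?_, ?_⟩
  · rw [Matrix.det_transpose]
    exact (Matrix.isUnit_nonsing_inv_det_iff).mpr hdet
  · intro i j hij
    simp [hij]
  · intro c hc σ hσ h00 h01
    rw [Matrix.transpose_transpose] at hc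
    obtain ⟨c', hc'⟩ : ∃ c', c' = h⁻¹ * c * (h⁻¹).transpose := ⟨_, rfl⟩
    rw [← hc'] at hc
    have hcc : c = h * c' * h.transpose := by
      rw [hc']
      have e1 : h * (h⁻¹ * c * (h⁻¹).transpose) * h.transpose =
          (h * h⁻¹) * c * ((h⁻¹).transpose * h.transpose) := by
        simp only [Matrix.mul_assoc]
      rw [e1, ← Matrix.transpose_mul, Matrix.mul_nonsing_inv h hdet, Matrix.transpose_one,
        Matrix.one_mul, Matrix.mul_one]
    have hqR : c' + c'.transpose ∈ Q := by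
      refine ⟨?_, ?_⟩
      · have hsk : c' - c'.transpose ∈ R := by
          apply hskew
          rw [Matrix.transpose_sub, Matrix.transpose_transpose, neg_sub]
        have : c' + c'.transpose = (2:k) • c' - (c' - c'.transpose) := by
          rw [two_smul]; abel
        rw [this]
        exact R.sub_mem (R.smul_mem _ hc) hsk
      · rw [Matrix.transpose_add, Matrix.transpose_transpose, add_comm]
    obtain ⟨q, hq⟩ : ∃ q : Q, q = ⟨c' + c'.transpose, hqR⟩ := ⟨_, rfl⟩
    have hqv : q.1 = c' + c'.transpose := by rw [hq]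
    have hsum : ∀ i j, c i j + c j i = auxPG_B q.1 (h i) (h j) := by
      intro i j
      rw [← auxPG_conj, hqv, Matrix.mul_add, Matrix.add_mul, Matrix.add_apply, ← hcc]
      congr 1
      have : h * c'.transpose * h.transpose = c.transpose := by
        rw [hcc, Matrix.transpose_mul, Matrix.transpose_mul, Matrix.transpose_transpose,
          Matrix.mul_assoc]
      rw [this]; rfl
    have hval : ∀ x y, auxPG_B q.1 x y = auxPG_B q.1 e e * auxPG_B (L (1, 0)).1 x y +
        auxPG_B q.1 e f * auxPG_B (L (0, 1)).1 x y := by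
      intro x y
      conv_lhs => rw [hrep q]
      rw [Submodule.coe_add, Submodule.coe_smul, Submodule.coe_smul, auxPG_addq, auxPG_smulq,
        auxPG_smulq]
    have h2 : 2 * ∑ i, ∑ j, c i j * σ i j = ∑ i, ∑ j, auxPG_B q.1 (h i) (h j) * σ i j := by
      have : ∑ i, ∑ j, c i j * σ i j = ∑ i, ∑ j, c j i * σ i j := by
        rw [Finset.sum_comm]
        refine Finset.sum_congr rfl fun i _ => Finset.sum_congr rfl fun j _ => ?_
        rw [hσ j i]
      rw [two_mul]
      nth_rw 2 [this]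
      rw [← Finset.sum_add_distrib]
      refine Finset.sum_congr rfl fun i _ => ?_
      rw [← Finset.sum_add_distrib]
      refine Finset.sum_congr rfl fun j _ => ?_
      rw [← hsum]; ring
    have hsymq : auxPG_B q.1 (h 1) (h 0) = auxPG_B q.1 (h 0) (h 1) :=
      auxPG_comm q.1 (hQs' q.1 q.2) _ _
    have h10 : σ 1 0 = σ 0 1 := hσ 1 0
    have h3 : ∑ i, ∑ j, auxPG_B q.1 (h i) (h j) * σ i j =
        auxPG_B q.1 e e * (σ 0 0 + ∑ i, ∑ j, (if i.val + j.val ≤ 1 then 0 else
          auxPG_B (L (1, 0)).1 (h i) (h j)) * σ i j) +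
        2 * auxPG_B q.1 e f * (σ 0 1 + ∑ i, ∑ j, (if i.val + j.val ≤ 1 then 0 else
          auxPG_B (L (0, 1)).1 (h i) (h j) / 2) * σ i j) := by
      simp only [Fin.sum_univ_four]
      rw [hsymq, h10, hval (h 0) (h 2), hval (h 0) (h 3), hval (h 1) (h 1), hval (h 1) (h 2),
        hval (h 1) (h 3), hval (h 2) (h 0), hval (h 2) (h 1), hval (h 2) (h 2), hval (h 2) (h 3),
        hval (h 3) (h 0), hval (h 3) (h 1), hval (h 3) (h 2), hval (h 3) (h 3)]
      simp only [h0, h1]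
      norm_num
      ring
    have h4 : 2 * ∑ i, ∑ j, c i j * σ i j = 0 := by
      rw [h2, h3, h00, h01]
      ring
    simpa using h4

/-- the graph of the projection to the model algebra -/
def auxPH_G (M : Ideal A) (a : Fin 4 → A) (s : Fin 3 → Fin 4 → Fin 4 → k) :
    Submodule k (A × (k × (Fin 4 → k) × (Fin 3 → k))) where
  carrier := {z | ∃ c : Fin 4 → Fin 4 → k, (∀ l, ∑ i, ∑ j, c i j * s l i j = z.2.2.2 l) ∧
    z.1 - algebraMap k A z.2.1 - ∑ i, z.2.2.1 i • a i - ∑ i, ∑ j, c i j • (a i * a j) ∈ M ^ 3}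
  add_mem' := by
    rintro z z' ⟨c, hc, hz⟩ ⟨c', hc', hz'⟩
    refine ⟨c + c', ?_, ?_⟩
    · intro l
      simp only [Pi.add_apply, Prod.snd_add, ← hc l, ← hc' l, add_mul, Finset.sum_add_distrib]
    · have := (M ^ 3).add_mem hz hz'
      convert this using 1
      simp only [Prod.fst_add, Prod.snd_add, Pi.add_apply, map_add, add_smul,
        Finset.sum_add_distrib]
      ring
  zero_mem' := by
    refine ⟨0, ?_, ?_⟩
    · intro l
      simp
    · simp
  smul_mem' := by
    rintro r ⟨x, c0, c1, w⟩ ⟨c, hc, hz⟩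
    simp only at hc hz
    refine ⟨fun i j => r * c i j, ?_, ?_⟩
    · intro l
      change _ = r * w l
      rw [← hc l, Finset.mul_sum]
      refine Finset.sum_congr rfl fun i _ => ?_
      rw [Finset.mul_sum]
      exact Finset.sum_congr rfl fun j _ => by ring
    · change r • x - algebraMap k A (r * c0) - ∑ i, (r * c1 i) • a i -
        ∑ i, ∑ j, (r * c i j) • (a i * a j) ∈ M ^ 3
      have h1 := (M ^ 3).mul_mem_left (algebraMap k A r) hz
      have h2 : r • x - algebraMap k A (r * c0) - ∑ i, (r * c1 i) • a i -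
        ∑ i, ∑ j, (r * c i j) • (a i * a j) = algebraMap k A r * (x - algebraMap k A c0 -
          ∑ i, c1 i • a i - ∑ i, ∑ j, c i j • (a i * a j)) := by
        rw [← Algebra.smul_def, smul_sub, smul_sub, smul_sub, Finset.smul_sum, Finset.smul_sum]
        congr 1
        · congr 1
          · congr 1
            rw [map_mul, Algebra.smul_def]
          · exact Finset.sum_congr rfl fun i _ => by rw [mul_smul]
        · refine Finset.sum_congr rfl fun i _ => ?_
          rw [Finset.smul_sum]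
          exact Finset.sum_congr rfl fun j _ => by rw [mul_smul]
      rw [h2]
      exact h1

lemma auxPH_mem (M : Ideal A) (a : Fin 4 → A) (s : Fin 3 → Fin 4 → Fin 4 → k)
    (x : A) (c0 : k) (c1 : Fin 4 → k) (w : Fin 3 → k) :
    (x, (c0, c1, w)) ∈ auxPH_G M a s ↔ ∃ c : Fin 4 → Fin 4 → k,
      (∀ l, ∑ i, ∑ j, c i j * s l i j = w l) ∧
      x - algebraMap k A c0 - ∑ i, c1 i • a i - ∑ i, ∑ j, c i j • (a i * a j) ∈ M ^ 3 := Iff.rfl

lemma auxPH_sq (M : Ideal A) (a : Fin 4 → A) (ha : ∀ i, a i ∈ M)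
    (hgen : ∀ m ∈ M, ∃ c : Fin 4 → k, m - ∑ i, c i • a i ∈ M ^ 2) (y : A) (hy : y ∈ M ^ 2) :
    ∃ c : Fin 4 → Fin 4 → k, y - ∑ i, ∑ j, c i j • (a i * a j) ∈ M ^ 3 := by
  rw [pow_two] at hy
  refine Submodule.mul_induction_on hy ?_ ?_
  · intro m hm n hn
    obtain ⟨c, hc⟩ := hgen m hm
    obtain ⟨d, hd⟩ := hgen n hn
    refine ⟨fun i j => c i * d j, ?_⟩
    have h1 : (m - ∑ i, c i • a i) * n ∈ M ^ 3 := by
      rw [pow_succ]
      exact Ideal.mul_mem_mul hc hn
    have hsum : ∑ i, c i • a i ∈ M := by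
      refine M.sum_mem fun i _ => ?_
      rw [Algebra.smul_def]
      exact M.mul_mem_left _ (ha i)
    have h2 : (∑ i, c i • a i) * (n - ∑ j, d j • a j) ∈ M ^ 3 := by
      rw [pow_succ']
      exact Ideal.mul_mem_mul hsum hd
    have h3 : (∑ i, c i • a i) * (∑ j, d j • a j) = ∑ i, ∑ j, (c i * d j) • (a i * a j) := by
      rw [Finset.sum_mul_sum]
      exact Finset.sum_congr rfl fun i _ => Finset.sum_congr rfl fun j _ => by
        rw [smul_mul_smul_comm]
    have h4 := (M ^ 3).add_mem h1 h2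
    convert h4 using 1
    rw [← h3]
    ring
  · rintro x y ⟨c, hc⟩ ⟨c', hc'⟩
    refine ⟨c + c', ?_⟩
    have := (M ^ 3).add_mem hc hc'
    convert this using 1
    simp only [Pi.add_apply, add_smul, Finset.sum_add_distrib]
    ring

lemma auxPH_sum1 (M : Ideal A) (a : Fin 4 → A) (ha : ∀ i, a i ∈ M) (c : Fin 4 → k) :
    ∑ i, c i • a i ∈ M := by
  refine M.sum_mem fun i _ => ?_
  rw [Algebra.smul_def]
  exact M.mul_mem_left _ (ha i)

lemma auxPH_sum2 (M : Ideal A) (a : Fin 4 → A) (ha : ∀ i, a i ∈ M) (c : Fin 4 → Fin 4 → k) :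
    ∑ i, ∑ j, c i j • (a i * a j) ∈ M ^ 2 := by
  refine (M ^ 2).sum_mem fun i _ => (M ^ 2).sum_mem fun j _ => ?_
  rw [Algebra.smul_def]
  refine (M ^ 2).mul_mem_left _ ?_
  rw [pow_two]
  exact Ideal.mul_mem_mul (ha i) (ha j)

/-- construction of an ideal with Hilbert function `(1,4,3)` -/
theorem exists_ideal (M : Ideal A) (hM1 : M ≠ ⊤) (hM : ∀ a : A, ∃ c : k, a - algebraMap k A c ∈ M)
    (hfin : Module.Finite k (A ⧸ M ^ 3)) (a : Fin 4 → A) (ha : ∀ i, a i ∈ M)
    (hgen : ∀ m ∈ M, ∃ c : Fin 4 → k, m - ∑ i, c i • a i ∈ M ^ 2)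
    (hind : ∀ c : Fin 4 → k, ∑ i, c i • a i ∈ M ^ 2 → c = 0)
    (s : Fin 3 → Fin 4 → Fin 4 → k) (hsym : ∀ l i j, s l i j = s l j i)
    (hs : ∀ c : Fin 4 → Fin 4 → k, ∑ i, ∑ j, c i j • (a i * a j) ∈ M ^ 3 →
      ∀ l, ∑ i, ∑ j, c i j * s l i j = 0)
    (hsur : ∀ w : Fin 3 → k, ∃ c : Fin 4 → Fin 4 → k, ∀ l, ∑ i, ∑ j, c i j * s l i j = w l) :
    ∃ I : Hilb k A 8, ps k a I.1 = Module.finrank k (lin (XX s)) := by
  classical
  have h32 : M ^ 3 ≤ M ^ 2 := Ideal.pow_le_pow_right (by norm_num)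
  have h21 : M ^ 2 ≤ M := Ideal.pow_le_self (by norm_num)
  have hex : ∀ x : A, ∃ u, (x, u) ∈ auxPH_G M a s := by
    intro x
    obtain ⟨c0, h0⟩ := hM x
    obtain ⟨c1, h1⟩ := hgen _ h0
    obtain ⟨c2, h2⟩ := auxPH_sq M a ha hgen _ h1
    exact ⟨(c0, c1, fun l => ∑ i, ∑ j, c2 i j * s l i j), c2, fun l => rfl, h2⟩
  have huniq : ∀ u, ((0 : A), u) ∈ auxPH_G M a s → u = 0 := by
    rintro ⟨c0, c1, w⟩ ⟨c2, hc2, hm⟩
    simp only at hc2 hm
    have e1 := auxPH_sum1 (k := k) M a ha c1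
    have e2 := auxPH_sum2 (k := k) M a ha c2
    have hc0 : c0 = 0 := by
      by_contra hne
      apply hM1
      rw [Ideal.eq_top_iff_one]
      have h5 : algebraMap k A c0 ∈ M := by
        have h6 := M.neg_mem (M.add_mem (M.add_mem (h21 (h32 hm)) e1) (h21 e2))
        convert h6 using 1
        ring
      have h7 := M.mul_mem_left (algebraMap k A c0⁻¹) h5
      rw [← map_mul, inv_mul_cancel₀ hne, map_one] at h7
      exact h7
    subst hc0
    have hc1 : c1 = 0 := by
      apply hind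
      have h6 := (M ^ 2).neg_mem ((M ^ 2).add_mem (h32 hm) e2)
      convert h6 using 1
      simp
    subst hc1
    have hw : w = 0 := by
      funext l
      rw [← hc2 l]
      apply hs c2
      have h6 := (M ^ 3).neg_mem hm
      convert h6 using 1
      simp
    subst hw
    rfl
  let G := auxPH_G M a s
  let p1 : G →ₗ[k] A := (LinearMap.fst k A _).comp G.subtype
  have hinj : Function.Injective p1 := by
    rw [← LinearMap.ker_eq_bot, LinearMap.ker_eq_bot']
    rintro ⟨⟨x, u⟩, hz⟩ hx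
    have hx0 : x = 0 := hx
    subst hx0
    have := huniq u hz
    subst this
    rfl
  have hsurj : Function.Surjective p1 := by
    intro x
    obtain ⟨u, hu⟩ := hex x
    exact ⟨⟨(x, u), hu⟩, rfl⟩
  let e1 : G ≃ₗ[k] A := LinearEquiv.ofBijective p1 ⟨hinj, hsurj⟩
  let π : A →ₗ[k] (k × (Fin 4 → k) × (Fin 3 → k)) :=
    ((LinearMap.snd k A _).comp G.subtype).comp e1.symm.toLinearMap
  have hπ : ∀ x, (x, π x) ∈ G := by
    intro x
    have h1 : e1 (e1.symm x) = x := e1.apply_symm_apply x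
    have h2 : (e1.symm x : A × (k × (Fin 4 → k) × (Fin 3 → k))).1 = x := h1
    have h3 : (x, π x) = (e1.symm x : A × (k × (Fin 4 → k) × (Fin 3 → k))) :=
      Prod.ext h2.symm rfl
    rw [h3]
    exact (e1.symm x).2
  have hπu : ∀ x u, (x, u) ∈ G → π x = u := by
    intro x u hu
    have h1 := G.sub_mem (hπ x) hu
    have h2 : ((x, π x) - (x, u) : A × (k × (Fin 4 → k) × (Fin 3 → k))) = (0, π x - u) := by
      rw [Prod.mk_sub_mk, sub_self]
    rw [h2] at h1
    exact sub_eq_zero.mp (huniq _ h1)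
  have hπsurj : Function.Surjective π := by
    rintro ⟨c0, c1, w⟩
    obtain ⟨c2, h2⟩ := hsur w
    refine ⟨algebraMap k A c0 + ∑ i, c1 i • a i + ∑ i, ∑ j, c2 i j • (a i * a j), ?_⟩
    apply hπu
    refine ⟨c2, h2, ?_⟩
    simp only
    convert (M ^ 3).zero_mem using 1
    ring
  have hker : ∀ x ∈ LinearMap.ker π, x ∈ M ^ 2 := by
    intro x hx
    have h1 := hπ x
    rw [LinearMap.mem_ker.mp hx] at h1
    obtain ⟨c2, -, h2⟩ := h1
    simp only [Prod.fst_zero, Prod.snd_zero, map_zero, Pi.zero_apply, zero_smul,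
      Finset.sum_const_zero, sub_zero] at h2
    have h3 := (M ^ 2).add_mem (h32 h2) (auxPH_sum2 (k := k) M a ha c2)
    rwa [sub_add_cancel] at h3
  have hM3 : ∀ x ∈ M ^ 3, x ∈ LinearMap.ker π := by
    intro x hx
    rw [LinearMap.mem_ker]
    apply hπu
    refine ⟨0, ?_, ?_⟩
    · intro l
      simp
    · simpa using hx
  let I : Ideal A :=
    { carrier := {x | x ∈ LinearMap.ker π}
      add_mem' := fun {x y} hx hy => (LinearMap.ker π).add_mem hx hy
      zero_mem' := (LinearMap.ker π).zero_mem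
      smul_mem' := by
        intro r x hx
        obtain ⟨c, hc⟩ := hM r
        have h1 : r • x = c • x + (r - algebraMap k A c) * x := by
          rw [Algebra.smul_def c x, smul_eq_mul]
          ring
        rw [h1]
        refine (LinearMap.ker π).add_mem ((LinearMap.ker π).smul_mem c hx) (hM3 _ ?_)
        rw [pow_succ']
        exact Ideal.mul_mem_mul hc (hker x hx) }
  have hI : I.restrictScalars k = LinearMap.ker π := by
    ext x
    exact Iff.rfl
  let e : (A ⧸ I) ≃ₗ[k] (k × (Fin 4 → k) × (Fin 3 → k)) :=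
    ((Submodule.Quotient.restrictScalarsEquiv k I).symm.trans
      (Submodule.quotEquivOfEq _ _ hI)).trans (π.quotKerEquivOfSurjective hπsurj)
  have he : ∀ x : A, e (Ideal.Quotient.mk I x) = π x := fun x => rfl
  have hfinE : Module.Finite k (A ⧸ I) := Module.Finite.equiv e.symm
  have hrank : Module.finrank k (A ⧸ I) = 8 := by
    rw [e.finrank_eq]
    simp
  refine ⟨⟨I, hfinE, hrank⟩, ?_⟩
  unfold ps
  refine lin_congr e _ _ ?_
  intro i v
  obtain ⟨x, rfl⟩ := Ideal.Quotient.mk_surjective v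
  rw [LinearMap.mulLeft_apply]
  have h1 : (Ideal.Quotient.mk I (a i)) * (Ideal.Quotient.mk I x) =
      Ideal.Quotient.mk I (a i * x) := (map_mul _ _ _).symm
  rw [h1, he, he]
  apply hπu
  have hx := hπ x
  obtain ⟨c2, hc2, hm⟩ := hx
  refine ⟨fun p q => if p = i then (π x).2.1 q else 0, ?_, ?_⟩
  · intro l
    change _ = ∑ j, s l i j * (π x).2.1 j
    rw [Finset.sum_eq_single i]
    · exact Finset.sum_congr rfl fun j _ => by simp [mul_comm]
    · intro b _ hb
      simp [hb]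
    · intro h
      exact absurd (Finset.mem_univ _) h
  · change a i * x - algebraMap k A 0 - ∑ p, (Pi.single i (π x).1 : Fin 4 → k) p • a p -
      ∑ p, ∑ q, (if p = i then (π x).2.1 q else 0) • (a p * a q) ∈ M ^ 3
    have h5 : ∑ p, (Pi.single i (π x).1 : Fin 4 → k) p • a p = (π x).1 • a i := by
      rw [Finset.sum_eq_single i]
      · simp
      · intro b _ hb
        simp [Pi.single_eq_of_ne hb]
      · intro h
        exact absurd (Finset.mem_univ _) h
    have h6 : ∑ p, ∑ q, (if p = i then (π x).2.1 q else 0) • (a p * a q) =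
        a i * ∑ q, (π x).2.1 q • a q := by
      rw [Finset.sum_eq_single i]
      · rw [Finset.mul_sum]
        exact Finset.sum_congr rfl fun j _ => by simp
      · intro b _ hb
        simp [hb]
      · intro h
        exact absurd (Finset.mem_univ _) h
    rw [h5, h6]
    have h7 : x - algebraMap k A (π x).1 - ∑ i, (π x).2.1 i • a i ∈ M ^ 2 := by
      have h8 := (M ^ 2).add_mem (h32 hm) (auxPH_sum2 (k := k) M a ha c2)
      rwa [sub_add_cancel] at h8
    have h9 : a i * (x - algebraMap k A (π x).1 - ∑ i, (π x).2.1 i • a i) ∈ M ^ 3 := by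
      rw [pow_succ']
      exact Ideal.mul_mem_mul (ha i) h7
    convert h9 using 1
    rw [Algebra.smul_def, map_zero]
    ring

theorem auxPI_smul (M : Ideal A) (c : k) (x : A) (hx : x ∈ M) : c • x ∈ M := by
  rw [Algebra.smul_def]
  exact Ideal.mul_mem_left _ _ hx

theorem auxPI_sq (M : Ideal A) (b : Fin 4 → A) (hb : ∀ i, b i ∈ M)
    (hgen : ∀ m ∈ M, ∃ c : Fin 4 → k, m - ∑ i, c i • b i ∈ M ^ 2) (x : A) (hx : x ∈ M ^ 2) :
    ∃ c : Matrix (Fin 4) (Fin 4) k, x - ∑ i, ∑ j, c i j • (b i * b j) ∈ M ^ 3 := by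
  rw [pow_two] at hx
  refine Submodule.mul_induction_on hx ?_ ?_
  · intro m hm n hn
    obtain ⟨c, hc⟩ := hgen m hm
    obtain ⟨d, hd⟩ := hgen n hn
    refine ⟨fun i j => c i * d j, ?_⟩
    have e : ∑ i, ∑ j, (c i * d j) • (b i * b j) = (∑ i, c i • b i) * (∑ j, d j • b j) := by
      rw [Finset.sum_mul_sum]
      refine Finset.sum_congr rfl fun i _ => Finset.sum_congr rfl fun j _ => ?_
      rw [smul_mul_smul_comm]
    rw [e]
    have e2 : m * n - (∑ i, c i • b i) * (∑ j, d j • b j) =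
        (m - ∑ i, c i • b i) * n + (∑ i, c i • b i) * (n - ∑ j, d j • b j) := by ring
    rw [e2]
    have h3 : M ^ 3 = M ^ 2 * M := pow_succ M 2
    have h3' : M ^ 3 = M * M ^ 2 := pow_succ' M 2
    refine Ideal.add_mem _ ?_ ?_
    · rw [h3]; exact Ideal.mul_mem_mul hc hn
    · rw [h3']
      exact Ideal.mul_mem_mul (Ideal.sum_mem _ fun i _ => auxPI_smul M (c i) (b i) (hb i)) hd
  · rintro x y ⟨c, hc⟩ ⟨d, hd⟩
    refine ⟨c + d, ?_⟩
    have := Ideal.add_mem _ hc hd
    convert this using 1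
    simp only [Matrix.add_apply, add_smul, Finset.sum_add_distrib]
    ring

theorem auxPI_unit (M : Ideal A) (hM1 : M ≠ ⊤) (c : k) (hc : algebraMap k A c ∈ M) : c = 0 := by
  by_contra h
  exact hM1 (Ideal.eq_top_of_isUnit_mem _ hc ((isUnit_iff_ne_zero.mpr h).map (algebraMap k A)))

/-- four elements of `M` generating `M` modulo `M ^ 2` and the quadratic relations -/
theorem exists_basis_M (M : Ideal A) (hM : ∀ a : A, ∃ c : k, a - algebraMap k A c ∈ M)
    (hM1 : M ≠ ⊤) (hfin : Module.Finite k (A ⧸ M ^ 3)) (h2 : Module.finrank k (A ⧸ M ^ 2) = 5)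
    (h3 : 13 ≤ Module.finrank k (A ⧸ M ^ 3)) :
    ∃ b : Fin 4 → A, (∀ i, b i ∈ M) ∧ (∀ m ∈ M, ∃ c : Fin 4 → k, m - ∑ i, c i • b i ∈ M ^ 2) ∧
      (∀ c : Fin 4 → k, ∑ i, c i • b i ∈ M ^ 2 → c = 0) ∧
      ∃ R : Submodule k (Matrix (Fin 4) (Fin 4) k),
        (∀ c, c ∈ R ↔ ∑ i, ∑ j, c i j • (b i * b j) ∈ M ^ 3) ∧ Module.finrank k R ≤ 8 := by
  classical
  have hle : M ^ 3 ≤ M ^ 2 := Ideal.pow_le_pow_right (by norm_num)
  have hle1 : M ^ 2 ≤ M := Ideal.pow_le_self (by norm_num)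
  haveI hfin2 : Module.Finite k (A ⧸ M ^ 2) := Module.finite_of_finrank_pos (by omega)
  let N : Submodule k (A ⧸ M ^ 2) :=
    (M.restrictScalars k).map (Ideal.Quotient.mkₐ k (M ^ 2)).toLinearMap
  have hNmem : ∀ x, x ∈ N ↔ ∃ m ∈ M, Ideal.Quotient.mk (M ^ 2) m = x := fun x => Iff.rfl
  have hone : (1 : A ⧸ M ^ 2) ≠ 0 := by
    intro h
    have h1 : Ideal.Quotient.mk (M ^ 2) (1 : A) = 0 := by rw [map_one]; exact h
    rw [Ideal.Quotient.eq_zero_iff_mem] at h1
    exact hM1 ((Ideal.eq_top_iff_one M).mpr (hle1 h1))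
  have hcompl : IsCompl N (Submodule.span k {(1 : A ⧸ M ^ 2)}) := by
    constructor
    · rw [Submodule.disjoint_def]
      intro x hx hx1
      obtain ⟨m, hm, rfl⟩ := (hNmem x).mp hx
      obtain ⟨c, hc⟩ := Submodule.mem_span_singleton.mp hx1
      have h1 : Ideal.Quotient.mk (M ^ 2) (algebraMap k A c) = Ideal.Quotient.mk (M ^ 2) m := by
        rw [← hc, Algebra.smul_def, mul_one]
        rfl
      rw [Ideal.Quotient.eq] at h1
      have h2 : algebraMap k A c ∈ M := by
        have := Ideal.add_mem M (hle1 h1) hm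
        rwa [sub_add_cancel] at this
      have h3 := auxPI_unit M hM1 c h2
      rw [← hc, h3, zero_smul]
    · rw [codisjoint_iff, eq_top_iff]
      intro x _
      obtain ⟨a, rfl⟩ := Ideal.Quotient.mk_surjective x
      obtain ⟨c, hc⟩ := hM a
      rw [Submodule.mem_sup]
      refine ⟨Ideal.Quotient.mk (M ^ 2) (a - algebraMap k A c), (hNmem _).mpr ⟨_, hc, rfl⟩,
        c • 1, Submodule.smul_mem _ _ (Submodule.mem_span_singleton_self _), ?_⟩
      rw [Algebra.smul_def, mul_one, map_sub]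
      exact sub_add_cancel _ _
  have hN4 : Module.finrank k N = 4 := by
    have h := Submodule.finrank_add_eq_of_isCompl hcompl
    rw [finrank_span_singleton hone] at h
    omega
  let e := Module.finBasisOfFinrankEq k N hN4
  have hex : ∀ i : Fin 4, ∃ m ∈ M, Ideal.Quotient.mk (M ^ 2) m = (e i : A ⧸ M ^ 2) :=
    fun i => (hNmem _).mp (e i).2
  choose b hbM hbe using hex
  have hsum : ∀ c : Fin 4 → k, Ideal.Quotient.mk (M ^ 2) (∑ i, c i • b i) =
      ((∑ i, c i • e i : N) : A ⧸ M ^ 2) := by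
    intro c
    rw [map_sum, Submodule.coe_sum]
    refine Finset.sum_congr rfl fun i _ => ?_
    rw [Submodule.coe_smul, ← hbe i, Algebra.smul_def, Algebra.smul_def, map_mul]
    rfl
  have hgen : ∀ m ∈ M, ∃ c : Fin 4 → k, m - ∑ i, c i • b i ∈ M ^ 2 := by
    intro m hm
    let y : N := ⟨Ideal.Quotient.mk (M ^ 2) m, (hNmem _).mpr ⟨m, hm, rfl⟩⟩
    refine ⟨fun i => e.repr y i, ?_⟩
    rw [← Ideal.Quotient.eq_zero_iff_mem, map_sub, hsum, e.sum_repr]
    exact sub_self _
  have hind : ∀ c : Fin 4 → k, ∑ i, c i • b i ∈ M ^ 2 → c = 0 := by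
    intro c hc
    rw [← Ideal.Quotient.eq_zero_iff_mem, hsum] at hc
    have h0 : (∑ i, c i • e i : N) = 0 := Subtype.ext hc
    funext i
    exact (Fintype.linearIndependent_iff.mp e.linearIndependent) c h0 i
  refine ⟨b, hbM, hgen, hind, ?_⟩
  let L : Matrix (Fin 4) (Fin 4) k →ₗ[k] A :=
    { toFun := fun c => ∑ i, ∑ j, c i j • (b i * b j)
      map_add' := by
        intro c d
        simp only [Matrix.add_apply, add_smul, Finset.sum_add_distrib]
      map_smul' := by
        intro c d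
        simp only [Matrix.smul_apply, smul_assoc, Finset.smul_sum, RingHom.id_apply] }
  let Ψ : Matrix (Fin 4) (Fin 4) k →ₗ[k] (A ⧸ M ^ 3) :=
    (Ideal.Quotient.mkₐ k (M ^ 3)).toLinearMap ∘ₗ L
  have hΨ : ∀ c, Ψ c = Ideal.Quotient.mk (M ^ 3) (∑ i, ∑ j, c i j • (b i * b j)) := fun c => rfl
  refine ⟨LinearMap.ker Ψ, ?_, ?_⟩
  · intro c
    rw [LinearMap.mem_ker, hΨ, Ideal.Quotient.eq_zero_iff_mem]
  · have hrn := LinearMap.finrank_range_add_finrank_ker Ψ
    have h16 : Module.finrank k (Matrix (Fin 4) (Fin 4) k) = 16 := by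
      rw [Module.finrank_matrix]
      simp
    let f : (A ⧸ M ^ 3) →ₐ[k] (A ⧸ M ^ 2) := Ideal.Quotient.factorₐ k hle
    have hf : Function.Surjective f := Ideal.Quotient.factor_surjective hle
    have hrn2 := LinearMap.finrank_range_add_finrank_ker f.toLinearMap
    have hrange : LinearMap.range f.toLinearMap = ⊤ := LinearMap.range_eq_top.mpr hf
    rw [hrange, finrank_top, h2] at hrn2
    have hker : LinearMap.ker f.toLinearMap ≤ LinearMap.range Ψ := by
      intro x hx
      obtain ⟨a, rfl⟩ := Ideal.Quotient.mk_surjective x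
      have h1 : Ideal.Quotient.mk (M ^ 2) a = 0 := hx
      rw [Ideal.Quotient.eq_zero_iff_mem] at h1
      obtain ⟨c, hc⟩ := auxPI_sq (k := k) M b hbM hgen a h1
      refine ⟨c, ?_⟩
      rw [hΨ]
      exact (Ideal.Quotient.eq.mpr hc).symm
    have hlefin := Submodule.finrank_mono hker
    omega

end psi


section finalfour

variable {k : Type u} {A : Type v} [Field k] [CommRing A] [Algebra k A] {d : ℕ}

theorem special_not_irr [IsAlgClosed k] [IsDomain A] [Algebra.FiniteType k A] (hA : ¬ IsField A)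
    (a : Fin 4 → A) (I0 : Hilb k A 8) (h : ps k a I0.1 ≤ 87) :
    ¬ IrreducibleSpace (Hilb k A 8) := by
  intro hirr
  obtain ⟨-, hpre⟩ := (irreducibleSpace_def (Hilb k A 8)).1 hirr
  have hC1 : IsClosed {I : Hilb k A 8 | 88 ≤ ps k a I.1} := (isClosed_iff _).2 (closed_psi a 88)
  have hC2 : IsClosed {I : Hilb k A 8 | ¬ IsReduced (A ⧸ I.1)} :=
    (isClosed_iff _).2 closed_nonreduced
  have hcov : (Set.univ : Set (Hilb k A 8)) ⊆ {I : Hilb k A 8 | 88 ≤ ps k a I.1} ∪
      {I : Hilb k A 8 | ¬ IsReduced (A ⧸ I.1)} := by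
    intro Z _
    by_cases hZ : IsReduced (A ⧸ Z.1)
    · left
      have h1 := psi_reduced a Z hZ
      exact h1
    · right
      exact hZ
  rcases (isPreirreducible_iff_isClosed_union_isClosed.1 hpre) _ _ hC1 hC2 hcov with h1 | h1
  · have h2 : 88 ≤ ps k a I0.1 := h1 (Set.mem_univ I0)
    omega
  · obtain ⟨Z, hZ⟩ := exists_reduced (k := k) (A := A) hA 8
    exact h1 (Set.mem_univ Z) hZ

/-- weights -/
def wt : Fin 4 → ℕ := ![0, 1, 2, 2]

/-- structure constants deformed to satisfy the relations -/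
def stp (μ ν : Fin 4 → Fin 4 → k) (l : Fin 3) (i j : Fin 4) : Polynomial k :=
  if i = 0 ∧ j = 0 then
    - ∑ p, ∑ q, Polynomial.C (μ p q * s0 l p q) * Polynomial.X ^ (wt p + wt q)
  else if (i = 0 ∧ j = 1) ∨ (i = 1 ∧ j = 0) then
    - ∑ p, ∑ q, Polynomial.C (ν p q * s0 l p q) * Polynomial.X ^ (wt p + wt q - 1)
  else Polynomial.C (s0 l i j)

lemma stp_zero (μ ν : Fin 4 → Fin 4 → k)
    (h : ∀ i j : Fin 4, i.val + j.val ≤ 1 → μ i j = 0 ∧ ν i j = 0) (l : Fin 3) (i j : Fin 4) :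
    (stp μ ν l i j).eval 0 = s0 l i j := by
  have m00 := (h 0 0 (by simp)).1
  have m01 := (h 0 1 (by simp)).1
  have m10 := (h 1 0 (by simp)).1
  have n00 := (h 0 0 (by simp)).2
  have n01 := (h 0 1 (by simp)).2
  have n10 := (h 1 0 (by simp)).2
  have w0 : wt 0 = 0 := rfl
  have w1 : wt 1 = 1 := rfl
  have w2 : wt 2 = 2 := rfl
  have w3 : wt 3 = 2 := rfl
  unfold stp
  split_ifs with h1 h2
  · obtain ⟨rfl, rfl⟩ := h1
    simp only [Polynomial.eval_neg, Polynomial.eval_finsetSum, Polynomial.eval_mul,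
      Polynomial.eval_C, Polynomial.eval_pow, Polynomial.eval_X, Fin.sum_univ_four, w0, w1, w2, w3,
      m00, m01, m10]
    fin_cases l <;> simp [s0]
  · have e : s0 (R := k) l i j = 0 := by
      rcases h2 with ⟨rfl, rfl⟩ | ⟨rfl, rfl⟩ <;> fin_cases l <;> simp [s0]
    rw [e]
    simp only [Polynomial.eval_neg, Polynomial.eval_finsetSum, Polynomial.eval_mul,
      Polynomial.eval_C, Polynomial.eval_pow, Polynomial.eval_X, Fin.sum_univ_four, w0, w1, w2, w3,
      n00, n01, n10]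
    have e11 : s0 (R := k) l 1 1 = 0 := by fin_cases l <;> simp [s0]
    simp [e11]
  · rw [Polynomial.eval_C]

lemma auxPK_s0_symm (l : Fin 3) (i j : Fin 4) : s0 (R := k) l i j = s0 l j i := by
  fin_cases l <;> fin_cases i <;> fin_cases j <;> simp [s0]

lemma stp_symm (μ ν : Fin 4 → Fin 4 → k) (t : k) (l : Fin 3) (i j : Fin 4) :
    (stp μ ν l i j).eval t = (stp μ ν l j i).eval t := by
  unfold stp
  by_cases h1 : i = 0 ∧ j = 0
  · rw [if_pos h1, if_pos ⟨h1.2, h1.1⟩]
  · rw [if_neg h1, if_neg (show ¬ (j = 0 ∧ i = 0) from fun h => h1 ⟨h.2, h.1⟩)]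
    by_cases h2 : (i = 0 ∧ j = 1) ∨ (i = 1 ∧ j = 0)
    · rw [if_pos h2, if_pos (show (j = 0 ∧ i = 1) ∨ (j = 1 ∧ i = 0) by tauto)]
    · rw [if_neg h2, if_neg (show ¬ ((j = 0 ∧ i = 1) ∨ (j = 1 ∧ i = 0)) by tauto),
        auxPK_s0_symm]

lemma auxPK_stp_C (μ ν : Fin 4 → Fin 4 → k) (t : k) (l : Fin 3) (i j : Fin 4) (hj : 2 ≤ j.val) :
    (stp μ ν l i j).eval t = s0 l i j := by
  unfold stp
  rw [if_neg, if_neg, Polynomial.eval_C]
  · rintro (⟨_, rfl⟩ | ⟨_, rfl⟩) <;> simp at hj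
  · rintro ⟨_, rfl⟩; simp at hj

lemma stp_surj (μ ν : Fin 4 → Fin 4 → k) (t : k) (w : Fin 3 → k) :
    ∃ c : Fin 4 → Fin 4 → k, ∀ l, ∑ i, ∑ j, c i j * (stp μ ν l i j).eval t = w l := by
  refine ⟨![![0, 0, w 0, 0], ![0, 0, w 1, w 2], ![0, 0, 0, 0], ![0, 0, 0, 0]], ?_⟩
  intro l
  have e1 := auxPK_stp_C μ ν t l 0 2 (by simp)
  have e2 := auxPK_stp_C μ ν t l 1 2 (by simp)
  have e3 := auxPK_stp_C μ ν t l 1 3 (by simp)
  simp only [Fin.sum_univ_four]
  simp [e1, e2, e3]
  fin_cases l <;> simp [s0]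


lemma auxPL_val (μ ν : Fin 4 → Fin 4 → k) (t : k) (l : Fin 3) (i j : Fin 4)
    (hij : ¬ (i.val + j.val ≤ 1)) : (stp μ ν l i j).eval t = s0 l i j := by
  unfold stp
  rw [if_neg, if_neg]
  · simp
  · rintro (⟨h1, h2⟩ | ⟨h1, h2⟩)
    · subst h1; subst h2; simp at hij
    · subst h1; subst h2; simp at hij
  · rintro ⟨h1, h2⟩
    subst h1; subst h2; simp at hij

lemma auxPL_wt (i j : Fin 4) (hij : ¬ (i.val + j.val ≤ 1)) : 1 ≤ wt i + wt j := by
  revert i j
  decide

lemma stp_rel (μ ν : Fin 4 → Fin 4 → k)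
    (h : ∀ i j : Fin 4, i.val + j.val ≤ 1 → μ i j = 0 ∧ ν i j = 0) (t : k) (ht : t ≠ 0)
    (c : Fin 4 → Fin 4 → k)
    (hc : ∀ σ : Fin 4 → Fin 4 → k, (∀ i j, σ i j = σ j i) → σ 0 0 = - ∑ i, ∑ j, μ i j * σ i j →
        σ 0 1 = - ∑ i, ∑ j, ν i j * σ i j → ∑ i, ∑ j, c i j * σ i j = 0) (l : Fin 3) :
    ∑ i, ∑ j, (c i j * t ^ (wt i + wt j)) * (stp μ ν l i j).eval t = 0 := by
  have h1 := hc (fun i j => t ^ (wt i + wt j) * (stp μ ν l i j).eval t) ?_ ?_ ?_
  · simpa only [mul_assoc] using h1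
  · intro i j
    show t ^ (wt i + wt j) * (stp μ ν l i j).eval t = t ^ (wt j + wt i) * (stp μ ν l j i).eval t
    rw [stp_symm, add_comm]
  · show t ^ (wt 0 + wt 0) * (stp μ ν l 0 0).eval t = _
    have e0 : wt 0 + wt 0 = 0 := by decide
    rw [e0, pow_zero, one_mul]
    unfold stp
    rw [if_pos ⟨rfl, rfl⟩]
    rw [Polynomial.eval_neg, Polynomial.eval_finsetSum]
    congr 1
    refine Finset.sum_congr rfl fun i _ => ?_
    rw [Polynomial.eval_finsetSum]
    refine Finset.sum_congr rfl fun j _ => ?_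
    by_cases hij : i.val + j.val ≤ 1
    · rw [(h i j hij).1]
      simp
    · have := auxPL_val μ ν t l i j hij
      unfold stp at this
      rw [this]
      simp only [Polynomial.eval_mul, Polynomial.eval_C, Polynomial.eval_pow, Polynomial.eval_X]
      ring
  · show t ^ (wt 0 + wt 1) * (stp μ ν l 0 1).eval t = _
    have e0 : wt 0 + wt 1 = 1 := by decide
    rw [e0, pow_one]
    unfold stp
    rw [if_neg (by decide), if_pos (Or.inl ⟨rfl, rfl⟩)]
    rw [Polynomial.eval_neg, Polynomial.eval_finsetSum, mul_neg, Finset.mul_sum]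
    congr 1
    refine Finset.sum_congr rfl fun i _ => ?_
    rw [Polynomial.eval_finsetSum, Finset.mul_sum]
    refine Finset.sum_congr rfl fun j _ => ?_
    by_cases hij : i.val + j.val ≤ 1
    · rw [(h i j hij).2]
      simp
    · have := auxPL_val μ ν t l i j hij
      unfold stp at this
      rw [this]
      simp only [Polynomial.eval_mul, Polynomial.eval_C, Polynomial.eval_pow, Polynomial.eval_X]
      have hw := auxPL_wt i j hij
      obtain ⟨n, hn⟩ : ∃ n, wt i + wt j = n + 1 := ⟨wt i + wt j - 1, by omega⟩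
      rw [hn, Nat.add_sub_cancel, pow_succ]
      ring


lemma auxPM_lin (b : Fin 4 → A) (g : Matrix (Fin 4) (Fin 4) k) (τ c : Fin 4 → k) :
    ∑ i, c i • (τ i • ∑ j, g i j • b j) =
      ∑ j, (Matrix.vecMul (fun i => c i * τ i) g) j • b j := by
  simp only [Finset.smul_sum, smul_smul]
  rw [Finset.sum_comm]
  refine Finset.sum_congr rfl fun j _ => ?_
  rw [Matrix.vecMul, dotProduct, Finset.sum_smul]
  refine Finset.sum_congr rfl fun i _ => ?_
  rw [mul_assoc]

lemma auxPM_mul (b : Fin 4 → A) (g : Matrix (Fin 4) (Fin 4) k) (τ : Fin 4 → k) (i j : Fin 4) :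
    (τ i • ∑ p, g i p • b p) * (τ j • ∑ q, g j q • b q) =
      ∑ p, ∑ q, (τ i * τ j * (g i p * g j q)) • (b p * b q) := by
  rw [smul_mul_smul_comm, Finset.sum_mul_sum, Finset.smul_sum]
  refine Finset.sum_congr rfl fun p _ => ?_
  rw [Finset.smul_sum]
  refine Finset.sum_congr rfl fun q _ => ?_
  rw [smul_mul_smul_comm, smul_smul]

lemma auxPM_quad (b : Fin 4 → A) (g : Matrix (Fin 4) (Fin 4) k) (τ : Fin 4 → k)
    (c : Fin 4 → Fin 4 → k) :
    ∑ i, ∑ j, c i j • ((τ i • ∑ p, g i p • b p) * (τ j • ∑ q, g j q • b q)) =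
      ∑ p, ∑ q, (g.transpose * (Matrix.of fun i j => c i j * (τ i * τ j)) * g) p q •
        (b p * b q) := by
  have h1 : ∀ i j, c i j • ((τ i • ∑ p, g i p • b p) * (τ j • ∑ q, g j q • b q)) =
      ∑ p, ∑ q, (g i p * (c i j * (τ i * τ j)) * g j q) • (b p * b q) := by
    intro i j
    rw [auxPM_mul, Finset.smul_sum]
    refine Finset.sum_congr rfl fun p _ => ?_
    rw [Finset.smul_sum]
    refine Finset.sum_congr rfl fun q _ => ?_
    rw [smul_smul]
    congr 1
    ring
  have h2 : ∀ p q, (g.transpose * (Matrix.of fun i j => c i j * (τ i * τ j)) * g) p q •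
      (b p * b q) = ∑ i, ∑ j, (g i p * (c i j * (τ i * τ j)) * g j q) • (b p * b q) := by
    intro p q
    rw [Matrix.mul_apply, Finset.sum_smul, Finset.sum_comm]
    refine Finset.sum_congr rfl fun j _ => ?_
    rw [Matrix.mul_apply, Finset.sum_mul, Finset.sum_smul]
    refine Finset.sum_congr rfl fun i _ => ?_
    rw [Matrix.transpose_apply, Matrix.of_apply]
  simp only [h1, h2]
  calc ∑ i, ∑ j, ∑ p, ∑ q, (g i p * (c i j * (τ i * τ j)) * g j q) • (b p * b q)
      = ∑ i, ∑ p, ∑ j, ∑ q, (g i p * (c i j * (τ i * τ j)) * g j q) • (b p * b q) :=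
        Finset.sum_congr rfl fun i _ => Finset.sum_comm
    _ = ∑ p, ∑ i, ∑ j, ∑ q, (g i p * (c i j * (τ i * τ j)) * g j q) • (b p * b q) :=
        Finset.sum_comm
    _ = ∑ p, ∑ i, ∑ q, ∑ j, (g i p * (c i j * (τ i * τ j)) * g j q) • (b p * b q) :=
        Finset.sum_congr rfl fun p _ => Finset.sum_congr rfl fun i _ => Finset.sum_comm
    _ = ∑ p, ∑ q, ∑ i, ∑ j, (g i p * (c i j * (τ i * τ j)) * g j q) • (b p * b q) :=
        Finset.sum_congr rfl fun p _ => Finset.sum_comm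

theorem exists_scaled (M : Ideal A) (b : Fin 4 → A) (hb1 : ∀ i, b i ∈ M)
    (hb2 : ∀ m ∈ M, ∃ c : Fin 4 → k, m - ∑ i, c i • b i ∈ M ^ 2)
    (hb3 : ∀ c : Fin 4 → k, ∑ i, c i • b i ∈ M ^ 2 → c = 0)
    (R : Submodule k (Matrix (Fin 4) (Fin 4) k))
    (hR : ∀ c, c ∈ R ↔ ∑ i, ∑ j, c i j • (b i * b j) ∈ M ^ 3)
    (g : Matrix (Fin 4) (Fin 4) k) (hg : IsUnit g.det) (τ : Fin 4 → k) (hτ : ∀ i, τ i ≠ 0) :
    ∃ a : Fin 4 → A, (∀ i, a i ∈ M) ∧ (∀ m ∈ M, ∃ c : Fin 4 → k, m - ∑ i, c i • a i ∈ M ^ 2) ∧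
      (∀ c : Fin 4 → k, ∑ i, c i • a i ∈ M ^ 2 → c = 0) ∧
      ∀ c : Fin 4 → Fin 4 → k, ∑ i, ∑ j, c i j • (a i * a j) ∈ M ^ 3 →
        g.transpose * (Matrix.of fun i j => c i j * (τ i * τ j)) * g ∈ R := by
  have hgi : g⁻¹ * g = 1 := Matrix.nonsing_inv_mul g hg
  have hgi' : g * g⁻¹ = 1 := Matrix.mul_nonsing_inv g hg
  refine ⟨fun i => τ i • ∑ j, g i j • b j, ?_, ?_, ?_, ?_⟩
  · intro i
    refine Submodule.smul_of_tower_mem M (τ i) (Submodule.sum_mem M fun j _ => ?_)
    exact Submodule.smul_of_tower_mem M (g i j) (hb1 j)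
  · intro m hm
    obtain ⟨c, hc⟩ := hb2 m hm
    refine ⟨fun i => (Matrix.vecMul c g⁻¹) i * (τ i)⁻¹, ?_⟩
    rw [auxPM_lin]
    have h1 : (fun i => (Matrix.vecMul c g⁻¹) i * (τ i)⁻¹ * τ i) = Matrix.vecMul c g⁻¹ := by
      funext i
      rw [mul_assoc, inv_mul_cancel₀ (hτ i), mul_one]
    rw [h1, Matrix.vecMul_vecMul, hgi, Matrix.vecMul_one]
    exact hc
  · intro c hc
    rw [auxPM_lin] at hc
    have h1 := hb3 _ hc
    have h2 : (fun i => c i * τ i) = 0 := by
      have h3 : Matrix.vecMul (Matrix.vecMul (fun i => c i * τ i) g) g⁻¹ = 0 := by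
        rw [h1, Matrix.zero_vecMul]
      rwa [Matrix.vecMul_vecMul, hgi', Matrix.vecMul_one] at h3
    funext i
    have h4 : c i * τ i = 0 := congrFun h2 i
    exact (mul_eq_zero.1 h4).resolve_right (hτ i)
  · intro c hc
    rw [auxPM_quad] at hc
    rw [hR]
    exact hc


theorem main_four [IsAlgClosed k] [CharZero k] [IsDomain A] [Algebra.FiniteType k A]
    (hdim : ringKrullDim A = 2) (M : Ideal A) (hM : M.IsMaximal)
    (h2 : Module.finrank k (A ⧸ M ^ 2) = 5) (h3 : 13 ≤ Module.finrank k (A ⧸ M ^ 3)) :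
    ∃ d, 1 ≤ d ∧ Nonempty (Hilb k A d) ∧ ¬ IrreducibleSpace (Hilb k A d) := by
  have hA : ¬ IsField A := by
    intro hf
    have := ringKrullDim_eq_zero_of_isField hf
    rw [hdim] at this
    norm_num at this
  have hconst := exists_const (k := k) M hM
  obtain ⟨b, hb1, hb2, hb3, R, hR, hR8⟩ :=
    exists_basis_M (k := k) M hconst hM.ne_top (finite_pow (k := k) M hM 3) h2 h3
  have hskew : ∀ c : Matrix (Fin 4) (Fin 4) k, c.transpose = -c → c ∈ R := by
    intro c hc
    rw [hR]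
    have h1 : ∑ i, ∑ j, c i j • (b i * b j) = - ∑ i, ∑ j, c i j • (b i * b j) := by
      conv_lhs => rw [Finset.sum_comm]
      rw [← Finset.sum_neg_distrib]
      refine Finset.sum_congr rfl fun j _ => ?_
      rw [← Finset.sum_neg_distrib]
      refine Finset.sum_congr rfl fun i _ => ?_
      have h2 : c i j = - c j i := by
        have := congrFun (congrFun hc j) i
        simpa using this
      rw [h2, neg_smul, mul_comm]
    have h4 : (2 : k) • ∑ i, ∑ j, c i j • (b i * b j) = 0 := by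
      rw [two_smul]
      nth_rewrite 1 [h1]
      exact neg_add_cancel _
    have h5 : ∑ i, ∑ j, c i j • (b i * b j) = 0 :=
      (smul_eq_zero.1 h4).resolve_left two_ne_zero
    rw [h5]
    exact Ideal.zero_mem _
  obtain ⟨g, μ, ν, hg, hμν, hgR⟩ := quad_coords R hskew hR8
  have hst0 : Module.finrank k (lin (XX (fun l i j => (stp μ ν l i j).eval 0))) ≤ 87 := by
    have h6 : (fun l i j => (stp μ ν l i j).eval 0) = (s0 : Fin 3 → Fin 4 → Fin 4 → k) := by
      funext l i j
      exact stp_zero μ ν hμν l i j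
    rw [h6]
    exact psi_zero
  obtain ⟨G, hG0, hG⟩ := psi_generic (stp μ ν) hst0
  have hGX : G * Polynomial.X ≠ 0 := by
    refine mul_ne_zero ?_ Polynomial.X_ne_zero
    rintro rfl
    simp at hG0
  obtain ⟨t, ht⟩ : ∃ t : k, (G * Polynomial.X).eval t ≠ 0 := by
    by_contra hcon
    push Not at hcon
    exact hGX (Polynomial.funext fun t => by rw [hcon t, Polynomial.eval_zero])
  rw [Polynomial.eval_mul, Polynomial.eval_X] at ht
  have htG : G.eval t ≠ 0 := left_ne_zero_of_mul ht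
  have ht0 : t ≠ 0 := right_ne_zero_of_mul ht
  obtain ⟨a, ha1, ha2, ha3, ha4⟩ := exists_scaled M b hb1 hb2 hb3 R hR g hg
    (fun i => (t ^ wt i)⁻¹) (fun i => inv_ne_zero (pow_ne_zero _ ht0))
  have hs : ∀ c : Fin 4 → Fin 4 → k, ∑ i, ∑ j, c i j • (a i * a j) ∈ M ^ 3 →
      ∀ l, ∑ i, ∑ j, c i j * (stp μ ν l i j).eval t = 0 := by
    intro c hc l
    have h7 := stp_rel μ ν hμν t ht0 _ (hgR _ (ha4 c hc)) l
    rw [← h7]
    refine Finset.sum_congr rfl fun i _ => Finset.sum_congr rfl fun j _ => ?_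
    rw [Matrix.of_apply]
    have h8 : t ^ wt i ≠ 0 := pow_ne_zero _ ht0
    have h9 : t ^ wt j ≠ 0 := pow_ne_zero _ ht0
    have h10 : c i j * ((t ^ wt i)⁻¹ * (t ^ wt j)⁻¹) * t ^ (wt i + wt j) = c i j := by
      rw [pow_add]
      field_simp
    rw [h10]
  obtain ⟨I, hI⟩ := exists_ideal (k := k) M hM.ne_top hconst (finite_pow (k := k) M hM 3) a ha1 ha2
    ha3 (fun l i j => (stp μ ν l i j).eval t) (fun l i j => stp_symm μ ν t l i j) hs
    (stp_surj μ ν t)
  refine ⟨8, by norm_num, ⟨I⟩, special_not_irr hA a I ?_⟩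
  rw [hI]
  exact hG t htG

end finalfour

end

end Pool.Agent.Helper404.HilbNG
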