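import Mathlib
import Pool.Agent.Helper404.HitA

open MeasureTheory Set Polynomial

namespace Pool.Agent.Helper404

lemma P0_eval (n : ℕ) (b K : ℤ) (z : ℝ) :
    aeval z (P0 n b K) = -1 + K * ∑ i ∈ Finset.range n, (b : ℝ) ^ (n - 1 - i) * z ^ (i + 1) := by
  unfold P0
  simp [map_sum]

lemma P0_ident (n : ℕ) (b K : ℤ) (hn : 1 ≤ n) (z : ℝ) :
    ((b : ℝ) - z) * aeval z (P0 n b K) =
      -b + (b * (K * (b : ℝ) ^ (n - 1)) + 1) * z - K * z ^ (n + 1) := by
  rw [P0_eval]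
  have h1 : (∑ i ∈ Finset.range n, z ^ i * (b : ℝ) ^ (n - 1 - i)) * (z - b) = z ^ n - (b : ℝ) ^ n :=
    geom_sum₂_mul z (b : ℝ) n
  have h2 : ∑ i ∈ Finset.range n, (b : ℝ) ^ (n - 1 - i) * z ^ (i + 1) =
      z * ∑ i ∈ Finset.range n, z ^ i * (b : ℝ) ^ (n - 1 - i) := by
    rw [Finset.mul_sum]
    refine Finset.sum_congr rfl (fun i _ => ?_)
    rw [pow_succ]; ring
  rw [h2]
  set S := ∑ i ∈ Finset.range n, z ^ i * (b : ℝ) ^ (n - 1 - i) with hS
  have h3 : (b : ℝ) ^ n = b * (b : ℝ) ^ (n - 1) := by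
    rw [← pow_succ']; congr 1; omega
  have h4 : z ^ (n + 1) = z * z ^ n := by rw [pow_succ']
  rw [h4]
  have h5 : (b - z) * (-1 + K * (z * S)) = -b + z - K * z * (S * (z - b)) := by ring
  rw [h5, h1, h3]
  ring

lemma P0_mono (n : ℕ) (hn : 1 ≤ n) (b K : ℤ) (hb : 1 ≤ b) (hK : 1 ≤ K) (z z' : ℝ) (hz : 0 ≤ z)
    (hzz : z < z') : aeval z (P0 n b K) < aeval z' (P0 n b K) := by
  rw [P0_eval, P0_eval]
  have hbR : (0 : ℝ) < b := by exact_mod_cast (by linarith : (0 : ℤ) < b)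
  have hKR : (0 : ℝ) < K := by exact_mod_cast (by linarith : (0 : ℤ) < K)
  have h1 : ∑ i ∈ Finset.range n, (b : ℝ) ^ (n - 1 - i) * z ^ (i + 1) <
      ∑ i ∈ Finset.range n, (b : ℝ) ^ (n - 1 - i) * z' ^ (i + 1) := by
    apply Finset.sum_lt_sum_of_nonempty (Finset.nonempty_range_iff.2 (by omega))
    intro i _
    have h2 : z ^ (i + 1) < z' ^ (i + 1) := pow_lt_pow_left₀ hzz hz (by omega)
    gcongr
  nlinarith

lemma exists_z0 (n : ℕ) (hn : 2 ≤ n) (b K : ℤ) (hb : 1 ≤ b) (hK : 1 ≤ K)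
    (N : ℝ) (hN : N = K * (b : ℝ) ^ (n - 1)) (hNn : (n : ℝ) ≤ N) :
    ∃ z0 : ℝ, 1 / (2 * N) ≤ z0 ∧ z0 ≤ 1 / N ∧ aeval z0 (P0 n b K) = 0 := by
  have hbR : (1 : ℝ) ≤ b := by exact_mod_cast hb
  have hKR : (1 : ℝ) ≤ K := by exact_mod_cast hK
  have hn0 : (2 : ℝ) ≤ n := by exact_mod_cast hn
  have hN0 : 0 < N := by linarith
  have hcont : Continuous (fun z : ℝ => aeval z (P0 n b K)) := by
    have : (fun z : ℝ => aeval z (P0 n b K)) = fun z : ℝ => -1 + K * ∑ i ∈ Finset.range n, (b : ℝ) ^ (n - 1 - i) * z ^ (i + 1) := by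
      ext z; exact P0_eval n b K z
    rw [this]; fun_prop
  have hlo : aeval (1 / (2 * N)) (P0 n b K) ≤ 0 := by
    rw [P0_eval]
    have h1 : ∀ i ∈ Finset.range n, (K : ℝ) * ((b : ℝ) ^ (n - 1 - i) * (1 / (2 * N)) ^ (i + 1)) ≤
        if i = 0 then 1 / 2 else 1 / (4 * N) := by
      intro i hi
      rw [Finset.mem_range] at hi
      have h2 : (b : ℝ) ^ (n - 1 - i) ≤ (b : ℝ) ^ (n - 1) := pow_le_pow_right₀ hbR (by omega)
      have h3 : (K : ℝ) * ((b : ℝ) ^ (n - 1 - i) * (1 / (2 * N)) ^ (i + 1)) ≤ N * (1 / (2 * N)) ^ (i + 1) := by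
        rw [hN]
        rw [← mul_assoc]
        gcongr
      refine h3.trans ?_
      split_ifs with h0
      · rw [h0, zero_add, pow_one]; apply le_of_eq; field_simp
      · obtain ⟨j, hj⟩ := Nat.exists_eq_succ_of_ne_zero h0
        rw [hj]
        have h4 : (1 / (2 * N)) ^ (j + 1 + 1) ≤ (1 / (2 * N)) ^ 2 := by
          apply pow_le_pow_of_le_one (by positivity) _ (by omega)
          rw [div_le_one (by positivity)]; linarith
        calc N * (1 / (2 * N)) ^ (j + 1 + 1) ≤ N * (1 / (2 * N)) ^ 2 := by gcongr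
          _ = 1 / (4 * N) := by field_simp; norm_num
    rw [Finset.mul_sum]
    have h5 := Finset.sum_le_sum h1
    have h6 : ∑ i ∈ Finset.range n, (if i = 0 then (1 / 2 : ℝ) else 1 / (4 * N)) ≤ 1 / 2 + n * (1 / (4 * N)) := by
      have h7 : ∀ i ∈ Finset.range n, (if i = 0 then (1 / 2 : ℝ) else 1 / (4 * N)) ≤
          (if i = 0 then (1 / 2 : ℝ) else 0) + 1 / (4 * N) := by
        intro i _
        split_ifs
        · have : 0 < 1 / (4 * N) := by positivity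
          linarith
        · linarith
      refine (Finset.sum_le_sum h7).trans ?_
      rw [Finset.sum_add_distrib, Finset.sum_ite_eq' (Finset.range n) 0 (fun _ => (1 / 2 : ℝ))]
      rw [if_pos (Finset.mem_range.2 (by omega)), Finset.sum_const, Finset.card_range, nsmul_eq_mul]
    have h8 : n * (1 / (4 * N)) ≤ 1 / 4 := by
      rw [mul_one_div, div_le_div_iff₀ (by positivity) (by norm_num)]; linarith
    linarith
  have hhi : 0 ≤ aeval (1 / N) (P0 n b K) := by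
    rw [P0_eval, Finset.mul_sum]
    have h1 : (K : ℝ) * ((b : ℝ) ^ (n - 1 - 0) * (1 / N) ^ (0 + 1)) ≤
        ∑ i ∈ Finset.range n, (K : ℝ) * ((b : ℝ) ^ (n - 1 - i) * (1 / N) ^ (i + 1)) := by
      apply Finset.single_le_sum (f := fun i => (K : ℝ) * ((b : ℝ) ^ (n - 1 - i) * (1 / N) ^ (i + 1)))
      · intro i _; positivity
      · exact Finset.mem_range.2 (by omega)
    have h2 : (K : ℝ) * ((b : ℝ) ^ (n - 1 - 0) * (1 / N) ^ (0 + 1)) = 1 := by
      rw [Nat.sub_zero, zero_add, pow_one, ← mul_assoc, ← hN]; field_simp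
    linarith
  have hle : 1 / (2 * N) ≤ 1 / N := one_div_le_one_div_of_le hN0 (by linarith)
  obtain ⟨z0, hz0, hz0'⟩ := intermediate_value_Icc hle hcont.continuousOn ⟨hlo, hhi⟩
  exact ⟨z0, hz0.1, hz0.2, hz0'⟩

lemma z0_close (n : ℕ) (hn : 2 ≤ n) (b K : ℤ) (hb : 1 ≤ b) (hK : 1 ≤ K)
    (N : ℝ) (hN : N = K * (b : ℝ) ^ (n - 1)) (z0 : ℝ) (hz0 : 0 ≤ z0) (hz1 : z0 ≤ 1 / N)
    (hroot : aeval z0 (P0 n b K) = 0) : |z0 - b / (b * N + 1)| ≤ (1 / N) ^ (n + 1) := by
  have hbR : (1 : ℝ) ≤ b := by exact_mod_cast hb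
  have hKR : (1 : ℝ) ≤ K := by exact_mod_cast hK
  have hN0 : 0 < N := by rw [hN]; positivity
  have hKN : (K : ℝ) ≤ N := by
    rw [hN]; exact le_mul_of_one_le_right (by linarith) (one_le_pow₀ hbR)
  have h1 := P0_ident n b K (by omega) z0
  rw [hroot, mul_zero, ← hN] at h1
  have hM : 0 < (b : ℝ) * N + 1 := by positivity
  have h2 : z0 - b / (b * N + 1) = K * z0 ^ (n + 1) / (b * N + 1) := by
    rw [eq_div_iff hM.ne', sub_mul, div_mul_cancel₀ _ hM.ne']; linarith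
  rw [h2, abs_of_nonneg (by positivity), div_le_iff₀ hM]
  have h3 : z0 ^ (n + 1) ≤ (1 / N) ^ (n + 1) := pow_le_pow_left₀ hz0 hz1 _
  have h4 : (K : ℝ) ≤ b * N + 1 := by nlinarith
  calc (K : ℝ) * z0 ^ (n + 1) ≤ (b * N + 1) * (1 / N) ^ (n + 1) := by gcongr
    _ = (1 / N) ^ (n + 1) * (b * N + 1) := by ring

lemma T_lower (n : ℕ) (b N : ℤ) (hb : 1 ≤ b) (hN : 1 ≤ N) (T : ℤ[X]) (hT : T ≠ 0)
    (hTd : T.natDegree ≤ n) (hTH : (HP T : ℤ) ≤ b * N) :
    1 ≤ ((b : ℝ) * N + 1) ^ n * |aeval ((b : ℝ) / (b * N + 1)) T| := by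
  set M : ℤ := b * N + 1 with hM
  have hM0 : 0 < M := by nlinarith
  have hMR : ((M : ℤ) : ℝ) = (b : ℝ) * N + 1 := by rw [hM]; push_cast; ring
  have hne : eval ((b : ℝ) / M) (T.map (algebraMap ℤ ℝ)) ≠ 0 := by
    intro h0
    -- transfer to the rationals
    have hQ : aeval ((b : ℚ) / M) T = 0 := by
      have h1 : aeval ((b : ℝ) / M) T = (Rat.castHom ℝ) (aeval ((b : ℚ) / M) T) := by
        rw [aeval_def, aeval_def, hom_eval₂,
          RingHom.ext_int ((Rat.castHom ℝ).comp (algebraMap ℤ ℚ)) (algebraMap ℤ ℝ)]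
        congr 1
        simp
      have h2 : aeval ((b : ℝ) / M) T = 0 := by rw [aeval_def, ← eval_map]; exact h0
      rw [h1] at h2
      exact (map_eq_zero _).1 h2
    have h3 := den_dvd_of_is_root hQ
    have hcop : b.natAbs.Coprime M.natAbs := by
      have : IsCoprime b M := ⟨-N, 1, by rw [hM]; ring⟩
      exact Int.isCoprime_iff_nat_coprime.1 this
    have hden : ((b : ℚ) / M).den = M.natAbs := by
      have h4 := Rat.den_div_eq_of_coprime hM0 hcop
      have h5 : (((b : ℚ) / M).den : ℤ) = (M.natAbs : ℤ) := by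
        rw [h4]; omega
      exact_mod_cast h5
    have h6 : (M : ℤ) ∣ T.leadingCoeff := by
      have h7 : (IsFractionRing.den ℤ ((b : ℚ) / M) : ℤ).natAbs = M.natAbs := by
        rw [Rat.isFractionRingDen, hden]
      exact (Int.natAbs_dvd_natAbs.1 (by rw [← h7]; exact Int.natAbs_dvd_natAbs.2 h3))
    have h8 : T.leadingCoeff ≠ 0 := leadingCoeff_ne_zero.2 hT
    have h9 := Int.le_of_dvd (abs_pos.2 h8) ((dvd_abs _ _).2 h6)
    have h10 : (|T.leadingCoeff| : ℤ) ≤ HP T := by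
      have := coeff_le_HP T T.natDegree
      rw [coeff_natDegree] at this
      exact_mod_cast this
    omega
  have h1 := one_le_pow_mul_abs_eval_div (K := ℝ) (f := T) (a := b) (b := M) hM0 hne
  have h2 : ((M : ℤ) : ℝ) ^ T.natDegree ≤ ((M : ℤ) : ℝ) ^ n := by
    apply pow_le_pow_right₀ _ hTd
    exact_mod_cast hM0
  rw [← hMR]
  have h3 : aeval ((b : ℝ) / M) T = eval ((b : ℝ) / M) (T.map (algebraMap ℤ ℝ)) := by
    rw [aeval_def, ← eval_map]
  rw [h3]
  exact h1.trans (mul_le_mul_of_nonneg_right h2 (abs_nonneg _))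

lemma lip (n : ℕ) (T : ℤ[X]) (hT : T.natDegree ≤ n) (x y : ℝ) (hx : |x| ≤ 1) (hxy : |y - x| ≤ 1) :
    |aeval y T - aeval x T| ≤ n * ((n + 1) * 2 ^ n) * HP T * |y - x| := by
  have h1 := eval_add_eq T n hT x (y - x)
  rw [add_sub_cancel, Finset.sum_range_succ'] at h1
  simp only [pow_zero, mul_one] at h1
  rw [tc_zero] at h1
  have h2 : aeval y T = (T.map (Int.castRingHom ℝ)).eval y := by rw [aeval_def, eval_map]; rfl
  have h3 : aeval y T - aeval x T = ∑ k ∈ Finset.range n, tc T (k + 1) x * (y - x) ^ (k + 1) := by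
    rw [h2, h1]; ring
  rw [h3]
  calc _ ≤ ∑ k ∈ Finset.range n, |tc T (k + 1) x * (y - x) ^ (k + 1)| := Finset.abs_sum_le_sum_abs _ _
    _ ≤ ∑ k ∈ Finset.range n, ((n + 1) * 2 ^ n) * HP T * |y - x| := by
        refine Finset.sum_le_sum (fun k _ => ?_)
        rw [abs_mul, abs_pow, pow_succ]
        have h4 := tc_bound n T hT (k + 1) x hx
        have h5 : |y - x| ^ k ≤ 1 := pow_le_one₀ (abs_nonneg _) hxy
        calc |tc T (k + 1) x| * (|y - x| ^ k * |y - x|) ≤ ((n + 1) * 2 ^ n * HP T) * (1 * |y - x|) := by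
              gcongr
          _ = _ := by ring
    _ = _ := by rw [Finset.sum_const, Finset.card_range, nsmul_eq_mul]; ring

/-- the main isolation step -/
lemma isolation (n : ℕ) (hn : 2 ≤ n) (t : ℝ) (ht : (n : ℝ) + 1 < t) (A1 A4 : ℝ) (hA1 : 0 ≤ A1)
    (hA4 : 0 ≤ A4) (b : ℤ) (hb : 1 ≤ b) (hbA : A1 + 1 + n * A1 ≤ b) :
    ∃ N2 : ℝ, ∀ K : ℤ, 1 ≤ K → N2 ≤ K * (b : ℝ) ^ (n - 1) → ∀ z0 : ℝ,
      1 / (2 * (K * (b : ℝ) ^ (n - 1))) ≤ z0 → z0 ≤ 1 / (K * (b : ℝ) ^ (n - 1)) →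
      aeval z0 (P0 n b K) = 0 → ∀ R : ℤ[X], R.natDegree ≤ n →
      (∀ k, |(R.coeff k : ℝ)| ≤ A1 * (K * (b : ℝ) ^ (n - 1))) →
      |aeval z0 R| ≤ A4 * (K * (b : ℝ) ^ (n - 1)) ^ (1 - t) → aeval z0 R = 0 := by
  have hbR : (1 : ℝ) ≤ b := by exact_mod_cast hb
  have hn2 : (2 : ℝ) ≤ n := by exact_mod_cast hn
  set A2 : ℝ := A1 + 1 + n * A1 with hA2
  have hA2pos : 0 < A2 := by positivity
  set A3 : ℝ := n * ((n + 1) * 2 ^ n) * A2 with hA3
  have hA3pos : 0 < A3 := by positivity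
  -- eventually conditions
  have hlim1 : Filter.Tendsto (fun N : ℝ => A4 * N ^ (-(t - 1))) Filter.atTop (nhds 0) := by
    simpa using (tendsto_rpow_neg_atTop (show 0 < t - 1 by linarith)).const_mul A4
  have hlim2 : Filter.Tendsto (fun N : ℝ => 2 * A4 * N ^ (-(t - n - 1)) + A3 * N ^ (-(1 : ℝ))) Filter.atTop (nhds 0) := by
    have h1 := (tendsto_rpow_neg_atTop (show 0 < t - n - 1 by linarith)).const_mul (2 * A4)
    have h2 := (tendsto_rpow_neg_atTop (show (0 : ℝ) < 1 by norm_num)).const_mul A3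
    simpa using h1.add h2
  set c0 : ℝ := (1 / (2 * (b : ℝ))) ^ (n - 1) with hc0
  have hc0pos : 0 < c0 := by positivity
  obtain ⟨N2, hN2⟩ := Filter.eventually_atTop.1 ((hlim1.eventually (gt_mem_nhds (show (0 : ℝ) < 1 by norm_num))).and
    ((hlim2.eventually (gt_mem_nhds hc0pos)).and (Filter.eventually_ge_atTop (1 : ℝ))))
  refine ⟨N2, ?_⟩
  intro K hK hKN z0 hz1 hz2 hroot R hRd hRc hRv
  have hKR : (1 : ℝ) ≤ K := by exact_mod_cast hK
  obtain ⟨h1, h2, hN1⟩ := hN2 _ hKN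
  set N : ℝ := K * (b : ℝ) ^ (n - 1) with hN
  have hN0 : 0 < N := by linarith
  have hz0 : 0 < z0 := lt_of_lt_of_le (by positivity) hz1
  have hz01 : z0 ≤ 1 := hz2.trans (by rw [div_le_one hN0]; exact hN1)
  have hRv1 : |aeval z0 R| ≤ 1 := by
    refine hRv.trans ?_
    have : N ^ (1 - t) = N ^ (-(t - 1)) := by congr 1; ring
    rw [this]; exact h1.le
  -- constant coefficient
  have hRexp : aeval z0 R = ∑ k ∈ Finset.range (n + 1), (R.coeff k : ℝ) * z0 ^ k := by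
    rw [aeval_eq_sum_range' (Nat.lt_succ_of_le hRd)]
    simp
  have hc : |(R.coeff 0 : ℝ)| ≤ 1 + n * A1 := by
    rw [Finset.sum_range_succ'] at hRexp
    simp only [pow_zero, mul_one] at hRexp
    have h3 : (R.coeff 0 : ℝ) = aeval z0 R - ∑ k ∈ Finset.range n, (R.coeff (k + 1) : ℝ) * z0 ^ (k + 1) := by
      rw [hRexp]; ring
    rw [h3]
    have h4 : |∑ k ∈ Finset.range n, (R.coeff (k + 1) : ℝ) * z0 ^ (k + 1)| ≤ n * A1 := by
      calc _ ≤ ∑ k ∈ Finset.range n, |(R.coeff (k + 1) : ℝ) * z0 ^ (k + 1)| := Finset.abs_sum_le_sum_abs _ _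
        _ ≤ ∑ k ∈ Finset.range n, A1 := by
            refine Finset.sum_le_sum (fun k _ => ?_)
            rw [abs_mul, abs_pow, abs_of_pos hz0]
            have h5 : z0 ^ (k + 1) ≤ z0 := pow_le_of_le_one hz0.le hz01 (by omega)
            calc |(R.coeff (k + 1) : ℝ)| * z0 ^ (k + 1) ≤ (A1 * N) * (1 / N) := by
                  have := hRc (k + 1)
                  exact mul_le_mul this (h5.trans hz2) (by positivity) (by positivity)
              _ = A1 := by field_simp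
        _ = n * A1 := by rw [Finset.sum_const, Finset.card_range, nsmul_eq_mul]
    calc _ ≤ |aeval z0 R| + |∑ k ∈ Finset.range n, (R.coeff (k + 1) : ℝ) * z0 ^ (k + 1)| := abs_sub _ _
      _ ≤ 1 + n * A1 := add_le_add hRv1 h4
  -- the reduced polynomial
  set V : ℤ[X] := R + C (R.coeff 0) * P0 n b K with hV
  have hV0 : V.coeff 0 = 0 := by
    rw [hV, coeff_add, coeff_C_mul, P0_coeff_zero]; ring
  have hVd : V.natDegree ≤ n := by
    rw [hV]
    refine (natDegree_add_le _ _).trans (max_le hRd ?_)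
    exact (natDegree_C_mul_le _ _).trans (P0_natDegree_le n b K)
  set S : ℤ[X] := divX V with hS
  have hVS : V = X * S := by
    have := X_mul_divX_add V
    rw [hV0, C_0, add_zero] at this
    exact this.symm
  have hSd : S.natDegree ≤ n - 1 := by
    rw [hS, natDegree_divX_eq_natDegree_tsub_one]; omega
  have hVz : aeval z0 V = aeval z0 R := by
    rw [hV, map_add, map_mul, hroot, mul_zero, add_zero]
  have hSz : z0 * aeval z0 S = aeval z0 R := by
    rw [← hVz, hVS, map_mul, aeval_X]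
  have hSH : (HP S : ℝ) ≤ A2 * N := by
    have h3 : ∀ k, |(S.coeff k : ℝ)| ≤ A2 * N := by
      intro k
      rw [hS, coeff_divX, hV, coeff_add, coeff_C_mul]
      push_cast
      have h4 : |((P0 n b K).coeff (k + 1) : ℝ)| ≤ N := by
        have := P0_coeff_abs n (by omega) b K hb hK (k + 1)
        rw [hN]
        exact_mod_cast this
      calc _ ≤ |(R.coeff (k + 1) : ℝ)| + |(R.coeff 0 : ℝ) * ((P0 n b K).coeff (k + 1) : ℝ)| := abs_add_le _ _
        _ ≤ A1 * N + (1 + n * A1) * N := by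
            rw [abs_mul]
            exact add_le_add (hRc (k + 1)) (mul_le_mul hc h4 (abs_nonneg _) (by positivity))
        _ = A2 * N := by rw [hA2]; ring
    by_cases hs : S.support.Nonempty
    · obtain ⟨i, _, hi'⟩ := Finset.exists_mem_eq_sup S.support hs (fun i => (S.coeff i).natAbs)
      unfold HP
      rw [hi', Nat.cast_natAbs, Int.cast_abs]
      exact h3 i
    · rw [Finset.not_nonempty_iff_eq_empty] at hs
      unfold HP
      rw [hs]; simp; positivity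
  by_cases hS0 : S = 0
  · rw [← hSz, hS0]; simp
  · exfalso
    have hNint : (1 : ℤ) ≤ K * b ^ (n - 1) := by
      have : (1 : ℝ) ≤ ((K * b ^ (n - 1) : ℤ) : ℝ) := by push_cast; exact hN1
      exact_mod_cast this
    have hNcast : (((K * b ^ (n - 1) : ℤ)) : ℝ) = N := by push_cast; rfl
    have hlow := T_lower (n - 1) b (K * b ^ (n - 1)) hb hNint S hS0 hSd (by
      have h3 : (HP S : ℝ) ≤ b * N := hSH.trans (by gcongr)
      rw [← hNcast] at h3
      exact_mod_cast h3)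
    rw [hNcast] at hlow
    set r1 : ℝ := (b : ℝ) / (b * N + 1) with hr1
    have hM : 0 < (b : ℝ) * N + 1 := by positivity
    have hr1a : |r1| ≤ 1 := by
      rw [hr1, abs_of_nonneg (by positivity), div_le_one hM]
      nlinarith
    have hclose := z0_close n hn b K hb hK N hN z0 hz0.le hz2 hroot
    rw [← hr1] at hclose
    have hclose1 : |z0 - r1| ≤ 1 := hclose.trans (pow_le_one₀ (by positivity) (by rw [div_le_one hN0]; exact hN1))
    have hlip := lip n S (hSd.trans (by omega)) r1 z0 hr1a hclose1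
    have hlip2 : |aeval z0 S - aeval r1 S| ≤ A3 * (N * (1 / N) ^ (n + 1)) := by
      calc _ ≤ n * ((n + 1) * 2 ^ n) * HP S * |z0 - r1| := hlip
        _ ≤ n * ((n + 1) * 2 ^ n) * (A2 * N) * (1 / N) ^ (n + 1) := by gcongr
        _ = _ := by rw [hA3]; ring
    have hSz2 : |aeval z0 S| ≤ 2 * N * (A4 * N ^ (1 - t)) := by
      have h3 : |z0| * |aeval z0 S| = |aeval z0 R| := by rw [← abs_mul, hSz]
      rw [abs_of_pos hz0] at h3
      have h4 : 1 / (2 * N) * |aeval z0 S| ≤ A4 * N ^ (1 - t) := by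
        calc _ ≤ z0 * |aeval z0 S| := by gcongr
          _ = |aeval z0 R| := h3
          _ ≤ _ := hRv
      rw [one_div_mul_eq_div, div_le_iff₀ (by positivity)] at h4
      linarith
    have hr1S : |aeval r1 S| ≤ 2 * N * (A4 * N ^ (1 - t)) + A3 * (N * (1 / N) ^ (n + 1)) := by
      calc |aeval r1 S| = |aeval z0 S - (aeval z0 S - aeval r1 S)| := by ring_nf
        _ ≤ |aeval z0 S| + |aeval z0 S - aeval r1 S| := abs_sub _ _
        _ ≤ _ := add_le_add hSz2 hlip2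
    have hMle : (b : ℝ) * N + 1 ≤ 2 * b * N := by nlinarith
    have hfin : 1 ≤ (2 * (b : ℝ) * N) ^ (n - 1) * (2 * N * (A4 * N ^ (1 - t)) + A3 * (N * (1 / N) ^ (n + 1))) := by
      refine hlow.trans ?_
      have h5 : 0 < N ^ (1 - t) := Real.rpow_pos_of_pos hN0 _
      have h6 : ((b : ℝ) * N + 1) ^ (n - 1) ≤ (2 * b * N) ^ (n - 1) := pow_le_pow_left₀ hM.le hMle _
      exact mul_le_mul h6 hr1S (abs_nonneg _) (by positivity)
    have hNn : N ^ (n - 1) * (2 * N * (A4 * N ^ (1 - t)) + A3 * (N * (1 / N) ^ (n + 1))) =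
        2 * A4 * N ^ (-(t - n - 1)) + A3 * N ^ (-(1 : ℝ)) := by
      have e1 : N ^ (n - 1) * N = N ^ (n : ℝ) := by
        rw [← pow_succ, Real.rpow_natCast]; congr 1; omega
      have e2 : N ^ (n : ℝ) * N ^ (1 - t) = N ^ (-(t - n - 1)) := by
        rw [← Real.rpow_add hN0]; congr 1; ring
      have e3 : N ^ (n : ℝ) * (1 / N) ^ (n + 1) = N ^ (-(1 : ℝ)) := by
        rw [Real.rpow_natCast, Real.rpow_neg hN0.le, Real.rpow_one, one_div, inv_pow, pow_succ]
        field_simp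
      calc _ = 2 * A4 * ((N ^ (n - 1) * N) * N ^ (1 - t)) + A3 * ((N ^ (n - 1) * N) * (1 / N) ^ (n + 1)) := by ring
        _ = _ := by rw [e1, e2, e3]
    have h7 : (2 * (b : ℝ) * N) ^ (n - 1) * (2 * N * (A4 * N ^ (1 - t)) + A3 * (N * (1 / N) ^ (n + 1))) =
        (2 * (b : ℝ)) ^ (n - 1) * (2 * A4 * N ^ (-(t - n - 1)) + A3 * N ^ (-(1 : ℝ))) := by
      rw [mul_pow, mul_assoc, hNn]
    rw [h7] at hfin
    have h8 : (2 * (b : ℝ)) ^ (n - 1) * c0 = 1 := by
      rw [hc0, ← mul_pow, mul_one_div_cancel (by positivity), one_pow]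
    have h9 : (2 * (b : ℝ)) ^ (n - 1) * (2 * A4 * N ^ (-(t - n - 1)) + A3 * N ^ (-(1 : ℝ))) < 1 :=
      calc (2 * (b : ℝ)) ^ (n - 1) * (2 * A4 * N ^ (-(t - n - 1)) + A3 * N ^ (-(1 : ℝ)))
          < (2 * (b : ℝ)) ^ (n - 1) * c0 := mul_lt_mul_of_pos_left h2 (by positivity)
        _ = 1 := h8
    linarith

end Pool.Agent.Helper404
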