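import Mathlib
import Pool.Agent.Helper404.TT

open MeasureTheory Set Polynomial

namespace Pool.Agent.Helper404

lemma tc_rat_int (n : ℕ) (Q : ℤ[X]) (hQ : Q.natDegree ≤ n) (r : ℚ) (m : ℕ) (h : tc Q m (r : ℝ) ≠ 0) :
    1 ≤ (r.den : ℝ) ^ n * |tc Q m (r : ℝ)| := by
  have hq : ((r.num : ℤ) : ℝ) / ((r.den : ℤ) : ℝ) = (r : ℝ) := by
    rw [Int.cast_natCast]
    exact_mod_cast (Rat.cast_def (K := ℝ) r).symm
  have h1 := one_le_pow_mul_abs_eval_div (K := ℝ) (f := hasseDeriv m Q) (a := r.num) (b := (r.den : ℤ))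
    (by exact_mod_cast r.den_pos) (by
      rw [hq]
      exact h)
  rw [hq] at h1
  have h2 : (((r.den : ℤ) : ℝ)) ^ (hasseDeriv m Q).natDegree ≤ (r.den : ℝ) ^ n := by
    rw [Int.cast_natCast]
    apply pow_le_pow_right₀
    · exact_mod_cast r.den_pos
    · exact (natDegree_hasseDeriv_le _ _).trans ((Nat.sub_le _ _).trans hQ)
  refine h1.trans ?_
  exact mul_le_mul_of_nonneg_right h2 (abs_nonneg _)

/-- nonzero polynomials of small height are not too small at points near a rational -/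
lemma small_poly (n : ℕ) (hn : 1 ≤ n) (Q : ℤ[X]) (hQ0 : Q ≠ 0) (hQ : Q.natDegree ≤ n) (r : ℚ)
    (hr : |(r : ℝ)| ≤ 1) (N z : ℝ) (hN : 1 ≤ N) (hz1 : 1 / (2 * N) ≤ z) (hz2 : z ≤ 1 / N)
    (hH : (HP Q : ℝ) ≤ 1 / (2 * n * ((n + 1) * 2 ^ n) * (r.den : ℝ) ^ n) * N) :
    (1 / (2 * (r.den : ℝ))) ^ n * (1 / (2 * (r.den : ℝ) ^ n)) * (1 / N ^ n) ≤
      |aeval ((r : ℝ) + z / r.den) Q| := by
  have hn0 : (0 : ℝ) < n := by exact_mod_cast hn
  have hN0 : 0 < N := by linarith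
  have hq0 : (0 : ℝ) < r.den := by exact_mod_cast r.den_pos
  have hq1 : (1 : ℝ) ≤ r.den := by exact_mod_cast r.den_pos
  have hz0 : 0 < z := lt_of_lt_of_le (by positivity) hz1
  have hzle1 : z ≤ 1 := hz2.trans (by rw [div_le_one hN0]; exact hN)
  set A : ℝ := (n + 1) * 2 ^ n with hA
  have hApos : 0 < A := by positivity
  set w : ℝ := z / r.den with hw
  have hw0 : 0 < w := by positivity
  have hwz : w ≤ z := div_le_self hz0.le hq1
  have hw1 : w ≤ 1 := hwz.trans hzle1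
  have hexp : aeval ((r : ℝ) + w) Q = ∑ m ∈ Finset.range (n + 1), tc Q m r * w ^ m := by
    rw [← eval_add_eq Q n hQ, eval_map, aeval_def]; rfl
  -- first nonzero coefficient
  have hex : ∃ m, tc Q m (r : ℝ) ≠ 0 := by
    by_contra hcon
    push Not at hcon
    have : taylor (r : ℝ) (Q.map (Int.castRingHom ℝ)) = 0 := by
      ext k; rw [← tc_eq, hcon k]; simp
    rw [taylor_eq_zero] at this
    exact hQ0 ((Polynomial.map_eq_zero_iff (RingHom.injective_int (Int.castRingHom ℝ))).1 this)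
  classical
  set m0 := Nat.find hex with hm0
  have hm0ne : tc Q m0 (r : ℝ) ≠ 0 := Nat.find_spec hex
  have hm0lt : ∀ m, m < m0 → tc Q m (r : ℝ) = 0 := fun m hm => by
    by_contra h; exact Nat.find_min hex hm h
  have hm0n : m0 ≤ n := by
    by_contra h
    push Not at h
    exact hm0ne (tc_high Q n hQ m0 h _)
  have hint := tc_rat_int n Q hQ r m0 hm0ne
  have hlead : 1 / (r.den : ℝ) ^ n ≤ |tc Q m0 (r : ℝ)| := by
    rw [div_le_iff₀ (by positivity)]; linarith
  have hsplit : ∑ m ∈ Finset.range (n + 1), tc Q m r * w ^ m =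
      tc Q m0 r * w ^ m0 + ∑ m ∈ (Finset.range (n + 1)).erase m0, tc Q m r * w ^ m := by
    exact (Finset.add_sum_erase (Finset.range (n + 1)) (fun m => tc Q m r * w ^ m)
      (Finset.mem_range.2 (by omega : m0 < n + 1))).symm
  have hrest : |∑ m ∈ (Finset.range (n + 1)).erase m0, tc Q m r * w ^ m| ≤
      w ^ m0 * (1 / (2 * (r.den : ℝ) ^ n)) := by
    calc _ ≤ ∑ m ∈ (Finset.range (n + 1)).erase m0, |tc Q m r * w ^ m| := Finset.abs_sum_le_sum_abs _ _
      _ ≤ ∑ m ∈ (Finset.range (n + 1)).erase m0, w ^ m0 * (1 / (2 * n * (r.den : ℝ) ^ n)) := by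
          refine Finset.sum_le_sum (fun m hm => ?_)
          rw [Finset.mem_erase] at hm
          rcases Nat.lt_or_ge m m0 with hlt | hge
          · rw [hm0lt m hlt]
            simp only [zero_mul, abs_zero]; positivity
          · have hgt : m0 + 1 ≤ m := by
              have := hm.1; omega
            rw [abs_mul, abs_pow, abs_of_pos hw0]
            have h1 := tc_bound n Q hQ m (r : ℝ) hr
            have h2 : w ^ m ≤ w ^ m0 * w := by
              rw [← pow_succ]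
              exact pow_le_pow_of_le_one hw0.le hw1 hgt
            have h3 : |tc Q m (r : ℝ)| ≤ A * (1 / (2 * n * A * (r.den : ℝ) ^ n) * N) := h1.trans (by gcongr)
            have h4 : w ≤ 1 / N := hwz.trans hz2
            calc |tc Q m (r : ℝ)| * w ^ m ≤ (A * (1 / (2 * n * A * (r.den : ℝ) ^ n) * N)) * (w ^ m0 * (1 / N)) := by
                  apply mul_le_mul h3 _ (by positivity) (by positivity)
                  exact h2.trans (by gcongr)
              _ = w ^ m0 * (1 / (2 * n * (r.den : ℝ) ^ n)) := by field_simp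
      _ ≤ n * (w ^ m0 * (1 / (2 * n * (r.den : ℝ) ^ n))) := by
          rw [Finset.sum_const, nsmul_eq_mul]
          have hc : ((Finset.range (n + 1)).erase m0).card = n := by
            rw [Finset.card_erase_of_mem (Finset.mem_range.2 (by omega)), Finset.card_range]; rfl
          rw [hc]
      _ = w ^ m0 * (1 / (2 * (r.den : ℝ) ^ n)) := by field_simp
  rw [hexp, hsplit]
  have h5 : |tc Q m0 r * w ^ m0| = |tc Q m0 (r : ℝ)| * w ^ m0 := by
    rw [abs_mul, abs_pow, abs_of_pos hw0]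
  have h6 : w ^ m0 * (1 / (2 * (r.den : ℝ) ^ n)) ≤
      |tc Q m0 r * w ^ m0 + ∑ m ∈ (Finset.range (n + 1)).erase m0, tc Q m r * w ^ m| := by
    have h7 := abs_sub_abs_le_abs_sub (tc Q m0 r * w ^ m0)
      (-(∑ m ∈ (Finset.range (n + 1)).erase m0, tc Q m r * w ^ m))
    rw [abs_neg, sub_neg_eq_add, h5] at h7
    have h8 : w ^ m0 * (1 / (r.den : ℝ) ^ n) ≤ |tc Q m0 (r : ℝ)| * w ^ m0 := by
      rw [mul_comm]; gcongr
    have h9 : w ^ m0 * (1 / (r.den : ℝ) ^ n) = w ^ m0 * (1 / (2 * (r.den : ℝ) ^ n)) + w ^ m0 * (1 / (2 * (r.den : ℝ) ^ n)) := by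
      field_simp; norm_num
    linarith
  refine le_trans ?_ h6
  have h10 : w ^ n ≤ w ^ m0 := pow_le_pow_of_le_one hw0.le hw1 hm0n
  have h11 : (1 / (2 * (r.den : ℝ))) ^ n * (1 / N ^ n) ≤ w ^ n := by
    have : 1 / (2 * (r.den : ℝ)) * (1 / N) ≤ w := by
      rw [hw]
      rw [div_mul_div_comm, div_le_div_iff₀ (by positivity) hq0]
      rw [div_le_iff₀ (by positivity)] at hz1
      nlinarith
    calc (1 / (2 * (r.den : ℝ))) ^ n * (1 / N ^ n) = (1 / (2 * (r.den : ℝ)) * (1 / N)) ^ n := by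
          rw [mul_pow]; congr 1; rw [div_pow, one_pow]
      _ ≤ w ^ n := pow_le_pow_left₀ (by positivity) this n
  calc (1 / (2 * (r.den : ℝ))) ^ n * (1 / (2 * (r.den : ℝ) ^ n)) * (1 / N ^ n)
      = ((1 / (2 * (r.den : ℝ))) ^ n * (1 / N ^ n)) * (1 / (2 * (r.den : ℝ) ^ n)) := by ring
    _ ≤ w ^ m0 * (1 / (2 * (r.den : ℝ) ^ n)) := by gcongr; exact h11.trans h10

/-- pigeonhole count -/
lemma count_polys (n : ℕ) (α M0 v0 h v : ℝ)
    (hsmall : ∀ Q : ℤ[X], Q ≠ 0 → Q.natDegree ≤ n → (HP Q : ℝ) ≤ M0 → v0 ≤ |aeval α Q|)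
    (k : ℕ) (hk : 0 < k) (hk1 : 2 * h / k ≤ M0) (hk2 : 2 * v / k < v0)
    (F : Finset ℤ[X]) (hF : ∀ Q ∈ F, Q.natDegree ≤ n ∧ (HP Q : ℝ) ≤ h ∧ |aeval α Q| ≤ v) :
    F.card ≤ k ^ (n + 1) := by
  classical
  have : NeZero k := ⟨hk.ne'⟩
  have hk0 : (0 : ℝ) < k := by exact_mod_cast hk
  let φ : ℤ[X] → (Fin (n + 1) → ZMod k) := fun Q i => ((Q.coeff i : ℤ) : ZMod k)
  have hinj : Set.InjOn φ (F : Set ℤ[X]) := by
    intro Q hQ Q' hQ' heq
    by_contra hne
    have h1 := hF Q hQ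
    have h2 := hF Q' hQ'
    have hdvd : ∀ i, (k : ℤ) ∣ (Q - Q').coeff i := by
      intro i
      by_cases hi : i ≤ n
      · have h3 := congrFun heq ⟨i, by omega⟩
        simp only [φ] at h3
        rw [coeff_sub]
        have h4 := (ZMod.intCast_eq_intCast_iff_dvd_sub _ _ _).1 h3
        have h5 : Q.coeff i - Q'.coeff i = -(Q'.coeff i - Q.coeff i) := by ring
        rw [h5, dvd_neg]
        exact h4
      · rw [coeff_sub, coeff_eq_zero_of_natDegree_lt (by omega), coeff_eq_zero_of_natDegree_lt (by omega)]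
        simp
    obtain ⟨S, hS⟩ := (C_dvd_iff_dvd_coeff (k : ℤ) (Q - Q')).2 hdvd
    have hS0 : S ≠ 0 := by
      rintro rfl
      rw [mul_zero, sub_eq_zero] at hS
      exact hne hS
    have hSd : S.natDegree ≤ n := by
      have h6 : (Q - Q').natDegree ≤ n := (natDegree_sub_le _ _).trans (max_le h1.1 h2.1)
      rw [hS, natDegree_C_mul (by exact_mod_cast hk.ne')] at h6
      exact h6
    have hSH : (HP S : ℝ) ≤ M0 := by
      refine le_trans ?_ hk1
      have h7 : ∀ i ∈ S.support, ((S.coeff i).natAbs : ℝ) ≤ 2 * h / k := by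
        intro i _
        rw [le_div_iff₀ hk0]
        have h8 : (k : ℤ) * S.coeff i = Q.coeff i - Q'.coeff i := by
          rw [← coeff_sub, hS, coeff_C_mul]
        have h9 : (k : ℝ) * (S.coeff i : ℝ) = Q.coeff i - Q'.coeff i := by exact_mod_cast h8
        have h10 : ((S.coeff i).natAbs : ℝ) = |(S.coeff i : ℝ)| := by rw [Nat.cast_natAbs, Int.cast_abs]
        rw [h10]
        have h11 : |(S.coeff i : ℝ)| * k = |(Q.coeff i : ℝ) - Q'.coeff i| := by
          rw [← h9, abs_mul, abs_of_pos hk0, mul_comm]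
        rw [h11]
        calc |(Q.coeff i : ℝ) - Q'.coeff i| ≤ |(Q.coeff i : ℝ)| + |(Q'.coeff i : ℝ)| := abs_sub _ _
          _ ≤ h + h := add_le_add ((coeff_le_HP Q i).trans h1.2.1) ((coeff_le_HP Q' i).trans h2.2.1)
          _ = 2 * h := by ring
      have h12 : S.support.Nonempty := by rwa [support_nonempty]
      obtain ⟨i, hi, hi'⟩ := Finset.exists_mem_eq_sup S.support h12 (fun i => (S.coeff i).natAbs)
      unfold HP
      rw [hi']
      exact h7 i hi
    have h13 := hsmall S hS0 hSd hSH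
    have h14 : |aeval α S| ≤ 2 * v / k := by
      rw [le_div_iff₀ hk0]
      have h15 : (k : ℝ) * aeval α S = aeval α Q - aeval α Q' := by
        rw [← map_sub, hS, map_mul, aeval_C]
        simp
      have h16 : |aeval α S| * k = |aeval α Q - aeval α Q'| := by
        rw [← h15, abs_mul, abs_of_pos hk0, mul_comm]
      rw [h16]
      calc _ ≤ |aeval α Q| + |aeval α Q'| := abs_sub _ _
        _ ≤ v + v := add_le_add h1.2.2 h2.2.2
        _ = 2 * v := by ring
    linarith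
  have h1 := Finset.card_le_card_of_injOn φ (fun Q _ => Finset.mem_univ (φ Q)) hinj
  rw [Finset.card_univ, Fintype.card_fun, ZMod.card, Fintype.card_fin] at h1
  exact h1


lemma roots_card (n : ℕ) (Q : ℤ[X]) (hQ0 : Q ≠ 0) (hQ : Q.natDegree ≤ n) :
    ∃ R : Finset ℝ, R.card ≤ n ∧ ∀ β : ℝ, aeval β Q = 0 → β ∈ R := by
  classical
  have hne : Q.map (Int.castRingHom ℝ) ≠ 0 := (Polynomial.map_ne_zero_iff
    (RingHom.injective_int (Int.castRingHom ℝ))).2 hQ0
  refine ⟨(Q.map (Int.castRingHom ℝ)).roots.toFinset, ?_, ?_⟩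
  · exact (Multiset.toFinset_card_le _).trans ((card_roots' _).trans (natDegree_map_le.trans hQ))
  · intro β hβ
    rw [Multiset.mem_toFinset, mem_roots hne, IsRoot.def, eval_map]
    rw [aeval_def] at hβ
    exact hβ

/-- measure of the zones of the polynomials of a finite family -/
lemma family_volume (n : ℕ) (F : Finset ℤ[X]) (hF : ∀ Q ∈ F, Q ≠ 0 ∧ Q.natDegree ≤ n) (ρ : ℝ)
    (hρ : 0 ≤ ρ) (Z : Set ℝ) (hZ : ∀ x ∈ Z, ∃ Q ∈ F, ∃ β : ℝ, aeval β Q = 0 ∧ |x - β| ≤ ρ) :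
    volume Z ≤ ENNReal.ofReal (F.card * (n * (2 * ρ))) := by
  classical
  have hex : ∀ Q : ℤ[X], ∃ R : Finset ℝ, Q ∈ F → (R.card ≤ n ∧ ∀ β : ℝ, aeval β Q = 0 → β ∈ R) := by
    intro Q
    by_cases h : Q ∈ F
    · obtain ⟨R, hR⟩ := roots_card n Q (hF Q h).1 (hF Q h).2
      exact ⟨R, fun _ => hR⟩
    · exact ⟨∅, fun h' => absurd h' h⟩
  choose R hR using hex
  have hsub : Z ⊆ ⋃ Q ∈ F, ⋃ β ∈ R Q, Metric.closedBall β ρ := by
    intro x hx
    obtain ⟨Q, hQ, β, h1, h2⟩ := hZ x hx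
    rw [mem_iUnion₂]
    refine ⟨Q, hQ, ?_⟩
    rw [mem_iUnion₂]
    exact ⟨β, (hR Q hQ).2 β h1, by rw [Metric.mem_closedBall, Real.dist_eq]; exact h2⟩
  calc volume Z ≤ volume (⋃ Q ∈ F, ⋃ β ∈ R Q, Metric.closedBall β ρ) := measure_mono hsub
    _ ≤ ∑ Q ∈ F, volume (⋃ β ∈ R Q, Metric.closedBall β ρ) := measure_biUnion_finset_le _ _
    _ ≤ ∑ Q ∈ F, ENNReal.ofReal (n * (2 * ρ)) := by
        refine Finset.sum_le_sum (fun Q hQ => ?_)
        calc _ ≤ ∑ β ∈ R Q, volume (Metric.closedBall β ρ) := measure_biUnion_finset_le _ _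
          _ = ENNReal.ofReal ((R Q).card * (2 * ρ)) := by
              simp only [Real.volume_closedBall]
              rw [Finset.sum_const, nsmul_eq_mul, ← ENNReal.ofReal_natCast,
                ← ENNReal.ofReal_mul (by positivity)]
          _ ≤ ENNReal.ofReal (n * (2 * ρ)) := by
              apply ENNReal.ofReal_le_ofReal
              have : ((R Q).card : ℝ) ≤ n := by exact_mod_cast (hR Q hQ).1
              gcongr
    _ = ENNReal.ofReal (F.card * (n * (2 * ρ))) := by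
        rw [Finset.sum_const, nsmul_eq_mul, ← ENNReal.ofReal_natCast, ← ENNReal.ofReal_mul (by positivity)]

lemma zone_measure (n : ℕ) (hn : 2 ≤ n) (t : ℝ) (ht : (n : ℝ) + 1 < t) (c₁ c₂ : ℝ) (hc₁ : 0 < c₁)
    (hc : c₁ < c₂) (r : ℚ) (hr0 : 0 < r) (hr1 : r < 1) (Cq : ℝ) (hCq : 1 ≤ Cq) :
    ∃ K0 : ℝ, 1 ≤ K0 ∧ ∀ K : ℝ, K0 ≤ K → ∃ N1 : ℝ, ∀ N z H : ℝ, N1 ≤ N → 1 / (2 * N) ≤ z → z ≤ 1 / N →
      N / Cq ≤ H → H ≤ Cq * N → 1 ≤ H →
      volume {x : ℝ | |x - ((r : ℝ) + z / r.den)| < c₂ * H ^ (-t) ∧ ∃ Q : ℤ[X], Irreducible Q ∧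
        Q.natDegree = n ∧ K * H < HP Q ∧ ∃ β : ℝ, aeval β Q = 0 ∧ |x - β| ≤ c₁ * (HP Q : ℝ) ^ (-t)} ≤
        ENNReal.ofReal ((c₂ - c₁) / 2 * H ^ (-t)) := by
  classical
  have hn0 : (0 : ℝ) < n := by exact_mod_cast (by omega : 0 < n)
  have hc₂ : 0 < c₂ := hc₁.trans hc
  have hq0 : (0 : ℝ) < r.den := by exact_mod_cast r.den_pos
  have hq1 : (1 : ℝ) ≤ r.den := by exact_mod_cast r.den_pos
  have hr0R : (0 : ℝ) < r := by exact_mod_cast hr0
  have hr1R : (r : ℝ) < 1 := by exact_mod_cast hr1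
  set q : ℝ := (r.den : ℝ) with hq
  set lam : ℝ := 1 / (2 * n * ((n + 1) * 2 ^ n) * q ^ n) with hlam
  have hlampos : 0 < lam := by positivity
  have hlam1 : lam ≤ 1 := by
    rw [hlam, div_le_one (by positivity)]
    have h1 : (1 : ℝ) ≤ n := by exact_mod_cast (by omega : 1 ≤ n)
    have h2 : (1 : ℝ) ≤ 2 ^ n := one_le_pow₀ (by norm_num)
    have h3 : (1 : ℝ) ≤ q ^ n := one_le_pow₀ hq1
    have h4 : (1 : ℝ) ≤ (n + 1) * 2 ^ n := one_le_mul_of_one_le_of_one_le (by linarith) h2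
    have h5 : (1 : ℝ) ≤ 2 * n * ((n + 1) * 2 ^ n) := one_le_mul_of_one_le_of_one_le (by linarith) h4
    exact one_le_mul_of_one_le_of_one_le h5 h3
  set kap : ℝ := (1 / (2 * q)) ^ n * (1 / (2 * q ^ n)) with hkap
  have hkappos : 0 < kap := by positivity
  set E : ℝ := n * ((n + 1) * 2 ^ n * (1 + 2 * c₂) ^ n) with hE
  have hEpos : 0 < E := by positivity
  set Ct : ℝ := 2 * c₂ * E with hCt
  have hCtpos : 0 < Ct := by positivity
  set d : ℝ := t - n - 1 with hd
  have hdpos : 0 < d := by rw [hd]; linarith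
  set rr : ℝ := (2 : ℝ) ^ (-d) with hrr
  have hrr0 : 0 < rr := Real.rpow_pos_of_pos (by norm_num) _
  have hrr1 : rr < 1 := Real.rpow_lt_one_of_one_lt_of_neg (by norm_num) (by linarith)
  set Cs : ℝ := (3 / lam) ^ (n + 1) * Cq ^ (n + 1) * (n * (2 * (c₁ * 2 ^ t))) with hCs
  have h2t : (0 : ℝ) < 2 ^ t := Real.rpow_pos_of_pos (by norm_num) _
  have hCspos : 0 < Cs := by positivity
  -- choose K0
  have hlimK : Filter.Tendsto (fun K : ℝ => Cs * K ^ (-d) * (1 / (1 - rr))) Filter.atTop (nhds 0) := by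
    have h1 := (tendsto_rpow_neg_atTop hdpos).const_mul Cs
    have h2 := h1.mul_const (1 / (1 - rr))
    simpa using h2
  obtain ⟨K1, hK1⟩ := Filter.eventually_atTop.1
    (hlimK.eventually (gt_mem_nhds (show (0 : ℝ) < (c₂ - c₁) / 2 by linarith)))
  refine ⟨max (max K1 1) Cq, (le_max_right _ _).trans (le_max_left _ _), ?_⟩
  intro K hK
  have hKK1 : K1 ≤ K := ((le_max_left _ _).trans (le_max_left _ _)).trans hK
  have hK1' : 1 ≤ K := ((le_max_right _ _).trans (le_max_left _ _)).trans hK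
  have hKCq : Cq ≤ K := (le_max_right _ _).trans hK
  have hKpos : 0 < K := by linarith
  have hKbound := hK1 K hKK1
  -- choose N1
  have hlimN : Filter.Tendsto (fun N : ℝ => N ^ d) Filter.atTop Filter.atTop := tendsto_rpow_atTop hdpos
  obtain ⟨N2, hN2⟩ := Filter.eventually_atTop.1
    (hlimN.eventually_gt_atTop (Ct * lam * Cq ^ t / kap))
  refine ⟨max (max N2 1) (1 / (1 - (r : ℝ))), ?_⟩
  intro N z H hN hz1 hz2 hH1 hH2 hH0
  have hNN2 : N2 ≤ N := ((le_max_left _ _).trans (le_max_left _ _)).trans hN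
  have hN1 : 1 ≤ N := ((le_max_right _ _).trans (le_max_left _ _)).trans hN
  have hNr : 1 / (1 - (r : ℝ)) ≤ N := (le_max_right _ _).trans hN
  have hN0 : 0 < N := by linarith
  have hHpos : 0 < H := by linarith
  have hz0 : 0 < z := lt_of_lt_of_le (by positivity) hz1
  set α : ℝ := (r : ℝ) + z / q with hα
  have hα0 : 0 ≤ α := by positivity
  have hα1 : α ≤ 1 := by
    have h1 : z / q ≤ z := div_le_self hz0.le hq1
    have h2 : 1 / N ≤ 1 - r := by
      rw [div_le_iff₀ (by linarith)] at hNr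
      rw [div_le_iff₀ hN0]; linarith
    linarith
  have hαabs : |α| ≤ 1 := by rw [abs_of_nonneg hα0]; exact hα1
  set M0 : ℝ := lam * N with hM0
  have hM0pos : 0 < M0 := by positivity
  set v0 : ℝ := kap * (1 / N ^ n) with hv0
  have hsmall : ∀ Q : ℤ[X], Q ≠ 0 → Q.natDegree ≤ n → (HP Q : ℝ) ≤ M0 → v0 ≤ |aeval α Q| := by
    intro Q h1 h2 h3
    exact small_poly n (by omega) Q h1 h2 r (by rw [abs_of_pos hr0R]; exact hr1R.le) N z hN1 hz1 hz2 h3
  set hh : ℕ → ℝ := fun i => K * H * 2 ^ (i + 1) with hhh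
  have hhpos : ∀ i, 0 < hh i := fun i => by rw [hhh]; positivity
  set Zi : ℕ → Set ℝ := fun i => {x : ℝ | |x - α| < c₂ * H ^ (-t) ∧ ∃ Q : ℤ[X], Irreducible Q ∧
        Q.natDegree = n ∧ K * H * 2 ^ i < HP Q ∧ (HP Q : ℝ) ≤ hh i ∧
        ∃ β : ℝ, aeval β Q = 0 ∧ |x - β| ≤ c₁ * (HP Q : ℝ) ^ (-t)} with hZi
  have hHt1 : H ^ (-t) ≤ 1 := Real.rpow_le_one_of_one_le_of_nonpos hH0 (by linarith)
  have hHtpos : 0 < H ^ (-t) := Real.rpow_pos_of_pos hHpos _
  have hZvol : ∀ i, volume (Zi i) ≤ ENNReal.ofReal (Cs * K ^ (-d) * H ^ (-t) * rr ^ i) := by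
    intro i
    set h' := hh i with hh'
    have hh'0 : 0 < h' := hhpos i
    have hh'H : K * H ≤ h' := by
      rw [hh', hhh]
      exact le_mul_of_one_le_right (by positivity) (one_le_pow₀ (by norm_num))
    set v : ℝ := Ct * h' * H ^ (-t) with hv
    have hfin : {Q : ℤ[X] | Q ≠ 0 ∧ Q.natDegree ≤ n ∧ (HP Q : ℝ) ≤ h' ∧ |aeval α Q| ≤ v}.Finite :=
      (finite_polys n ⌊h'⌋₊).subset (fun Q hQ => ⟨hQ.2.1, Nat.le_floor hQ.2.2.1⟩)
    set F := hfin.toFinset with hF
    have hFmem : ∀ Q, Q ∈ F ↔ Q ≠ 0 ∧ Q.natDegree ≤ n ∧ (HP Q : ℝ) ≤ h' ∧ |aeval α Q| ≤ v := by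
      intro Q; rw [hF, Set.Finite.mem_toFinset]; rfl
    set k : ℕ := ⌈2 * h' / M0⌉₊ with hk
    have hkpos : 0 < k := Nat.ceil_pos.2 (by positivity)
    have hk0 : (0 : ℝ) < k := by exact_mod_cast hkpos
    have hkge : 2 * h' / M0 ≤ k := Nat.le_ceil _
    have hM0h : M0 ≤ h' := by
      calc M0 = lam * N := rfl
        _ ≤ 1 * (Cq * H) := by
            have : N ≤ Cq * H := by rw [div_le_iff₀ (by linarith)] at hH1; linarith
            gcongr
        _ ≤ K * H := by rw [one_mul]; gcongr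
        _ ≤ h' := hh'H
    have hkle : (k : ℝ) ≤ 3 * h' / M0 := by
      have h1 : (k : ℝ) < 2 * h' / M0 + 1 := Nat.ceil_lt_add_one (by positivity)
      have h2 : 1 ≤ h' / M0 := by rw [le_div_iff₀ hM0pos, one_mul]; exact hM0h
      have h3 : 3 * h' / M0 = 2 * h' / M0 + h' / M0 := by ring
      linarith
    have hk1 : 2 * h' / k ≤ M0 := by
      rw [div_le_iff₀ hM0pos] at hkge
      rw [div_le_iff₀ hk0]; linarith
    have hk2 : 2 * v / k < v0 := by
      have h1 : 2 * v / k = Ct * H ^ (-t) * (2 * h' / k) := by rw [hv]; ring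
      rw [h1]
      have h2 : H ^ (-t) ≤ Cq ^ t * N ^ (-t) := by
        have h3 : (N / Cq) ^ (-t) = Cq ^ t * N ^ (-t) := by
          rw [Real.div_rpow hN0.le (by linarith), Real.rpow_neg (by linarith : (0:ℝ) ≤ Cq)]
          field_simp
        rw [← h3]
        exact Real.rpow_le_rpow_of_nonpos (by positivity) hH1 (by linarith)
      have hCqt : 0 < Cq ^ t := Real.rpow_pos_of_pos (by linarith) _
      calc Ct * H ^ (-t) * (2 * h' / k) ≤ Ct * (Cq ^ t * N ^ (-t)) * M0 := by gcongr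
        _ = (Ct * lam * Cq ^ t) * (N ^ (-t) * N) := by rw [hM0]; ring
        _ = (Ct * lam * Cq ^ t) * (N ^ (-d) * (1 / N ^ n)) := by
            congr 1
            have e1 : N ^ (-t) * N = N ^ (-t + 1) := by rw [Real.rpow_add hN0, Real.rpow_one]
            have e2 : N ^ (-d) * (1 / N ^ n) = N ^ (-d - n) := by
              rw [Real.rpow_sub hN0, Real.rpow_natCast]; ring
            rw [e1, e2]; congr 1; rw [hd]; ring
        _ < kap * (1 / N ^ n) := by
            have h4 := hN2 N hNN2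
            have h5 : 0 < N ^ d := Real.rpow_pos_of_pos hN0 _
            have h6 : (Ct * lam * Cq ^ t) * N ^ (-d) < kap := by
              rw [Real.rpow_neg hN0.le, ← div_eq_mul_inv, div_lt_iff₀ h5]
              rw [div_lt_iff₀ hkappos] at h4
              linarith
            have h7 : 0 < 1 / N ^ n := by positivity
            calc (Ct * lam * Cq ^ t) * (N ^ (-d) * (1 / N ^ n)) = ((Ct * lam * Cq ^ t) * N ^ (-d)) * (1 / N ^ n) := by ring
              _ < kap * (1 / N ^ n) := by gcongr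
    have hcard := count_polys n α M0 v0 h' v hsmall k hkpos hk1 hk2 F (fun Q hQ => ((hFmem Q).1 hQ).2)
    have hcardR : (F.card : ℝ) ≤ (3 * h' / M0) ^ (n + 1) := by
      calc (F.card : ℝ) ≤ (k : ℝ) ^ (n + 1) := by exact_mod_cast hcard
        _ ≤ _ := pow_le_pow_left₀ hk0.le hkle _
    have hvol := family_volume n F (fun Q hQ => ⟨((hFmem Q).1 hQ).1, ((hFmem Q).1 hQ).2.1⟩)
      (c₁ * (h' / 2) ^ (-t)) (by positivity) (Zi i) (by
        rintro x ⟨hx, Q, g1, g2, g3, g4, β, g5, g6⟩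
        have hHPH : H ≤ HP Q := by
          have h3 : (1 : ℝ) ≤ 2 ^ i := one_le_pow₀ (by norm_num)
          have h4 : H ≤ K * H := le_mul_of_one_le_left hHpos.le hK1'
          have h5 : 0 < K * H := by positivity
          exact h4.trans ((le_mul_of_one_le_right h5.le h3).trans g3.le)
        have hHPpos : (0 : ℝ) < HP Q := by linarith
        have hHPt : (HP Q : ℝ) ^ (-t) ≤ H ^ (-t) :=
          Real.rpow_le_rpow_of_nonpos hHpos hHPH (by linarith)
        have hαβ : |α - β| ≤ 2 * c₂ * H ^ (-t) := by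
          calc |α - β| = |(x - β) - (x - α)| := by ring_nf
            _ ≤ |x - β| + |x - α| := abs_sub _ _
            _ ≤ c₁ * (HP Q : ℝ) ^ (-t) + c₂ * H ^ (-t) := add_le_add g6 hx.le
            _ ≤ c₂ * H ^ (-t) + c₂ * H ^ (-t) := by gcongr
            _ = _ := by ring
        refine ⟨Q, (hFmem Q).2 ⟨g1.ne_zero, g2.le, g4, ?_⟩, β, g5, ?_⟩
        · have h8 := val_bound n Q g2.le α β hαabs g5 (2 * c₂)
            (hαβ.trans (mul_le_of_le_one_right (by positivity) hHt1))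
          calc |aeval α Q| ≤ E * HP Q * |α - β| := h8
            _ ≤ E * h' * (2 * c₂ * H ^ (-t)) := by gcongr
            _ = v := by rw [hv, hCt]; ring
        · refine g6.trans ?_
          have h9 : h' / 2 ≤ HP Q := by
            rw [hh', hhh]
            simp only
            rw [pow_succ]
            linarith
          have h10 : (HP Q : ℝ) ^ (-t) ≤ (h' / 2) ^ (-t) :=
            Real.rpow_le_rpow_of_nonpos (by positivity) h9 (by linarith)
          gcongr)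
    refine hvol.trans (ENNReal.ofReal_le_ofReal ?_)
    have hh2 : (h' / 2) ^ (-t) = 2 ^ t * h' ^ (-t) := by
      rw [Real.div_rpow hh'0.le (by norm_num), Real.rpow_neg (by norm_num : (0:ℝ) ≤ 2)]
      field_simp
    rw [hh2]
    have hh'tpos : 0 < h' ^ (-t) := Real.rpow_pos_of_pos hh'0 _
    calc (F.card : ℝ) * (n * (2 * (c₁ * (2 ^ t * h' ^ (-t)))))
        ≤ (3 * h' / M0) ^ (n + 1) * (n * (2 * (c₁ * (2 ^ t * h' ^ (-t))))) := by gcongr
      _ = (3 / lam) ^ (n + 1) * (1 / N) ^ (n + 1) * (n * (2 * (c₁ * 2 ^ t))) * (h' ^ (n + 1) * h' ^ (-t)) := by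
          rw [hM0]
          have : 3 * h' / (lam * N) = (3 / lam) * (1 / N) * h' := by field_simp
          rw [this, mul_pow, mul_pow]; ring
      _ ≤ (3 / lam) ^ (n + 1) * (Cq / H) ^ (n + 1) * (n * (2 * (c₁ * 2 ^ t))) * (h' ^ (n + 1) * h' ^ (-t)) := by
          have : 1 / N ≤ Cq / H := by
            rw [div_le_div_iff₀ hN0 hHpos]; linarith
          gcongr
      _ = Cs * ((1 / H) ^ (n + 1) * (h' ^ (n + 1) * h' ^ (-t))) := by
          rw [hCs, div_pow Cq H, one_div, inv_pow]; ring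
      _ = Cs * (K ^ (-d) * H ^ (-t) * rr ^ (i + 1)) := by
          congr 1
          have e1 : h' ^ (n + 1) * h' ^ (-t) = h' ^ (-d) := by
            rw [← Real.rpow_natCast, ← Real.rpow_add hh'0]; congr 1; rw [hd]; push_cast; ring
          have e2 : h' ^ (-d) = K ^ (-d) * H ^ (-d) * rr ^ (i + 1) := by
            rw [hh', hhh]
            simp only
            rw [Real.mul_rpow (by positivity) (by positivity), Real.mul_rpow hKpos.le hHpos.le]
            congr 1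
            rw [hrr, ← Real.rpow_natCast, ← Real.rpow_natCast, ← Real.rpow_mul (by norm_num),
              ← Real.rpow_mul (by norm_num), mul_comm]
          have e3 : H ^ (-t) = (1 / H) ^ (n + 1) * H ^ (-d) := by
            rw [one_div, inv_pow, ← Real.rpow_natCast, ← Real.rpow_neg hHpos.le, ← Real.rpow_add hHpos]
            congr 1; rw [hd]; push_cast; ring
          rw [e1, e2, e3]; ring
      _ ≤ Cs * K ^ (-d) * H ^ (-t) * rr ^ i := by
          have h1 : rr ^ (i + 1) ≤ rr ^ i := pow_le_pow_of_le_one hrr0.le hrr1.le (Nat.le_succ i)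
          have h2 : 0 < K ^ (-d) := Real.rpow_pos_of_pos hKpos _
          calc Cs * (K ^ (-d) * H ^ (-t) * rr ^ (i + 1)) = Cs * K ^ (-d) * H ^ (-t) * rr ^ (i + 1) := by ring
            _ ≤ _ := by gcongr
  have hcov : {x : ℝ | |x - α| < c₂ * H ^ (-t) ∧ ∃ Q : ℤ[X], Irreducible Q ∧
        Q.natDegree = n ∧ K * H < HP Q ∧ ∃ β : ℝ, aeval β Q = 0 ∧ |x - β| ≤ c₁ * (HP Q : ℝ) ^ (-t)} ⊆
      ⋃ i, Zi i := by
    rintro x ⟨hx, Q, g1, g2, g3, β, g5, g6⟩
    have hKH : 0 < K * H := by positivity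
    -- find the dyadic scale
    have hex : ∃ i : ℕ, (HP Q : ℝ) ≤ K * H * 2 ^ (i + 1) := by
      obtain ⟨i, hi⟩ := pow_unbounded_of_one_lt ((HP Q : ℝ) / (K * H)) (one_lt_two (α := ℝ))
      refine ⟨i, ?_⟩
      rw [div_lt_iff₀ hKH] at hi
      have e1 : K * H * 2 ^ (i + 1) = 2 ^ i * (K * H) + 2 ^ i * (K * H) := by rw [pow_succ]; ring
      have e2 : 0 < 2 ^ i * (K * H) := by positivity
      rw [e1]
      linarith
    rw [mem_iUnion]
    refine ⟨Nat.find hex, hx, Q, g1, g2, ?_, Nat.find_spec hex, β, g5, g6⟩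
    rcases Nat.eq_zero_or_pos (Nat.find hex) with h0 | h0
    · rw [h0, pow_zero, mul_one]; exact g3
    · have h1 := Nat.find_min hex (m := Nat.find hex - 1) (by omega)
      rw [Nat.sub_add_cancel h0] at h1
      exact not_le.1 h1
  calc volume {x : ℝ | |x - α| < c₂ * H ^ (-t) ∧ ∃ Q : ℤ[X], Irreducible Q ∧
        Q.natDegree = n ∧ K * H < HP Q ∧ ∃ β : ℝ, aeval β Q = 0 ∧ |x - β| ≤ c₁ * (HP Q : ℝ) ^ (-t)}
      ≤ volume (⋃ i, Zi i) := measure_mono hcov
    _ ≤ ∑' i, volume (Zi i) := measure_iUnion_le _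
    _ ≤ ∑' i : ℕ, ENNReal.ofReal (Cs * K ^ (-d) * H ^ (-t) * rr ^ i) := ENNReal.tsum_le_tsum hZvol
    _ = ENNReal.ofReal (Cs * K ^ (-d) * H ^ (-t) * (1 / (1 - rr))) := by
        have h2 : 0 < K ^ (-d) := Real.rpow_pos_of_pos hKpos _
        rw [← ENNReal.ofReal_tsum_of_nonneg (fun j => by positivity)
          ((summable_geometric_of_lt_one hrr0.le hrr1).mul_left _)]
        rw [tsum_mul_left, tsum_geometric_of_lt_one hrr0.le hrr1, one_div]
    _ ≤ ENNReal.ofReal ((c₂ - c₁) / 2 * H ^ (-t)) := by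
        apply ENNReal.ofReal_le_ofReal
        have : Cs * K ^ (-d) * H ^ (-t) * (1 / (1 - rr)) = (Cs * K ^ (-d) * (1 / (1 - rr))) * H ^ (-t) := by ring
        rw [this]
        gcongr

end Pool.Agent.Helper404
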