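import Mathlib
import Pool.Agent.Helper404.HitB
import Pool.Agent.Helper404.ZoneCount
import Pool.Agent.Helper404.Final

open MeasureTheory Set Polynomial

namespace Pool.Agent.Helper404

lemma Pp_eval (n : ℕ) (b K p q : ℤ) (x : ℝ) :
    aeval x (Pp n b K p q) = aeval ((q : ℝ) * x - p) (P0 n b K) := by
  unfold Pp Lp
  rw [aeval_comp]
  simp

lemma lin_pow_coeff (p q : ℤ) (hq : 1 ≤ q) (hp : |p| ≤ q) (m k : ℕ) :
    |((X + C p : ℤ[X]) ^ m).coeff k| ≤ (2 * q) ^ m := by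
  induction m generalizing k with
  | zero =>
    rw [pow_zero, pow_zero, coeff_one]
    split_ifs <;> simp
  | succ m ih =>
    have h1 : ((X + C p : ℤ[X]) ^ (m + 1)) = X * (X + C p) ^ m + C p * (X + C p) ^ m := by
      rw [pow_succ]; ring
    have hq0 : 0 ≤ q := by linarith
    rw [h1, coeff_add, coeff_C_mul]
    have h2 : |(X * (X + C p : ℤ[X]) ^ m).coeff k| ≤ (2 * q) ^ m := by
      cases k with
      | zero => simp; positivity
      | succ k => rw [coeff_X_mul]; exact ih k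
    have h3 := ih k
    have h4 : 0 ≤ (2 * q) ^ m := by positivity
    calc _ ≤ |(X * (X + C p : ℤ[X]) ^ m).coeff k| + |p * ((X + C p : ℤ[X]) ^ m).coeff k| := abs_add_le _ _
      _ ≤ (2 * q) ^ m + q * (2 * q) ^ m := by rw [abs_mul]; gcongr
      _ ≤ (2 * q) ^ (m + 1) := by rw [pow_succ]; nlinarith

noncomputable def hat (n : ℕ) (Q : ℤ[X]) (p q : ℤ) : ℤ[X] :=
  ∑ i ∈ Finset.range (n + 1), C (Q.coeff i * q ^ (n - i)) * (X + C p) ^ i

lemma hat_natDegree (n : ℕ) (Q : ℤ[X]) (p q : ℤ) : (hat n Q p q).natDegree ≤ n := by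
  unfold hat
  apply natDegree_sum_le_of_forall_le
  intro i hi
  rw [Finset.mem_range] at hi
  refine (natDegree_C_mul_le _ _).trans ?_
  rw [natDegree_pow, natDegree_X_add_C]; omega

lemma hat_eval (n : ℕ) (Q : ℤ[X]) (hQ : Q.natDegree ≤ n) (p q : ℤ) (z x : ℝ)
    (hx : (q : ℝ) * x = z + p) :
    aeval z (hat n Q p q) = (q : ℝ) ^ n * aeval x Q := by
  unfold hat
  rw [map_sum, aeval_eq_sum_range' (Nat.lt_succ_of_le hQ), Finset.mul_sum]
  refine Finset.sum_congr rfl (fun i hi => ?_)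
  rw [Finset.mem_range] at hi
  have h1 : (q : ℝ) ^ n = (q : ℝ) ^ (n - i) * (q : ℝ) ^ i := by
    rw [← pow_add]; congr 1; omega
  rw [h1]
  simp only [map_mul, map_pow, map_add, aeval_X, eq_intCast, map_intCast, zsmul_eq_mul]
  rw [← hx, mul_pow]
  ring

lemma hat_coeff (n : ℕ) (Q : ℤ[X]) (p q : ℤ) (hq : 1 ≤ q) (hp : |p| ≤ q) (k : ℕ) :
    |((hat n Q p q).coeff k : ℝ)| ≤ (n + 1) * (2 * q) ^ n * HP Q := by
  have hqR : (1 : ℝ) ≤ q := by exact_mod_cast hq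
  have h1 : (hat n Q p q).coeff k =
      ∑ i ∈ Finset.range (n + 1), Q.coeff i * q ^ (n - i) * ((X + C p : ℤ[X]) ^ i).coeff k := by
    unfold hat; rw [finsetSum_coeff]; refine Finset.sum_congr rfl (fun i _ => ?_); rw [coeff_C_mul]
  rw [h1, Int.cast_sum]
  calc _ ≤ ∑ i ∈ Finset.range (n + 1),
        |((Q.coeff i * q ^ (n - i) * ((X + C p : ℤ[X]) ^ i).coeff k : ℤ) : ℝ)| :=
        Finset.abs_sum_le_sum_abs _ _
    _ ≤ ∑ i ∈ Finset.range (n + 1), (HP Q : ℝ) * (2 * q) ^ n := by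
        refine Finset.sum_le_sum (fun i hi => ?_)
        rw [Finset.mem_range] at hi
        rw [Int.cast_mul, Int.cast_mul, Int.cast_pow, abs_mul, abs_mul, abs_pow,
          abs_of_nonneg (by linarith : (0 : ℝ) ≤ q)]
        have h2 := coeff_le_HP Q i
        have h3 : |(((X + C p : ℤ[X]) ^ i).coeff k : ℝ)| ≤ (2 * q) ^ i := by
          exact_mod_cast lin_pow_coeff p q hq hp i k
        have h4 : (q : ℝ) ^ (n - i) ≤ (2 * q) ^ (n - i) :=
          pow_le_pow_left₀ (by linarith) (by linarith) _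
        calc |(Q.coeff i : ℝ)| * (q : ℝ) ^ (n - i) * |(((X + C p : ℤ[X]) ^ i).coeff k : ℝ)|
            ≤ HP Q * (2 * q) ^ (n - i) * (2 * q) ^ i := by gcongr
          _ = HP Q * (2 * q) ^ n := by
              rw [mul_assoc, ← pow_add]; congr 2; omega
    _ = _ := by rw [Finset.sum_const, Finset.card_range, nsmul_eq_mul]; push_cast; ring

theorem hit (n : ℕ) (hn : 2 ≤ n) (t : ℝ) (ht : (n : ℝ) + 1 < t) (c₁ c₂ : ℝ) (hc₁ : 0 < c₁)
    (hc : c₁ < c₂) : HitStatement n t c₁ c₂ := by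
  intro H0 r hr0 hr1 hgood δ hδ B
  classical
  have hc₂ : 0 < c₂ := hc₁.trans hc
  have hn2 : (2 : ℝ) ≤ n := by exact_mod_cast hn
  have hnpos : (0 : ℝ) < n := by linarith
  have hr0R : (0 : ℝ) < r := by exact_mod_cast hr0
  have hr1R : (r : ℝ) < 1 := by exact_mod_cast hr1
  obtain ⟨p, hp⟩ : ∃ p : ℤ, p = r.num := ⟨_, rfl⟩
  obtain ⟨q, hq⟩ : ∃ q : ℤ, q = (r.den : ℤ) := ⟨_, rfl⟩
  have hq1 : 1 ≤ q := by rw [hq]; exact_mod_cast r.den_pos
  have hqR1 : (1 : ℝ) ≤ q := by exact_mod_cast hq1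
  have hqR0 : (0 : ℝ) < q := by linarith
  have hqden : (q : ℝ) = (r.den : ℝ) := by rw [hq]; norm_cast
  have hrpq : (q : ℝ) * (r : ℝ) = p := by
    have h1 : (r : ℝ) = (r.num : ℝ) / (r.den : ℝ) := by exact_mod_cast Rat.cast_def (K := ℝ) r
    rw [h1, hp, hqden]; field_simp
  have hp0 : 0 < p := by rw [hp]; exact Rat.num_pos.2 hr0
  have hpq : p ≤ q := by
    have h1 : (p : ℝ) ≤ q := by rw [← hrpq]; exact mul_le_of_le_one_right hqR0.le hr1R.le
    exact_mod_cast h1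
  have hpabs : |p| ≤ q := by rw [abs_of_pos hp0]; exact hpq
  -- constants
  obtain ⟨E1, hE1⟩ : ∃ E1 : ℝ, E1 = n * ((n + 1) * 2 ^ n * (1 + 1) ^ n) := ⟨_, rfl⟩
  have hE1pos : 0 < E1 := by rw [hE1]; positivity
  obtain ⟨Cq, hCq⟩ : ∃ Cq : ℝ, Cq = max ((n + 1) * (2 * (q : ℝ)) ^ n) E1 := ⟨_, rfl⟩
  have hCqa : (n + 1) * (2 * (q : ℝ)) ^ n ≤ Cq := by rw [hCq]; exact le_max_left _ _
  have hCqb : E1 ≤ Cq := by rw [hCq]; exact le_max_right _ _
  have hCq1 : 1 ≤ Cq := by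
    refine le_trans ?_ hCqa
    have h1 : (1 : ℝ) ≤ (2 * q) ^ n := one_le_pow₀ (by linarith)
    nlinarith
  have hCq0 : 0 < Cq := by linarith
  obtain ⟨κ, hκ1, hκ⟩ := zone_measure n hn t ht c₁ c₂ hc₁ hc r hr0 hr1 Cq hCq1
  obtain ⟨N1, hN1⟩ := hκ κ le_rfl
  have hκ0 : 0 < κ := by linarith
  obtain ⟨A1, hA1d⟩ : ∃ A1 : ℝ, A1 = (n + 1) * (2 * q) ^ n * (κ * Cq) := ⟨_, rfl⟩
  have hA1 : 0 ≤ A1 := by rw [hA1d]; positivity
  obtain ⟨b, hbd⟩ : ∃ b : ℤ, b = ⌈A1 + 1 + n * A1⌉ := ⟨_, rfl⟩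
  have hbA : A1 + 1 + n * A1 ≤ b := by rw [hbd]; exact Int.le_ceil _
  have hb : 1 ≤ b := by
    have h1 : (1 : ℝ) ≤ b := by
      have : 0 ≤ n * A1 := by positivity
      linarith
    exact_mod_cast h1
  have hbR : (1 : ℝ) ≤ b := by exact_mod_cast hb
  obtain ⟨E3, hE3⟩ : ∃ E3 : ℝ, E3 = n * ((n + 1) * 2 ^ n * (1 + (2 + c₁)) ^ n) := ⟨_, rfl⟩
  have hE3pos : 0 < E3 := by rw [hE3]; positivity
  obtain ⟨B1, hB1, hB1'⟩ : ∃ B1 : ℕ, E3 * c₁ * (B1 : ℝ) ^ (-(t - 1)) < 1 / (2 * (q : ℝ) ^ n) ∧ 1 ≤ B1 := by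
    have hlim : Filter.Tendsto (fun k : ℕ => E3 * c₁ * (k : ℝ) ^ (-(t - 1))) Filter.atTop (nhds 0) := by
      have h1 : Filter.Tendsto (fun k : ℕ => (k : ℝ) ^ (-(t - 1))) Filter.atTop (nhds 0) :=
        (tendsto_rpow_neg_atTop (by linarith)).comp tendsto_natCast_atTop_atTop
      simpa using h1.const_mul (E3 * c₁)
    exact ((hlim.eventually (gt_mem_nhds (show (0 : ℝ) < 1 / (2 * (q : ℝ) ^ n) by positivity))).and
      (Filter.eventually_ge_atTop 1)).exists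
  obtain ⟨cq, hcq⟩ : ∃ cq : ℝ, cq = 1 / (4 * E3 * (q : ℝ) ^ n) := ⟨_, rfl⟩
  have hcq0 : 0 < cq := by rw [hcq]; positivity
  obtain ⟨E2, hE2⟩ : ∃ E2 : ℝ, E2 = n * ((n + 1) * 2 ^ n * (1 + (c₁ + c₂)) ^ n) := ⟨_, rfl⟩
  have hE2pos : 0 < E2 := by rw [hE2]; positivity
  have hCqt : 0 < Cq ^ (t - 1) := Real.rpow_pos_of_pos hCq0 _
  have hcqt : 0 < cq ^ (1 - t) := Real.rpow_pos_of_pos hcq0 _
  obtain ⟨A4, hA4d⟩ : ∃ A4 : ℝ, A4 = (q : ℝ) ^ n * (E2 * (c₂ * (κ * Cq ^ (t - 1)) + c₁ * cq ^ (1 - t))) :=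
    ⟨_, rfl⟩
  have hA4 : 0 ≤ A4 := by rw [hA4d]; positivity
  obtain ⟨N2, hN2⟩ := isolation n hn t ht A1 A4 hA1 hA4 b hb hbA
  have hrZ : (r : ℝ) ∈ (ZZ n t c₁ H0 B1)ᶜ := by
    rintro ⟨Q, h1, h2, h3, h4, β, h5, h6⟩
    exact absurd h6 (not_le.2 (hgood Q h1 h2 h3 β h5))
  obtain ⟨δ1, hδ1, hball⟩ := Metric.isOpen_iff.1 (ZZ_closed n t c₁ H0 B1).isOpen_compl _ hrZ
  have hmin : 0 < min δ (min δ1 (1 - (r : ℝ))) := lt_min hδ (lt_min hδ1 (by linarith))
  have hev : ∀ᶠ N : ℝ in Filter.atTop, N1 ≤ N ∧ N2 ≤ N ∧ (B : ℝ) ≤ N / Cq ∧ 1 ≤ N / Cq ∧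
      2 * N ^ (-(1 : ℝ)) < min δ (min δ1 (1 - (r : ℝ))) ∧
      4 * q * c₂ * Cq ^ t * N ^ (-(t - 1)) < 1 ∧ (n : ℝ) ≤ N := by
    have hdiv : Filter.Tendsto (fun N : ℝ => N / Cq) Filter.atTop Filter.atTop :=
      Filter.tendsto_id.atTop_div_const hCq0
    have h5 : Filter.Tendsto (fun N : ℝ => 2 * N ^ (-(1 : ℝ))) Filter.atTop (nhds 0) := by
      simpa using (tendsto_rpow_neg_atTop (show (0 : ℝ) < 1 by norm_num)).const_mul 2
    have h6 : Filter.Tendsto (fun N : ℝ => 4 * q * c₂ * Cq ^ t * N ^ (-(t - 1))) Filter.atTop (nhds 0) := by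
      simpa using (tendsto_rpow_neg_atTop (show (0 : ℝ) < t - 1 by linarith)).const_mul (4 * q * c₂ * Cq ^ t)
    exact (Filter.eventually_ge_atTop N1).and ((Filter.eventually_ge_atTop N2).and
      ((hdiv.eventually_ge_atTop _).and ((hdiv.eventually_ge_atTop _).and
      ((h5.eventually (gt_mem_nhds hmin)).and ((h6.eventually (gt_mem_nhds one_pos)).and
      (Filter.eventually_ge_atTop _))))))
  obtain ⟨N3, hN3⟩ := Filter.eventually_atTop.1 hev
  obtain ⟨l, hl1, hl⟩ := Nat.exists_infinite_primes (max ⌈N3⌉₊ (r.den + 1))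
  obtain ⟨K, hK⟩ : ∃ K : ℤ, K = q * l := ⟨_, rfl⟩
  have hl0 : 1 ≤ (l : ℤ) := by exact_mod_cast hl.one_le
  have hlR : (1 : ℝ) ≤ l := by exact_mod_cast hl0
  have hK1 : 1 ≤ K := by rw [hK]; exact one_le_mul_of_one_le_of_one_le hq1 hl0
  have hlN3 : N3 ≤ l := (Nat.le_ceil N3).trans (by exact_mod_cast (le_max_left _ _).trans hl1)
  have hlq : ¬ (l : ℤ) ∣ q := by
    intro h
    have h1 := Int.le_of_dvd (by linarith) h
    have h2 : r.den + 1 ≤ l := (le_max_right _ _).trans hl1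
    rw [hq] at h1
    have h3 : (r.den : ℤ) + 1 ≤ l := by exact_mod_cast h2
    linarith
  obtain ⟨N, hN⟩ : ∃ N : ℝ, N = K * (b : ℝ) ^ (n - 1) := ⟨_, rfl⟩
  have hKR : (1 : ℝ) ≤ K := by exact_mod_cast hK1
  have hbn : (1 : ℝ) ≤ (b : ℝ) ^ (n - 1) := one_le_pow₀ hbR
  have hNl : (l : ℝ) ≤ N := by
    rw [hN, hK]; push_cast
    calc (l : ℝ) = 1 * l * 1 := by ring
      _ ≤ q * l * (b : ℝ) ^ (n - 1) := by gcongr
  obtain ⟨g1, g2, g3, g4, g5, g6, g7⟩ := hN3 N (hlN3.trans hNl)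
  have hN1' : 1 ≤ N := hlR.trans hNl
  have hN0 : 0 < N := by linarith
  have hirr := Pp_irreducible n (by omega) b p q l hl (by linarith) hlq
  have hdeg := Pp_natDegree n (by omega) b K p q (by omega) (by omega)
  rw [← hK] at hirr
  obtain ⟨P, hP⟩ : ∃ P : ℤ[X], P = Pp n b K p q := ⟨_, rfl⟩
  rw [← hP] at hirr hdeg
  obtain ⟨H, hH⟩ : ∃ H : ℝ, H = (HP P : ℝ) := ⟨_, rfl⟩
  have hH1 : 1 ≤ H := by rw [hH]; exact_mod_cast HP_pos hirr.ne_zero
  have hH0 : 0 < H := by linarith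
  obtain ⟨z0, hz1, hz2, hz3⟩ := exists_z0 n hn b K hb hK1 N hN g7
  have hz0 : 0 < z0 := lt_of_lt_of_le (by positivity) hz1
  obtain ⟨α, hα⟩ : ∃ α : ℝ, α = (r : ℝ) + z0 / r.den := ⟨_, rfl⟩
  have hqα : (q : ℝ) * α = z0 + p := by
    rw [hα, mul_add, hrpq, hqden]; field_simp; ring
  have hαr : α - r = z0 / q := by rw [hα, hqden]; ring
  have hαr0 : 0 < α - r := by rw [hαr]; positivity
  have hαrN : α - r ≤ 1 / N := by
    rw [hαr]; exact (div_le_self hz0.le hqR1).trans hz2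
  have hNinv : N ^ (-(1 : ℝ)) = 1 / N := by rw [Real.rpow_neg hN0.le, Real.rpow_one, one_div]
  rw [hNinv] at g5
  have g5a : 2 * (1 / N) < δ := lt_of_lt_of_le g5 (min_le_left _ _)
  have g5b : 2 * (1 / N) < δ1 := lt_of_lt_of_le g5 ((min_le_right _ _).trans (min_le_left _ _))
  have g5c : 2 * (1 / N) < 1 - r := lt_of_lt_of_le g5 ((min_le_right _ _).trans (min_le_right _ _))
  have hNinv0 : 0 < 1 / N := by positivity
  have hNinv1 : 1 / N ≤ 1 := by rw [div_le_one hN0]; exact hN1'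
  have hα1 : |α| ≤ 1 := by rw [abs_of_pos (by linarith)]; linarith
  have hPα : aeval α P = 0 := by
    rw [hP, Pp_eval, hqα, add_sub_cancel_right]; exact hz3
  -- height bounds
  have hHup : H ≤ Cq * N := by
    have h1 := Pp_HP n (by omega) b K p q hb hK1 hq1 hpabs
    rw [← hP] at h1
    have h2 : H ≤ (n + 1) * (2 * q) ^ n * N := by
      rw [hH, hN]; exact_mod_cast h1
    refine h2.trans ?_
    gcongr
  have hHlow : N / Cq ≤ H := by
    have h1 := val_bound n P hdeg.le (r : ℝ) α (by rw [abs_of_pos hr0R]; exact hr1R.le) hPα 1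
      (by rw [abs_sub_comm, abs_of_pos hαr0]; linarith)
    have h2 : aeval (r : ℝ) P = -1 := by
      rw [hP, Pp_eval, hrpq, sub_self, P0_eval]
      simp
    rw [h2, abs_neg, abs_one, ← hE1, ← hH, abs_sub_comm, abs_of_pos hαr0] at h1
    rw [div_le_iff₀ hCq0]
    have h3 : 1 ≤ E1 * H * (1 / N) := h1.trans (by gcongr)
    rw [mul_one_div, le_div_iff₀ hN0, one_mul] at h3
    calc N ≤ E1 * H := h3
      _ ≤ Cq * H := by gcongr
      _ = H * Cq := by ring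
  have hHt0 : 0 < H ^ (-t) := Real.rpow_pos_of_pos hH0 _
  have hNt0 : 0 < N ^ (-(t - 1)) := Real.rpow_pos_of_pos hN0 _
  have hCqtt : 0 < Cq ^ t := Real.rpow_pos_of_pos hCq0 _
  have hHt : H ^ (-t) ≤ Cq ^ t * N ^ (-(t - 1)) * (1 / N) := by
    have h1 : H ^ (-t) ≤ (N / Cq) ^ (-t) :=
      Real.rpow_le_rpow_of_nonpos (by positivity) hHlow (by linarith)
    have h2 : (N / Cq) ^ (-t) = Cq ^ t * N ^ (-(t - 1)) * (1 / N) := by
      rw [Real.div_rpow hN0.le hCq0.le, Real.rpow_neg hCq0.le, ← hNinv, mul_assoc,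
        ← Real.rpow_add hN0]
      rw [show -(t - 1) + -(1 : ℝ) = -t by ring]
      field_simp
    rwa [h2] at h1
  have hsmall : 2 * q * c₂ * H ^ (-t) < 1 / (2 * N) := by
    calc 2 * q * c₂ * H ^ (-t) ≤ 2 * q * c₂ * (Cq ^ t * N ^ (-(t - 1)) * (1 / N)) := by gcongr
      _ = (4 * q * c₂ * Cq ^ t * N ^ (-(t - 1))) * (1 / (2 * N)) := by field_simp; ring
      _ < 1 * (1 / (2 * N)) := by gcongr
      _ = 1 / (2 * N) := one_mul _
  have hhalf : 1 / (2 * N) ≤ 1 / N := one_div_le_one_div_of_le hN0 (by linarith)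
  have hsmall2 : c₂ * H ^ (-t) ≤ 1 / N := by
    have h1 : c₂ * H ^ (-t) ≤ 2 * q * c₂ * H ^ (-t) := by
      have h2 : 0 < c₂ * H ^ (-t) := by positivity
      have h3 : (1 : ℝ) ≤ 2 * q := by linarith only [hqR1]
      calc c₂ * H ^ (-t) = 1 * (c₂ * H ^ (-t)) := (one_mul _).symm
        _ ≤ (2 * q) * (c₂ * H ^ (-t)) := by gcongr
        _ = _ := by ring
    linarith only [h1, hhalf, hsmall]
  -- main claim
  have hmain : ∀ x : ℝ, c₁ * H ^ (-t) < |x - α| → |x - α| < c₂ * H ^ (-t) → ¬ Good n t c₁ H0 x →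
      ∃ Q : ℤ[X], Irreducible Q ∧ Q.natDegree = n ∧ κ * H < HP Q ∧ ∃ β : ℝ, aeval β Q = 0 ∧
        |x - β| ≤ c₁ * (HP Q : ℝ) ^ (-t) := by
    intro x hx1 hx2 hx3
    unfold Good at hx3
    push Not at hx3
    obtain ⟨Q, hQ1, hQ2, hQ3, β, hβ, hxβ⟩ := hx3
    obtain ⟨h, hh⟩ : ∃ h : ℝ, h = (HP Q : ℝ) := ⟨_, rfl⟩
    have hh1 : 1 ≤ h := by rw [hh]; exact_mod_cast HP_pos hQ1.ne_zero
    have hh0 : 0 < h := by linarith
    rw [← hh] at hxβ
    by_cases hκH : κ * H < h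
    · exact ⟨Q, hQ1, hQ2, by rw [← hh]; exact hκH, β, hβ, by rw [← hh]; exact hxβ⟩
    exfalso
    push Not at hκH
    have hxr : |x - r| < 2 * (1 / N) := by
      calc |x - r| = |(x - α) + (α - r)| := by ring_nf
        _ ≤ |x - α| + |α - r| := abs_add_le _ _
        _ < 1 / N + 1 / N := by
            rw [abs_of_pos hαr0]
            exact add_lt_add_of_lt_of_le (hx2.trans_le hsmall2) hαrN
        _ = 2 * (1 / N) := by ring
    by_cases hB : HP Q < B1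
    · -- low height
      have h1 : x ∈ (ZZ n t c₁ H0 B1)ᶜ := hball (by
        rw [Metric.mem_ball, Real.dist_eq]; exact hxr.trans g5b)
      exact h1 ⟨Q, hQ1, hQ2, hQ3, hB, β, hβ, by rw [← hh]; exact hxβ⟩
    push Not at hB
    have hht1 : h ^ (-t) ≤ 1 := Real.rpow_le_one_of_one_le_of_nonpos hh1 (by linarith)
    have hht0 : 0 < h ^ (-t) := Real.rpow_pos_of_pos hh0 _
    have hhh : h ^ (-(t - 1)) = h * h ^ (-t) := by
      rw [show -(t - 1) = 1 + -t by ring, Real.rpow_add hh0, Real.rpow_one]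
    -- lower bound for the height
    have hhlow : cq * N ≤ h := by
      have h1 := rat_lower n hn Q hQ1 hQ2 r
      have hrβ : |(r : ℝ) - β| ≤ 2 * (1 / N) + c₁ * h ^ (-t) := by
        calc |(r : ℝ) - β| = |((r : ℝ) - x) + (x - β)| := by ring_nf
          _ ≤ |(r : ℝ) - x| + |x - β| := abs_add_le _ _
          _ ≤ 2 * (1 / N) + c₁ * h ^ (-t) := by
              rw [abs_sub_comm (r : ℝ) x]; exact add_le_add hxr.le hxβ
      have h2 := val_bound n Q hQ2.le (r : ℝ) β (by rw [abs_of_pos hr0R]; exact hr1R.le) hβ (2 + c₁)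
        (hrβ.trans (by
          have : c₁ * h ^ (-t) ≤ c₁ * 1 := by gcongr
          linarith))
      rw [← hE3, ← hh] at h2
      rw [← hqden] at h1
      have h3 : |aeval (r : ℝ) Q| ≤ 2 * E3 * h * (1 / N) + E3 * c₁ * h ^ (-(t - 1)) := by
        rw [hhh]
        calc _ ≤ E3 * h * |(r : ℝ) - β| := h2
          _ ≤ E3 * h * (2 * (1 / N) + c₁ * h ^ (-t)) := by gcongr
          _ = _ := by ring
      have h4 : h ^ (-(t - 1)) ≤ (B1 : ℝ) ^ (-(t - 1)) := by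
        apply Real.rpow_le_rpow_of_nonpos (by exact_mod_cast hB1') _ (by linarith)
        rw [hh]; exact_mod_cast hB
      have h5 : E3 * c₁ * h ^ (-(t - 1)) < 1 / (2 * (q : ℝ) ^ n) :=
        lt_of_le_of_lt (by gcongr) hB1
      have h6 : 1 ≤ (q : ℝ) ^ n * (2 * E3 * h * (1 / N) + 1 / (2 * (q : ℝ) ^ n)) := by
        refine h1.trans ?_
        have := h3.trans (add_le_add le_rfl h5.le)
        gcongr
      have hqn : 0 < (q : ℝ) ^ n := by positivity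
      have h7 : (q : ℝ) ^ n * (2 * E3 * h * (1 / N) + 1 / (2 * (q : ℝ) ^ n)) =
          2 * E3 * (q : ℝ) ^ n * h / N + 1 / 2 := by field_simp
      rw [h7] at h6
      have h8 : 1 / 2 ≤ 2 * E3 * (q : ℝ) ^ n * h / N := by linarith
      rw [le_div_iff₀ hN0] at h8
      rw [hcq, one_div_mul_eq_div, div_le_iff₀ (by positivity)]
      linarith
    -- value at α
    have hαβ : |α - β| ≤ c₂ * H ^ (-t) + c₁ * h ^ (-t) := by
      calc |α - β| = |(α - x) + (x - β)| := by ring_nf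
        _ ≤ |α - x| + |x - β| := abs_add_le _ _
        _ ≤ c₂ * H ^ (-t) + c₁ * h ^ (-t) := by
            rw [abs_sub_comm α x]; exact add_le_add hx2.le hxβ
    have hHt1 : H ^ (-t) ≤ 1 := Real.rpow_le_one_of_one_le_of_nonpos hH1 (by linarith)
    have hval := val_bound n Q hQ2.le α β hα1 hβ (c₁ + c₂) (hαβ.trans (by
      have h1 : c₂ * H ^ (-t) ≤ c₂ * 1 := by gcongr
      have h2 : c₁ * h ^ (-t) ≤ c₁ * 1 := by gcongr
      linarith))
    rw [← hE2, ← hh] at hval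
    have hN1t : N ^ (1 - t) = N ^ (-(t - 1)) := by congr 1; ring
    have hval2 : |aeval α Q| ≤ E2 * (c₂ * (κ * Cq ^ (t - 1)) + c₁ * cq ^ (1 - t)) * N ^ (1 - t) := by
      have e1 : h * H ^ (-t) ≤ κ * Cq ^ (t - 1) * N ^ (1 - t) := by
        have h1 : H * H ^ (-t) = H ^ (1 - t) := by
          rw [sub_eq_add_neg, Real.rpow_add hH0, Real.rpow_one]
        have h2 : H ^ (1 - t) ≤ (N / Cq) ^ (1 - t) :=
          Real.rpow_le_rpow_of_nonpos (by positivity) hHlow (by linarith)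
        have h3 : (N / Cq) ^ (1 - t) = Cq ^ (t - 1) * N ^ (1 - t) := by
          rw [Real.div_rpow hN0.le hCq0.le, show (1 - t) = -(t - 1) by ring, Real.rpow_neg hCq0.le]
          field_simp
        calc h * H ^ (-t) ≤ (κ * H) * H ^ (-t) := by gcongr
          _ = κ * (H * H ^ (-t)) := by ring
          _ ≤ κ * (Cq ^ (t - 1) * N ^ (1 - t)) := by rw [h1, ← h3]; gcongr
          _ = _ := by ring
      have e2 : h * h ^ (-t) ≤ cq ^ (1 - t) * N ^ (1 - t) := by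
        rw [← hhh, ← Real.mul_rpow hcq0.le hN0.le, show -(t - 1) = 1 - t by ring]
        exact Real.rpow_le_rpow_of_nonpos (by positivity) hhlow (by linarith)
      calc |aeval α Q| ≤ E2 * h * |α - β| := hval
        _ ≤ E2 * h * (c₂ * H ^ (-t) + c₁ * h ^ (-t)) := by gcongr
        _ = E2 * (c₂ * (h * H ^ (-t)) + c₁ * (h * h ^ (-t))) := by ring
        _ ≤ E2 * (c₂ * (κ * Cq ^ (t - 1) * N ^ (1 - t)) + c₁ * (cq ^ (1 - t) * N ^ (1 - t))) := by
            gcongr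
        _ = _ := by ring
    have hhatv := hat_eval n Q hQ2.le p q z0 α hqα
    have hiso := hN2 K hK1 (by rw [← hN]; exact g2) z0 (by rw [← hN]; exact hz1)
      (by rw [← hN]; exact hz2) hz3 (hat n Q p q) (hat_natDegree n Q p q) (by
        intro k
        rw [← hN]
        refine (hat_coeff n Q p q hq1 hpabs k).trans ?_
        rw [← hh, hA1d]
        calc (n + 1) * (2 * (q : ℝ)) ^ n * h ≤ (n + 1) * (2 * (q : ℝ)) ^ n * (κ * (Cq * N)) := by
              gcongr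
              exact hκH.trans (by gcongr)
          _ = _ := by ring) (by
        rw [← hN, hhatv, abs_mul, abs_of_pos (by positivity : (0 : ℝ) < (q : ℝ) ^ n), hA4d]
        calc (q : ℝ) ^ n * |aeval α Q| ≤ (q : ℝ) ^ n *
              (E2 * (c₂ * (κ * Cq ^ (t - 1)) + c₁ * cq ^ (1 - t)) * N ^ (1 - t)) := by gcongr
          _ = _ := by ring)
    rw [hhatv] at hiso
    have hQα : aeval α Q = 0 := by
      rcases mul_eq_zero.1 hiso with h1 | h1
      · exact absurd h1 (by positivity)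
      · exact h1
    have huniq := uniq_poly P Q hirr hQ1 (by omega) (by omega) α hPα hQα
    have hHPeq : HP Q = HP P := by
      rcases huniq with h1 | h1
      · rw [h1]
      · rw [h1, HP_neg]
    have hhH : h = H := by rw [hh, hH, hHPeq]
    have hPβ : aeval β P = 0 := by
      rcases huniq with h1 | h1
      · rw [← h1]; exact hβ
      · rw [h1, map_neg] at hβ; linarith
    rw [hP, Pp_eval] at hPβ
    have hβα : |(q : ℝ) * β - p - z0| < z0 := by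
      have e1 : (q : ℝ) * β - p - z0 = - (q * (α - β)) := by
        have : z0 = q * α - p := by linarith
        rw [this]; ring
      rw [e1, abs_neg, abs_mul, abs_of_pos hqR0]
      calc (q : ℝ) * |α - β| ≤ q * (c₂ * H ^ (-t) + c₁ * H ^ (-t)) := by
            rw [hhH] at hαβ; gcongr
        _ ≤ q * (c₂ * H ^ (-t) + c₂ * H ^ (-t)) := by gcongr
        _ = 2 * q * c₂ * H ^ (-t) := by ring
        _ < 1 / (2 * N) := hsmall
        _ ≤ z0 := hz1
    have hz'0 : 0 < (q : ℝ) * β - p := by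
      have := (abs_lt.1 hβα).1
      linarith
    have hzz : (q : ℝ) * β - p = z0 := by
      rcases lt_trichotomy ((q : ℝ) * β - p) z0 with h1 | h1 | h1
      · have := P0_mono n (by omega) b K hb hK1 _ _ hz'0.le h1
        linarith
      · exact h1
      · have := P0_mono n (by omega) b K hb hK1 _ _ hz0.le h1
        linarith
    have hβeq : β = α := by
      have h1 : (q : ℝ) * β = q * α := by linarith
      exact mul_left_cancel₀ hqR0.ne' h1
    rw [hβeq, hhH] at hxβ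
    linarith
  -- measure comparison
  refine ⟨P, hirr, hdeg, ?_, α, hPα, ?_, ?_⟩
  · have : (B : ℝ) ≤ HP P := by rw [← hH]; exact g3.trans hHlow
    exact_mod_cast this
  · rw [abs_of_pos hαr0]; linarith
  · rw [← hH]
    by_contra hcon
    have hcon' : volume {x : ℝ | c₁ * H ^ (-t) < |x - α| ∧ |x - α| < c₂ * H ^ (-t) ∧ Good n t c₁ H0 x} = 0 :=
      le_antisymm (not_lt.1 hcon) zero_le
    have hzone := hN1 N z0 H g1 hz1 hz2 hHlow hHup hH1
    rw [← hα] at hzone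
    have hsub : Ioo (α + c₁ * H ^ (-t)) (α + c₂ * H ^ (-t)) ⊆
        {x : ℝ | c₁ * H ^ (-t) < |x - α| ∧ |x - α| < c₂ * H ^ (-t) ∧ Good n t c₁ H0 x} ∪
        {x : ℝ | |x - α| < c₂ * H ^ (-t) ∧ ∃ Q : ℤ[X], Irreducible Q ∧
        Q.natDegree = n ∧ κ * H < HP Q ∧ ∃ β : ℝ, aeval β Q = 0 ∧ |x - β| ≤ c₁ * (HP Q : ℝ) ^ (-t)} := by
      intro x hx
      have hxα : 0 < x - α := by
        have := hx.1
        have h2 : 0 < c₁ * H ^ (-t) := by positivity
        linarith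
      have h1 : c₁ * H ^ (-t) < |x - α| := by rw [abs_of_pos hxα]; linarith [hx.1]
      have h2 : |x - α| < c₂ * H ^ (-t) := by rw [abs_of_pos hxα]; linarith [hx.2]
      by_cases hg : Good n t c₁ H0 x
      · left; exact ⟨h1, h2, hg⟩
      · right; exact ⟨h2, hmain x h1 h2 hg⟩
    have hvol := (measure_mono hsub).trans (measure_union_le (μ := volume) _ _)
    rw [hcon', zero_add, Real.volume_Ioo] at hvol
    have hvol2 := hvol.trans hzone
    rw [ENNReal.ofReal_le_ofReal_iff (by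
      have : 0 < c₂ - c₁ := by linarith
      positivity)] at hvol2
    have h3 : 0 < (c₂ - c₁) * H ^ (-t) := mul_pos (by linarith) hHt0
    linarith only [h3, hvol2]

theorem main (n : ℕ) (hn : 2 ≤ n) (t : ℝ) (ht : (n : ℝ) + 1 < t) (c₁ c₂ : ℝ) (hc₁ : 0 < c₁)
    (hc : c₁ < c₂) : ∃ ξ : ℝ,
    {α : ℝ | ∃ P : ℤ[X], Irreducible P ∧ aeval α P = 0 ∧ P.natDegree = n ∧
      |ξ - α| < c₂ * (HP P : ℝ) ^ (-t)}.Infinite ∧
    {α : ℝ | ∃ P : ℤ[X], Irreducible P ∧ aeval α P = 0 ∧ P.natDegree = n ∧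
      |ξ - α| < c₁ * (HP P : ℝ) ^ (-t)}.Finite :=
  main_of_hit n hn t ht c₁ c₂ hc₁ hc (hit n hn t ht c₁ c₂ hc₁ hc)

end Pool.Agent.Helper404

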