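import Mathlib
import Pool.Agent.Helper404.ST7

open Polynomial Module

namespace Pool.Agent.Helper404

theorem part_b (ξ : ℝ) (hξ : Transcendental ℤ ξ)
    (hyp : ∀ ε : ℝ, 0 < ε → ∃ N : ℕ, ∀ n : ℕ, N ≤ n →
      {P : ℤ[X] | P.natDegree ≤ n ∧ aeval ξ P ≠ 0 ∧
        |aeval ξ P| ≤ (HP P : ℝ) ^ (-((1 + ε) * (n : ℝ)))}.Finite)
    (e : ℝ) (he : 0 < e) (he1 : e ≤ 1) (N0 : ℕ) :
    ∃ n : ℕ, N0 ≤ n ∧ {α : ℝ | ∃ Q : ℤ[X], Irreducible Q ∧ Q.natDegree ≤ n ∧ aeval α Q = 0 ∧ α ≠ ξ ∧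
      |ξ - α| ≤ (HP Q : ℝ) ^ (-((1 - e) * (n : ℝ) + 1))}.Infinite := by
  obtain ⟨δ, hδ⟩ : ∃ δ : ℝ, δ = e / 40 := ⟨_, rfl⟩
  have hδ0 : 0 < δ := by rw [hδ]; positivity
  have hδ1 : δ ≤ 1 / 40 := by rw [hδ]; linarith
  have hδ2 : δ ^ 2 ≤ δ := by nlinarith
  obtain ⟨N1, hN1⟩ := hyp (δ ^ 2) (by positivity)
  obtain ⟨n, hn0, hn1, hn2, hn3, hn4⟩ : ∃ n : ℕ, N0 ≤ n ∧ N1 ≤ n ∧ (N1 : ℝ) ≤ δ * n ∧ 1 ≤ δ * n ∧
      10 ≤ e * n := by
    obtain ⟨n, hn⟩ := exists_nat_ge (max (max (N0 : ℝ) N1) (max (N1 / δ) (max (1 / δ) (10 / e))))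
    refine ⟨n, ?_, ?_, ?_, ?_, ?_⟩
    · exact_mod_cast ((le_max_left _ _).trans (le_max_left _ _)).trans hn
    · exact_mod_cast ((le_max_right _ _).trans (le_max_left _ _)).trans hn
    · have := ((le_max_left _ _).trans (le_max_right _ _)).trans hn
      rw [div_le_iff₀ hδ0] at this
      linarith
    · have := ((le_max_left _ _).trans ((le_max_right _ _).trans (le_max_right _ _))).trans hn
      rw [div_le_iff₀ hδ0] at this
      linarith
    · have := ((le_max_right _ _).trans ((le_max_right _ _).trans (le_max_right _ _))).trans hn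
      rw [div_le_iff₀ he] at this
      linarith
  have hn10 : (10 : ℝ) ≤ n := by
    have : e * n ≤ 1 * n := by gcongr
    linarith
  have hn1' : 1 ≤ n := by
    have : (1 : ℝ) ≤ n := by linarith
    exact_mod_cast this
  obtain ⟨s, hs⟩ : ∃ s : ℕ, s = ⌈δ * n⌉₊ := ⟨_, rfl⟩
  have hs1 : δ * n ≤ s := by rw [hs]; exact Nat.le_ceil _
  have hs2 : (s : ℝ) ≤ 2 * (δ * n) := by
    have := (Nat.ceil_lt_add_one (by positivity : 0 ≤ δ * (n : ℝ))).le
    rw [← hs] at this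
    linarith
  have hs3 : N1 ≤ s := by exact_mod_cast hn2.trans hs1
  have hs4 : 1 ≤ s := by
    have : (1 : ℝ) ≤ s := hn3.trans hs1
    exact_mod_cast this
  have hδn : δ * n ≤ n / 40 := by
    calc δ * n ≤ 1 / 40 * n := by gcongr
      _ = n / 40 := by ring
  have hsnR : (s : ℝ) ≤ n := by linarith
  have hsn : s ≤ n := by exact_mod_cast hsnR
  have hs0 : (0 : ℝ) ≤ s := Nat.cast_nonneg s
  obtain ⟨c, hc0, hc1, hc⟩ := lower_of_finite n ξ hξ ((1 + δ ^ 2) * n) (by positivity) (hN1 n hn1)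
  obtain ⟨ws, hws⟩ : ∃ ws : ℝ, ws = (1 + δ ^ 2) * s := ⟨_, rfl⟩
  have hws0 : 0 ≤ ws := by rw [hws]; positivity
  obtain ⟨cs, hcs0, hcs1, hcs⟩ := lower_of_finite s ξ hξ ws hws0 (by rw [hws]; exact hN1 s hs3)
  obtain ⟨C, hC1, hC⟩ := core n s hs4 ξ cs ws hcs0 hws0 hcs
  obtain ⟨C', hC'1, hC'⟩ := pigeon n ξ
  obtain ⟨Cn, hCn1, hCn⟩ := newton_root n ξ
  obtain ⟨D1, hD1⟩ : ∃ D1 : ℝ, D1 = 4 / c := ⟨_, rfl⟩
  have hD10 : 0 < D1 := by rw [hD1]; positivity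
  obtain ⟨K2, hK2⟩ : ∃ K2 : ℝ, K2 = 2 ^ n * (n + 1) := ⟨_, rfl⟩
  have hK20 : 0 < K2 := by rw [hK2]; positivity
  have hC0 : 0 < C := by linarith
  have hCn0 : 0 < Cn := by linarith
  have hC'0 : 0 < C' := by linarith
  obtain ⟨E, hE⟩ : ∃ E : ℝ, E = (1 - e) * (n : ℝ) + 1 := ⟨_, rfl⟩
  have hE0 : 0 < E := by
    have : 0 ≤ (1 - e) * (n : ℝ) := mul_nonneg (by linarith) (by linarith)
    rw [hE]; linarith
  have hKCE : 0 < (K2 * C) ^ E := Real.rpow_pos_of_pos (by positivity) _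
  refine ⟨n, hn0, ?_⟩
  -- main claim
  have main : ∀ η : ℝ, 0 < η → ∃ α : ℝ, (∃ Q : ℤ[X], Irreducible Q ∧ Q.natDegree ≤ n ∧
      aeval α Q = 0 ∧ α ≠ ξ ∧ |ξ - α| ≤ (HP Q : ℝ) ^ (-E)) ∧ |ξ - α| < η := by
    intro η hη
    obtain ⟨Kb, hKb⟩ : ∃ Kb : ℝ, Kb = 1 + C' * (4 * D1) ^ n + C ^ 2 + 2 * C ^ 2 + 4 * Cn * C ^ 4 +
      2 * C ^ 2 * (K2 * C) ^ E + 2 * C ^ 2 / η := ⟨_, rfl⟩
    have t1 : 0 < C' * (4 * D1) ^ n := by positivity
    have t2 : 0 < C ^ 2 := by positivity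
    have t4 : 0 < 4 * Cn * C ^ 4 := by positivity
    have t5 : 0 < 2 * C ^ 2 * (K2 * C) ^ E := by positivity
    have t6 : 0 < 2 * C ^ 2 / η := by positivity
    obtain ⟨T, hT1, hTb⟩ : ∃ T : ℝ, 1 ≤ T ∧ Kb < T ^ δ := by
      have := (tendsto_rpow_atTop hδ0).eventually_gt_atTop Kb
      obtain ⟨T, h1, h2⟩ := (this.and (Filter.eventually_ge_atTop 1)).exists
      exact ⟨T, h2, h1⟩
    have hT0 : 0 < T := by linarith
    have hmono : ∀ a b : ℝ, a ≤ b → T ^ a ≤ T ^ b := fun a b h =>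
      Real.rpow_le_rpow_of_exponent_le hT1 h
    have key : ∀ κ a b : ℝ, κ < Kb → a + δ ≤ b → κ * T ^ a < T ^ b := by
      intro κ a b hκ hab
      have h1 : 0 < T ^ a := Real.rpow_pos_of_pos hT0 _
      calc κ * T ^ a < Kb * T ^ a := by gcongr
        _ ≤ T ^ δ * T ^ a := by gcongr
        _ = T ^ (a + δ) := by rw [← Real.rpow_add hT0]; congr 1; ring
        _ ≤ T ^ b := hmono _ _ hab
    obtain ⟨S, hS, hrank⟩ := big_rank n s ξ δ c C' D1 T hδ0 (by linarith) hn1' hs1 hc0 hc1 hc hC' hC'0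
      hD1 hT1 (by linarith)
    have hX1 : 1 ≤ T ^ (1 + δ) := Real.one_le_rpow hT1 (by linarith)
    have hX0 : 0 < T ^ (1 + δ) := by linarith
    have hY0 : 0 < T ^ (-(n : ℝ) + δ) := Real.rpow_pos_of_pos hT0 _
    obtain ⟨R, hR1, hR2, hR3, hR4⟩ := hC (T ^ (1 + δ)) (T ^ (-(n : ℝ) + δ)) hX1 hY0 S hS (by omega) hrank
    -- exponents
    obtain ⟨p1, hp1⟩ : ∃ p1 : ℝ, p1 = -(n : ℝ) + 5 * (δ * n) := ⟨_, rfl⟩
    obtain ⟨p2, hp2⟩ : ∃ p2 : ℝ, p2 = (n : ℝ) + 4 * (δ * n) := ⟨_, rfl⟩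
    have hP10 : 0 < T ^ p1 := Real.rpow_pos_of_pos hT0 _
    have hP20 : 0 < T ^ p2 := Real.rpow_pos_of_pos hT0 _
    have hYX : T ^ (-(n : ℝ) + δ) * (T ^ (1 + δ)) ^ ws ≤ T ^ p1 := by
      rw [← Real.rpow_mul hT0.le, ← Real.rpow_add hT0]
      apply hmono
      rw [hp1]
      have h1 : (1 + δ) * ws ≤ 2 * s := by
        rw [hws, ← mul_assoc]
        have : (1 + δ) * (1 + δ ^ 2) ≤ 2 := by
          have ha : 1 + δ ≤ 41 / 40 := by linarith only [hδ1]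
          have hb : 1 + δ ^ 2 ≤ 41 / 40 := by linarith only [hδ1, hδ2]
          calc (1 + δ) * (1 + δ ^ 2) ≤ (41 / 40) * (41 / 40) := by gcongr
            _ ≤ 2 := by norm_num
        gcongr
      have h2 : δ ≤ δ * n := by
        calc δ = δ * 1 := (mul_one _).symm
          _ ≤ δ * n := by gcongr; linarith
      linarith
    have hXp : (T ^ (1 + δ)) ^ (n + s - 1) ≤ T ^ p2 := by
      rw [← Real.rpow_natCast, ← Real.rpow_mul hT0.le]
      apply hmono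
      have h1 : ((n + s - 1 : ℕ) : ℝ) ≤ n + s := by
        have : n + s - 1 ≤ n + s := Nat.sub_le _ _
        exact_mod_cast this
      have h2 : (1 + δ) * ((n + s - 1 : ℕ) : ℝ) ≤ (1 + δ) * (n + s) := by gcongr
      have h3 : δ * (s : ℝ) ≤ δ * n := by gcongr
      rw [hp2]
      linarith
    obtain ⟨Dm, hDm⟩ : ∃ Dm : ℝ, Dm = max |aeval ξ R| |aeval ξ (derivative R)| := ⟨_, rfl⟩
    rw [← hDm] at hR4
    have hDm0 : 0 ≤ Dm := by rw [hDm]; exact (abs_nonneg _).trans (le_max_left _ _)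
    have hDlow : 1 ≤ C * Dm * T ^ (p1 + p2) := by
      rw [Real.rpow_add hT0]
      calc (1 : ℝ) ≤ _ := hR4
        _ ≤ C * T ^ p1 * Dm * T ^ p2 := by gcongr
        _ = _ := by ring
    obtain ⟨u, hu⟩ : ∃ u : ℝ, u = C * T ^ p1 := ⟨_, rfl⟩
    obtain ⟨v, hv⟩ : ∃ v : ℝ, v = T ^ (-(p1 + p2)) / C := ⟨_, rfl⟩
    have hpp : 0 < T ^ (-(p1 + p2)) := Real.rpow_pos_of_pos hT0 _
    have hu0 : 0 < u := by rw [hu]; positivity
    have hv0 : 0 < v := by rw [hv]; positivity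
    have hRu : |aeval ξ R| ≤ u := by
      rw [hu]; exact hR3.trans (by gcongr)
    have hDv : v ≤ Dm := by
      rw [hv, div_le_iff₀ hC0]
      have h1 : T ^ (-(p1 + p2)) * 1 ≤ T ^ (-(p1 + p2)) * (C * Dm * T ^ (p1 + p2)) := by gcongr
      have h2 : T ^ (-(p1 + p2)) * T ^ (p1 + p2) = 1 := by
        rw [← Real.rpow_add hT0, neg_add_cancel, Real.rpow_zero]
      calc T ^ (-(p1 + p2)) = T ^ (-(p1 + p2)) * 1 := (mul_one _).symm
        _ ≤ T ^ (-(p1 + p2)) * (C * Dm * T ^ (p1 + p2)) := h1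
        _ = (T ^ (-(p1 + p2)) * T ^ (p1 + p2)) * (Dm * C) := by ring
        _ = Dm * C := by rw [h2, one_mul]
    have huv : u < v := by
      rw [hu, hv, lt_div_iff₀ hC0]
      have := key (C ^ 2) p1 (-(p1 + p2)) (by rw [hKb]; linarith) (by rw [hp1, hp2]; linarith)
      calc C * T ^ p1 * C = C ^ 2 * T ^ p1 := by ring
        _ < _ := this
    have hRv : v ≤ |aeval ξ (derivative R)| := by
      rw [hDm] at hDv
      rcases le_max_iff.1 hDv with h | h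
      · linarith
      · exact h
    obtain ⟨p3, hp3⟩ : ∃ p3 : ℝ, p3 = p1 + (p1 + p2) := ⟨_, rfl⟩
    have h2uv : 2 * u / v = 2 * C ^ 2 * T ^ p3 := by
      rw [hu, hv, hp3, Real.rpow_add hT0, Real.rpow_neg hT0.le]
      field_simp
    have hr1 : 2 * u / v ≤ 1 := by
      rw [h2uv]
      have := key (2 * C ^ 2) p3 0 (by rw [hKb]; linarith) (by rw [hp3, hp1, hp2]; linarith)
      rw [Real.rpow_zero] at this
      exact this.le
    have hcond : 4 * Cn * HP R * u ≤ v ^ 2 := by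
      have h1 : v ^ 2 = T ^ (-(2 * (p1 + p2))) / C ^ 2 := by
        rw [hv, div_pow, ← Real.rpow_natCast (T ^ (-(p1 + p2))), ← Real.rpow_mul hT0.le]
        congr 2; push_cast; ring
      rw [h1, le_div_iff₀ (by positivity), hu]
      have h2 := key (4 * Cn * C ^ 4) (1 + δ + p1) (-(2 * (p1 + p2))) (by rw [hKb]; linarith)
        (by rw [hp1, hp2]; linarith)
      calc 4 * Cn * HP R * (C * T ^ p1) * C ^ 2 ≤ 4 * Cn * (C * T ^ (1 + δ)) * (C * T ^ p1) * C ^ 2 := by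
            gcongr
        _ = 4 * Cn * C ^ 4 * (T ^ (1 + δ) * T ^ p1) := by ring
        _ = 4 * Cn * C ^ 4 * T ^ (1 + δ + p1) := by rw [← Real.rpow_add hT0]
        _ ≤ _ := h2.le
    obtain ⟨α, hα, hαξ⟩ := hCn R hR1 u v hu0.le hv0 hRu hRv hr1 hcond
    have hRne : R ≠ 0 := by
      intro h
      rw [h, derivative_zero, map_zero, abs_zero] at hRv
      linarith
    obtain ⟨Q, G, hQ, hQα, hRGQ⟩ := exists_irr_factor R hRne α hα
    have hGne : G ≠ 0 := by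
      intro h; rw [h, zero_mul] at hRGQ; exact hRne hRGQ
    have hQne : Q ≠ 0 := hQ.ne_zero
    have hQd : Q.natDegree ≤ n := by
      rw [hRGQ, natDegree_mul hGne hQne] at hR1; omega
    have hQH : (HP Q : ℝ) ≤ K2 * C * T ^ (1 + δ) := by
      have h1 := height_div n G Q hGne (by rw [← hRGQ]; exact hR1)
      rw [← hRGQ, ← hK2] at h1
      calc (HP Q : ℝ) ≤ K2 * HP R := h1
        _ ≤ K2 * (C * T ^ (1 + δ)) := by gcongr
        _ = _ := by ring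
    have hQ1 : (1 : ℝ) ≤ HP Q := by exact_mod_cast HP_pos hQne
    refine ⟨α, ⟨Q, hQ, hQd, hQα, ?_, ?_⟩, ?_⟩
    · intro h
      rw [h] at hα
      exact hRne (transcendental_iff.1 hξ R hα)
    · refine hαξ.trans ?_
      have h1 : (K2 * C * T ^ (1 + δ)) ^ (-E) ≤ (HP Q : ℝ) ^ (-E) :=
        Real.rpow_le_rpow_of_nonpos (by linarith) hQH (by linarith)
      refine le_trans ?_ h1
      rw [h2uv, Real.rpow_neg (by positivity), Real.mul_rpow (by positivity) hX0.le,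
        ← Real.rpow_mul hT0.le]
      have h2 := key (2 * C ^ 2 * (K2 * C) ^ E) p3 (-((1 + δ) * E)) (by rw [hKb]; linarith) (by
        rw [hp3, hp1, hp2, hE]
        have h3 : 0 ≤ δ * ((1 - e) * n) := mul_nonneg hδ0.le (mul_nonneg (by linarith) (by linarith))
        have h4 : δ * ((1 - e) * n) ≤ δ * n := by
          have : (1 - e) * (n : ℝ) ≤ n := mul_le_of_le_one_left (by linarith only [hn10]) (by linarith only [he])
          gcongr
        have h5 : δ * n = e * n / 40 := by rw [hδ]; ring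
        linarith only [h3, h4, h5, hn4, hδ1])
      rw [Real.rpow_neg hT0.le] at h2
      have h3 : 0 < T ^ ((1 + δ) * E) := Real.rpow_pos_of_pos hT0 _
      rw [mul_inv, ← div_eq_inv_mul, le_div_iff₀ hKCE]
      calc 2 * C ^ 2 * T ^ p3 * (K2 * C) ^ E = 2 * C ^ 2 * (K2 * C) ^ E * T ^ p3 := by ring
        _ ≤ _ := h2.le
    · refine lt_of_le_of_lt hαξ ?_
      rw [h2uv]
      have := key (2 * C ^ 2 / η) p3 0 (by rw [hKb]; linarith) (by rw [hp3, hp1, hp2]; linarith)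
      rw [Real.rpow_zero, div_mul_eq_mul_div, div_lt_one hη] at this
      exact this
  rw [← hE]
  intro hfin
  set F := hfin.toFinset with hF
  by_cases hne : F.Nonempty
  · obtain ⟨α0, hα0, hmin⟩ := Finset.exists_min_image F (fun α => |ξ - α|) hne
    have hα0' : α0 ≠ ξ := by
      rw [hF, Set.Finite.mem_toFinset] at hα0
      obtain ⟨Q, _, _, _, h, _⟩ := hα0
      exact h
    have hpos : 0 < |ξ - α0| := abs_pos.2 (sub_ne_zero.2 hα0'.symm)
    obtain ⟨α, hα, hlt⟩ := main _ hpos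
    have hmem : α ∈ F := by rw [hF, Set.Finite.mem_toFinset]; exact hα
    exact absurd (hmin α hmem) (not_le.2 hlt)
  · obtain ⟨α, hα, _⟩ := main 1 one_pos
    exact hne ⟨α, by rw [hF, Set.Finite.mem_toFinset]; exact hα⟩

end Pool.Agent.Helper404
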