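import Mathlib
import Pool.Agent.Helper404.ST6

open Polynomial Module

namespace Pool.Agent.Helper404

lemma val_bound' (n : ℕ) (Q : ℤ[X]) (hQ : Q.natDegree ≤ n) (x β : ℝ) (hβ : aeval β Q = 0)
    (hc : |x - β| ≤ 1) :
    |aeval x Q| ≤ n * ((n + 1) * 2 ^ n * (max 1 |x|) ^ n) * HP Q * |x - β| := by
  have h1 := aeval_add_expand n Q hQ x (β - x)
  rw [add_sub_cancel, hβ, Finset.sum_range_succ'] at h1
  simp only [pow_zero, mul_one] at h1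
  rw [tc_zero] at h1
  have h3 : aeval x Q = - ∑ k ∈ Finset.range n, tc Q (k + 1) x * (β - x) ^ (k + 1) := by linarith
  rw [h3, abs_neg]
  calc _ ≤ ∑ k ∈ Finset.range n, |tc Q (k + 1) x * (β - x) ^ (k + 1)| := Finset.abs_sum_le_sum_abs _ _
    _ ≤ ∑ k ∈ Finset.range n, ((n + 1) * 2 ^ n * (max 1 |x|) ^ n) * HP Q * |x - β| := by
        refine Finset.sum_le_sum (fun k hk => ?_)
        rw [abs_mul, abs_pow, abs_sub_comm β x, pow_succ]
        have h4 := tc_bound' n Q hQ (k + 1) x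
        have h5 : |x - β| ^ k ≤ 1 := pow_le_one₀ (abs_nonneg _) hc
        calc |tc Q (k + 1) x| * (|x - β| ^ k * |x - β|)
            ≤ ((n + 1) * 2 ^ n * (max 1 |x|) ^ n * HP Q) * (1 * |x - β|) := by gcongr
          _ = _ := by ring
    _ = _ := by rw [Finset.sum_const, Finset.card_range, nsmul_eq_mul]; ring

theorem part_a (ξ : ℝ) (hξ : Transcendental ℤ ξ)
    (hyp : ∀ ε : ℝ, 0 < ε → ∃ N : ℕ, ∀ n : ℕ, N ≤ n →
      {P : ℤ[X] | P.natDegree ≤ n ∧ aeval ξ P ≠ 0 ∧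
        |aeval ξ P| ≤ (HP P : ℝ) ^ (-((1 + ε) * (n : ℝ)))}.Finite)
    (ε : ℝ) (hε : 0 < ε) : ∃ N : ℕ, ∀ n : ℕ, N ≤ n →
      {α : ℝ | ∃ Q : ℤ[X], Irreducible Q ∧ Q.natDegree ≤ n ∧ aeval α Q = 0 ∧ α ≠ ξ ∧
        |ξ - α| ≤ (HP Q : ℝ) ^ (-((1 + ε) * (n : ℝ) + 1))}.Finite := by
  obtain ⟨N, hN⟩ := hyp (ε / 2) (by positivity)
  refine ⟨max N 1, ?_⟩
  intro n hn
  have hn1 : 1 ≤ n := (le_max_right _ _).trans hn
  have hnR : (1 : ℝ) ≤ n := by exact_mod_cast hn1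
  have hfin := hN n ((le_max_left _ _).trans hn)
  obtain ⟨Cc, hCc⟩ : ∃ Cc : ℝ, Cc = n * ((n + 1) * 2 ^ n * (max 1 |ξ|) ^ n) := ⟨_, rfl⟩
  have hexp : 0 < ε / 2 * n := by positivity
  obtain ⟨H1, hH1⟩ := (((tendsto_rpow_atTop hexp).comp tendsto_natCast_atTop_atTop).eventually_ge_atTop Cc).exists
  simp only [Function.comp_apply] at hH1
  set G : Set ℤ[X] := {P : ℤ[X] | P.natDegree ≤ n ∧ aeval ξ P ≠ 0 ∧
        |aeval ξ P| ≤ (HP P : ℝ) ^ (-((1 + ε / 2) * (n : ℝ)))} ∪ {Q : ℤ[X] | Q.natDegree ≤ n ∧ HP Q ≤ H1} with hG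
  have hGfin : G.Finite := hfin.union (finite_polys n H1)
  have hsub : {α : ℝ | ∃ Q : ℤ[X], Irreducible Q ∧ Q.natDegree ≤ n ∧ aeval α Q = 0 ∧ α ≠ ξ ∧
        |ξ - α| ≤ (HP Q : ℝ) ^ (-((1 + ε) * (n : ℝ) + 1))} ⊆
      ⋃ Q ∈ G, {α : ℝ | Q ≠ 0 ∧ aeval α Q = 0} := by
    rintro α ⟨Q, hirr, hd, hα, hne, hle⟩
    rw [Set.mem_iUnion₂]
    refine ⟨Q, ?_, hirr.ne_zero, hα⟩
    by_cases hH : HP Q ≤ H1
    · right; exact ⟨hd, hH⟩
    left
    push Not at hH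
    have hH1R : (1 : ℝ) ≤ HP Q := by exact_mod_cast HP_pos hirr.ne_zero
    have hH0 : (0 : ℝ) < HP Q := by linarith
    have hle1 : |ξ - α| ≤ 1 := hle.trans (Real.rpow_le_one_of_one_le_of_nonpos hH1R (by
      have : 0 < (1 + ε) * (n : ℝ) := by positivity
      linarith))
    refine ⟨hd, fun h => hirr.ne_zero (transcendental_iff.1 hξ Q h), ?_⟩
    have h1 := val_bound' n Q hd ξ α hα hle1
    rw [← hCc] at h1
    have hCcH : Cc ≤ (HP Q : ℝ) ^ (ε / 2 * n) := by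
      refine hH1.trans ?_
      exact Real.rpow_le_rpow (by positivity) (by exact_mod_cast hH.le) hexp.le
    calc |aeval ξ Q| ≤ Cc * HP Q * |ξ - α| := h1
      _ ≤ (HP Q : ℝ) ^ (ε / 2 * n) * HP Q * (HP Q : ℝ) ^ (-((1 + ε) * (n : ℝ) + 1)) := by gcongr
      _ = (HP Q : ℝ) ^ (ε / 2 * n) * (HP Q : ℝ) ^ (1 : ℝ) * (HP Q : ℝ) ^ (-((1 + ε) * (n : ℝ) + 1)) := by
          rw [Real.rpow_one]
      _ = (HP Q : ℝ) ^ (-((1 + ε / 2) * (n : ℝ))) := by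
          rw [← Real.rpow_add hH0, ← Real.rpow_add hH0]
          congr 1; ring
  refine Set.Finite.subset ?_ hsub
  apply hGfin.biUnion
  intro Q _
  by_cases hQ : Q = 0
  · have : {α : ℝ | Q ≠ 0 ∧ aeval α Q = 0} = ∅ := by
      ext α; simp [hQ]
    rw [this]; exact Set.finite_empty
  · have hne : Q.map (Int.castRingHom ℝ) ≠ 0 := (Polynomial.map_ne_zero_iff
      (RingHom.injective_int (Int.castRingHom ℝ))).2 hQ
    refine ((Q.map (Int.castRingHom ℝ)).roots.toFinset.finite_toSet).subset ?_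
    intro β hβ
    simp only [Finset.mem_coe, Multiset.mem_toFinset, mem_roots hne, IsRoot.def, eval_map]
    have := hβ.2
    simp only [aeval_def] at this
    exact this

end Pool.Agent.Helper404
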